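import Pool.Agent.Lib.MP_dd45e6_gt.Cell

/-! Uniqueness of the antipode for sources in a closed cell. -/

namespace Pool.Agent.Lib.MP_dd45e6_gt
open Set Metric Filter Topology
open scoped RealInnerProductSpace

/-- perturbation of the weights `l` into the open triangle -/
noncomputable def lam (l : Fin 3 → ℝ) (t : ℝ) : Fin 3 → ℝ :=
  fun v => (l v + t ^ ((v : ℕ) + 1)) / (1 + t + t ^ 2 + t ^ 3)

lemma lam_pos {l : Fin 3 → ℝ} (h0 : ∀ i, 0 ≤ l i) {t : ℝ} (ht : 0 < t) (i : Fin 3) :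
    0 < lam l t i := by
  unfold lam
  have := h0 i
  positivity

lemma lam_sum {l : Fin 3 → ℝ} (hl : l 0 + l 1 + l 2 = 1) {t : ℝ} (ht : 0 < t) :
    lam l t 0 + lam l t 1 + lam l t 2 = 1 := by
  have : 1 + t + t ^ 2 + t ^ 3 ≠ 0 := by positivity
  unfold lam
  rw [← add_div, ← add_div, div_eq_one_iff_eq this]
  simp only [Fin.val_zero, Fin.val_one, Fin.val_two]
  linear_combination hl

lemma lam_zero (l : Fin 3 → ℝ) : lam l 0 = l := by
  funext v; unfold lam; simp

lemma lam_cont (l : Fin 3 → ℝ) (v : Fin 3) :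
    Tendsto (fun t => lam l t v) (𝓝[>] 0) (𝓝 (l v)) := by
  have h : ContinuousAt (fun t : ℝ => lam l t v) 0 := by
    unfold lam
    apply ContinuousAt.div (by fun_prop) (by fun_prop)
    norm_num
  have h2 := h.tendsto
  rw [show lam l 0 v = l v by rw [lam_zero]] at h2
  exact h2.mono_left nhdsWithin_le_nhds

lemma lin_lam (l c : Fin 3 → ℝ) {t : ℝ} (ht : 0 < t) :
    (lam l t 0 * c 0 + lam l t 1 * c 1 + lam l t 2 * c 2) * (1 + t + t ^ 2 + t ^ 3)
      = (l 0 * c 0 + l 1 * c 1 + l 2 * c 2) + c 0 * t + c 1 * t ^ 2 + c 2 * t ^ 3 := by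
  have : 1 + t + t ^ 2 + t ^ 3 ≠ 0 := by positivity
  unfold lam
  simp only [Fin.val_zero, Fin.val_one, Fin.val_two]
  field_simp
  ring

lemma poly_ne (a : ℝ) {c : Fin 3 → ℝ} (hc : ∃ v, c v ≠ 0) :
    ∀ᶠ t in 𝓝[>] (0:ℝ), a + c 0 * t + c 1 * t ^ 2 + c 2 * t ^ 3 ≠ 0 := by
  open Polynomial in
  let p : ℝ[X] := C a + C (c 0) * X + C (c 1) * X ^ 2 + C (c 2) * X ^ 3
  have hp : p ≠ 0 := by
    intro h0
    obtain ⟨v, hv⟩ := hc
    apply hv
    have hcoef : p.coeff ((v : ℕ) + 1) = c v := by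
      fin_cases v <;> simp [p, Polynomial.coeff_C]
    rw [← hcoef, h0, Polynomial.coeff_zero]
  have hfin : {t : ℝ | p.eval t = 0}.Finite := by
    apply (p.roots.toFinset.finite_toSet).subset
    intro t ht
    simp only [Finset.mem_coe, Multiset.mem_toFinset]
    exact (Polynomial.mem_roots hp).2 ht
  have hcl : IsClosed ({t : ℝ | p.eval t = 0} \ {0}) := (hfin.subset sdiff_subset).isClosed
  have hmem : ({t : ℝ | p.eval t = 0} \ {0})ᶜ ∈ 𝓝 (0:ℝ) :=
    hcl.isOpen_compl.mem_nhds (by simp)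
  filter_upwards [nhdsWithin_le_nhds hmem, self_mem_nhdsWithin] with t ht ht0 heq
  apply ht
  refine ⟨?_, ?_⟩
  · show p.eval t = 0
    simp only [p, Polynomial.eval_add, Polynomial.eval_mul, Polynomial.eval_C, Polynomial.eval_X,
      Polynomial.eval_pow]
    exact heq
  · have : (0:ℝ) < t := ht0
    simpa using this.ne'

lemma lin_ne (l : Fin 3 → ℝ) {c : Fin 3 → ℝ} (hc : ∃ v, c v ≠ 0) :
    ∀ᶠ t in 𝓝[>] (0:ℝ), lam l t 0 * c 0 + lam l t 1 * c 1 + lam l t 2 * c 2 ≠ 0 := by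
  filter_upwards [poly_ne (l 0 * c 0 + l 1 * c 1 + l 2 * c 2) hc, self_mem_nhdsWithin]
    with t ht ht0 h
  apply ht
  rw [← lin_lam l c ht0, h, zero_mul]

lemma exists_perp (a b : E) : ∃ u : E, u ≠ 0 ∧ ⟪a, u⟫ = 0 ∧ ⟪b, u⟫ = 0 := by
  classical
  set K : Submodule ℝ E := Submodule.span ℝ ({a, b} : Set E) with hK
  have h1 : Module.finrank ℝ K ≤ 2 := by
    have h2 := finrank_span_finset_le_card (R := ℝ) ({a, b} : Finset E)
    have h3 : ({a, b} : Finset E).card ≤ 2 := Finset.card_le_two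
    rw [Finset.coe_insert, Finset.coe_singleton] at h2
    exact h2.trans h3
  have h4 := Submodule.finrank_add_finrank_orthogonal K
  have h5 : Module.finrank ℝ E = 3 := by simp [E]
  have h6 : Kᗮ ≠ ⊥ := by
    intro h
    rw [h, finrank_bot] at h4
    omega
  obtain ⟨u, hu, hu0⟩ := Submodule.exists_mem_ne_zero_of_ne_bot h6
  refine ⟨u, hu0, ?_, ?_⟩
  · exact (Submodule.mem_orthogonal K u).1 hu a (Submodule.subset_span (by simp))
  · exact (Submodule.mem_orthogonal K u).1 hu b (Submodule.subset_span (by simp))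

namespace SPoly
variable {ι : Type} {Q : SPoly ι}

lemma finite_vert [Finite ι] : {y | Q.IsVert y}.Finite := by
  apply ((Set.finite_range fun p : ι × ι => Q.a p.1 p.2).union
    (Set.finite_range fun p : ι × ι => Q.b p.1 p.2)).subset
  rintro y ⟨f, g, k, hfg, hgk, hfk, hf, hg, hk⟩
  rcases (Q.vert f g k hfg hgk hfk y hf.1 hf.2 hg.2 hk.2).2.1 with h | h
  · exact Or.inl ⟨(f, g), h.symm⟩
  · exact Or.inr ⟨(f, g), h.symm⟩

/-- a line through a point that is not a vertex -/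
lemma exists_line [Finite ι] {z : E} {f : ι} (hf : z ∈ Q.face f) (hv : ¬ Q.IsVert z) :
    ∃ u : E, u ≠ 0 ∧ ∀ᶠ τ in 𝓝 (0:ℝ), z + τ • u ∈ Q.face f := by
  have h1 : ∃ g, ∀ i, z ∈ Q.face i → i = f ∨ i = g := by
    by_cases h : ∃ g, g ≠ f ∧ z ∈ Q.face g
    · obtain ⟨g, hgf, hg⟩ := h
      refine ⟨g, fun i hi => ?_⟩
      by_contra hcon
      push Not at hcon
      exact hv ⟨f, g, i, hgf.symm, hcon.2.symm, hcon.1.symm, hf, hg, hi⟩
    · push Not at h
      refine ⟨f, fun i hi => ?_⟩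
      by_contra hcon
      push Not at hcon
      exact h i hcon.1 hi
  obtain ⟨g, hg⟩ := h1
  obtain ⟨u, hu0, huf, hug⟩ := exists_perp (Q.n f) (Q.n g)
  have huz : ∀ i, z ∈ Q.face i → ⟪Q.n i, u⟫ = 0 := by
    intro i hi
    rcases hg i hi with rfl | rfl
    · exact huf
    · exact hug
  refine ⟨u, hu0, ?_⟩
  have hev : ∀ᶠ τ in 𝓝 (0:ℝ), ∀ k, 0 ≤ Q.sl k (z + τ • u) := by
    rw [Filter.eventually_all]
    intro k
    by_cases hk : z ∈ Q.face k
    · refine Filter.Eventually.of_forall fun τ => ?_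
      rw [sl_add_smul, huz k hk, hk.2]; simp
    · have hpos : 0 < Q.sl k z := lt_of_le_of_ne (hf.1 k) fun h => hk ⟨hf.1, h.symm⟩
      have hc : Continuous fun τ : ℝ => Q.sl k (z + τ • u) :=
        (continuous_sl k).comp (by fun_prop)
      have h0 : 0 < (fun τ : ℝ => Q.sl k (z + τ • u)) 0 := by simpa using hpos
      exact (hc.continuousAt.eventually (lt_mem_nhds h0)).mono fun τ hτ => le_of_lt hτ
  filter_upwards [hev] with τ hτ
  refine ⟨hτ, ?_⟩
  rw [sl_add_smul, huf, hf.2]; simp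

namespace Cell
variable {A : ι} {V : Fin 3 → E} {Nd : ι → List (Fin 3 → E)}

lemma ev_lam (T : Fin 3 → E) (l : Fin 3 → ℝ) :
    Tendsto (fun t => ev T (lam l t)) (𝓝[>] 0) (𝓝 (ev T l)) := by
  unfold ev
  exact (((lam_cont l 0).smul_const _).add ((lam_cont l 1).smul_const _)).add
    ((lam_cont l 2).smul_const _)

lemma gen_ev [Finite ι] {l : Fin 3 → ℝ} (h0 : ∀ i, 0 ≤ l i) (hl : l 0 + l 1 + l 2 = 1) :
    ∀ᶠ t in 𝓝[>] (0:ℝ), Gen Q Nd (lam l t) := by
  have fin : ∀ f, {T | T ∈ Nd f}.Finite := fun f => List.finite_toSet (Nd f)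
  have h1 : ∀ᶠ t in 𝓝[>] (0:ℝ), ∀ f g, ∀ T ∈ {T | T ∈ Nd f}, (∃ v, Q.sl g (T v) ≠ 0) →
      Q.ls g T (lam l t) ≠ 0 := by
    rw [Filter.eventually_all]; intro f
    rw [Filter.eventually_all]; intro g
    rw [Filter.eventually_all_finite (fin f)]; intro T hT
    by_cases h : ∃ v, Q.sl g (T v) ≠ 0
    · exact (lin_ne l (c := fun v => Q.sl g (T v)) h).mono fun t ht _ => ht
    · exact Filter.Eventually.of_forall fun t h' => absurd h' h
  have h2 : ∀ᶠ t in 𝓝[>] (0:ℝ), ∀ y ∈ {y | Q.IsVert y}, ∀ f g, ∀ T ∈ {T | T ∈ Nd f},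
      ∀ T' ∈ {T | T ∈ Nd g}, (∃ v, dist y (T v) ≠ dist y (T' v)) → ld y T T' (lam l t) ≠ 0 := by
    rw [Filter.eventually_all_finite finite_vert]; intro y hy
    rw [Filter.eventually_all]; intro f
    rw [Filter.eventually_all]; intro g
    rw [Filter.eventually_all_finite (fin f)]; intro T hT
    rw [Filter.eventually_all_finite (fin g)]; intro T' hT'
    by_cases h : ∃ v, dist y (T v) ≠ dist y (T' v)
    · refine (lin_ne l (c := fun v => dist y (T v) ^ 2 - dist y (T' v) ^ 2) ?_).mono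
        fun t ht _ => ht
      obtain ⟨v, hv⟩ := h
      refine ⟨v, fun h3 => hv ?_⟩
      have h4 : dist y (T v) ^ 2 = dist y (T' v) ^ 2 := by linarith
      exact (pow_left_inj₀ dist_nonneg dist_nonneg two_ne_zero).1 h4
    · exact Filter.Eventually.of_forall fun t h' => absurd h' h
  filter_upwards [h1, h2, self_mem_nhdsWithin] with t k1 k2 ht
  exact ⟨lam_pos h0 ht, lam_sum hl ht, k1, k2⟩

variable (C : Cell Q A V Nd)
include C

theorem antipode_unique [Finite ι] {l : Fin 3 → ℝ} (h0 : ∀ i, 0 ≤ l i)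
    (hl : l 0 + l 1 + l 2 = 1) {z₁ z₂ : E} (hz₁ : z₁ ∈ Q.S) (hz₂ : z₂ ∈ Q.S)
    (m₁ : ∀ y ∈ Q.S, Q.d (ev V l) y ≤ Q.d (ev V l) z₁)
    (m₂ : ∀ y ∈ Q.S, Q.d (ev V l) y ≤ Q.d (ev V l) z₂) : z₁ = z₂ := by
  set x₀ := ev V l with hx₀
  set x : ℝ → E := fun t => ev V (lam l t) with hx
  have hx₀A : x₀ ∈ Q.face A := C.ev_face h0 hl
  have hgen := gen_ev (Q := Q) (Nd := Nd) h0 hl
  have hxA : ∀ {t : ℝ}, Gen Q Nd (lam l t) → x t ∈ Q.face A := fun hG =>
    C.ev_face (fun i => (hG.pos i).le) hG.sum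
  have hlim : Tendsto (fun t => dist (x t) x₀) (𝓝[>] 0) (𝓝 0) := by
    have := (ev_lam V l).dist (tendsto_const_nhds (x := x₀))
    rwa [dist_self] at this
  have hd : ∀ {t : ℝ}, Gen Q Nd (lam l t) → ∀ y ∈ Q.S,
      |Q.d (x t) y - Q.d x₀ y| ≤ dist (x t) x₀ := by
    intro t hG y hy
    rw [d_comm (x t) y, d_comm x₀ y]
    exact d_lip hy (hxA hG) hx₀A
  -- upper bound
  have ub : ∀ f, ∀ y ∈ Q.face f, ∀ T ∈ Nd f, Q.d x₀ y ≤ dist y (ev T l) := by
    intro f y hy T hT
    have h1 : Tendsto (fun t => dist (x t) x₀ + dist y (ev T (lam l t))) (𝓝[>] 0)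
        (𝓝 (0 + dist y (ev T l))) := hlim.add (tendsto_const_nhds.dist (ev_lam T l))
    rw [zero_add] at h1
    refine ge_of_tendsto h1 ?_
    filter_upwards [hgen] with t hG
    have D := C.dev hG
    have h2 := D.G_le hy (mem_pts.2 ⟨T, hT, rfl⟩)
    rw [← D.d_eq (face_sub f hy)] at h2
    have h3 := (abs_le.1 (hd hG y (face_sub f hy))).1
    linarith
  have att : ∀ f, ∀ y ∈ Q.face f, ∃ T ∈ Nd f, Q.d x₀ y = dist y (ev T l) := by
    intro f y hy
    by_contra hcon
    push Not at hcon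
    have hlt : ∀ T ∈ {T | T ∈ Nd f}, ∀ᶠ t in 𝓝[>] (0:ℝ),
        Q.d x₀ y + dist (x t) x₀ < dist y (ev T (lam l t)) := by
      intro T hT
      have h1 : Q.d x₀ y < dist y (ev T l) := lt_of_le_of_ne (ub f y hy T hT) (hcon T hT)
      have h2 : Tendsto (fun t => dist y (ev T (lam l t)) - dist (x t) x₀) (𝓝[>] 0)
          (𝓝 (dist y (ev T l) - 0)) := (tendsto_const_nhds.dist (ev_lam T l)).sub hlim
      rw [sub_zero] at h2
      filter_upwards [h2.eventually (lt_mem_nhds h1)] with t ht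
      linarith
    have hall := (Filter.eventually_all_finite (List.finite_toSet (Nd f))).2 hlt
    obtain ⟨t, ht, hG⟩ := (hall.and hgen).exists
    have D := C.dev hG
    obtain ⟨p, hp, hpe⟩ := D.exists_G hy
    obtain ⟨T, hT, rfl⟩ := mem_pts.1 hp
    have h1 := ht T hT
    rw [← D.d_eq (face_sub f hy)] at hpe
    have h3 := (abs_le.1 (hd hG y (face_sub f hy))).2
    linarith
  set M := Q.d x₀ z₁ with hM
  have hM2 : Q.d x₀ z₂ = M := le_antisymm (m₁ z₂ hz₂) (m₂ z₁ hz₁)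
  -- the set of antipodes is finite
  have hfin : {z | z ∈ Q.S ∧ Q.d x₀ z = M}.Finite := by
    have hsub : {z | z ∈ Q.S ∧ Q.d x₀ z = M} ⊆ {z | Q.IsVert z} ∪
        ⋃ f, ⋃ T ∈ {T | T ∈ Nd f}, ⋃ T' ∈ {T | T ∈ Nd f ∧ ∀ T₀ ∈ Nd f, True} ,
          {y | ev T l ≠ ev T' l ∧ (⟪Q.n f, y⟫ = Q.h f ∧ dist y (ev T l) = M ∧
            dist y (ev T' l) = M)} := by
      rintro z ⟨hzS, hzM⟩
      by_cases hv : Q.IsVert z
      · exact Or.inl hv
      · right
        obtain ⟨f, hf⟩ := mem_S.1 hzS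
        obtain ⟨T, hT, hTe⟩ := att f z hf
        rw [hzM] at hTe
        have hex : ∃ T' ∈ Nd f, ev T l ≠ ev T' l ∧ dist z (ev T' l) = M := by
          by_contra hcon
          push Not at hcon
          obtain ⟨u, hu0, hline⟩ := exists_line hf hv
          have hfar : ∀ T' ∈ {T | T ∈ Nd f}, ∀ᶠ τ in 𝓝 (0:ℝ),
              ev T l ≠ ev T' l → M < dist (z + τ • u) (ev T' l) := by
            intro T' hT'
            by_cases hne : ev T l = ev T' l
            · exact Filter.Eventually.of_forall fun τ h => absurd hne h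
            · have h1 : M < dist z (ev T' l) := by
                refine lt_of_le_of_ne ?_ (hcon T' hT' hne).symm
                rw [← hzM]; exact ub f z hf T' hT'
              have hc : Continuous fun τ : ℝ => dist (z + τ • u) (ev T' l) := by fun_prop
              have h2 : M < (fun τ : ℝ => dist (z + τ • u) (ev T' l)) 0 := by simpa using h1
              exact (hc.continuousAt.eventually (lt_mem_nhds h2)).mono fun τ hτ _ => hτ
          have hall := (Filter.eventually_all_finite (List.finite_toSet (Nd f))).2 hfar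
          have hle : ∀ᶠ τ in 𝓝 (0:ℝ), dist (z + τ • u) (ev T l) ≤ M := by
            filter_upwards [hall, hline] with τ h1 h2
            obtain ⟨T', hT', hTe'⟩ := att f _ h2
            have h3 : Q.d x₀ (z + τ • u) ≤ M := m₁ _ (face_sub f h2)
            by_cases hne : ev T l = ev T' l
            · rw [hne, ← hTe']; exact h3
            · have := h1 T' hT' hne
              linarith
          obtain ⟨η, hη, hball⟩ := Metric.eventually_nhds_iff.1 hle
          have h1 := hball (y := η / 2) (by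
            rw [Real.dist_eq, sub_zero, abs_of_pos (by linarith)]; linarith)
          have h2 := hball (y := -(η / 2)) (by
            rw [Real.dist_eq, sub_zero, abs_neg, abs_of_pos (by linarith)]; linarith)
          have h1' := pow_le_pow_left₀ dist_nonneg h1 2
          have h2' := pow_le_pow_left₀ dist_nonneg h2 2
          rw [hTe, Dev.dist_sq _ z, add_sub_cancel_left, norm_smul, inner_smul_left] at h1' h2'
          simp only [Real.norm_eq_abs, mul_pow, sq_abs, RCLike.conj_to_real] at h1' h2'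
          have h3 : 0 < ‖u‖ ^ 2 := by
            have := norm_pos_iff.2 hu0
            positivity
          have h4 : 0 < (η / 2) ^ 2 * ‖u‖ ^ 2 := by positivity
          nlinarith
        obtain ⟨T', hT', hne, hd'⟩ := hex
        simp only [mem_iUnion]
        refine ⟨f, T, hT, T', ⟨hT', fun _ _ => trivial⟩, hne, ?_, hTe.symm, hd'⟩
        have h1 : Q.h f - ⟪Q.n f, z⟫ = 0 := hf.2
        linarith
    refine (finite_vert.union ?_).subset hsub
    refine Set.finite_iUnion fun f => ?_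
    refine Set.Finite.biUnion (List.finite_toSet (Nd f)) fun T hT => ?_
    refine Set.Finite.biUnion ((List.finite_toSet (Nd f)).subset fun T h => h.1) fun T' hT' => ?_
    by_cases hne : ev T l = ev T' l
    · have : {y | ev T l ≠ ev T' l ∧ (⟪Q.n f, y⟫ = Q.h f ∧ dist y (ev T l) = M ∧
            dist y (ev T' l) = M)} = ∅ := by
        ext y; simp [hne]
      rw [this]; exact Set.finite_empty
    · have hpl : ∀ T ∈ Nd f, ⟪Q.n f, ev T l⟫ = Q.h f := by
        intro T hT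
        have h1 : Q.sl f (ev T l) = 0 := by
          rw [sl_ev T hl, C.plane f T hT 0, C.plane f T hT 1, C.plane f T hT 2]; ring
        unfold sl at h1
        linarith
      exact (two_circles_finite (Q.n f) (ev T l) (ev T' l) (Q.h f) M (n_ne f) (hpl T hT)
        (hpl T' hT'.1) hne).subset fun y hy => hy.2
  -- local maxima of perturbed sources
  have claim : ∀ z, z ∈ Q.S → Q.d x₀ z = M → ∀ r, 0 < r →
      (∀ y, y ∈ Q.S → Q.d x₀ y = M → y ≠ z → r < dist y z) →
      ∀ᶠ t in 𝓝[>] (0:ℝ), ∃ y ∈ Q.S, dist y z < r ∧ IsLocalMaxOn (Q.d (x t)) Q.S y := by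
    intro z hz hzM r hr hiso
    have hSc : IsCompact Q.S := isCompact_S
    have hη : ∃ η > 0, ∀ y ∈ Q.S, dist y z = r → Q.d x₀ y ≤ M - η := by
      by_cases hK : (Q.S ∩ sphere z r).Nonempty
      · have hKc : IsCompact (Q.S ∩ sphere z r) := hSc.inter_right isClosed_sphere
        obtain ⟨y₁, hy₁, hmax⟩ := hKc.exists_isMaxOn hK
          ((cont_d (face_sub A hx₀A)).mono inter_subset_left)
        refine ⟨M - Q.d x₀ y₁, ?_, fun y hy hyr => ?_⟩
        · have h1 : Q.d x₀ y₁ ≤ M := m₁ y₁ hy₁.1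
          rcases h1.lt_or_eq with h2 | h2
          · linarith
          · exfalso
            have h3 : dist y₁ z = r := hy₁.2
            have h4 : y₁ ≠ z := by
              rintro rfl
              rw [dist_self] at h3; linarith
            have := hiso y₁ hy₁.1 h2 h4
            linarith
        · have : Q.d x₀ y ≤ Q.d x₀ y₁ := hmax ⟨hy, hyr⟩
          linarith
      · refine ⟨1, one_pos, fun y hy hyr => ?_⟩
        exact absurd ⟨y, hy, hyr⟩ hK
    obtain ⟨η, hη, hK⟩ := hη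
    filter_upwards [hgen, hlim.eventually (gt_mem_nhds (half_pos hη))] with t hG hdt
    have hxS : x t ∈ Q.S := face_sub A (hxA hG)
    have hBc : IsCompact (Q.S ∩ closedBall z r) := hSc.inter_right isClosed_closedBall
    obtain ⟨y, hy, hmax⟩ := hBc.exists_isMaxOn ⟨z, hz, mem_closedBall_self hr.le⟩
      ((cont_d hxS).mono inter_subset_left)
    have h1 : Q.d (x t) z ≤ Q.d (x t) y := hmax ⟨hz, mem_closedBall_self hr.le⟩
    have h2 := (abs_le.1 (hd hG z hz)).1
    have h3 := (abs_le.1 (hd hG y hy.1)).2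
    have hlt : dist y z < r := by
      rcases (show dist y z ≤ r from hy.2).lt_or_eq with h | h
      · exact h
      · exfalso
        have := hK y hy.1 h
        linarith
    refine ⟨y, hy.1, hlt, ?_⟩
    show ∀ᶠ w in 𝓝[Q.S] y, Q.d (x t) w ≤ Q.d (x t) y
    have hb : ball z r ∈ 𝓝 y := isOpen_ball.mem_nhds hlt
    filter_upwards [nhdsWithin_le_nhds hb, self_mem_nhdsWithin] with w hw hwS
    exact hmax ⟨hwS, ball_subset_closedBall hw⟩
  by_contra hne
  -- isolation radius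
  have iso : ∀ z, ∃ r > 0, ∀ y, y ∈ Q.S → Q.d x₀ y = M → y ≠ z → r < dist y z := by
    intro z
    have hcl : IsClosed ({z | z ∈ Q.S ∧ Q.d x₀ z = M} \ {z}) :=
      (hfin.subset sdiff_subset).isClosed
    have hmem : ({z | z ∈ Q.S ∧ Q.d x₀ z = M} \ {z})ᶜ ∈ 𝓝 z :=
      hcl.isOpen_compl.mem_nhds (by simp)
    obtain ⟨r, hr, hball⟩ := Metric.mem_nhds_iff.1 hmem
    refine ⟨r / 2, by linarith, fun y hyS hyM hyz => ?_⟩
    by_contra hcon
    push Not at hcon
    exact hball (show y ∈ ball z r from lt_of_le_of_lt hcon (by linarith)) ⟨⟨hyS, hyM⟩, hyz⟩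
  obtain ⟨r₁, hr₁, hi₁⟩ := iso z₁
  obtain ⟨r₂, hr₂, hi₂⟩ := iso z₂
  have hdist : 0 < dist z₁ z₂ := dist_pos.2 hne
  set r := min (min r₁ r₂) (dist z₁ z₂ / 2) with hr
  have hrpos : 0 < r := lt_min (lt_min hr₁ hr₂) (by linarith)
  have hle1 : r ≤ r₁ := (min_le_left _ _).trans (min_le_left _ _)
  have hle2 : r ≤ r₂ := (min_le_left _ _).trans (min_le_right _ _)
  have hle3 : r ≤ dist z₁ z₂ / 2 := min_le_right _ _
  have c1 := claim z₁ hz₁ rfl r hrpos fun y h1 h2 h3 => hle1.trans_lt (hi₁ y h1 h2 h3)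
  have c2 := claim z₂ hz₂ hM2 r hrpos fun y h1 h2 h3 => hle2.trans_lt (hi₂ y h1 h2 h3)
  obtain ⟨t, hG, ⟨y₁, hy₁, hyd₁, hm₁⟩, ⟨y₂, hy₂, hyd₂, hm₂⟩⟩ := (hgen.and (c1.and c2)).exists
  have heq := (C.dev hG).unique_max hy₁ hy₂ hm₁ hm₂
  subst heq
  have := dist_triangle_left z₁ z₂ y₁
  linarith

end Cell
end SPoly
end Pool.Agent.Lib.MP_dd45e6_gt
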