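import Pool.Agent.Lib.MP_dd45e6_gt.Defs

/-! Simple polytopes in `ℝ³` given by unit outer normals and offsets; unfolding maps. -/

namespace Pool.Agent.Lib.MP_dd45e6_gt
open Set Metric
open scoped RealInnerProductSpace

/-- A simple polytope: unit normals `n i`, offsets `h i`; two faces meet in the empty set or in the
segment `[a f g, b f g]`; every vertex is on exactly three faces. -/
structure SPoly (ι : Type) where
  n : ι → E
  h : ι → ℝ
  nn : ∀ i, ⟪n i, n i⟫ = 1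
  adj : ι → ι → Prop
  adj_symm : ∀ f g, adj f g → adj g f
  adj_ne : ∀ f g, adj f g → f ≠ g
  cpos : ∀ f g, adj f g → 0 < 1 + ⟪n f, n g⟫
  a : ι → ι → E
  b : ι → ι → E
  a_mem : ∀ f g, adj f g → (∀ i, 0 ≤ h i - ⟪n i, a f g⟫) ∧ h f - ⟪n f, a f g⟫ = 0
    ∧ h g - ⟪n g, a f g⟫ = 0
  b_mem : ∀ f g, adj f g → (∀ i, 0 ≤ h i - ⟪n i, b f g⟫) ∧ h f - ⟪n f, b f g⟫ = 0
    ∧ h g - ⟪n g, b f g⟫ = 0
  ab_ne : ∀ f g, adj f g → a f g ≠ b f g
  ab_symm : ∀ f g, adj f g → a g f = a f g ∧ b g f = b f g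
  inter : ∀ f g, f ≠ g → ∀ y, (∀ i, 0 ≤ h i - ⟪n i, y⟫) → h f - ⟪n f, y⟫ = 0 →
    h g - ⟪n g, y⟫ = 0 → adj f g ∧ ∃ t ∈ Icc (0:ℝ) 1, y = (1 - t) • a f g + t • b f g
  vert : ∀ f g k, f ≠ g → g ≠ k → f ≠ k → ∀ y, (∀ i, 0 ≤ h i - ⟪n i, y⟫) →
    h f - ⟪n f, y⟫ = 0 → h g - ⟪n g, y⟫ = 0 → h k - ⟪n k, y⟫ = 0 →
    (∀ i, h i - ⟪n i, y⟫ = 0 → i = f ∨ i = g ∨ i = k) ∧ (y = a f g ∨ y = b f g) ∧
    ∀ z : E, ⟪n f, z⟫ = 0 → ⟪n g, z⟫ = 0 → ⟪n k, z⟫ = 0 → z = 0
  bdd : Bornology.IsBounded {x : E | ∀ i, 0 ≤ h i - ⟪n i, x⟫}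
  conn : ∀ f g, Relation.ReflTransGen adj f g

namespace SPoly
variable {ι : Type} (Q : SPoly ι)

/-- slack of the constraint `g` -/
noncomputable def sl (g : ι) (x : E) : ℝ := Q.h g - ⟪Q.n g, x⟫

/-- the polytope -/
def P : Set E := {x | ∀ i, 0 ≤ Q.sl i x}

/-- the face `f` -/
def face (f : ι) : Set E := {x | (∀ i, 0 ≤ Q.sl i x) ∧ Q.sl f x = 0}

/-- the boundary surface -/
def S : Set E := {x | (∀ i, 0 ≤ Q.sl i x) ∧ ∃ f, Q.sl f x = 0}

/-- unfolding map from the plane of `f` to the plane of `g` -/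
noncomputable def U (f g : ι) (x : E) : E :=
  x + (Q.sl g x / (1 + ⟪Q.n f, Q.n g⟫)) • (Q.n f + Q.n g)

variable {Q}

lemma face_sub (f : ι) : Q.face f ⊆ Q.S := fun _ hx => ⟨hx.1, f, hx.2⟩

lemma mem_S {x : E} : x ∈ Q.S ↔ ∃ f, x ∈ Q.face f := by
  constructor
  · rintro ⟨h, f, hf⟩; exact ⟨f, h, hf⟩
  · rintro ⟨f, h, hf⟩; exact ⟨h, f, hf⟩

lemma sl_comb {g : ι} {x y : E} {s t : ℝ} (hst : s + t = 1) :
    Q.sl g (s • x + t • y) = s * Q.sl g x + t * Q.sl g y := by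
  simp only [sl, inner_add_right, inner_smul_right]
  linear_combination (-Q.h g) * hst

lemma sl_add_smul {g : ι} {x u : E} {t : ℝ} :
    Q.sl g (x + t • u) = Q.sl g x - t * ⟪Q.n g, u⟫ := by
  simp only [sl, inner_add_right, inner_smul_right]; ring

lemma sl_sub {g : ι} {x y : E} : Q.sl g x - Q.sl g y = ⟪Q.n g, y - x⟫ := by
  simp only [sl, inner_sub_right]; ring

lemma continuous_sl (g : ι) : Continuous (Q.sl g) := by
  unfold sl; fun_prop

lemma isClosed_face (f : ι) : IsClosed (Q.face f) := by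
  have : Q.face f = (⋂ i, {x | 0 ≤ Q.sl i x}) ∩ {x | Q.sl f x = 0} := by
    ext x; simp [face]
  rw [this]
  refine IsClosed.inter (isClosed_iInter fun i => ?_) ?_
  · exact isClosed_le continuous_const (continuous_sl i)
  · exact isClosed_eq (continuous_sl f) continuous_const

lemma convex_face (f : ι) : Convex ℝ (Q.face f) := by
  intro x hx y hy s t hs ht hst
  refine ⟨fun i => ?_, ?_⟩
  · rw [sl_comb hst]
    exact add_nonneg (mul_nonneg hs (hx.1 i)) (mul_nonneg ht (hy.1 i))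
  · rw [sl_comb hst, hx.2, hy.2]; simp

lemma isCompact_face (f : ι) : IsCompact (Q.face f) :=
  Metric.isCompact_of_isClosed_isBounded (isClosed_face f)
    (Q.bdd.subset fun x hx i => hx.1 i)

lemma segment_face {f : ι} {x y : E} (hx : x ∈ Q.face f) (hy : y ∈ Q.face f) :
    segment ℝ x y ⊆ Q.face f := (convex_face f).segment_subset hx hy

lemma S_eq : Q.S = ⋃ f, Q.face f := by
  ext x; rw [mem_S]; simp

lemma isCompact_S [Finite ι] : IsCompact Q.S := by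
  rw [S_eq]; exact isCompact_iUnion fun f => isCompact_face f

/-! ### the unfolding map -/

lemma n_norm (i : ι) : ‖Q.n i‖ = 1 := by
  have := Q.nn i
  rw [real_inner_self_eq_norm_sq] at this
  nlinarith [norm_nonneg (Q.n i)]

lemma sl_U_g {f g : ι} (h : Q.adj f g) (x : E) : Q.sl g (Q.U f g x) = 0 := by
  have hc := (Q.cpos f g h).ne'
  have e : ⟪Q.n g, Q.n f⟫ = ⟪Q.n f, Q.n g⟫ := real_inner_comm _ _
  unfold U
  rw [sl_add_smul, inner_add_right, Q.nn g, e]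
  field_simp
  ring

lemma sl_U_f {f g : ι} (h : Q.adj f g) {x : E} (hx : Q.sl f x = 0) :
    Q.sl f (Q.U f g x) = - Q.sl g x := by
  have hc := (Q.cpos f g h).ne'
  unfold U
  rw [sl_add_smul, inner_add_right, Q.nn f, hx]
  field_simp
  ring

lemma U_U {f g : ι} (h : Q.adj f g) {x : E} (hx : Q.sl f x = 0) :
    Q.U g f (Q.U f g x) = x := by
  have h1 := sl_U_f h hx
  have e : ⟪Q.n g, Q.n f⟫ = ⟪Q.n f, Q.n g⟫ := real_inner_comm _ _
  have h2 : Q.U g f (Q.U f g x) = Q.U f g x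
      + (Q.sl f (Q.U f g x) / (1 + ⟪Q.n g, Q.n f⟫)) • (Q.n g + Q.n f) := rfl
  rw [h2, h1, e, add_comm (Q.n g) (Q.n f), neg_div, neg_smul]
  unfold U
  abel

lemma U_fix {f g : ι} {z : E} (hz : Q.sl g z = 0) : Q.U f g z = z := by
  unfold U; rw [hz]; simp

lemma U_sub {f g : ι} (x y : E) :
    Q.U f g x - Q.U f g y
      = (x - y) + ((Q.sl g x - Q.sl g y) / (1 + ⟪Q.n f, Q.n g⟫)) • (Q.n f + Q.n g) := by
  unfold U; rw [sub_div, sub_smul]; abel

/-- the unfolding map preserves inner products of vectors in the plane of `f` -/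
lemma inner_U {f g : ι} (h : Q.adj f g) {x y z w : E} (hx : Q.sl f x = 0) (hy : Q.sl f y = 0)
    (hz : Q.sl f z = 0) (hw : Q.sl f w = 0) :
    ⟪Q.U f g x - Q.U f g y, Q.U f g z - Q.U f g w⟫ = ⟪x - y, z - w⟫ := by
  have hc := (Q.cpos f g h).ne'
  rw [U_sub, U_sub, sl_sub, sl_sub]
  have e1 : ⟪Q.n f, x - y⟫ = 0 := by
    have := sl_sub (Q := Q) (g := f) (x := y) (y := x); rw [hx, hy] at this; linarith
  have e2 : ⟪Q.n f, z - w⟫ = 0 := by
    have := sl_sub (Q := Q) (g := f) (x := w) (y := z); rw [hz, hw] at this; linarith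
  set d := x - y with hd
  set e := z - w with he
  have e3 : y - x = -d := by rw [hd]; abel
  have e4 : w - z = -e := by rw [he]; abel
  rw [e3, e4, inner_neg_right, inner_neg_right]
  set p := ⟪Q.n g, d⟫ with hp
  set q := ⟪Q.n g, e⟫ with hq
  set c := ⟪Q.n f, Q.n g⟫ with hcdef
  have e5 : ⟪d, Q.n f⟫ = 0 := by rw [real_inner_comm]; exact e1
  have e6 : ⟪d, Q.n g⟫ = p := by rw [real_inner_comm]
  have e7 : ⟪Q.n g, Q.n f⟫ = c := by rw [real_inner_comm]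
  simp only [inner_add_left, inner_add_right, inner_smul_left, inner_smul_right, e2, e5, e6, e7,
    Q.nn, ← hq, RCLike.conj_to_real, ← hcdef]
  field_simp
  ring

lemma dist_U {f g : ι} (h : Q.adj f g) {x y : E} (hx : Q.sl f x = 0) (hy : Q.sl f y = 0) :
    dist (Q.U f g x) (Q.U f g y) = dist x y := by
  have := inner_U h hx hy hx hy
  rw [real_inner_self_eq_norm_sq, real_inner_self_eq_norm_sq] at this
  rw [dist_eq_norm, dist_eq_norm]
  exact (sq_eq_sq₀ (norm_nonneg _) (norm_nonneg _)).1 this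

/-- affine combinations -/
lemma U_comb {f g : ι} {x y : E} {s t : ℝ} (hst : s + t = 1) :
    Q.U f g (s • x + t • y) = s • Q.U f g x + t • Q.U f g y := by
  unfold U
  rw [sl_comb hst]
  module

end SPoly
end Pool.Agent.Lib.MP_dd45e6_gt
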