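import Pool.Agent.Lib.MP_dd45e6_gt.Defs
namespace Pool.Agent.Lib.MP_dd45e6_gt
open Set Metric
open scoped RealInnerProductSpace

/-- two distinct circles of equal radius in a plane meet in finitely many points -/
theorem two_circles_finite (n p q : E) (h R : ℝ) (hn : n ≠ 0) (hp : ⟪n, p⟫ = h)
    (hq : ⟪n, q⟫ = h) (hpq : p ≠ q) :
    {y : E | ⟪n, y⟫ = h ∧ dist y p = R ∧ dist y q = R}.Finite := by
  classical
  set T : Set E := {y : E | ⟪n, y⟫ = h ∧ dist y p = R ∧ dist y q = R} with hT
  by_cases hsub : T.Subsingleton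
  · exact hsub.finite
  · obtain ⟨a, ha, b, hb, hab⟩ := Set.not_subsingleton_iff.1 hsub
    have : Fact (Module.finrank ℝ E = 2 + 1) := ⟨by simp [E]⟩
    have hd : Module.finrank ℝ ((ℝ ∙ n)ᗮ : Submodule ℝ E) = 2 :=
      Submodule.finrank_orthogonal_span_singleton hn
    set s : AffineSubspace ℝ E := AffineSubspace.mk' p ((ℝ ∙ n)ᗮ) with hs
    have hmem : ∀ y : E, ⟪n, y⟫ = h → y ∈ s := by
      intro y hy
      rw [hs, AffineSubspace.mem_mk', Submodule.mem_orthogonal_singleton_iff_inner_right,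
        vsub_eq_sub, inner_sub_right, hy, hp, sub_self]
    have hds : Module.finrank ℝ s.direction = 2 := by
      rw [hs, AffineSubspace.direction_mk']; exact hd
    refine (Set.toFinite ({a, b} : Set E)).subset ?_
    intro y hy
    exact EuclideanGeometry.eq_of_dist_eq_of_dist_eq_of_mem_of_finrank_eq_two hds
      (hmem p hp) (hmem q hq) (hmem a ha.1) (hmem b hb.1) (hmem y hy.1) hpq hab
      ha.2.1 hb.2.1 hy.2.1 ha.2.2 hb.2.2 hy.2.2

theorem hpoly_isClosed {ι : Type*} (n : ι → E) (h : ι → ℝ) :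
    IsClosed {x : E | ∀ i, ⟪n i, x⟫ ≤ h i} := by
  have : {x : E | ∀ i, ⟪n i, x⟫ ≤ h i} = ⋂ i, {x : E | ⟪n i, x⟫ ≤ h i} := by
    ext x; simp
  rw [this]
  exact isClosed_iInter fun i => isClosed_le (continuous_const.inner continuous_id) continuous_const

theorem hpoly_convex {ι : Type*} (n : ι → E) (h : ι → ℝ) :
    Convex ℝ {x : E | ∀ i, ⟪n i, x⟫ ≤ h i} := by
  intro x hx y hy a b ha hb hab i
  rw [inner_add_right, inner_smul_right, inner_smul_right]
  have h1 := mul_le_mul_of_nonneg_left (hx i) ha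
  have h2 := mul_le_mul_of_nonneg_left (hy i) hb
  have h3 : a * h i + b * h i = h i := by rw [← add_mul, hab, one_mul]
  linarith

/-- a bounded H-polytope is the convex hull of a finite set `V` of its points as soon as through
every other point of it there passes a line respecting the active constraints -/
theorem hpoly_eq_convexHull {ι : Type*} [Finite ι] (n : ι → E) (h : ι → ℝ) (V : Finset E)
    (hb : Bornology.IsBounded {x : E | ∀ i, ⟪n i, x⟫ ≤ h i})
    (hV : ∀ v ∈ V, ∀ i, ⟪n i, v⟫ ≤ h i)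
    (hx : ∀ x : E, (∀ i, ⟪n i, x⟫ ≤ h i) → x ∉ V →
      ∃ u : E, u ≠ 0 ∧ ∀ i, ⟪n i, x⟫ = h i → ⟪n i, u⟫ = 0) :
    convexHull ℝ (V : Set E) = {x : E | ∀ i, ⟪n i, x⟫ ≤ h i} := by
  classical
  set P : Set E := {x : E | ∀ i, ⟪n i, x⟫ ≤ h i} with hP
  have hcl : IsClosed P := hpoly_isClosed n h
  have hconv : Convex ℝ P := hpoly_convex n h
  have hcomp : IsCompact P := Metric.isCompact_of_isClosed_isBounded hcl hb
  apply Subset.antisymm
  · exact convexHull_min (fun v hv => hV v (by simpa using hv)) hconv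
  · have hext : P.extremePoints ℝ ⊆ (V : Set E) := by
      intro x hxe
      by_contra hxV
      have hxP : x ∈ P := hxe.1
      obtain ⟨u, hu0, hu⟩ := hx x hxP (by simpa using hxV)
      have key : ∀ᶠ t : ℝ in nhds 0, ∀ i, ⟪n i, x + t • u⟫ ≤ h i := by
        rw [Filter.eventually_all]
        intro i
        by_cases hi : ⟪n i, x⟫ = h i
        · refine Filter.Eventually.of_forall fun t => ?_
          rw [inner_add_right, inner_smul_right, hu i hi, mul_zero, add_zero, hi]
        · have hlt : ⟪n i, x⟫ < h i := lt_of_le_of_ne (hxP i) hi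
          have hc : Continuous fun t : ℝ => ⟪n i, x + t • u⟫ := by fun_prop
          have h0 : (fun t : ℝ => ⟪n i, x + t • u⟫) 0 < h i := by simpa using hlt
          have := (hc.tendsto 0).eventually_lt_const h0
          exact this.mono fun t ht => ht.le
      obtain ⟨ε, hε, hball⟩ := Metric.eventually_nhds_iff.1 key
      have hp : x + (ε / 2) • u ∈ P := by
        apply hball
        rw [Real.dist_eq, sub_zero, abs_of_pos (by linarith)]; linarith
      have hm : x + (-(ε / 2)) • u ∈ P := by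
        apply hball
        rw [Real.dist_eq, sub_zero, abs_neg, abs_of_pos (by linarith)]; linarith
      have hseg : x ∈ openSegment ℝ (x + (ε / 2) • u) (x + (-(ε / 2)) • u) := by
        refine ⟨1 / 2, 1 / 2, by norm_num, by norm_num, by norm_num, ?_⟩
        module
      have := hxe.2 hp hm hseg
      have h2 : (ε / 2) • u = 0 := by simpa using this
      rcases smul_eq_zero.1 h2 with h3 | h3
      · linarith
      · exact hu0 h3
    have hVc : IsClosed (convexHull ℝ (V : Set E)) := V.finite_toSet.isClosed_convexHull ℝ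
    calc P = closure (convexHull ℝ (P.extremePoints ℝ)) :=
          (closure_convexHull_extremePoints hcomp hconv).symm
      _ ⊆ closure (convexHull ℝ (V : Set E)) := closure_mono (convexHull_mono hext)
      _ = convexHull ℝ (V : Set E) := hVc.closure_eq

theorem hpoly_interior {ι : Type*} [Finite ι] (n : ι → E) (h : ι → ℝ) (x : E)
    (hx : ∀ i, ⟪n i, x⟫ < h i) : x ∈ interior {x : E | ∀ i, ⟪n i, x⟫ ≤ h i} := by
  have hopen : IsOpen {x : E | ∀ i, ⟪n i, x⟫ < h i} := by
    have : {x : E | ∀ i, ⟪n i, x⟫ < h i} = ⋂ i, {x : E | ⟪n i, x⟫ < h i} := by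
      ext x; simp
    rw [this]
    exact isOpen_iInter_of_finite fun i =>
      isOpen_lt (continuous_const.inner continuous_id) continuous_const
  have hsub : {x : E | ∀ i, ⟪n i, x⟫ < h i} ⊆ {x : E | ∀ i, ⟪n i, x⟫ ≤ h i} :=
    fun y hy i => (hy i).le
  exact interior_maximal hsub hopen hx

/-- frontier and interior of an H-polytope with nonzero normals -/
theorem hpoly_frontier {ι : Type*} [Finite ι] (n : ι → E) (h : ι → ℝ) (hn : ∀ i, n i ≠ 0) :
    frontier {x : E | ∀ i, ⟪n i, x⟫ ≤ h i}
      = {x : E | (∀ i, ⟪n i, x⟫ ≤ h i) ∧ ∃ i, ⟪n i, x⟫ = h i} := by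
  rw [(hpoly_isClosed n h).frontier_eq]
  ext x
  constructor
  · rintro ⟨hxP, hxi⟩
    refine ⟨hxP, ?_⟩
    by_contra hne
    push Not at hne
    exact hxi (hpoly_interior n h x fun i => lt_of_le_of_ne (hxP i) (hne i))
  · rintro ⟨hxP, i, hi⟩
    refine ⟨hxP, fun hint => ?_⟩
    have hc : Filter.Tendsto (fun t : ℝ => x + t • n i) (nhds 0) (nhds x) := by
      have : Continuous fun t : ℝ => x + t • n i := by fun_prop
      simpa using this.tendsto 0
    have hev := hc.eventually (mem_interior_iff_mem_nhds.1 hint)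
    obtain ⟨ε, hε, hball⟩ := Metric.eventually_nhds_iff.1 hev
    have hmem : x + (ε / 2) • n i ∈ {x : E | ∀ i, ⟪n i, x⟫ ≤ h i} := by
      apply hball
      rw [Real.dist_eq, sub_zero, abs_of_pos (by linarith)]; linarith
    have h1 := hmem i
    rw [inner_add_right, inner_smul_right, hi] at h1
    have h2 : 0 < ⟪n i, n i⟫ := real_inner_self_pos.2 (hn i)
    have h3 : 0 < ε / 2 * ⟪n i, n i⟫ := by positivity
    linarith

end Pool.Agent.Lib.MP_dd45e6_gt
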