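import Pool.Agent.Lib.MP_dd45e6_gt.Cyc
import Pool.Agent.Lib.MP_dd45e6_gt.HPoly

/-! Cells: triangles of sources with a common combinatorial development. -/

namespace Pool.Agent.Lib.MP_dd45e6_gt
open Set Metric Filter Topology
open scoped RealInnerProductSpace

/-- the point with weights `l` in the triangle `T` -/
noncomputable def ev (T : Fin 3 → E) (l : Fin 3 → ℝ) : E := l 0 • T 0 + l 1 • T 1 + l 2 • T 2

lemma ev_dist_sq (T : Fin 3 → E) {l : Fin 3 → ℝ} (hl : l 0 + l 1 + l 2 = 1) (y : E) :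
    dist y (ev T l) ^ 2 = l 0 * dist y (T 0) ^ 2 + l 1 * dist y (T 1) ^ 2 + l 2 * dist y (T 2) ^ 2
     - (l 0 * l 1 * dist (T 0) (T 1) ^ 2 + l 0 * l 2 * dist (T 0) (T 2) ^ 2
        + l 1 * l 2 * dist (T 1) (T 2) ^ 2) := by
  simp only [dist_eq_norm]
  have e0 : y - ev T l = l 0 • (y - T 0) + l 1 • (y - T 1) + l 2 • (y - T 2) := by
    unfold ev
    have : y = (l 0 + l 1 + l 2) • y := by rw [hl, one_smul]
    nth_rewrite 1 [this]
    module
  have e1 : T 0 - T 1 = (y - T 1) - (y - T 0) := by abel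
  have e2 : T 0 - T 2 = (y - T 2) - (y - T 0) := by abel
  have e3 : T 1 - T 2 = (y - T 2) - (y - T 1) := by abel
  rw [e0, e1, e2, e3]
  generalize y - T 0 = a
  generalize y - T 1 = b
  generalize y - T 2 = c
  simp only [← real_inner_self_eq_norm_sq, inner_add_left, inner_add_right, inner_sub_left,
    inner_sub_right, inner_smul_left, inner_smul_right, RCLike.conj_to_real,
    real_inner_comm a b, real_inner_comm a c, real_inner_comm b c]
  have h0 : l 0 = 1 - l 1 - l 2 := by linarith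
  rw [h0]
  ring

namespace SPoly
variable {ι : Type} {Q : SPoly ι}

lemma sl_ev {g : ι} (T : Fin 3 → E) {l : Fin 3 → ℝ} (hl : l 0 + l 1 + l 2 = 1) :
    Q.sl g (ev T l) = l 0 * Q.sl g (T 0) + l 1 * Q.sl g (T 1) + l 2 * Q.sl g (T 2) := by
  simp only [sl, ev, inner_add_right, inner_smul_right]
  linear_combination (-Q.h g) * hl

lemma U_ev {f g : ι} (T : Fin 3 → E) {l : Fin 3 → ℝ} (hl : l 0 + l 1 + l 2 = 1) :
    Q.U f g (ev T l) = ev (fun v => Q.U f g (T v)) l := by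
  unfold U
  rw [sl_ev T hl]
  unfold ev
  module

/-- linear combination of slacks -/
noncomputable def ls (Q : SPoly ι) (g : ι) (T : Fin 3 → E) (l : Fin 3 → ℝ) : ℝ :=
  l 0 * Q.sl g (T 0) + l 1 * Q.sl g (T 1) + l 2 * Q.sl g (T 2)

/-- linear combination of differences of squared distances -/
noncomputable def ld (y : E) (T T' : Fin 3 → E) (l : Fin 3 → ℝ) : ℝ :=
  l 0 * (dist y (T 0) ^ 2 - dist y (T' 0) ^ 2) + l 1 * (dist y (T 1) ^ 2 - dist y (T' 1) ^ 2)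
    + l 2 * (dist y (T 2) ^ 2 - dist y (T' 2) ^ 2)

/-- A triangle of sources in the face `A` with finite sets of images -/
structure Cell (Q : SPoly ι) (A : ι) (V : Fin 3 → E) (Nd : ι → List (Fin 3 → E)) : Prop where
  ne : ∀ f, Nd f ≠ []
  plane : ∀ f, ∀ T ∈ Nd f, ∀ v, Q.sl f (T v) = 0
  cong : ∀ f, ∀ T ∈ Nd f, ∀ v w, dist (T v) (T w) = dist (V v) (V w)
  srcA : ∀ v, V v ∈ Q.face A
  only : ∀ g, g ≠ A → ∃ v, 0 < Q.sl g (V v)
  src : V ∈ Nd A
  zero : ∀ f, ∀ T ∈ Nd f, (f = A ∧ T = V) ∨ ∀ l : Fin 3 → ℝ, (∀ i, 0 < l i) →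
    ∃ g, Q.ls g T l < 0
  edge : ∀ f g, Q.adj f g → ∀ T ∈ Nd f, (fun v => Q.U f g (T v)) ∈ Nd g ∨
    ∃ T' ∈ Nd f, (∀ v, dist (Q.a f g) (T' v) ≤ dist (Q.a f g) (T v) ∧
      dist (Q.b f g) (T' v) ≤ dist (Q.b f g) (T v)) ∧
      ((∃ v, dist (Q.a f g) (T' v) < dist (Q.a f g) (T v)) ∨
        ∃ v, dist (Q.b f g) (T' v) < dist (Q.b f g) (T v))
  sad : ∀ f, ∀ T ∈ Nd f, ∀ T' ∈ Nd f, T ≠ T' → ∀ l : Fin 3 → ℝ, (∀ i, 0 < l i) →
    (∃ g, Q.ls g T l + Q.ls g T' l < 0) ∨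
    ∃ T'' ∈ Nd f, ⟪ev T l - ev T'' l, ev T' l - ev T'' l⟫ < 0
  vgen : ∀ f g, Q.adj f g → ∀ T ∈ Nd f, ∃ v, Q.sl g (T v) ≠ 0
  vuniq : ∀ y f g, Q.IsVert y → y ∈ Q.face f → y ∈ Q.face g → ∀ T ∈ Nd f, ∀ T' ∈ Nd g,
    (f = g ∧ T = T') ∨ (∃ v, dist y (T v) ≠ dist y (T' v)) ∨
    (Q.adj f g ∧ T' = fun v => Q.U f g (T v)) ∨
    ∀ l : Fin 3 → ℝ, (∀ i, 0 < l i) →
      (∃ k, y ∈ Q.face k ∧ (Q.ls k T l < 0 ∨ Q.ls k T' l < 0)) ∨
      ∃ k, y ∈ Q.face k ∧ ∃ T'' ∈ Nd k, ld y T'' T l < 0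

namespace Cell
variable {A : ι} {V : Fin 3 → E} {Nd : ι → List (Fin 3 → E)}

/-- generic weights -/
structure Gen (Q : SPoly ι) (Nd : ι → List (Fin 3 → E)) (l : Fin 3 → ℝ) : Prop where
  pos : ∀ i, 0 < l i
  sum : l 0 + l 1 + l 2 = 1
  g1 : ∀ f g, ∀ T ∈ Nd f, (∃ v, Q.sl g (T v) ≠ 0) → Q.ls g T l ≠ 0
  g2 : ∀ y, Q.IsVert y → ∀ f g, ∀ T ∈ Nd f, ∀ T' ∈ Nd g, (∃ v, dist y (T v) ≠ dist y (T' v)) →
    ld y T T' l ≠ 0

/-- images of the point with weights `l` -/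
noncomputable def pts (Nd : ι → List (Fin 3 → E)) (l : Fin 3 → ℝ) (f : ι) : Finset E :=
  letI := Classical.decEq E
  ((Nd f).map (fun T => ev T l)).toFinset

lemma mem_pts {l : Fin 3 → ℝ} {f : ι} {p : E} :
    p ∈ pts Nd l f ↔ ∃ T ∈ Nd f, ev T l = p := by
  unfold pts
  simp

variable (C : Cell Q A V Nd)
include C

lemma dist_sub {l : Fin 3 → ℝ} (hl : l 0 + l 1 + l 2 = 1) {f g : ι} {T T' : Fin 3 → E}
    (hT : T ∈ Nd f) (hT' : T' ∈ Nd g) (y : E) :
    dist y (ev T l) ^ 2 - dist y (ev T' l) ^ 2 = ld y T T' l := by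
  rw [ev_dist_sq T hl, ev_dist_sq T' hl, C.cong f T hT 0 1, C.cong f T hT 0 2, C.cong f T hT 1 2,
    C.cong g T' hT' 0 1, C.cong g T' hT' 0 2, C.cong g T' hT' 1 2]
  unfold ld
  ring

lemma ev_face {l : Fin 3 → ℝ} (h0 : ∀ i, 0 ≤ l i) (hl : l 0 + l 1 + l 2 = 1) :
    ev V l ∈ Q.face A := by
  refine ⟨fun g => ?_, ?_⟩
  · rw [sl_ev V hl]
    have a0 := mul_nonneg (h0 0) ((C.srcA 0).1 g)
    have a1 := mul_nonneg (h0 1) ((C.srcA 1).1 g)
    have a2 := mul_nonneg (h0 2) ((C.srcA 2).1 g)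
    linarith
  · rw [sl_ev V hl, (C.srcA 0).2, (C.srcA 1).2, (C.srcA 2).2]; ring

omit C in
lemma sum_pos {l s : Fin 3 → ℝ} (hl : ∀ i, 0 < l i) (hs : ∀ i, 0 ≤ s i) (h : ∃ i, 0 < s i) :
    0 < l 0 * s 0 + l 1 * s 1 + l 2 * s 2 := by
  have a0 := mul_nonneg (hl 0).le (hs 0)
  have a1 := mul_nonneg (hl 1).le (hs 1)
  have a2 := mul_nonneg (hl 2).le (hs 2)
  obtain ⟨i, hi⟩ := h
  have := mul_pos (hl i) hi
  fin_cases i <;> simp only [Fin.zero_eta, Fin.mk_one, Fin.reduceFinMk] at this <;> linarith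

theorem dev {l : Fin 3 → ℝ} (hG : Gen Q Nd l) : Dev Q A (ev V l) (pts Nd l) := by
  have hl := hG.sum
  refine ⟨?_, ?_, C.ev_face (fun i => (hG.pos i).le) hl, ?_, ?_, ?_, ?_, ?_, ?_, ?_⟩
  · intro f
    obtain ⟨T, hT⟩ := List.exists_mem_of_ne_nil _ (C.ne f)
    exact ⟨ev T l, mem_pts.2 ⟨T, hT, rfl⟩⟩
  · intro f p hp
    obtain ⟨T, hT, rfl⟩ := mem_pts.1 hp
    rw [sl_ev T hl, C.plane f T hT 0, C.plane f T hT 1, C.plane f T hT 2]; ring
  · intro g hg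
    rw [sl_ev V hl]
    exact sum_pos (s := fun v => Q.sl g (V v)) hG.pos (fun v => (C.srcA v).1 g) (C.only g hg)
  · exact mem_pts.2 ⟨V, C.src, rfl⟩
  · intro f p hp hpf
    obtain ⟨T, hT, rfl⟩ := mem_pts.1 hp
    rcases C.zero f T hT with ⟨h1, h2⟩ | h
    · exact ⟨h1, by rw [h2]⟩
    · exfalso
      obtain ⟨g, hg⟩ := h l hG.pos
      have := hpf.1 g
      rw [sl_ev T hl] at this
      unfold ls at hg
      linarith
  · intro f g hadj p hp
    obtain ⟨T, hT, rfl⟩ := mem_pts.1 hp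
    rcases C.edge f g hadj T hT with h | ⟨T', hT', hle, hlt⟩
    · left
      rw [U_ev T hl]
      exact mem_pts.2 ⟨_, h, rfl⟩
    · right
      refine ⟨ev T' l, mem_pts.2 ⟨T', hT', rfl⟩, ?_⟩
      have sq_le : ∀ {y : E}, (∀ v, dist y (T' v) ≤ dist y (T v)) →
          dist y (ev T' l) ≤ dist y (ev T l) := by
        intro y h
        have h1 := C.dist_sub hl hT hT' y
        have h2 : 0 ≤ ld y T T' l := by
          unfold ld
          have a : ∀ v, 0 ≤ dist y (T v) ^ 2 - dist y (T' v) ^ 2 := fun v =>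
            sub_nonneg.2 (pow_le_pow_left₀ dist_nonneg (h v) 2)
          have a0 := mul_nonneg (hG.pos 0).le (a 0)
          have a1 := mul_nonneg (hG.pos 1).le (a 1)
          have a2 := mul_nonneg (hG.pos 2).le (a 2)
          linarith
        exact (pow_le_pow_iff_left₀ dist_nonneg dist_nonneg two_ne_zero).1 (by linarith)
      have sq_lt : ∀ {y : E}, (∀ v, dist y (T' v) ≤ dist y (T v)) →
          (∃ v, dist y (T' v) < dist y (T v)) → dist y (ev T' l) < dist y (ev T l) := by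
        intro y h hs
        have h1 := C.dist_sub hl hT hT' y
        have h2 : 0 < ld y T T' l := by
          unfold ld
          refine sum_pos (s := fun v => dist y (T v) ^ 2 - dist y (T' v) ^ 2) hG.pos
            (fun v => sub_nonneg.2 (pow_le_pow_left₀ dist_nonneg (h v) 2)) ?_
          obtain ⟨v, hv⟩ := hs
          exact ⟨v, sub_pos.2 (pow_lt_pow_left₀ hv dist_nonneg two_ne_zero)⟩
        exact (pow_lt_pow_iff_left₀ dist_nonneg dist_nonneg two_ne_zero).1 (by linarith)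
      refine ⟨sq_le fun v => (hle v).1, sq_le fun v => (hle v).2, ?_⟩
      rcases hlt with h | h
      · exact Or.inl (sq_lt (fun v => (hle v).1) h)
      · exact Or.inr (sq_lt (fun v => (hle v).2) h)
  · intro f p hp q hq hpq hmid
    obtain ⟨T, hT, rfl⟩ := mem_pts.1 hp
    obtain ⟨T', hT', rfl⟩ := mem_pts.1 hq
    have hne : T ≠ T' := by rintro rfl; exact hpq rfl
    rcases C.sad f T hT T' hT' hne l hG.pos with ⟨g, hg⟩ | ⟨T'', hT'', h⟩
    · exfalso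
      have h1 := hmid.1 g
      rw [midpoint_eq_smul_add] at h1
      have e : (⅟(2:ℝ)) • (ev T l + ev T' l) = (1 / 2 : ℝ) • ev T l + (1 / 2 : ℝ) • ev T' l := by
        rw [smul_add]; norm_num
      rw [e, sl_comb (by norm_num), sl_ev T hl, sl_ev T' hl] at h1
      unfold ls at hg
      linarith
    · exact ⟨ev T'' l, mem_pts.2 ⟨T'', hT'', rfl⟩, h⟩
  · intro f g hadj p hp
    obtain ⟨T, hT, rfl⟩ := mem_pts.1 hp
    rw [sl_ev T hl]
    exact hG.g1 f g T hT (C.vgen f g hadj T hT)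
  · intro y f g hy hf hg p hp q hq hpa hqa hpv hqv
    obtain ⟨T, hT, rfl⟩ := mem_pts.1 hp
    obtain ⟨T', hT', rfl⟩ := mem_pts.1 hq
    have heq : dist y (ev T l) = dist y (ev T' l) :=
      le_antisymm (hpa g hg _ hq) (hqa f hf _ hp)
    rcases C.vuniq y f g hy hf hg T hT T' hT' with ⟨h1, h2⟩ | h | ⟨hadj, h⟩ | h
    · exact ⟨h1, by rw [h2]⟩
    · exfalso
      have h1 := hG.g2 y hy f g T hT T' hT' h
      rw [← C.dist_sub hl hT hT' y, heq, sub_self] at h1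
      exact h1 rfl
    · exfalso
      have h1 := hpv g hg
      have h2 := hqv f hf
      have h3 : Q.sl f (ev T l) = 0 := by
        rw [sl_ev T hl, C.plane f T hT 0, C.plane f T hT 1, C.plane f T hT 2]; ring
      rw [h, ← U_ev T hl, sl_U_f hadj h3] at h2
      have h4 := hG.g1 f g T hT (C.vgen f g hadj T hT)
      have h5 : Q.sl g (ev T l) = Q.ls g T l := sl_ev T hl
      exact h4 (by linarith)
    · exfalso
      rcases h l hG.pos with ⟨k, hk, h1 | h1⟩ | ⟨k, hk, T'', hT'', h1⟩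
      · have := hpv k hk
        rw [sl_ev T hl] at this
        unfold ls at h1; linarith
      · have := hqv k hk
        rw [sl_ev T' hl] at this
        unfold ls at h1; linarith
      · have h2 := hpa k hk (ev T'' l) (mem_pts.2 ⟨T'', hT'', rfl⟩)
        rw [← C.dist_sub hl hT'' hT y] at h1
        have := pow_le_pow_left₀ dist_nonneg h2 2
        linarith

end Cell
end SPoly
end Pool.Agent.Lib.MP_dd45e6_gt
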