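import Mathlib

/-! Integer checker for cells (definitions only, written for kernel evaluation). -/

namespace Pool.Agent.Lib.MP_dd45e6_gt.Chk

/-- integer vectors -/
abbrev V3 := ℤ × ℤ × ℤ
/-- integer triangles -/
abbrev Tri := V3 × V3 × V3

/-- `a ≤ 0` -/
def npos (a : ℤ) : Bool := match a with
  | .ofNat n => Nat.beq n 0
  | .negSucc _ => true
/-- `a < 0` -/
def neg (a : ℤ) : Bool := match a with
  | .ofNat _ => false
  | .negSucc _ => true
/-- `a = 0` -/
def zer (a : ℤ) : Bool := match a with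
  | .ofNat n => Nat.beq n 0
  | .negSucc _ => false

def dot (a b : V3) : ℤ := a.1 * b.1 + a.2.1 * b.2.1 + a.2.2 * b.2.2
def sub (a b : V3) : V3 := (a.1 - b.1, a.2.1 - b.2.1, a.2.2 - b.2.2)
def add (a b : V3) : V3 := (a.1 + b.1, a.2.1 + b.2.1, a.2.2 + b.2.2)
def smul (c : ℤ) (a : V3) : V3 := (c * a.1, c * a.2.1, c * a.2.2)
def nsq (a : V3) : ℤ := dot a a
def zer3 (a : V3) : Bool := zer a.1 && zer a.2.1 && zer a.2.2

def uN : ℕ → V3
  | 0 => (-1, -2, -2)
  | 1 => (1, 2, 2)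
  | 2 => (-11, 2, 10)
  | 3 => (24, -11, 12)
  | 4 => (2, 9, -6)
  | 5 => (11, -2, -10)
  | 6 => (-24, 12, -11)
  | _ => (-2, -9, 6)
def pN : ℕ → ℤ
  | 0 => 3 | 1 => 3 | 2 => 15 | 3 => 29 | 4 => 11 | 5 => 15 | 6 => 29 | _ => 11
def KN : ℕ → ℤ
  | 0 => 220 | 1 => 264 | 2 => 879 | 3 => 1699 | 4 => 644 | 5 => 1604 | 6 => 3102 | _ => 1177
def YN : ℕ → V3
  | 0 => (-3226619608762950400, -337248858420073600, -1068961047573619200)
  | 1 => (-2057253679036972416, -2675980717872029568, 685087847015347776)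
  | 2 => (1916365634368785600, -2103369980068156800, -1874332547491404000)
  | 3 => (216321671812945920, -3433839168155335680, 306158621873694720)
  | 4 => (1055184887880195072, -381008487090975744, -3166103667224289792)
  | 5 => (-2010542041317089280, 640900489308119040, -2655149179024742400)
  | 6 => (593127602199582450, 326935923186572700, 2999923928163837675)
  | 7 => (-668823615848099712, 2850838359281937024, 1106997101092314432)
  | 8 => (2477859940842224640, 1801943840385162240, 582549841643927040)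
  | 9 => (-184308345957964800, -1831319097071692800, 2576395389242188800)
  | 10 => (-2253733117000780800, 2136075250918963200, -493450728503040000)
  | _ => (2824155282177715200, 416762475043200000, -1379790425923852800)
def nbN : ℕ → List ℕ
  | 0 => [2, 3, 4, 5, 6, 7]
  | 1 => [2, 3, 4]
  | 2 => [0, 1, 3, 4, 6, 7]
  | 3 => [0, 1, 2, 4, 5, 7]
  | 4 => [0, 1, 2, 3, 5, 6]
  | 5 => [0, 3, 4]
  | 6 => [0, 2, 4]
  | _ => [0, 2, 3]
def vfN : ℕ → List ℕ
  | 0 => [0, 2, 6] | 1 => [0, 2, 7] | 2 => [0, 3, 5] | 3 => [0, 3, 7] | 4 => [0, 4, 5]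
  | 5 => [0, 4, 6] | 6 => [1, 2, 3] | 7 => [1, 2, 4] | 8 => [1, 3, 4] | 9 => [2, 3, 7]
  | 10 => [2, 4, 6] | _ => [3, 4, 5]
/-- first common vertex of two adjacent faces -/
def aN : ℕ → ℕ → ℕ
  | 0, 2 => 0 | 0, 3 => 2 | 0, 4 => 4 | 0, 5 => 2 | 0, 6 => 0 | 0, 7 => 1
  | 1, 2 => 6 | 1, 3 => 6 | 1, 4 => 7
  | 2, 0 => 0 | 2, 1 => 6 | 2, 3 => 6 | 2, 4 => 7 | 2, 6 => 0 | 2, 7 => 1
  | 3, 0 => 2 | 3, 1 => 6 | 3, 2 => 6 | 3, 4 => 8 | 3, 5 => 2 | 3, 7 => 3
  | 4, 0 => 4 | 4, 1 => 7 | 4, 2 => 7 | 4, 3 => 8 | 4, 5 => 4 | 4, 6 => 5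
  | 5, 0 => 2 | 5, 3 => 2 | 5, 4 => 4
  | 6, 0 => 0 | 6, 2 => 0 | 6, 4 => 5
  | 7, 0 => 1 | 7, 2 => 1 | 7, 3 => 3
  | _, _ => 0
def bN : ℕ → ℕ → ℕ
  | 0, 2 => 1 | 0, 3 => 3 | 0, 4 => 5 | 0, 5 => 4 | 0, 6 => 5 | 0, 7 => 3
  | 1, 2 => 7 | 1, 3 => 8 | 1, 4 => 8
  | 2, 0 => 1 | 2, 1 => 7 | 2, 3 => 9 | 2, 4 => 10 | 2, 6 => 10 | 2, 7 => 9
  | 3, 0 => 3 | 3, 1 => 8 | 3, 2 => 9 | 3, 4 => 11 | 3, 5 => 11 | 3, 7 => 9
  | 4, 0 => 5 | 4, 1 => 8 | 4, 2 => 10 | 4, 3 => 11 | 4, 5 => 11 | 4, 6 => 10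
  | 5, 0 => 4 | 5, 3 => 11 | 5, 4 => 11
  | 6, 0 => 5 | 6, 2 => 10 | 6, 4 => 10
  | 7, 0 => 3 | 7, 2 => 9 | 7, 3 => 9
  | _, _ => 0

/-- slack numerator -/
def S (W : ℤ) (g : ℕ) (P : V3) : ℤ := KN g * W - dot (uN g) P
def S3 (W : ℤ) (g : ℕ) (T : Tri) : V3 := (S W g T.1, S W g T.2.1, S W g T.2.2)
/-- squared distance to the vertex `j` (coordinates of vertices multiplied by `c`) -/
def dq (c : ℤ) (j : ℕ) (P : V3) : ℤ := nsq (sub (smul c (YN j)) P)
def dq3 (c : ℤ) (j : ℕ) (T : Tri) : V3 := (dq c j T.1, dq c j T.2.1, dq c j T.2.2)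

def nth {α : Type} : List α → ℕ → Option α
  | [], _ => none
  | a :: _, 0 => some a
  | _ :: l, n + 1 => nth l n

def memN (n : ℕ) : List ℕ → Bool
  | [] => false
  | a :: l => Nat.beq n a || memN n l

def all2 {α β : Type} (p : α → β → Bool) : List α → List β → Bool
  | [], _ => true
  | _ :: _, [] => false
  | a :: l, b :: m => p a b && all2 p l m

def pairs2 {α β : Type} (p : α → α → β → Bool) : List α → List (List β) → Bool
  | [], _ => true
  | _ :: _, [] => false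
  | a :: l, h :: hs => all2 (p a) l h && pairs2 p l hs

/-- corners of a subtriangle -/
abbrev Cor := V3 × V3 × V3

def pure3 (c : V3) : Bool :=
  (zer c.2.1 && zer c.2.2) || (zer c.1 && zer c.2.2) || (zer c.1 && zer c.2.1)

/-- value at a corner: nonpositive, negative unless the corner is on an axis -/
def cok (v : ℤ) (c : V3) : Bool := neg v || (npos v && pure3 c)

def linT (s : V3) (C : Cor) : Bool :=
  let v0 := dot C.1 s
  let v1 := dot C.2.1 s
  let v2 := dot C.2.2 s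
  cok v0 C.1 && cok v1 C.2.1 && cok v2 C.2.2 && (neg v0 || neg v1 || neg v2)

/-- same at the unit corners -/
def lin0 (s : V3) : Bool :=
  npos s.1 && npos s.2.1 && npos s.2.2 && (neg s.1 || neg s.2.1 || neg s.2.2)

/-- combination of the points of a triangle -/
def comb (T : Tri) (c : V3) : V3 := add (smul c.1 T.1) (add (smul c.2.1 T.2.1) (smul c.2.2 T.2.2))

def quadV (u0 u1 u2 w0 w1 w2 : V3) (p : ℤ → V3 → Bool) (c0 c1 c2 : V3) : Bool :=
  let d0 := dot u0 w0
  let d1 := dot u1 w1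
  let d2 := dot u2 w2
  let m01 := dot u0 w1 + dot u1 w0
  let m02 := dot u0 w2 + dot u2 w0
  let m12 := dot u1 w2 + dot u2 w1
  p d0 c0 && p d1 c1 && p d2 c2 && npos m01 && npos m02 && npos m12 &&
    (neg d0 || neg d1 || neg d2 || neg m01 || neg m02 || neg m12)

def quadT (u w : Tri) (C : Cor) : Bool :=
  quadV (comb u C.1) (comb u C.2.1) (comb u C.2.2) (comb w C.1) (comb w C.2.1) (comb w C.2.2)
    cok C.1 C.2.1 C.2.2

def quad0 (u w : Tri) : Bool :=
  quadV u.1 u.2.1 u.2.2 w.1 w.2.1 w.2.2 (fun a _ => npos a) (1, 0, 0) (0, 1, 0) (0, 0, 1)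

def subT (a b : Tri) : Tri := (sub a.1 b.1, sub a.2.1 b.2.1, sub a.2.2 b.2.2)

/-- sum of the coordinates as a natural number -/
def csum (c : V3) : ℕ := (c.1 + c.2.1 + c.2.2).toNat

/-- weighted midpoint -/
def mid (x y : V3) : V3 :=
  let a := csum x
  let b := csum y
  add (smul (Int.ofNat (Nat.succ (b / a - 1))) x) (smul (Int.ofNat (Nat.succ (a / b - 1))) y)

def cor1 : ℕ → Cor → Cor
  | 0, C => (mid C.1 C.2.1, C.2.1, C.2.2)
  | 1, C => (C.1, mid C.2.1 C.2.2, C.2.2)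
  | _, C => (C.1, C.2.1, mid C.2.2 C.1)
def cor2 : ℕ → Cor → Cor
  | 0, C => (C.1, mid C.1 C.2.1, C.2.2)
  | 1, C => (C.1, C.2.1, mid C.2.1 C.2.2)
  | _, C => (mid C.2.2 C.1, C.2.1, C.2.2)

def tree (test : ℕ → Cor → Bool) : ℕ → ℕ → Cor → (ℕ → Bool) → Bool
  | 0, _, _, _ => false
  | n + 1, H, C, k =>
    bif Nat.blt (H % 128) 120 then test (H % 128) C && k (H / 128)
    else tree test n (H / 128) (cor1 (H % 128 - 120) C)
      (fun H1 => tree test n H1 (cor2 (H % 128 - 120) C) k)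

def unitC : Cor := ((1, 0, 0), (0, 1, 0), (0, 0, 1))

def runT (test0 : ℕ → Bool) (test : ℕ → Cor → Bool) (H : ℕ) : Bool :=
  bif Nat.blt H 120 then test0 H else tree test 24 H unitC (fun _ => true)

/-! ### tests -/

/-- `T' = U f g T` -/
def isU1 (W : ℤ) (f g : ℕ) (P P' : V3) : Bool :=
  let D := pN g * (pN f * pN g + dot (uN f) (uN g))
  let w := add (smul (pN g) (uN f)) (smul (pN f) (uN g))
  zer3 (sub (smul D (sub P' P)) (smul (S W g P) w))
def isU (W : ℤ) (f g : ℕ) (T T' : Tri) : Bool :=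
  isU1 W f g T.1 T'.1 && isU1 W f g T.2.1 T'.2.1 && isU1 W f g T.2.2 T'.2.2

/-- all entries of `a - b` are `≥ 0` -/
def ge3 (a b : V3) : Bool :=
  npos (b.1 - a.1) && npos (b.2.1 - a.2.1) && npos (b.2.2 - a.2.2)
def gtany (a b : V3) : Bool :=
  neg (b.1 - a.1) || neg (b.2.1 - a.2.1) || neg (b.2.2 - a.2.2)

/-- `T'` dominates `T` on the edge between `f` and `g` -/
def dom (c : ℤ) (f g : ℕ) (T T' : Tri) : Bool :=
  let a := dq3 c (aN f g) T
  let a' := dq3 c (aN f g) T'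
  let b := dq3 c (bN f g) T
  let b' := dq3 c (bN f g) T'
  ge3 a a' && ge3 b b' && (gtany a a' || gtany b b')

def atF (F : List (List Tri)) (g : ℕ) : List Tri := match nth F g with
  | some l => l
  | none => []

def edgeOK (W c : ℤ) (F : List (List Tri)) (f : ℕ) (T : Tri) (g h : ℕ) : Bool :=
  bif Nat.blt h 64 then
    (match nth (atF F g) h with | some T' => isU W f g T T' | none => false)
  else
    (match nth (atF F f) (h - 64) with | some T' => dom c f g T T' | none => false)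

def eqT (T T' : Tri) : Bool :=
  zer3 (sub T.1 T'.1) && zer3 (sub T.2.1 T'.2.1) && zer3 (sub T.2.2 T'.2.2)

def zeroOK (W : ℤ) (A : ℕ) (V : Tri) (f : ℕ) (T : Tri) (h : ℕ) : Bool :=
  (Nat.beq f A && eqT T V) ||
  runT (fun g => Nat.blt g 8 && lin0 (S3 W g T)) (fun g C => Nat.blt g 8 && linT (S3 W g T) C) h

/-- lengths of the sides -/
def lens (T : Tri) : V3 := (nsq (sub T.1 T.2.1), nsq (sub T.1 T.2.2), nsq (sub T.2.1 T.2.2))

def nodeOK (W c : ℤ) (F : List (List Tri)) (A : ℕ) (V : Tri) (f : ℕ) (T : Tri)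
    (h : ℕ × List ℕ) : Bool :=
  zer3 (S3 W f T) && zer3 (sub (lens T) (lens V)) &&
  (nbN f).all (fun g => !(zer3 (S3 W g T))) &&
  zeroOK W A V f T h.1 &&
  all2 (edgeOK W c F f T) (nbN f) h.2

def pairOK (W : ℤ) (L : List Tri) (T T' : Tri) (h : ℕ) : Bool :=
  runT
    (fun e => bif Nat.blt e 8 then lin0 (add (S3 W e T) (S3 W e T'))
      else match nth L (e - 8) with
        | some T'' => quad0 (subT T T'') (subT T' T'')
        | none => false)
    (fun e C => bif Nat.blt e 8 then linT (add (S3 W e T) (S3 W e T')) C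
      else match nth L (e - 8) with
        | some T'' => quadT (subT T T'') (subT T' T'') C
        | none => false) h

/-- hints of a face: for every node a zero hint and edge hints; for pairs the triangle of hints -/
abbrev FH := List (ℕ × List ℕ) × List (List ℕ)

def faceOK (W c : ℤ) (F : List (List Tri)) (A : ℕ) (V : Tri) (f : ℕ) (L : List Tri) (h : FH) :
    Bool :=
  (match L with | [] => false | _ => true) &&
  all2 (nodeOK W c F A V f) L h.1 && pairs2 (pairOK W L) L h.2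

def facesOK (W c : ℤ) (F : List (List Tri)) (A : ℕ) (V : Tri) : ℕ → List (List Tri) → List FH → Bool
  | _, [], _ => true
  | _, _ :: _, [] => false
  | f, L :: Ls, h :: hs => faceOK W c F A V f L h && facesOK W c F A V (f + 1) Ls hs

/-- list of images at a vertex: face, triangle, squared distances -/
abbrev Zt := ℕ × Tri × V3

def zlist (c : ℤ) (j : ℕ) (F : List (List Tri)) : List ℕ → List Zt
  | [] => []
  | f :: fs => (atF F f).map (fun T => (f, T, dq3 c j T)) ++ zlist c j F fs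

def vtest0 (W : ℤ) (fs : List ℕ) (Z : List Zt) (x y : Zt) (e : ℕ) : Bool :=
  bif Nat.blt e 8 then memN e fs && lin0 (S3 W e x.2.1)
  else bif Nat.blt e 16 then memN (e - 8) fs && lin0 (S3 W (e - 8) y.2.1)
  else match nth Z (e - 16) with
    | some z => lin0 (sub z.2.2 x.2.2)
    | none => false
def vtest (W : ℤ) (fs : List ℕ) (Z : List Zt) (x y : Zt) (e : ℕ) (C : Cor) : Bool :=
  bif Nat.blt e 8 then memN e fs && linT (S3 W e x.2.1) C
  else bif Nat.blt e 16 then memN (e - 8) fs && linT (S3 W (e - 8) y.2.1) C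
  else match nth Z (e - 16) with
    | some z => linT (sub z.2.2 x.2.2) C
    | none => false

def vin (W : ℤ) (fs : List ℕ) (Z : List Zt) (x : Zt) : List Zt → List ℕ → Option (List ℕ)
  | [], h => some h
  | y :: l, h =>
    bif zer3 (sub x.2.2 y.2.2) then
      (bif memN y.1 (nbN x.1) && isU W x.1 y.1 x.2.1 y.2.1 then vin W fs Z x l h
      else match h with
        | [] => none
        | a :: h' => bif runT (vtest0 W fs Z x y) (vtest W fs Z x y) a then vin W fs Z x l h'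
          else none)
    else vin W fs Z x l h

def vout (W : ℤ) (fs : List ℕ) (Z : List Zt) : List Zt → List ℕ → Bool
  | [], _ => true
  | x :: l, h => match vin W fs Z x l h with
    | none => false
    | some h' => vout W fs Z l h'

def vertOK (W c : ℤ) (F : List (List Tri)) (j : ℕ) (h : List ℕ) : Bool :=
  let Z := zlist c j F (vfN j)
  vout W (vfN j) Z Z h

def vertsOK (W c : ℤ) (F : List (List Tri)) : ℕ → List (List ℕ) → Bool
  | j, [] => Nat.beq j 12
  | j, h :: hs => vertOK W c F j h && vertsOK W c F (j + 1) hs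

def srcOK (W : ℤ) (F : List (List Tri)) (A : ℕ) (V : Tri) : Bool :=
  (atF F A).any (fun T => eqT T V) &&
  zer3 (S3 W A V) &&
  [0, 1, 2, 3, 4, 5, 6, 7].all (fun g => ge3 (S3 W g V) (0, 0, 0) &&
    (Nat.beq g A || gtany (S3 W g V) (0, 0, 0)))

def cellOK (W c : ℤ) (A : ℕ) (V : Tri) (F : List (List Tri)) (hf : List FH)
    (hv : List (List ℕ)) : Bool :=
  neg (-W) && zer (W - c * 27450179185228800) && Nat.beq F.length 8 &&
  srcOK W F A V && facesOK W c F A V 0 F hf && vertsOK W c F 0 hv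

/-! ### builder -/

def fN {α : Type} (n : ℕ) (k : ℕ → α) : α := match n with
  | 0 => k 0
  | m + 1 => k (Nat.succ m)
def fI {α : Type} (i : ℤ) (k : ℤ → α) : α := match i with
  | .ofNat n => fN n (fun n => k (.ofNat n))
  | .negSucc n => fN n (fun n => k (.negSucc n))
def fV {α : Type} (v : V3) (k : V3 → α) : α :=
  fI v.1 fun a => fI v.2.1 fun b => fI v.2.2 fun c => k (a, b, c)
def fT {α : Type} (T : Tri) (k : Tri → α) : α :=
  fV T.1 fun a => fV T.2.1 fun b => fV T.2.2 fun c => k (a, b, c)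

def U1 (W : ℤ) (f g : ℕ) (P : V3) : V3 :=
  let D := pN g * (pN f * pN g + dot (uN f) (uN g))
  let w := add (smul (pN g) (uN f)) (smul (pN f) (uN g))
  let s := S W g P
  (P.1 + s * w.1 / D, P.2.1 + s * w.2.1 / D, P.2.2 + s * w.2.2 / D)
def U3 (W : ℤ) (f g : ℕ) (T : Tri) : Tri := (U1 W f g T.1, U1 W f g T.2.1, U1 W f g T.2.2)

/-- `ps`: list of (position of the parent in the reversed list, face) -/
def bld (W : ℤ) : List (ℕ × ℕ) → List (ℕ × Tri) → (List (ℕ × Tri) → Bool) → Bool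
  | [], acc, k => k acc
  | p :: ps, acc, k => match nth acc p.1 with
    | none => false
    | some x => fT (U3 W x.1 p.2 x.2) fun T => bld W ps ((p.2, T) :: acc) k

def sel (f : ℕ) : List (ℕ × Tri) → List Tri → List Tri
  | [], r => r
  | x :: l, r => bif Nat.beq x.1 f then sel f l (x.2 :: r) else sel f l r

def run (W c : ℤ) (A : ℕ) (V : Tri) (ps : List (ℕ × ℕ)) (hf : List FH) (hv : List (List ℕ)) :
    Bool :=
  bld W ps [(A, V)] fun acc =>
    cellOK W c A V [sel 0 acc [], sel 1 acc [], sel 2 acc [], sel 3 acc [], sel 4 acc [],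
      sel 5 acc [], sel 6 acc [], sel 7 acc []] hf hv

end Pool.Agent.Lib.MP_dd45e6_gt.Chk
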