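import Pool.Agent.Lib.MP_dd45e6_gt.Flat2

/-! Vertices: local dichotomy. -/

namespace Pool.Agent.Lib.MP_dd45e6_gt
open Set Metric Filter Topology
open scoped RealInnerProductSpace

/-- normalisation -/
noncomputable def Nz (z : E) : E := ‖z‖⁻¹ • z

lemma norm_Nz {z : E} (h : z ≠ 0) : ‖Nz z‖ = 1 := by
  unfold Nz
  rw [norm_smul, norm_inv, norm_norm, inv_mul_cancel₀ (norm_ne_zero_iff.2 h)]

lemma Nz_of {u z : E} {r : ℝ} (hu : ‖u‖ = 1) (hr : 0 < r) (h : z = r • u) : Nz z = u := by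
  unfold Nz
  rw [h, norm_smul, hu, mul_one, Real.norm_eq_abs, abs_of_pos hr, smul_smul,
    inv_mul_cancel₀ hr.ne', one_smul]

/-- point of a segment -/
noncomputable def zz (a b : E) (t : ℝ) : E := (1 - t) • a + t • b

lemma zz_symm (a b : E) (t : ℝ) : zz a b t = zz b a (1 - t) := by
  unfold zz; rw [sub_sub_cancel]; abel

lemma zz_norm_sq {a b : E} (ha : ‖a‖ = 1) (hb : ‖b‖ = 1) (t : ℝ) :
    ‖zz a b t‖ ^ 2 = (1 - t) ^ 2 + t ^ 2 + 2 * t * (1 - t) * ⟪a, b⟫ := by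
  unfold zz
  rw [norm_add_sq_real, norm_smul, norm_smul, ha, hb, inner_smul_left, inner_smul_right]
  simp only [RCLike.conj_to_real, mul_one, Real.norm_eq_abs, sq_abs]
  ring

lemma zz_ne {a b : E} (ha : ‖a‖ = 1) (hb : ‖b‖ = 1) (hk : -1 < ⟪a, b⟫) {t : ℝ}
    (h0 : 0 ≤ t) (h1 : t ≤ 1) : zz a b t ≠ 0 := by
  intro h
  have h2 := zz_norm_sq ha hb t
  rw [h, norm_zero] at h2
  have h3 : 0 ≤ t * (1 - t) := mul_nonneg h0 (by linarith)
  have h4 : 0 ≤ t * (1 - t) * (1 + ⟪a, b⟫) := mul_nonneg h3 (by linarith)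
  have h5 : (1 - 2 * t) ^ 2 = 0 ∧ t * (1 - t) * (1 + ⟪a, b⟫) = 0 := by
    constructor <;> nlinarith [sq_nonneg (1 - 2 * t)]
  have h6 : t = 1 / 2 := by
    have := pow_eq_zero_iff (two_ne_zero) |>.1 h5.1
    linarith
  rw [h6] at h5
  nlinarith [h5.2]

/-- moving towards the vector `w` inside a segment increases the normalised inner product -/
lemma arc_up_aux {a b : E} (ha : ‖a‖ = 1) (hb : ‖b‖ = 1) (hk : -1 < ⟪a, b⟫) (hk1 : ⟪a, b⟫ < 1)
    {w : E} {l m : ℝ} (hw : w = l • a + m • b) {t : ℝ} (h0 : 0 ≤ t) (h1 : t < 1)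
    (hpos : 0 < ⟪zz a b t, w⟫) (hdir : 0 < (1 - t) * m - t * l) {η : ℝ} (hη : 0 < η) :
    ∃ t', t < t' ∧ t' < 1 ∧ t' < t + η ∧
      ⟪zz a b t, w⟫ / ‖zz a b t‖ < ⟪zz a b t', w⟫ / ‖zz a b t'‖ := by
  set k := ⟪a, b⟫ with hkdef
  have hka : ⟪b, a⟫ = k := real_inner_comm _ _
  have haa : ⟪a, a⟫ = 1 := by rw [real_inner_self_eq_norm_sq, ha]; norm_num
  have hbb : ⟪b, b⟫ = 1 := by rw [real_inner_self_eq_norm_sq, hb]; norm_num
  have hin : ∀ s, ⟪zz a b s, w⟫ = (1 - s) * (l + m * k) + s * (l * k + m) := by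
    intro s
    rw [hw]
    unfold zz
    simp only [inner_add_left, inner_add_right, inner_smul_left, inner_smul_right, haa, hbb, hka,
      RCLike.conj_to_real, ← hkdef]
    ring
  -- quadratic
  set W := ⟪zz a b t, w⟫ with hW
  set Z := ‖zz a b t‖ ^ 2 with hZ
  set W' := (l * k + m) - (l + m * k) with hW'
  set B := W' ^ 2 * Z - W ^ 2 * (2 - 2 * k) with hB
  set K1 := W * (((1 - t) * m - t * l) * (1 - k ^ 2)) with hK1
  have hK1pos : 0 < K1 := by
    apply mul_pos hpos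
    apply mul_pos hdir
    nlinarith
  have hcont : Continuous fun σ : ℝ => 2 * K1 + σ * B := by fun_prop
  have hcont2 : Continuous fun σ : ℝ => W + σ * W' := by fun_prop
  have e1 : ∀ᶠ σ in 𝓝[>] (0:ℝ), 0 < 2 * K1 + σ * B :=
    Filter.Eventually.filter_mono nhdsWithin_le_nhds
      (hcont.continuousAt.eventually (lt_mem_nhds (by simpa using hK1pos)))
  have e2 : ∀ᶠ σ in 𝓝[>] (0:ℝ), 0 < W + σ * W' :=
    Filter.Eventually.filter_mono nhdsWithin_le_nhds
      (hcont2.continuousAt.eventually (lt_mem_nhds (by simpa using hpos)))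
  have e3 : ∀ᶠ σ in 𝓝[>] (0:ℝ), σ < min (1 - t) η :=
    Filter.Eventually.filter_mono nhdsWithin_le_nhds
      (Iio_mem_nhds (lt_min (by linarith) hη))
  obtain ⟨σ, h2, h3, h4, h5⟩ := (e1.and (e2.and (e3.and self_mem_nhdsWithin))).exists
  have h5' : 0 < σ := h5
  have h6 := h4.trans_le (min_le_left _ _)
  have h7 := h4.trans_le (min_le_right _ _)
  refine ⟨t + σ, by linarith, by linarith, by linarith, ?_⟩
  have hinσ : ⟪zz a b (t + σ), w⟫ = W + σ * W' := by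
    rw [hin, hW, hin]; ring
  have hZσ : ‖zz a b (t + σ)‖ ^ 2 = Z + 2 * σ * ((1 - k) * (2 * t - 1)) + σ ^ 2 * (2 - 2 * k) := by
    rw [hZ, zz_norm_sq ha hb, zz_norm_sq ha hb, ← hkdef]; ring
  have hz1 : 0 < ‖zz a b t‖ := norm_pos_iff.2 (zz_ne ha hb hk h0 h1.le)
  have hz2 : 0 < ‖zz a b (t + σ)‖ :=
    norm_pos_iff.2 (zz_ne ha hb hk (by linarith) (by linarith))
  rw [div_lt_div_iff₀ hz1 hz2, hinσ]
  refine lt_of_pow_lt_pow_left₀ 2 (mul_nonneg h3.le hz1.le) ?_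
  rw [mul_pow, mul_pow, hZσ, ← hZ]
  have hid : (W + σ * W') ^ 2 * Z -
      W ^ 2 * (Z + 2 * σ * ((1 - k) * (2 * t - 1)) + σ ^ 2 * (2 - 2 * k))
      = σ * (2 * K1 + σ * B) := by
    have hWt : W = (1 - t) * (l + m * k) + t * (l * k + m) := by rw [hW, hin]
    have hZt : Z = (1 - t) ^ 2 + t ^ 2 + 2 * t * (1 - t) * k := by rw [hZ, zz_norm_sq ha hb]
    have hkey : W' * Z - W * ((1 - k) * (2 * t - 1)) = ((1 - t) * m - t * l) * (1 - k ^ 2) := by
      rw [hW', hWt, hZt]; ring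
    rw [hB, hK1, ← hkey]; ring
  have : 0 < σ * (2 * K1 + σ * B) := mul_pos h5' h2
  linarith

namespace SPoly
variable {ι : Type} {Q : SPoly ι}

/-- an arc of directions at `v` inside the face `F` -/
structure Arc (Q : SPoly ι) (v : E) (F : ι) (a b : E) : Prop where
  ta : Q.TD v F a
  tb : Q.TD v F b
  k0 : -1 < ⟪a, b⟫
  k1 : ⟪a, b⟫ < 1

namespace Arc
variable {v : E} {F : ι} {a b : E}

lemma symm (h : Arc Q v F a b) : Arc Q v F b a :=
  ⟨h.tb, h.ta, by rw [real_inner_comm]; exact h.k0, by rw [real_inner_comm]; exact h.k1⟩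

lemma ne (h : Arc Q v F a b) {t : ℝ} (h0 : 0 ≤ t) (h1 : t ≤ 1) : zz a b t ≠ 0 :=
  zz_ne h.ta.2.1 h.tb.2.1 h.k0 h0 h1

lemma td (h : Arc Q v F a b) {t : ℝ} (h0 : 0 ≤ t) (h1 : t ≤ 1) :
    Q.TD v F (Nz (zz a b t)) := by
  have hne := h.ne h0 h1
  have hpos : 0 < ‖zz a b t‖ := norm_pos_iff.2 hne
  refine ⟨h.ta.1, norm_Nz hne, ?_, fun g hg => ?_⟩
  · unfold Nz zz
    rw [inner_smul_right, inner_add_right, inner_smul_right, inner_smul_right, h.ta.2.2.1,
      h.tb.2.2.1]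
    simp
  · have ha := h.ta.2.2.2 g hg
    have hb := h.tb.2.2.2 g hg
    unfold Nz
    rw [inner_smul_right]
    have : ⟪Q.n g, zz a b t⟫ ≤ 0 := by
      unfold zz
      rw [inner_add_right, inner_smul_right, inner_smul_right]
      nlinarith
    have h2 := inv_pos.2 hpos
    nlinarith

lemma coord (h : Arc Q v F a b) {w : E} (hw : ⟪Q.n F, w⟫ = 0) :
    ∃ l m : ℝ, w = l • a + m • b := by
  have ha := h.ta.2.1
  have hb := h.tb.2.1
  set k := ⟪a, b⟫ with hkdef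
  have hk0 := h.k0
  have hk1 := h.k1
  rw [← hkdef] at hk0 hk1
  have hka : ⟪b, a⟫ = k := real_inner_comm _ _
  have haa : ⟪a, a⟫ = 1 := by rw [real_inner_self_eq_norm_sq, ha]; norm_num
  have hbb : ⟪b, b⟫ = 1 := by rw [real_inner_self_eq_norm_sq, hb]; norm_num
  have hkk : 0 < 1 - k ^ 2 := by nlinarith
  set m := (⟪b, w⟫ - k * ⟪a, w⟫) / (1 - k ^ 2) with hm
  set l := ⟪a, w⟫ - m * k with hl
  refine ⟨l, m, ?_⟩
  have hmk : m * (1 - k ^ 2) = ⟪b, w⟫ - k * ⟪a, w⟫ := by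
    rw [hm]; field_simp
  have hz : w - (l • a + m • b) = 0 := by
    have ha0 : a ≠ 0 := by rw [← norm_pos_iff, ha]; exact one_pos
    have he : ⟪b - k • a, b - k • a⟫ = 1 - k ^ 2 := by
      simp only [inner_sub_left, inner_sub_right, inner_smul_left, inner_smul_right, haa, hbb,
        hka, ← hkdef, RCLike.conj_to_real]
      ring
    have he0 : b - k • a ≠ 0 := by
      intro h0
      rw [h0, inner_zero_left] at he
      linarith
    have haz : ⟪a, w - (l • a + m • b)⟫ = 0 := by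
      rw [inner_sub_right, inner_add_right, inner_smul_right, inner_smul_right, haa, ← hkdef, hl]
      ring
    have hbz : ⟪b, w - (l • a + m • b)⟫ = 0 := by
      rw [inner_sub_right, inner_add_right, inner_smul_right, inner_smul_right, hbb, hka, hl]
      linear_combination -hmk
    apply dim3 (n_ne (Q := Q) F) ha0 he0 h.ta.2.2.1
    · rw [inner_sub_right, inner_smul_right, h.ta.2.2.1, h.tb.2.2.1]; simp
    · rw [inner_sub_right, inner_smul_right, haa, ← hkdef]; simp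
    · rw [inner_sub_right, inner_add_right, inner_smul_right, inner_smul_right, hw,
        h.ta.2.2.1, h.tb.2.2.1]; simp
    · exact haz
    · rw [inner_sub_left, inner_smul_left, haz, hbz]; simp
  exact sub_eq_zero.1 hz

end Arc

namespace Dev
variable {A : ι} {x : E} {Pts : ι → Finset E} (D : Dev Q A x Pts)
include D

lemma s_Nz {v : E} {ε : ℝ} (L : D.Loc v ε) {F : ι} {z : E} (htd : Q.TD v F (Nz z)) :
    D.s v ε (Nz z) = D.sg v F z / ‖z‖ := by
  rw [L.s_eq htd]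
  unfold Nz
  rw [D.sg_smul htd.1 z (inv_nonneg.2 (norm_nonneg z))]
  ring

lemma arc_up {v : E} {ε : ℝ} (L : D.Loc v ε) {F : ι} {a b : E} (h : Arc Q v F a b) {p : E}
    (hp : p ∈ Pts F) (hact : dist v p = D.G v) {l m : ℝ} (hw : p - v = l • a + m • b) {t : ℝ}
    (h0 : 0 ≤ t) (h1 : t < 1) (hval : D.sg v F (zz a b t) = ⟪zz a b t, p - v⟫)
    (hpos : 0 < ⟪zz a b t, p - v⟫) (hdir : 0 < (1 - t) * m - t * l) {η : ℝ} (hη : 0 < η) :
    ∃ t', t < t' ∧ t' < 1 ∧ t' < t + η ∧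
      D.s v ε (Nz (zz a b t)) < D.s v ε (Nz (zz a b t')) := by
  obtain ⟨t', h2, h3, h4, h5⟩ := arc_up_aux h.ta.2.1 h.tb.2.1 h.k0 h.k1 hw h0 h1 hpos hdir hη
  refine ⟨t', h2, h3, h4, ?_⟩
  rw [D.s_Nz L (h.td h0 h1.le), D.s_Nz L (h.td (by linarith) h3.le), hval]
  have h6 : 0 < ‖zz a b t'‖ := norm_pos_iff.2 (h.ne (by linarith) h3.le)
  refine h5.trans_le ?_
  exact div_le_div_of_nonneg_right (D.le_sg h.ta.1 _ hp hact) h6.le

lemma arc_int {v : E} {ε : ℝ} (L : D.Loc v ε) {F : ι} {a b : E} (h : Arc Q v F a b) {t : ℝ}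
    (h0 : 0 < t) (h1 : t < 1)
    (hno : ∀ p ∈ Pts F, dist v p = D.G v → ∀ κ : ℝ, 0 < κ → p - v ≠ κ • zz a b t)
    (hpos : 0 < D.s v ε (Nz (zz a b t))) {η : ℝ} (hη : 0 < η) :
    ∃ t', 0 < t' ∧ t' < 1 ∧ |t' - t| < η ∧
      D.s v ε (Nz (zz a b t)) < D.s v ε (Nz (zz a b t')) := by
  have hn : 0 < ‖zz a b t‖ := norm_pos_iff.2 (h.ne h0.le h1.le)
  have hpos' := hpos
  rw [D.s_Nz L (h.td h0.le h1.le)] at hpos'
  have hsg : 0 < D.sg v F (zz a b t) := by
    by_contra hc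
    push Not at hc
    have := div_nonpos_of_nonpos_of_nonneg hc hn.le
    linarith
  obtain ⟨p, hp, hact, hval⟩ := D.exists_sg h.ta.1 (zz a b t)
  rw [hval] at hsg
  have hpl : ⟪Q.n F, p - v⟫ = 0 := by
    rw [← sl_sub, h.ta.1.2, D.plane F p hp]; simp
  obtain ⟨l, m, hw⟩ := h.coord hpl
  rcases lt_trichotomy 0 ((1 - t) * m - t * l) with hd | hd | hd
  · obtain ⟨t', h2, h3, h4, h5⟩ := D.arc_up L h hp hact hw h0.le h1 hval hsg hd hη
    exact ⟨t', by linarith, h3, by rw [abs_of_pos (by linarith)]; linarith, h5⟩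
  · exfalso
    have e1 : p - v = (l + m) • zz a b t := by
      have hl : l = (l + m) * (1 - t) := by linarith
      have hm : m = (l + m) * t := by linarith
      rw [hw]; unfold zz
      rw [smul_add, smul_smul, smul_smul, ← hl, ← hm]
    have hκ : 0 < l + m := by
      rw [e1, inner_smul_right, real_inner_self_eq_norm_sq] at hsg
      have : 0 < ‖zz a b t‖ ^ 2 := by positivity
      exact (mul_pos_iff_of_pos_right this).1 hsg
    exact hno p hp hact _ hκ e1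
  · have hz := zz_symm a b t
    rw [hz] at hval hsg
    obtain ⟨t', h2, h3, h4, h5⟩ := D.arc_up L h.symm hp hact (l := m) (m := l)
      (by rw [hw]; abel) (t := 1 - t) (by linarith) (by linarith) hval hsg
      (by linarith) hη
    refine ⟨1 - t', by linarith, by linarith, ?_, ?_⟩
    · rw [abs_of_neg (by linarith)]; linarith
    · rw [zz_symm a b t, zz_symm a b (1 - t'), sub_sub_cancel]; exact h5

/-- junction of two arcs at an edge direction -/
lemma arc_jun {v : E} {ε : ℝ} (L : D.Loc v ε) {F F' K : ι} {a q b : E}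
    (hT : VTriple Q v F F' K) (hq : ED Q v F F' K q)
    (h : Arc Q v F a q) (h' : Arc Q v F' q b) (ha : ⟪Q.n F', a⟫ < 0) (hb : ⟪Q.n F, b⟫ < 0)
    (hpos : 0 < D.s v ε q) {η : ℝ} (hη : 0 < η) :
    (∃ t', 0 < t' ∧ t' < 1 ∧ 1 - η < t' ∧ D.s v ε q < D.s v ε (Nz (zz a q t'))) ∨
    (∃ t', 0 < t' ∧ t' < 1 ∧ t' < η ∧ D.s v ε q < D.s v ε (Nz (zz q b t'))) := by
  have hz0 : zz q b 0 = q := by simp [zz]
  have hz1 : zz q a 0 = q := by simp [zz]
  have hNq : Nz q = q := Nz_of hq.1 one_pos (by simp)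
  have hsq : D.s v ε q = D.sg v F q := by
    have := D.s_Nz L (z := q) (F := F) (by rw [hNq]; exact h.tb)
    rw [hNq, hq.1, div_one] at this
    exact this
  obtain ⟨p, hp, hact, hval⟩ := D.exists_sg h.ta.1 q
  rw [hsq] at hpos
  have hF'p := D.vgen F F' hT.adj p hp
  have hslp : ⟪Q.n F', p - v⟫ = - Q.sl F' p := by
    rw [← sl_sub, hT.ing.2]; ring
  rcases lt_or_gt_of_ne hF'p with hlt | hgt
  · -- the image is seen in the other face
    right
    obtain ⟨hU, hUact, hUe⟩ := D.vtr hT hq hp hact hval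
    have hUF : Q.sl F (Q.U F F' p) = - Q.sl F' p := sl_U_f hT.adj (D.plane F p hp)
    have hpl : ⟪Q.n F', Q.U F F' p - v⟫ = 0 := by
      rw [← sl_sub, hT.ing.2, D.plane F' _ hU]; simp
    obtain ⟨l, m, hw⟩ := h'.coord hpl
    have h1 : ⟪Q.n F, Q.U F F' p - v⟫ = Q.sl F' p := by
      rw [← sl_sub, hT.inf.2, hUF]; ring
    have hm : 0 < m := by
      rw [hw, inner_add_right, inner_smul_right, inner_smul_right, hq.2.1] at h1
      by_contra hc
      push Not at hc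
      nlinarith
    have hval' : D.sg v F' (zz q b 0) = ⟪zz q b 0, Q.U F F' p - v⟫ := by
      rw [hz0, ← D.vsg_eq hT hq, hval, hUe]
    obtain ⟨t', h2, h3, h4, h5⟩ := D.arc_up L h' hU hUact hw (le_refl 0) one_pos hval'
      (by rw [hz0, hUe, ← hval]; exact hpos) (by simpa using hm) hη
    rw [hz0, hNq] at h5
    exact ⟨t', h2, h3, by linarith, h5⟩
  · left
    have hpl : ⟪Q.n F, p - v⟫ = 0 := by
      rw [← sl_sub, hT.inf.2, D.plane F _ hp]; simp
    obtain ⟨l, m, hw⟩ := h.coord hpl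
    have hl : 0 < l := by
      rw [hw, inner_add_right, inner_smul_right, inner_smul_right, hq.2.2.1] at hslp
      by_contra hc
      push Not at hc
      nlinarith
    obtain ⟨t', h2, h3, h4, h5⟩ := D.arc_up L h.symm hp hact (l := m) (m := l)
      (by rw [hw]; abel) (le_refl 0) one_pos (by rw [hz1]; exact hval)
      (by rw [hz1, ← hval]; exact hpos) (by simpa using hl) hη
    rw [hz1, hNq] at h5
    refine ⟨1 - t', by linarith, by linarith, by linarith, ?_⟩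
    rw [zz_symm a q (1 - t'), sub_sub_cancel]; exact h5

end Dev
end SPoly
end Pool.Agent.Lib.MP_dd45e6_gt
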