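import Pool.Agent.Lib.MP_dd45e6_gt.Poly

/-! Covering of the faces by triangles. -/

namespace Pool.Agent.Lib.MP_dd45e6_gt
open Set Metric Filter Topology
open scoped RealInnerProductSpace

/-- integer scalar product -/
def cvDotZ (a b : Z3) : ℤ := a.1 * b.1 + a.2.1 * b.2.1 + a.2.2 * b.2.2

/-- integer determinant -/
def cvDetZ (u v w : Z3) : ℤ := u.1 * (v.2.1 * w.2.2 - v.2.2 * w.2.1)
  - u.2.1 * (v.1 * w.2.2 - v.2.2 * w.1) + u.2.2 * (v.1 * w.2.1 - v.2.1 * w.1)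

/-- `s a - t b` -/
def linZ (s : ℤ) (a : Z3) (b : Z3) : Z3 := (s * a.1 - b.1, s * a.2.1 - b.2.1, s * a.2.2 - b.2.2)

/-- determinant on `E` -/
noncomputable def detE (u v w : E) : ℝ := u 0 * (v 1 * w 2 - v 2 * w 1)
  - u 1 * (v 0 * w 2 - v 2 * w 0) + u 2 * (v 0 * w 1 - v 1 * w 0)

/-- scalar product in coordinates -/
noncomputable def dotE (u v : E) : ℝ := u 0 * v 0 + u 1 * v 1 + u 2 * v 2

lemma toE_0 (W : ℤ) (P : Z3) : toE W P 0 = (P.1 : ℝ) / W := rfl
lemma toE_1 (W : ℤ) (P : Z3) : toE W P 1 = (P.2.1 : ℝ) / W := rfl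
lemma toE_2 (W : ℤ) (P : Z3) : toE W P 2 = (P.2.2 : ℝ) / W := rfl

lemma inner_dotE (u v : E) : ⟪u, v⟫ = dotE u v := by
  rw [EuclideanSpace.inner_eq_star_dotProduct]
  simp [dotProduct, Fin.sum_univ_three, dotE]
  ring

lemma cv_pT_pos : ∀ f : Fin 8, 0 < pT f := by decide
lemma cv_W0_pos : 0 < W0 := by decide

lemma pT_posR (f : Fin 8) : (0:ℝ) < pT f := by exact_mod_cast cv_pT_pos f
lemma W0_posR : (0:ℝ) < W0 := by exact_mod_cast cv_W0_pos

/-- slacks in coordinates -/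
lemma sl_Q0 (f : Fin 8) (x : E) :
    Q0.sl f x = ((KT f : ℝ) - dotE (toE 1 (uT f)) x) / pT f := by
  have hp := (pT_posR f).ne'
  have h1 : Q0.sl f x = (KT f : ℝ) / pT f - ⟪toE (pT f) (uT f), x⟫ := rfl
  rw [h1, inner_dotE]
  simp only [dotE, toE_0, toE_1, toE_2]
  push_cast
  field_simp

lemma sl_toE (f : Fin 8) (W : ℤ) (hW : (0:ℝ) < W) (P : Z3) :
    Q0.sl f (toE W P) = ((KT f * W - cvDotZ (uT f) P : ℤ) : ℝ) / (pT f * W) := by
  have hp := (pT_posR f).ne'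
  rw [sl_Q0]
  simp only [dotE, toE_0, toE_1, toE_2, cvDotZ]
  push_cast
  field_simp

/-- Cramer's rule in the plane orthogonal to `u` -/
lemma cramer (u a b y : E) (ha : dotE u a = 0) (hb : dotE u b = 0) (hy : dotE u y = 0) :
    detE u a b • y = (- detE u b y) • a + detE u a y • b := by
  simp only [dotE] at ha hb hy
  ext i
  fin_cases i
  · simp only [detE, PiLp.add_apply, PiLp.smul_apply, smul_eq_mul, Fin.zero_eta, Fin.isValue]
    linear_combination (a 1 * b 2 - a 2 * b 1) * hy + (b 1 * y 2 - b 2 * y 1) * ha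
      + (y 1 * a 2 - y 2 * a 1) * hb
  · simp only [detE, PiLp.add_apply, PiLp.smul_apply, smul_eq_mul, Fin.mk_one, Fin.isValue]
    linear_combination (a 2 * b 0 - a 0 * b 2) * hy + (b 2 * y 0 - b 0 * y 2) * ha
      + (y 2 * a 0 - y 0 * a 2) * hb
  · simp only [detE, PiLp.add_apply, PiLp.smul_apply, smul_eq_mul, Fin.reduceFinMk, Fin.isValue]
    linear_combination (a 0 * b 1 - a 1 * b 0) * hy + (b 0 * y 1 - b 1 * y 0) * ha
      + (y 0 * a 1 - y 1 * a 0) * hb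

/-- barycentric coordinates -/
lemma bary (u P0 P1 P2 x : E) (K : ℝ) (h0 : dotE u P0 = K) (h1 : dotE u P1 = K)
    (h2 : dotE u P2 = K) (hx : dotE u x = K) (hD : detE u (P1 - P0) (P2 - P0) ≠ 0) :
    x = (1 - (- detE u (P2 - P0) (x - P0) / detE u (P1 - P0) (P2 - P0))
        - detE u (P1 - P0) (x - P0) / detE u (P1 - P0) (P2 - P0)) • P0
      + (- detE u (P2 - P0) (x - P0) / detE u (P1 - P0) (P2 - P0)) • P1
      + (detE u (P1 - P0) (x - P0) / detE u (P1 - P0) (P2 - P0)) • P2 := by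
  have e : ∀ v w : E, dotE u (v - w) = dotE u v - dotE u w := by
    intro v w; simp only [dotE, PiLp.sub_apply]; ring
  have key := cramer u (P1 - P0) (P2 - P0) (x - P0) (by rw [e, h1, h0]; ring)
    (by rw [e, h2, h0]; ring) (by rw [e, hx, h0]; ring)
  set D := detE u (P1 - P0) (P2 - P0) with hDdef
  set F1 := detE u (P1 - P0) (x - P0)
  set F2 := detE u (P2 - P0) (x - P0)
  have k2 : x - P0 = (- F2 / D) • (P1 - P0) + (F1 / D) • (P2 - P0) := by
    have : D⁻¹ • (D • (x - P0)) = D⁻¹ • ((-F2) • (P1 - P0) + F1 • (P2 - P0)) := by rw [key]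
    rw [smul_smul, inv_mul_cancel₀ hD, one_smul, smul_add, smul_smul, smul_smul] at this
    rw [this]
    congr 2 <;> ring_nf
  have k3 : x = P0 + (x - P0) := by abel
  rw [k2] at k3
  rw [k3]
  module

lemma detE_toE (u A B C : Z3) (WA W : ℤ) (s : ℤ) (hs : (WA : ℝ) = s * W) (hW : (0:ℝ) < W)
    (hs0 : (0:ℝ) < s) :
    detE (toE 1 u) (toE W B - toE WA A) (toE W C - toE WA A) * (WA * WA)
      = ((cvDetZ u (linZ s B A) (linZ s C A) : ℤ) : ℝ) := by
  have h1 := hW.ne'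
  have h2 := hs0.ne'
  simp only [detE, cvDetZ, linZ, PiLp.sub_apply, toE_0, toE_1, toE_2]
  rw [hs]
  push_cast
  field_simp

lemma cyc_sign (F : Fin 6 → ℝ) (h : F 0 + F 1 + F 2 + F 3 + F 4 + F 5 = 0) :
    ∃ k : Fin 6, 0 ≤ F k ∧ F (k + 1) ≤ 0 := by
  by_contra hcon
  push Not at hcon
  have H : ∀ k : Fin 6, 0 ≤ F k → 0 < F (k + 1) := hcon
  have s0 := H 0
  have s1 := H 1
  have s2 := H 2
  have s3 := H 3
  have s4 := H 4
  have s5 := H 5
  simp only [show (0:Fin 6) + 1 = 1 from rfl, show (1:Fin 6) + 1 = 2 from rfl,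
    show (2:Fin 6) + 1 = 3 from rfl, show (3:Fin 6) + 1 = 4 from rfl,
    show (4:Fin 6) + 1 = 5 from rfl, show (5:Fin 6) + 1 = 0 from rfl] at s0 s1 s2 s3 s4 s5
  rcases le_or_gt 0 (F 0) with h0 | h0
  · have a1 := s0 h0
    have a2 := s1 a1.le
    have a3 := s2 a2.le
    have a4 := s3 a3.le
    have a5 := s4 a4.le
    linarith
  · rcases le_or_gt 0 (F 5) with h5 | h5
    · linarith [s5 h5]
    rcases le_or_gt 0 (F 4) with h4 | h4
    · linarith [s4 h4]
    rcases le_or_gt 0 (F 3) with h3 | h3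
    · linarith [s3 h3]
    rcases le_or_gt 0 (F 2) with h2 | h2
    · linarith [s2 h2]
    rcases le_or_gt 0 (F 1) with h1 | h1
    · linarith [s1 h1]
    linarith

/-- a point of the face is in the plane -/
lemma plane_of_face {f : Fin 8} {x : E} (hx : Q0.sl f x = 0) :
    dotE (toE 1 (uT f)) x = KT f := by
  rw [sl_Q0] at hx
  have hp := (pT_posR f).ne'
  rw [div_eq_zero_iff] at hx
  rcases hx with hx | hx
  · linarith
  · exact absurd hx hp

lemma sl_comb3 (g : Fin 8) (P0 P1 P2 : E) (l0 l1 l2 : ℝ) (h : l0 + l1 + l2 = 1) :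
    Q0.sl g (l0 • P0 + l1 • P1 + l2 • P2)
      = l0 * Q0.sl g P0 + l1 * Q0.sl g P1 + l2 * Q0.sl g P2 := by
  simp only [SPoly.sl, inner_add_right, inner_smul_right]
  linear_combination (-Q0.h g) * h

/-- integer facts about the hexagons -/
lemma hex_facts : ∀ f : Fin 8, (f = 0 ∨ f = 2 ∨ f = 3 ∨ f = 4) → ∀ k : Fin 6,
    0 < cvDetZ (uT f) (linZ 6 (YT (hexT f k)) (cT f)) (linZ 6 (YT (hexT f (k + 1))) (cT f)) ∧
    KT f * W0 = cvDotZ (uT f) (YT (hexT f k)) ∧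
    KT f * (6 * W0) = cvDotZ (uT f) (cT f) ∧
    ∃ g : Fin 8, KT g * W0 = cvDotZ (uT g) (YT (hexT f k)) ∧
      KT g * W0 = cvDotZ (uT g) (YT (hexT f (k + 1))) ∧
      cvDotZ (uT g) (cT f) < KT g * (6 * W0) := by
  decide


theorem cover_hex (f : Fin 8) (hf : f = 0 ∨ f = 2 ∨ f = 3 ∨ f = 4) (x : E) (hx : x ∈ Q0.face f) :
    ∃ k : Fin 6, ∃ l : Fin 3 → ℝ, (∀ i, 0 ≤ l i) ∧ l 0 + l 1 + l 2 = 1 ∧
      x = l 0 • toE (6 * W0) (cT f) + l 1 • toE W0 (YT (hexT f k))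
        + l 2 • toE W0 (YT (hexT f (k + 1))) := by
  have hW := W0_posR
  have hW6 : (0:ℝ) < ((6 * W0 : ℤ) : ℝ) := by push_cast; linarith
  have hs : ((6 * W0 : ℤ) : ℝ) = ((6:ℤ):ℝ) * W0 := by push_cast; ring
  set u := toE 1 (uT f) with hu
  set c := toE (6 * W0) (cT f) with hc
  let w : Fin 6 → E := fun k => toE W0 (YT (hexT f k))
  let F : Fin 6 → ℝ := fun k => detE u (w k - c) (x - c)
  have hsum : F 0 + F 1 + F 2 + F 3 + F 4 + F 5 = 0 := by
    have e0 : (w 0 0 - c 0) + (w 1 0 - c 0) + (w 2 0 - c 0) + (w 3 0 - c 0) + (w 4 0 - c 0)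
        + (w 5 0 - c 0) = 0 := by
      simp only [w, hc, toE_0, cT, addZ]
      push_cast
      field_simp
      ring
    have e1 : (w 0 1 - c 1) + (w 1 1 - c 1) + (w 2 1 - c 1) + (w 3 1 - c 1) + (w 4 1 - c 1)
        + (w 5 1 - c 1) = 0 := by
      simp only [w, hc, toE_1, cT, addZ]
      push_cast
      field_simp
      ring
    have e2 : (w 0 2 - c 2) + (w 1 2 - c 2) + (w 2 2 - c 2) + (w 3 2 - c 2) + (w 4 2 - c 2)
        + (w 5 2 - c 2) = 0 := by
      simp only [w, hc, toE_2, cT, addZ]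
      push_cast
      field_simp
      ring
    simp only [F, detE, PiLp.sub_apply]
    linear_combination (u 2 * (x 1 - c 1) - u 1 * (x 2 - c 2)) * e0
      + (u 0 * (x 2 - c 2) - u 2 * (x 0 - c 0)) * e1
      + (u 1 * (x 0 - c 0) - u 0 * (x 1 - c 1)) * e2
  obtain ⟨k, hk1, hk2⟩ := cyc_sign F hsum
  obtain ⟨hD, hwk, hcf, g, hg1, hg2, hg3⟩ := hex_facts f hf k
  obtain ⟨_, hwk1, _⟩ := hex_facts f hf (k + 1)
  have hplane := plane_of_face hx.2
  have slzero : ∀ (g : Fin 8) (W : ℤ) (P : Z3), (0:ℝ) < W → KT g * W = cvDotZ (uT g) P →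
      Q0.sl g (toE W P) = 0 := by
    intro g W P hW' h
    rw [sl_toE g W hW', h]
    simp
  have hD2 := detE_toE (uT f) (cT f) (YT (hexT f k)) (YT (hexT f (k + 1))) (6 * W0) W0 6 hs hW
    (by norm_num)
  have hDpos : 0 < detE u (w k - c) (w (k + 1) - c) := by
    have h3 : (0:ℝ) < ((cvDetZ (uT f) (linZ 6 (YT (hexT f k)) (cT f))
      (linZ 6 (YT (hexT f (k + 1))) (cT f)) : ℤ) : ℝ) := by exact_mod_cast hD
    rw [← hD2] at h3
    by_contra hcon
    push Not at hcon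
    have : detE u (w k - c) (w (k + 1) - c) * (((6 * W0 : ℤ):ℝ) * ((6 * W0 : ℤ):ℝ)) ≤ 0 :=
      mul_nonpos_of_nonpos_of_nonneg hcon (by positivity)
    linarith
  have hb := bary u c (w k) (w (k + 1)) x (KT f) (plane_of_face (slzero f _ _ hW6 hcf))
    (plane_of_face (slzero f _ _ hW hwk)) (plane_of_face (slzero f _ _ hW hwk1)) hplane hDpos.ne'
  set D := detE u (w k - c) (w (k + 1) - c) with hDdef
  have hl1 : 0 ≤ - detE u (w (k + 1) - c) (x - c) / D :=
    div_nonneg (by have : F (k + 1) ≤ 0 := hk2; simp only [F] at this; linarith) hDpos.le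
  have hl2 : 0 ≤ detE u (w k - c) (x - c) / D := div_nonneg hk1 hDpos.le
  set l1 := - detE u (w (k + 1) - c) (x - c) / D with hl1def
  set l2 := detE u (w k - c) (x - c) / D with hl2def
  have hl0 : 0 ≤ 1 - l1 - l2 := by
    have h4 := sl_comb3 g c (w k) (w (k + 1)) (1 - l1 - l2) l1 l2 (by ring)
    rw [← hb, slzero g _ _ hW hg1, slzero g _ _ hW hg2] at h4
    have h5 := hx.1 g
    rw [h4] at h5
    have h6 : 0 < Q0.sl g c := by
      rw [hc, sl_toE g _ hW6]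
      apply div_pos
      · have : 0 < KT g * (6 * W0) - cvDotZ (uT g) (cT f) := by linarith
        exact_mod_cast this
      · exact mul_pos (pT_posR g) hW6
    by_contra hcon
    push Not at hcon
    have := mul_neg_of_neg_of_pos hcon h6
    linarith
  refine ⟨k, ![1 - l1 - l2, l1, l2], ?_, ?_, ?_⟩
  · intro i
    fin_cases i
    · exact hl0
    · exact hl1
    · exact hl2
  · simp only [Matrix.cons_val_zero, Matrix.cons_val_one, Matrix.cons_val]
    ring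
  · exact hb

/-- integer facts about the triangles -/
lemma tri_facts : ∀ f : Fin 8, (f = 1 ∨ f = 5 ∨ f = 6 ∨ f = 7) →
    cvDetZ (uT f) (linZ 1 (YT (triT f 1)) (YT (triT f 0)))
      (linZ 1 (YT (triT f 2)) (YT (triT f 0))) ≠ 0 ∧
    (∀ k : Fin 3, KT f * W0 = cvDotZ (uT f) (YT (triT f k))) ∧
    ∀ k : Fin 3, ∃ g : Fin 8, cvDotZ (uT g) (YT (triT f k)) < KT g * W0 ∧
      ∀ j : Fin 3, j ≠ k → KT g * W0 = cvDotZ (uT g) (YT (triT f j)) := by
  decide

theorem cover_tri (f : Fin 8) (hf : f = 1 ∨ f = 5 ∨ f = 6 ∨ f = 7) (x : E) (hx : x ∈ Q0.face f) :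
    ∃ l : Fin 3 → ℝ, (∀ i, 0 ≤ l i) ∧ l 0 + l 1 + l 2 = 1 ∧
      x = l 0 • toE W0 (YT (triT f 0)) + l 1 • toE W0 (YT (triT f 1))
        + l 2 • toE W0 (YT (triT f 2)) := by
  have hW := W0_posR
  have hs : ((W0 : ℤ) : ℝ) = ((1:ℤ):ℝ) * W0 := by push_cast; ring
  obtain ⟨hD, hpl, hg⟩ := tri_facts f hf
  have slzero : ∀ (g : Fin 8) (W : ℤ) (P : Z3), (0:ℝ) < W → KT g * W = cvDotZ (uT g) P →
      Q0.sl g (toE W P) = 0 := by
    intro g W P hW' h
    rw [sl_toE g W hW', h]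
    simp
  have slpos : ∀ (g : Fin 8) (P : Z3), cvDotZ (uT g) P < KT g * W0 →
      0 < Q0.sl g (toE W0 P) := by
    intro g P h
    rw [sl_toE g _ hW]
    apply div_pos
    · have : 0 < KT g * W0 - cvDotZ (uT g) P := by linarith
      exact_mod_cast this
    · exact mul_pos (pT_posR g) hW
  have hD2 := detE_toE (uT f) (YT (triT f 0)) (YT (triT f 1)) (YT (triT f 2)) W0 W0 1 hs hW
    (by norm_num)
  let w : Fin 3 → E := fun k => toE W0 (YT (triT f k))
  have hDne : detE (toE 1 (uT f)) (w 1 - w 0) (w 2 - w 0) ≠ 0 := by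
    intro h0
    rw [h0, zero_mul] at hD2
    exact hD (by exact_mod_cast hD2.symm)
  have hb := bary (toE 1 (uT f)) (w 0) (w 1) (w 2) x (KT f)
    (plane_of_face (slzero f _ _ hW (hpl 0)))
    (plane_of_face (slzero f _ _ hW (hpl 1))) (plane_of_face (slzero f _ _ hW (hpl 2)))
    (plane_of_face hx.2) hDne
  set D := detE (toE 1 (uT f)) (w 1 - w 0) (w 2 - w 0) with hDdef
  set l1 := - detE (toE 1 (uT f)) (w 2 - w 0) (x - w 0) / D with hl1def
  set l2 := detE (toE 1 (uT f)) (w 1 - w 0) (x - w 0) / D with hl2def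
  have hcomb : ∀ g, Q0.sl g x = (1 - l1 - l2) * Q0.sl g (w 0) + l1 * Q0.sl g (w 1)
      + l2 * Q0.sl g (w 2) := by
    intro g
    have h4 := sl_comb3 g (w 0) (w 1) (w 2) (1 - l1 - l2) l1 l2 (by ring)
    rwa [← hb] at h4
  have hl0 : 0 ≤ 1 - l1 - l2 := by
    obtain ⟨g, g1, g2⟩ := hg 0
    have h5 := hx.1 g
    rw [hcomb g, show Q0.sl g (w 1) = 0 from slzero g _ _ hW (g2 1 (by decide)),
      show Q0.sl g (w 2) = 0 from slzero g _ _ hW (g2 2 (by decide))] at h5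
    have h6 : 0 < Q0.sl g (w 0) := slpos g _ g1
    by_contra hcon
    push Not at hcon
    have := mul_neg_of_neg_of_pos hcon h6
    linarith
  have hl1 : 0 ≤ l1 := by
    obtain ⟨g, g1, g2⟩ := hg 1
    have h5 := hx.1 g
    rw [hcomb g, show Q0.sl g (w 0) = 0 from slzero g _ _ hW (g2 0 (by decide)),
      show Q0.sl g (w 2) = 0 from slzero g _ _ hW (g2 2 (by decide))] at h5
    have h6 : 0 < Q0.sl g (w 1) := slpos g _ g1
    by_contra hcon
    push Not at hcon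
    have := mul_neg_of_neg_of_pos hcon h6
    linarith
  have hl2 : 0 ≤ l2 := by
    obtain ⟨g, g1, g2⟩ := hg 2
    have h5 := hx.1 g
    rw [hcomb g, show Q0.sl g (w 0) = 0 from slzero g _ _ hW (g2 0 (by decide)),
      show Q0.sl g (w 1) = 0 from slzero g _ _ hW (g2 1 (by decide))] at h5
    have h6 : 0 < Q0.sl g (w 2) := slpos g _ g1
    by_contra hcon
    push Not at hcon
    have := mul_neg_of_neg_of_pos hcon h6
    linarith
  refine ⟨![1 - l1 - l2, l1, l2], ?_, ?_, ?_⟩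
  · intro i
    fin_cases i
    · exact hl0
    · exact hl1
    · exact hl2
  · simp only [Matrix.cons_val_zero, Matrix.cons_val_one, Matrix.cons_val]
    ring
  · exact hb

end Pool.Agent.Lib.MP_dd45e6_gt
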