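import Pool.Agent.Lib.MP_dd45e6_gt.Corner

/-! Vertices: the circle of directions. -/

namespace Pool.Agent.Lib.MP_dd45e6_gt
open Set Metric Filter Topology
open scoped RealInnerProductSpace

/-- piecewise linear path through `q 0, ..., q 4` -/
noncomputable def Gam (q : ℕ → E) (τ : ℝ) : E :=
  ∑ j ∈ Finset.range 5, (max 0 (1 - |τ - j|)) • q j

lemma continuous_Gam (q : ℕ → E) : Continuous (Gam q) := by
  unfold Gam
  refine continuous_finsetSum _ fun j _ => ?_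
  exact (by fun_prop : Continuous fun τ : ℝ => max 0 (1 - |τ - (j:ℝ)|)).smul continuous_const

lemma hat_zero {x : ℝ} (h : 1 ≤ |x|) : max 0 (1 - |x|) = 0 := max_eq_left (by linarith)

lemma Gam_eq (q : ℕ → E) {j : ℕ} (hj : j < 4) {t : ℝ} (h0 : 0 ≤ t) (h1 : t ≤ 1) :
    Gam q (j + t) = zz (q j) (q (j + 1)) t := by
  have e0 : max 0 (1 - |t|) = 1 - t := by
    rw [abs_of_nonneg h0]; exact max_eq_right (by linarith)
  have e1 : max 0 (1 - |t - 1|) = t := by
    rw [abs_of_nonpos (by linarith)]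
    rw [max_eq_right (by linarith)]; ring
  have key : ∀ i : ℕ, (i + 2 ≤ j + 1 ∨ j + 2 ≤ i) → max 0 (1 - |(j:ℝ) + t - i|) = 0 := by
    intro i hi
    apply hat_zero
    rcases hi with hi | hi
    · have : (i:ℝ) + 2 ≤ j + 1 := by exact_mod_cast hi
      rw [abs_of_nonneg (by linarith)]; linarith
    · have : (j:ℝ) + 2 ≤ i := by exact_mod_cast hi
      rw [abs_of_nonpos (by linarith)]; linarith
  have hs : Gam q (j + t) = ∑ i ∈ ({j, j + 1} : Finset ℕ), (max 0 (1 - |(j:ℝ) + t - i|)) • q i := by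
    unfold Gam
    symm
    apply Finset.sum_subset
    · intro i hi
      simp only [Finset.mem_insert, Finset.mem_singleton] at hi
      rw [Finset.mem_range]
      rcases hi with rfl | rfl <;> omega
    · intro i _ hi
      simp only [Finset.mem_insert, Finset.mem_singleton, not_or] at hi
      rw [key i (by omega), zero_smul]
  rw [hs, Finset.sum_pair (by omega)]
  unfold zz
  congr 1
  · rw [add_sub_cancel_left, e0]
  · rw [show (j:ℝ) + t - ((j + 1 : ℕ) : ℝ) = t - 1 by push_cast; ring, e1]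

namespace SPoly
variable {ι : Type} {Q : SPoly ι}
namespace Dev
variable {A : ι} {x : E} {Pts : ι → Finset E}

/-- combinatorial description of the circle of directions at a vertex -/
structure Cyc (D : Dev Q A x Pts) (v : E) (F : ℕ → ι) (q : ℕ → E) : Prop where
  arc : ∀ j < 4, Arc Q v (F j) (q j) (q (j + 1))
  nov : ∀ j < 4, ∀ p ∈ Pts (F j), dist v p = D.G v → ∀ t : ℝ, 0 < t → t < 1 →
    ∀ κ : ℝ, 0 < κ → p - v ≠ κ • zz (q j) (q (j + 1)) t
  jun : ∀ j < 3, ∃ K, VTriple Q v (F j) (F (j + 1)) K ∧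
    ED Q v (F j) (F (j + 1)) K (q (j + 1)) ∧ ⟪Q.n (F (j + 1)), q j⟫ < 0 ∧
    ⟪Q.n (F j), q (j + 2)⟫ < 0
  surj : ∀ u ∈ Q.Dirs v, ∃ j < 4, ∃ t ∈ Icc (0:ℝ) 1, u = Nz (zz (q j) (q (j + 1)) t)

variable {D : Dev Q A x Pts} {v : E} {F : ℕ → ι} {q : ℕ → E} (C : D.Cyc v F q)
include C

omit C in
/-- every parameter in `[0,4]` is in an arc -/
lemma Cyc.split {τ : ℝ} (h0 : 0 ≤ τ) (h4 : τ ≤ 4) : ∃ j < 4, ∃ t ∈ Icc (0:ℝ) 1, τ = (j : ℕ) + t := by
  by_cases h : τ = 4
  · exact ⟨3, by norm_num, 1, ⟨zero_le_one, le_refl 1⟩, by rw [h]; norm_num⟩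
  · have h4' : τ < 4 := lt_of_le_of_ne h4 h
    refine ⟨⌊τ⌋₊, ?_, τ - ⌊τ⌋₊, ⟨?_, ?_⟩, by ring⟩
    · rw [Nat.floor_lt h0]; exact_mod_cast h4'
    · have := Nat.floor_le h0; linarith
    · have := Nat.lt_floor_add_one τ; linarith

lemma Cyc.td {τ : ℝ} (h0 : 0 ≤ τ) (h4 : τ ≤ 4) : Nz (Gam q τ) ∈ Q.Dirs v ∧ Gam q τ ≠ 0 := by
  obtain ⟨j, hj, t, ht, rfl⟩ := Cyc.split h0 h4
  rw [Gam_eq q hj ht.1 ht.2]
  exact ⟨⟨F j, (C.arc j hj).td ht.1 ht.2⟩, (C.arc j hj).ne ht.1 ht.2⟩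

lemma Cyc.up {ε : ℝ} (L : D.Loc v ε) {τ : ℝ} (h0 : 0 < τ) (h4 : τ < 4)
    (hpos : 0 < D.s v ε (Nz (Gam q τ))) {η : ℝ} (hη : 0 < η) :
    ∃ τ', 0 < τ' ∧ τ' < 4 ∧ |τ' - τ| < η ∧
      D.s v ε (Nz (Gam q τ)) < D.s v ε (Nz (Gam q τ')) := by
  obtain ⟨j, hj, t, ht, rfl⟩ := Cyc.split h0.le h4.le
  have hj0 : (0:ℝ) ≤ j := Nat.cast_nonneg j
  have hj4 : (j:ℝ) + 1 ≤ 4 := by exact_mod_cast hj
  rcases ht.1.lt_or_eq with h1 | h1
  · rcases ht.2.lt_or_eq with h2 | h2
    · -- interior of an arc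
      rw [Gam_eq q hj ht.1 ht.2] at hpos
      obtain ⟨t', k1, k2, k3, k4⟩ := D.arc_int L (C.arc j hj) h1 h2
        (fun p hp ha κ hκ => C.nov j hj p hp ha t h1 h2 κ hκ) hpos hη
      refine ⟨j + t', by linarith, by linarith, ?_, ?_⟩
      · rw [show (j:ℝ) + t' - (j + t) = t' - t by ring]; exact k3
      · rw [Gam_eq q hj ht.1 ht.2, Gam_eq q hj k1.le k2.le]; exact k4
    · -- right end
      subst h2
      have hj3 : j < 3 := by
        by_contra hc
        have : j = 3 := by omega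
        subst this
        norm_num at h4
      obtain ⟨K, hT, hq, ha, hb⟩ := C.jun j hj3
      have hj4' : (j:ℝ) + 1 + 1 ≤ 4 := by
        have : j + 1 + 1 ≤ 4 := by omega
        exact_mod_cast this
      have hGq : Gam q (j + 1) = q (j + 1) := by
        rw [Gam_eq q hj zero_le_one (le_refl 1)]; simp [zz]
      have hNq : Nz (q (j + 1)) = q (j + 1) := Nz_of hq.1 one_pos (by simp)
      rw [hGq, hNq] at hpos ⊢
      rcases D.arc_jun L hT hq (C.arc j hj) (C.arc (j + 1) (by omega)) ha hb hpos hη with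
        ⟨t', k1, k2, k3, k4⟩ | ⟨t', k1, k2, k3, k4⟩
      · refine ⟨j + t', by linarith, by linarith, ?_, ?_⟩
        · rw [abs_of_neg (by linarith)]; linarith
        · rw [Gam_eq q hj k1.le k2.le]; exact k4
      · refine ⟨((j + 1 : ℕ) : ℝ) + t', by push_cast; linarith, by push_cast; linarith, ?_, ?_⟩
        · push_cast; rw [abs_of_pos (by linarith)]; linarith
        · rw [Gam_eq q (by omega) k1.le k2.le]; exact k4
  · -- left end
    subst h1
    have hj1 : 1 ≤ j := by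
      by_contra hc
      have : j = 0 := by omega
      subst this
      norm_num at h0
    obtain ⟨i, rfl⟩ : ∃ i, j = i + 1 := ⟨j - 1, by omega⟩
    obtain ⟨K, hT, hq, ha, hb⟩ := C.jun i (by omega)
    have hGq : Gam q (((i + 1 : ℕ) : ℝ) + 0) = q (i + 1) := by
      rw [Gam_eq q hj (le_refl 0) zero_le_one]; simp [zz]
    have hNq : Nz (q (i + 1)) = q (i + 1) := Nz_of hq.1 one_pos (by simp)
    rw [hGq, hNq] at hpos ⊢
    push_cast at hj4 hj0 ⊢
    have hi0 : (0:ℝ) ≤ i := Nat.cast_nonneg i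
    rcases D.arc_jun L hT hq (C.arc i (by omega)) (C.arc (i + 1) (by omega)) ha hb hpos hη with
      ⟨t', k1, k2, k3, k4⟩ | ⟨t', k1, k2, k3, k4⟩
    · refine ⟨i + t', by linarith, by linarith, ?_, ?_⟩
      · rw [abs_of_neg (by linarith)]; linarith
      · rw [Gam_eq q (by omega) k1.le k2.le]; exact k4
    · refine ⟨((i + 1 : ℕ) : ℝ) + t', by push_cast; linarith, by push_cast; linarith, ?_, ?_⟩
      · push_cast; rw [abs_of_pos (by linarith)]; linarith
      · rw [Gam_eq q (by omega) k1.le k2.le]; exact k4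

lemma Cyc.contN : ContinuousOn (fun τ => Nz (Gam q τ)) (Icc 0 4) := by
  have h1 : ContinuousOn (fun τ => ‖Gam q τ‖⁻¹) (Icc 0 4) := by
    apply ContinuousOn.inv₀ (continuous_Gam q).norm.continuousOn
    intro τ hτ
    exact norm_ne_zero_iff.2 (C.td hτ.1 hτ.2).2
  exact h1.fun_smul (continuous_Gam q).continuousOn

lemma Cyc.contS [Finite ι] {ε : ℝ} (L : D.Loc v ε) :
    ContinuousOn (fun τ => D.s v ε (Nz (Gam q τ))) (Icc 0 4) := by
  have hε := L.pos
  have h1 : ContinuousOn (fun τ => D.G (v + (ε / 2) • Nz (Gam q τ))) (Icc 0 4) := by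
    apply D.contG.comp (f := fun τ => v + (ε / 2) • Nz (Gam q τ))
    · exact continuousOn_const.add (C.contN.const_smul (ε / 2))
    · intro τ hτ
      exact L.mem_s (C.td hτ.1 hτ.2).1 (by linarith) (by linarith)
  unfold s
  exact (continuousOn_const.sub (h1.pow 2)).div_const ε

theorem Cyc.dich [Finite ι] (hv : v ∈ Q.S) {ε : ℝ} (L : D.Loc v ε) :
    SMax Q.S D.G v ∨ Reg Q.S D.G v := by
  have hcS := C.contS L
  have hsurj : ∀ u ∈ Q.Dirs v, ∃ τ ∈ Icc (0:ℝ) 4, u = Nz (Gam q τ) := by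
    intro u hu
    obtain ⟨j, hj, t, ht, h⟩ := C.surj u hu
    have hj0 : (0:ℝ) ≤ j := Nat.cast_nonneg j
    have hj4 : (j:ℝ) + 1 ≤ 4 := by exact_mod_cast hj
    refine ⟨j + t, ⟨by linarith [ht.1], by linarith [ht.2]⟩, ?_⟩
    rw [Gam_eq q hj ht.1 ht.2]; exact h
  obtain ⟨τ₀, hτ₀, hmin⟩ := (isCompact_Icc (a := (0:ℝ)) (b := 4)).exists_isMinOn
    ⟨0, by norm_num⟩ hcS
  have hmin' : ∀ u ∈ Q.Dirs v, D.s v ε (Nz (Gam q τ₀)) ≤ D.s v ε u := by
    intro u hu
    obtain ⟨τ, hτ, rfl⟩ := hsurj u hu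
    exact hmin hτ
  rcases lt_or_ge 0 (D.s v ε (Nz (Gam q τ₀))) with h | h
  · left; exact L.smax_of hv h hmin'
  · right
    apply L.reg_of hv one_pos
    · intro δ hδ _ u hu u' hu' hs hs'
      -- quasi-convexity
      have qc : ∀ a b : ℝ, 0 ≤ a → b ≤ 4 → D.s v ε (Nz (Gam q a)) < δ →
          D.s v ε (Nz (Gam q b)) < δ → ∀ τ ∈ Icc a b, D.s v ε (Nz (Gam q τ)) < δ := by
        intro a b ha hb hsa hsb τ hτ
        by_contra hcon
        push Not at hcon
        have hab : a ≤ b := hτ.1.trans hτ.2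
        obtain ⟨τm, hτm, hmax⟩ := (isCompact_Icc (a := a) (b := b)).exists_isMaxOn
          ⟨τ, hτ⟩ (hcS.mono (Icc_subset_Icc ha hb))
        have h1 : δ ≤ D.s v ε (Nz (Gam q τm)) := hcon.trans (hmax hτ)
        have hne_a : τm ≠ a := by rintro rfl; linarith
        have hne_b : τm ≠ b := by rintro rfl; linarith
        have hla : a < τm := lt_of_le_of_ne hτm.1 hne_a.symm
        have hlb : τm < b := lt_of_le_of_ne hτm.2 hne_b
        obtain ⟨τ', k1, k2, k3, k4⟩ := C.up L (by linarith : 0 < τm) (by linarith)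
          (by linarith) (lt_min (sub_pos.2 hla) (sub_pos.2 hlb))
        have k5 := k3.trans_le (min_le_left _ _)
        have k6 := k3.trans_le (min_le_right _ _)
        rw [abs_lt] at k5 k6
        have h2 : τ' ∈ Icc a b := ⟨by linarith, by linarith⟩
        have h3 : D.s v ε (Nz (Gam q τ')) ≤ D.s v ε (Nz (Gam q τm)) := hmax h2
        linarith
      have join : ∀ a b : ℝ, 0 ≤ a → a ≤ b → b ≤ 4 → D.s v ε (Nz (Gam q a)) < δ →
          D.s v ε (Nz (Gam q b)) < δ →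
          JoinedIn {u | u ∈ Q.Dirs v ∧ D.s v ε u < δ} (Nz (Gam q a)) (Nz (Gam q b)) := by
        intro a b ha hab hb hsa hsb
        have hm : ∀ t ∈ Icc (0:ℝ) 1, (1 - t) * a + t * b ∈ Icc a b := by
          intro t ht
          constructor <;> nlinarith [ht.1, ht.2]
        have hcg : ContinuousOn (fun t : ℝ => Nz (Gam q ((1 - t) * a + t * b))) (Icc 0 1) := by
          apply C.contN.comp (f := fun t : ℝ => (1 - t) * a + t * b) (by fun_prop)
          intro t ht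
          have := hm t ht
          exact ⟨ha.trans this.1, this.2.trans hb⟩
        have e0 : (fun t : ℝ => Nz (Gam q ((1 - t) * a + t * b))) 0 = Nz (Gam q a) := by simp
        have e1 : (fun t : ℝ => Nz (Gam q ((1 - t) * a + t * b))) 1 = Nz (Gam q b) := by simp
        apply JoinedIn.ofLine hcg e0 e1
        rintro _ ⟨t, ht, rfl⟩
        have := hm t ht
        exact ⟨(C.td (ha.trans this.1) (this.2.trans hb)).1, qc a b ha hb hsa hsb _ this⟩
      obtain ⟨a, ha, rfl⟩ := hsurj u hu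
      obtain ⟨b, hb, rfl⟩ := hsurj u' hu'
      rcases le_total a b with hab | hab
      · exact join a b ha.1 hab hb.2 hs hs'
      · exact (join b a hb.1 hab ha.2 hs' hs).symm
    · exact ⟨_, (C.td hτ₀.1 hτ₀.2).1, h⟩

omit C in
lemma surj_aux {a b u : E} (hu : ‖u‖ = 1) {l m : ℝ} (hl : 0 ≤ l) (hm : 0 ≤ m)
    (h : u = l • a + m • b) : ∃ t ∈ Icc (0:ℝ) 1, u = Nz (zz a b t) := by
  have hpos : 0 < l + m := by
    rcases hl.lt_or_eq with h1 | h1
    · linarith
    · rcases hm.lt_or_eq with h2 | h2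
      · linarith
      · exfalso
        rw [← h1, ← h2] at h
        simp only [zero_smul, add_zero] at h
        rw [h, norm_zero] at hu
        norm_num at hu
  refine ⟨m / (l + m), ⟨by positivity, by rw [div_le_one hpos]; linarith⟩, ?_⟩
  symm
  apply Nz_of hu (inv_pos.2 hpos)
  unfold zz
  rw [h, smul_add, smul_smul, smul_smul]
  have e1 : 1 - m / (l + m) = (l + m)⁻¹ * l := by field_simp; ring
  have e2 : m / (l + m) = (l + m)⁻¹ * m := by field_simp
  rw [e1, e2]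

omit C in
lemma arc_k0 {v a b : E} {F f g k : ι} (hT : VTriple Q v f g k) (ha : Q.TD v F a)
    (hb : Q.TD v F b) : -1 < ⟪a, b⟫ := by
  by_contra hc
  push Not at hc
  have h1 : ‖a + b‖ ^ 2 ≤ 0 := by
    rw [norm_add_sq_real, ha.2.1, hb.2.1]; linarith
  have h2 : a + b = 0 := by
    rw [← norm_eq_zero]
    have := sq_nonneg ‖a + b‖
    exact pow_eq_zero_iff two_ne_zero |>.1 (le_antisymm h1 this)
  have h3 : b = -a := by rw [eq_neg_iff_add_eq_zero, add_comm]; exact h2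
  have key : ∀ i, v ∈ Q.face i → ⟪Q.n i, a⟫ = 0 := by
    intro i hi
    have h4 := ha.2.2.2 i hi
    have h5 := hb.2.2.2 i hi
    rw [h3, inner_neg_right] at h5
    linarith
  have h4 := hT.indep (key f hT.inf) (key g hT.ing) (key k hT.ink)
  have h5 := ha.2.1
  rw [h4, norm_zero] at h5
  norm_num at h5

omit C in
lemma arc_k1 {a b n : E} (ha : ‖a‖ = 1) (hb : ‖b‖ = 1) (h : ⟪n, a⟫ ≠ ⟪n, b⟫) : ⟪a, b⟫ < 1 := by
  have h1 : ⟪a, b⟫ ≤ 1 := by
    have := real_inner_le_norm a b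
    rw [ha, hb] at this; linarith
  rcases h1.lt_or_eq with h2 | h2
  · exact h2
  · exfalso
    have h3 : a = b := (inner_eq_one_iff_of_norm_eq_one ha hb).1 h2
    rw [h3] at h
    exact h rfl

omit C in
lemma nov_aux {n u e : E} (he : ‖e‖ = 1) (hn : ⟪n, e⟫ = 0) (hu : ⟪n, u⟫ ≠ 0) {c κ s t : ℝ}
    (h : c • u = κ • (s • u + t • e)) (hκ : 0 < κ) (ht : 0 < t) : False := by
  have h1 : c * ⟪n, u⟫ = κ * (s * ⟪n, u⟫) := by
    have := congrArg (fun z => ⟪n, z⟫) h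
    simp only [inner_smul_right, inner_add_right, hn, mul_zero, add_zero] at this
    exact this
  have h2 : c = κ * s := by
    apply mul_right_cancel₀ hu
    linarith
  have h3 : (κ * t) • e = 0 := by
    have : c • u = (κ * s) • u + (κ * t) • e := by
      rw [h, smul_add, smul_smul, smul_smul]
    rw [h2] at this
    have h4 := sub_eq_zero.2 this
    rw [sub_add_eq_sub_sub, sub_self, zero_sub, neg_eq_zero] at h4
    exact h4
  rcases smul_eq_zero.1 h3 with h4 | h4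
  · have : 0 < κ * t := mul_pos hκ ht
    linarith
  · rw [h4, norm_zero] at he
    norm_num at he

omit C in
lemma td_of_ED {v e : E} {f g k : ι} (hT : VTriple Q v f g k) (h : ED Q v f g k e) :
    Q.TD v f e := by
  refine ⟨hT.inf, h.1, h.2.1, fun i hi => ?_⟩
  rcases hT.only hi with rfl | rfl | rfl
  · exact h.2.1.le
  · exact h.2.2.1.le
  · exact h.2.2.2.1.le

omit C in
lemma td_of_ED' {v e : E} {f g k : ι} (hT : VTriple Q v f g k) (h : ED Q v f g k e) :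
    Q.TD v g e := td_of_ED hT.swap (h.symm hT.adj)

omit C in
theorem vertex_cyc (D : Dev Q A x Pts) {f g k : ι} (hT : VTriple Q v f g k) {e1 e2 e3 p : E}
    (h1 : ED Q v f g k e1) (h2 : ED Q v g k f e2) (h3 : ED Q v k f g e3) (hp : p ∈ Pts f)
    (hact : dist v p = D.G v) (hc : 0 < D.G v) (hg : 0 < Q.sl g p) (hk : 0 < Q.sl k p)
    (huniq : ∀ f', v ∈ Q.face f' → ∀ p' ∈ Pts f', dist v p' = D.G v →
      (∀ g', v ∈ Q.face g' → 0 ≤ Q.sl g' p') → f' = f ∧ p' = p) :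
    ∃ F q, D.Cyc v F q := by
  have hnp : ‖p - v‖ = D.G v := by rw [← hact, dist_eq_norm, norm_sub_rev]
  set u0 : E := (D.G v)⁻¹ • (p - v) with hu0
  have hpu : p - v = D.G v • u0 := by
    rw [hu0, smul_smul, mul_inv_cancel₀ hc.ne', one_smul]
  have hci := inv_pos.2 hc
  have hf0 : ⟪Q.n f, u0⟫ = 0 := by
    rw [hu0, inner_smul_right, ← sl_sub, hT.inf.2, D.plane f p hp]; simp
  have hg0 : ⟪Q.n g, u0⟫ < 0 := by
    rw [hu0, inner_smul_right, ← sl_sub, hT.ing.2]; nlinarith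
  have hk0 : ⟪Q.n k, u0⟫ < 0 := by
    rw [hu0, inner_smul_right, ← sl_sub, hT.ink.2]; nlinarith
  have t0 : Q.TD v f u0 := by
    refine ⟨hT.inf, ?_, hf0, fun i hi => ?_⟩
    · rw [hu0, norm_smul, hnp, norm_inv, Real.norm_eq_abs, abs_of_pos hc,
        inv_mul_cancel₀ hc.ne']
    · rcases hT.only hi with rfl | rfl | rfl
      · exact hf0.le
      · exact hg0.le
      · exact hk0.le
  have t1f := td_of_ED hT h1
  have t1g := td_of_ED' hT h1
  have t2g := td_of_ED hT.rot h2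
  have t2k := td_of_ED' hT.rot h2
  have t3k := td_of_ED hT.rot.rot h3
  have t3f := td_of_ED' hT.rot.rot h3
  have A0 : Arc Q v f u0 e1 := ⟨t0, t1f, arc_k0 hT t0 t1f,
    arc_k1 (n := Q.n g) t0.2.1 t1f.2.1 (by rw [h1.2.2.1]; exact hg0.ne)⟩
  have A1 : Arc Q v g e1 e2 := ⟨t1g, t2g, arc_k0 hT t1g t2g,
    arc_k1 (n := Q.n f) t1f.2.1 t2g.2.1 (by rw [h1.2.1]; exact h2.2.2.2.1.ne')⟩
  have A2 : Arc Q v k e2 e3 := ⟨t2k, t3k, arc_k0 hT t2k t3k,
    arc_k1 (n := Q.n g) t2k.2.1 t3k.2.1 (by rw [h2.2.1]; exact h3.2.2.2.1.ne')⟩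
  have A3 : Arc Q v f e3 u0 := ⟨t3f, t0, arc_k0 hT t3f t0,
    arc_k1 (n := Q.n k) t3k.2.1 t0.2.1 (by rw [h3.2.1]; exact hk0.ne')⟩
  let F : ℕ → ι := fun | 0 => f | 1 => g | 2 => k | _ => f
  let q : ℕ → E := fun | 0 => u0 | 1 => e1 | 2 => e2 | 3 => e3 | _ => u0
  have harc : ∀ j < 4, Arc Q v (F j) (q j) (q (j + 1)) := by
    intro j hj
    interval_cases j
    · exact A0
    · exact A1
    · exact A2
    · exact A3
  have hval : ∀ j < 4, ∀ p' ∈ Pts (F j), dist v p' = D.G v → ∀ t : ℝ, 0 < t → t < 1 →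
      ∀ κ : ℝ, 0 < κ → p' - v = κ • zz (q j) (q (j + 1)) t → F j = f ∧ p' = p := by
    intro j hj p' hp' hact' t ht0 ht1 κ hκ he
    have ha := harc j hj
    apply huniq (F j) ha.ta.1 p' hp' hact'
    intro i hi
    have h4 : Q.sl i p' = - ⟪Q.n i, p' - v⟫ := by rw [← sl_sub, hi.2]; ring
    have h5 := ha.ta.2.2.2 i hi
    have h6 := ha.tb.2.2.2 i hi
    rw [h4, he, inner_smul_right]
    unfold zz
    rw [inner_add_right, inner_smul_right, inner_smul_right]
    have h7 : (1 - t) * ⟪Q.n i, q j⟫ + t * ⟪Q.n i, q (j + 1)⟫ ≤ 0 := by nlinarith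
    nlinarith
  refine ⟨F, q, harc, ?_, ?_, ?_⟩
  · intro j hj p' hp' hact' t ht0 ht1 κ hκ he
    obtain ⟨h4, h5⟩ := hval j hj p' hp' hact' t ht0 ht1 κ hκ he
    subst h5
    interval_cases j
    · have he' : D.G v • u0 = κ • ((1 - t) • u0 + t • e1) := by rw [← hpu]; exact he
      exact nov_aux h1.1 h1.2.2.1 hg0.ne he' hκ ht0
    · exact hT.fg h4.symm
    · exact hT.fk h4.symm
    · have he' : D.G v • u0 = κ • (t • u0 + (1 - t) • e3) := by
        rw [← hpu, add_comm (t • u0)]; exact he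
      exact nov_aux h3.1 h3.2.1 hk0.ne he' hκ (by linarith)
  · intro j hj
    interval_cases j
    · exact ⟨k, hT, h1, hg0, h2.2.2.2.1⟩
    · exact ⟨f, hT.rot, h2, h1.2.2.2.1, h3.2.2.2.1⟩
    · exact ⟨g, hT.rot.rot, h3, h2.2.2.2.1, hk0⟩
  · rintro u ⟨F', hF'⟩
    have hpos : ∀ {n e u : E}, ⟪n, u⟫ ≤ 0 → ⟪n, e⟫ < 0 → 0 ≤ ⟪n, u⟫ / ⟪n, e⟫ :=
      fun h4 h5 => div_nonneg_of_nonpos h4 h5.le
    rcases hT.only hF'.1 with rfl | rfl | rfl
    · -- face f
      have d1 := decomp hT h1 (h3.symm hT.rot.rot.adj) hF'.2.2.1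
      have d0 := decomp hT h1 (h3.symm hT.rot.rot.adj) hf0
      have l1 := hpos (hF'.2.2.2 k hT.ink) h1.2.2.2.1
      have m1 := hpos (hF'.2.2.2 g hT.ing) h3.2.2.2.1
      have l0 : 0 < ⟪Q.n k, u0⟫ / ⟪Q.n k, e1⟫ := div_pos_of_neg_of_neg hk0 h1.2.2.2.1
      have m0 : 0 < ⟪Q.n g, u0⟫ / ⟪Q.n g, e3⟫ := div_pos_of_neg_of_neg hg0 h3.2.2.2.1
      set l := ⟪Q.n k, u⟫ / ⟪Q.n k, e1⟫
      set m := ⟪Q.n g, u⟫ / ⟪Q.n g, e3⟫
      set α := ⟪Q.n k, u0⟫ / ⟪Q.n k, e1⟫
      set β := ⟪Q.n g, u0⟫ / ⟪Q.n g, e3⟫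
      rcases le_total (m * α) (l * β) with h4 | h4
      · obtain ⟨t, ht, h5⟩ := surj_aux (a := u0) (b := e1) hF'.2.1 (l := m / β)
          (m := l - m * α / β) (by positivity)
          (by rw [sub_nonneg, div_le_iff₀ m0]; exact h4) (by
            rw [d1, d0]
            have : m / β * β = m := div_mul_cancel₀ _ m0.ne'
            rw [smul_add, smul_smul, smul_smul, this]
            module)
        exact ⟨0, by norm_num, t, ht, h5⟩
      · obtain ⟨t, ht, h5⟩ := surj_aux (a := e3) (b := u0) hF'.2.1 (l := m - l * β / α)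
          (m := l / α) (by rw [sub_nonneg, div_le_iff₀ l0]; exact h4) (by positivity) (by
            rw [d1, d0]
            have : l / α * α = l := div_mul_cancel₀ _ l0.ne'
            rw [smul_add, smul_smul, smul_smul, this]
            module)
        exact ⟨3, by norm_num, t, ht, h5⟩
    · -- face g
      have d1 := decomp hT.swap (h1.symm hT.adj) h2 hF'.2.2.1
      obtain ⟨t, ht, h5⟩ := surj_aux hF'.2.1
        (hpos (hF'.2.2.2 k hT.ink) h1.2.2.2.1) (hpos (hF'.2.2.2 f hT.inf) h2.2.2.2.1) d1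
      exact ⟨1, by norm_num, t, ht, h5⟩
    · -- face k
      have d1 := decomp hT.rot.rot h3 (h2.symm hT.rot.adj) hF'.2.2.1
      rw [add_comm] at d1
      obtain ⟨t, ht, h5⟩ := surj_aux hF'.2.1
        (hpos (hF'.2.2.2 f hT.inf) h2.2.2.2.1) (hpos (hF'.2.2.2 g hT.ing) h3.2.2.2.1) d1
      exact ⟨2, by norm_num, t, ht, h5⟩

omit C in
theorem vertex_dich [Finite ι] (D : Dev Q A x Pts) {f g k : ι} (hT : VTriple Q v f g k) {ε : ℝ}
    (L : D.Loc v ε) : SMax Q.S D.G v ∨ Reg Q.S D.G v := by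
  have hvS := face_sub f hT.inf
  have hvx : v ≠ x := by
    rintro rfl
    have h1 : f = A := by
      by_contra h
      have := D.only f h
      rw [hT.inf.2] at this
      exact lt_irrefl _ this
    have h2 : g = A := by
      by_contra h
      have := D.only g h
      rw [hT.ing.2] at this
      exact lt_irrefl _ this
    exact hT.fg (h1.trans h2.symm)
  have hc := D.G_pos hvS hvx
  have hIs : Q.IsVert v := ⟨f, g, k, hT.fg, hT.gk, hT.fk, hT.inf, hT.ing, hT.ink⟩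
  have key : ∀ {f g k : ι}, VTriple Q v f g k → ∀ p ∈ Pts f, dist v p = D.G v →
      (∀ g', v ∈ Q.face g' → 0 ≤ Q.sl g' p) → SMax Q.S D.G v ∨ Reg Q.S D.G v := by
    intro f g k hT p hp hact hvalid
    obtain ⟨e1, h1⟩ := hT.exists_ED
    obtain ⟨e2, h2⟩ := hT.rot.exists_ED
    obtain ⟨e3, h3⟩ := hT.rot.rot.exists_ED
    have hg : 0 < Q.sl g p :=
      lt_of_le_of_ne (hvalid g hT.ing) (D.vgen f g hT.adj p hp).symm
    have hk : 0 < Q.sl k p :=
      lt_of_le_of_ne (hvalid k hT.ink) (D.vgen f k (Q.adj_symm _ _ hT.rot.rot.adj) p hp).symm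
    obtain ⟨F, q, C⟩ := vertex_cyc D hT h1 h2 h3 hp hact hc hg hk (by
      intro f' hf' p' hp' hact' hvalid'
      apply D.vuniq v f' f hIs hf' hT.inf p' hp' p hp
      · intro i hi r hr
        rw [hact']; exact D.G_le hi hr
      · intro i hi r hr
        rw [hact]; exact D.G_le hi hr
      · exact hvalid'
      · exact hvalid)
    exact C.dich hvS L
  obtain ⟨f', hf', p, hp, hact, hvalid⟩ := D.exists_valid hT
  rcases hT.only hf' with rfl | rfl | rfl
  · exact key hT p hp hact hvalid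
  · exact key hT.rot p hp hact hvalid
  · exact key hT.rot.rot p hp hact hvalid

omit C in
/-- local dichotomy -/
theorem dich [Finite ι] (D : Dev Q A x Pts) {w : E} (hw : w ∈ Q.S) :
    SMax Q.S D.G w ∨ Reg Q.S D.G w := by
  obtain ⟨ε, L⟩ := D.exists_loc hw
  obtain ⟨f, hf⟩ := mem_S.1 hw
  by_cases h1 : ∃ g, g ≠ f ∧ w ∈ Q.face g
  · obtain ⟨g, hgf, hg⟩ := h1
    by_cases h2 : ∃ k, k ≠ f ∧ k ≠ g ∧ w ∈ Q.face k
    · obtain ⟨k, hkf, hkg, hk⟩ := h2
      exact vertex_dich D (f := f) (g := g) (k := k)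
        ⟨hgf.symm, hkg.symm, hkf.symm, hf, hg, hk⟩ L
    · push Not at h2
      refine D.flat_edge L hgf.symm hf hg fun k hk => ?_
      by_contra hcon
      push Not at hcon
      exact h2 k hcon.1 hcon.2 hk
  · push Not at h1
    refine D.flat_face L hf fun k hk => ?_
    by_contra hcon
    exact h1 k hcon hk

omit C in
/-- local maxima of the distance from a generic source are unique -/
theorem unique_max [Finite ι] (D : Dev Q A x Pts) {z₁ z₂ : E} (h1 : z₁ ∈ Q.S) (h2 : z₂ ∈ Q.S)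
    (m1 : IsLocalMaxOn (Q.d x) Q.S z₁) (m2 : IsLocalMaxOn (Q.d x) Q.S z₂) : z₁ = z₂ := by
  have tr : ∀ z ∈ Q.S, IsLocalMaxOn (Q.d x) Q.S z → IsLocalMaxOn D.G Q.S z := by
    intro z hz hm
    have hm' : ∀ᶠ y in 𝓝[Q.S] z, Q.d x y ≤ Q.d x z := hm
    show ∀ᶠ y in 𝓝[Q.S] z, D.G y ≤ D.G z
    filter_upwards [hm', self_mem_nhdsWithin] with y hy hyS
    rw [← D.d_eq hyS, ← D.d_eq hz]
    exact hy
  refine mountain_pass Q.S isCompact_S ?_ (fun y hy z hz => joined_S hy hz) D.G D.contG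
    (fun w hw => D.dich hw) h1 h2 (tr _ h1 m1) (tr _ h2 m2)
  intro y hy
  obtain ⟨ε, L⟩ := D.exists_loc hy
  refine ⟨ε, L.pos, fun z hz hd => ?_⟩
  obtain ⟨f, hf⟩ := mem_S.1 hz
  exact seg_S (L.mem_of_face hf hd) hf

end Dev
end SPoly
end Pool.Agent.Lib.MP_dd45e6_gt
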