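import Mathlib

/-! Intrinsic distance on subsets of Euclidean 3-space. -/

namespace Pool.Agent.Lib.MP_dd45e6_gt
open Set Metric

abbrev E := EuclideanSpace ℝ (Fin 3)

/-- `γ` restricted to `[0,1]` is a continuous curve inside `S` from `x` to `y`. -/
def IsCurve (S : Set E) (x y : E) (γ : ℝ → E) : Prop :=
  ContinuousOn γ (Icc 0 1) ∧ MapsTo γ (Icc 0 1) S ∧ γ 0 = x ∧ γ 1 = y

/-- Intrinsic distance: infimum of the lengths of curves in `S` from `x` to `y`. -/
noncomputable def idist (S : Set E) (x y : E) : ENNReal :=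
  ⨅ γ : {γ : ℝ → E // IsCurve S x y γ}, eVariationOn γ.1 (Icc 0 1)

end Pool.Agent.Lib.MP_dd45e6_gt
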