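import Pool.Agent.Lib.MP_dd45e6_gt.Basic

/-! Finite development of the distance function from a point. -/

namespace Pool.Agent.Lib.MP_dd45e6_gt
open Set Metric
open scoped RealInnerProductSpace

namespace SPoly
variable {ι : Type}

/-- `v` is on three different faces -/
def IsVert (Q : SPoly ι) (v : E) : Prop :=
  ∃ f g k, f ≠ g ∧ g ≠ k ∧ f ≠ k ∧ v ∈ Q.face f ∧ v ∈ Q.face g ∧ v ∈ Q.face k

/-- Finite sets `Pts f` of images of the source `x` in the plane of every face `f`. -/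
structure Dev (Q : SPoly ι) (A : ι) (x : E) (Pts : ι → Finset E) : Prop where
  ne : ∀ f, (Pts f).Nonempty
  plane : ∀ f, ∀ p ∈ Pts f, Q.sl f p = 0
  srcA : x ∈ Q.face A
  only : ∀ g, g ≠ A → 0 < Q.sl g x
  src : x ∈ Pts A
  zero : ∀ f, ∀ p ∈ Pts f, p ∈ Q.face f → f = A ∧ p = x
  edge : ∀ f g, Q.adj f g → ∀ p ∈ Pts f, Q.U f g p ∈ Pts g ∨
    ∃ q ∈ Pts f, dist (Q.a f g) q ≤ dist (Q.a f g) p ∧ dist (Q.b f g) q ≤ dist (Q.b f g) p ∧
      (dist (Q.a f g) q < dist (Q.a f g) p ∨ dist (Q.b f g) q < dist (Q.b f g) p)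
  sad : ∀ f, ∀ p ∈ Pts f, ∀ q ∈ Pts f, p ≠ q → midpoint ℝ p q ∈ Q.face f →
    ∃ r ∈ Pts f, ⟪p - r, q - r⟫ < 0
  vgen : ∀ f g, Q.adj f g → ∀ p ∈ Pts f, Q.sl g p ≠ 0
  vuniq : ∀ v f g, Q.IsVert v → v ∈ Q.face f → v ∈ Q.face g → ∀ p ∈ Pts f, ∀ q ∈ Pts g,
    (∀ k, v ∈ Q.face k → ∀ r ∈ Pts k, dist v p ≤ dist v r) →
    (∀ k, v ∈ Q.face k → ∀ r ∈ Pts k, dist v q ≤ dist v r) →
    (∀ k, v ∈ Q.face k → 0 ≤ Q.sl k p) → (∀ k, v ∈ Q.face k → 0 ≤ Q.sl k q) → f = g ∧ p = q

lemma stewart (a b p : E) (t : ℝ) :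
    dist ((1 - t) • a + t • b) p ^ 2
      = (1 - t) * dist a p ^ 2 + t * dist b p ^ 2 - t * (1 - t) * dist a b ^ 2 := by
  simp only [dist_eq_norm]
  have e1 : (1 - t) • a + t • b - p = (1 - t) • (a - p) + t • (b - p) := by module
  have e2 : a - b = (a - p) - (b - p) := by abel
  rw [e1, e2]
  generalize a - p = u
  generalize b - p = v
  rw [norm_add_sq_real, norm_sub_sq_real, norm_smul, norm_smul, inner_smul_left, inner_smul_right]
  simp only [RCLike.conj_to_real, mul_pow, Real.norm_eq_abs, sq_abs]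
  ring

namespace Dev
variable {Q : SPoly ι} {A : ι} {x : E} {Pts : ι → Finset E} (D : Dev Q A x Pts)
include D

/-- transfer of active images through the relative interior of an edge -/
lemma tr_relint {f g : ι} (h : Q.adj f g) {t : ℝ} (ht0 : 0 < t) (ht1 : t < 1) {p : E}
    (hp : p ∈ Pts f)
    (hmin : ∀ q ∈ Pts f, dist ((1 - t) • Q.a f g + t • Q.b f g) p
      ≤ dist ((1 - t) • Q.a f g + t • Q.b f g) q) : Q.U f g p ∈ Pts g := by
  rcases D.edge f g h p hp with h1 | ⟨q, hq, ha, hb, hs⟩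
  · exact h1
  · exfalso
    have h2 := hmin q hq
    have h3 := pow_le_pow_left₀ dist_nonneg h2 2
    rw [stewart, stewart] at h3
    have ha2 := pow_le_pow_left₀ dist_nonneg ha 2
    have hb2 := pow_le_pow_left₀ dist_nonneg hb 2
    rcases hs with hs | hs
    · have hs2 := pow_lt_pow_left₀ hs dist_nonneg two_ne_zero
      nlinarith
    · have hs2 := pow_lt_pow_left₀ hs dist_nonneg two_ne_zero
      nlinarith

/-- transfer through an end point `y` of an edge with other end point `o` -/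
lemma tr_end {f g : ι} (h : Q.adj f g) {y o : E}
    (hyo : (y = Q.a f g ∧ o = Q.b f g) ∨ (y = Q.b f g ∧ o = Q.a f g)) {p : E}
    (hp : p ∈ Pts f) (hmin : ∀ q ∈ Pts f, dist y p ≤ dist y q)
    (hmin2 : ∀ q ∈ Pts f, dist y q = dist y p → dist o p ≤ dist o q) : Q.U f g p ∈ Pts g := by
  rcases D.edge f g h p hp with h1 | ⟨q, hq, ha, hb, hs⟩
  · exact h1
  · exfalso
    have hm := hmin q hq
    have hm2 := hmin2 q hq
    rcases hyo with ⟨rfl, rfl⟩ | ⟨rfl, rfl⟩
    · have e := le_antisymm ha hm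
      have := hm2 e
      rcases hs with hs | hs <;> linarith
    · have e := le_antisymm hb hm
      have := hm2 e
      rcases hs with hs | hs <;> linarith

/-- at every point of an edge some active image is transferred -/
lemma tr_gen {f g : ι} (h : Q.adj f g) {t : ℝ} (ht0 : 0 ≤ t) (ht1 : t ≤ 1) :
    ∃ p ∈ Pts f, (∀ q ∈ Pts f, dist ((1 - t) • Q.a f g + t • Q.b f g) p
      ≤ dist ((1 - t) • Q.a f g + t • Q.b f g) q) ∧ Q.U f g p ∈ Pts g := by
  classical
  set y := (1 - t) • Q.a f g + t • Q.b f g with hy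
  -- minimal points
  obtain ⟨p0, hp0, hmin0⟩ := (Pts f).exists_min_image (fun q => dist y q) (D.ne f)
  let M := (Pts f).filter (fun q => dist y q = dist y p0)
  have hM : M.Nonempty := ⟨p0, by simp [M, hp0]⟩
  obtain ⟨p, hpM, hmin⟩ := M.exists_min_image
    (fun q => dist (Q.a f g) q ^ 2 + dist (Q.b f g) q ^ 2) hM
  have hp : p ∈ Pts f ∧ dist y p = dist y p0 := by simpa [M] using hpM
  refine ⟨p, hp.1, fun q hq => by rw [hp.2]; exact hmin0 q hq, ?_⟩
  rcases D.edge f g h p hp.1 with h1 | ⟨q, hq, ha, hb, hs⟩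
  · exact h1
  · exfalso
    have ha2 := pow_le_pow_left₀ dist_nonneg ha 2
    have hb2 := pow_le_pow_left₀ dist_nonneg hb 2
    have hle : dist y q ^ 2 ≤ dist y p ^ 2 := by
      rw [hy, stewart, stewart]; nlinarith
    have hle' : dist y q ≤ dist y p := by
      exact (pow_le_pow_iff_left₀ dist_nonneg dist_nonneg two_ne_zero).1 hle
    have heq : dist y q = dist y p0 := by
      have := hmin0 q hq
      rw [hp.2] at hle'
      exact le_antisymm hle' this
    have hqM : q ∈ M := by simp [M, hq, heq]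
    have h5 := hmin q hqM
    rcases hs with hs | hs
    · have hs2 := pow_lt_pow_left₀ hs dist_nonneg two_ne_zero
      linarith
    · have hs2 := pow_lt_pow_left₀ hs dist_nonneg two_ne_zero
      linarith

omit D in
/-- minimal distance to the images in the plane of the face `f` -/
noncomputable def mf (D : Dev Q A x Pts) (f : ι) (y : E) : ℝ :=
  (Pts f).inf' (D.ne f) (fun p => dist y p)

lemma mf_le {f : ι} {y p : E} (hp : p ∈ Pts f) : D.mf f y ≤ dist y p :=
  Finset.inf'_le _ hp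

lemma exists_mf (f : ι) (y : E) : ∃ p ∈ Pts f, D.mf f y = dist y p :=
  Finset.exists_mem_eq_inf' (D.ne f) _

lemma le_mf {f : ι} {y : E} {c : ℝ} (h : ∀ p ∈ Pts f, c ≤ dist y p) : c ≤ D.mf f y :=
  Finset.le_inf' _ _ h

lemma mf_nonneg (f : ι) (y : E) : 0 ≤ D.mf f y := D.le_mf fun _ _ => dist_nonneg

lemma mf_edge_le {f g : ι} (h : Q.adj f g) {t : ℝ} (ht0 : 0 ≤ t) (ht1 : t ≤ 1)
    : D.mf g ((1 - t) • Q.a f g + t • Q.b f g) ≤ D.mf f ((1 - t) • Q.a f g + t • Q.b f g) := by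
  obtain ⟨p, hp, hmin, hU⟩ := D.tr_gen h ht0 ht1
  set y := (1 - t) • Q.a f g + t • Q.b f g with hy
  have hya : Q.sl f y = 0 ∧ Q.sl g y = 0 := by
    have h1 := Q.a_mem f g h
    have h2 := Q.b_mem f g h
    constructor
    · rw [hy, sl_comb (by ring)]
      show (1 - t) * (Q.h f - _) + t * (Q.h f - _) = 0
      rw [h1.2.1, h2.2.1]; ring
    · rw [hy, sl_comb (by ring)]
      show (1 - t) * (Q.h g - _) + t * (Q.h g - _) = 0
      rw [h1.2.2, h2.2.2]; ring
  calc D.mf g y ≤ dist y (Q.U f g p) := D.mf_le hU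
    _ = dist (Q.U f g y) (Q.U f g p) := by rw [U_fix hya.2]
    _ = dist y p := dist_U h hya.1 (D.plane f p hp)
    _ ≤ D.mf f y := D.le_mf hmin

lemma mf_eq {f g : ι} {y : E} (hf : y ∈ Q.face f) (hg : y ∈ Q.face g) : D.mf f y = D.mf g y := by
  by_cases hfg : f = g
  · rw [hfg]
  · obtain ⟨h, t, ht, rfl⟩ := Q.inter f g hfg y hf.1 hf.2 hg.2
    have h' := Q.adj_symm f g h
    have e := Q.ab_symm f g h
    have h1 := D.mf_edge_le h ht.1 ht.2
    have h2 := D.mf_edge_le h' ht.1 ht.2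
    rw [e.1, e.2] at h2
    exact le_antisymm h2 h1

omit D in
/-- the developed distance function -/
noncomputable def G (_ : Dev Q A x Pts) (y : E) : ℝ :=
  sInf {r | ∃ f, y ∈ Q.face f ∧ ∃ p ∈ Pts f, r = dist y p}

lemma G_eq {f : ι} {y : E} (hf : y ∈ Q.face f) : D.G y = D.mf f y := by
  have : IsLeast {r | ∃ f, y ∈ Q.face f ∧ ∃ p ∈ Pts f, r = dist y p} (D.mf f y) := by
    constructor
    · obtain ⟨p, hp, h⟩ := D.exists_mf f y
      exact ⟨f, hf, p, hp, h⟩
    · rintro r ⟨g, hg, p, hp, rfl⟩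
      rw [D.mf_eq hf hg]; exact D.mf_le hp
  exact this.csInf_eq

lemma G_le {f : ι} {y p : E} (hf : y ∈ Q.face f) (hp : p ∈ Pts f) : D.G y ≤ dist y p := by
  rw [D.G_eq hf]; exact D.mf_le hp

lemma exists_G {f : ι} {y : E} (hf : y ∈ Q.face f) : ∃ p ∈ Pts f, D.G y = dist y p := by
  rw [D.G_eq hf]; exact D.exists_mf f y

lemma G_nonneg {y : E} (hy : y ∈ Q.S) : 0 ≤ D.G y := by
  obtain ⟨f, hf⟩ := mem_S.1 hy
  rw [D.G_eq hf]; exact D.mf_nonneg f y

lemma G_src : D.G x = 0 := by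
  apply le_antisymm
  · have := D.G_le D.srcA D.src
    simpa using this
  · exact D.G_nonneg (face_sub _ D.srcA)

lemma G_pos {y : E} (hy : y ∈ Q.S) (hx : y ≠ x) : 0 < D.G y := by
  obtain ⟨f, hf⟩ := mem_S.1 hy
  obtain ⟨p, hp, h⟩ := D.exists_G hf
  rw [h, dist_pos]
  rintro rfl
  exact hx (D.zero f _ hp hf).2

lemma G_lip {f : ι} {y z : E} (hy : y ∈ Q.face f) (hz : z ∈ Q.face f) :
    |D.G y - D.G z| ≤ dist y z := by
  rw [abs_le]
  constructor
  · obtain ⟨p, hp, h⟩ := D.exists_G hy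
    have := D.G_le hz hp
    have h2 := dist_triangle z y p
    rw [dist_comm z y] at h2
    linarith
  · obtain ⟨p, hp, h⟩ := D.exists_G hz
    have := D.G_le hy hp
    have h2 := dist_triangle y z p
    linarith

/-- active images at a point, seen in all faces through it -/
lemma act_le {y : E} {f g : ι} (_ : y ∈ Q.face f) (hg : y ∈ Q.face g) {p r : E}
    (hp : dist y p = D.G y) (_ : p ∈ Pts f) (hr : r ∈ Pts g) : dist y p ≤ dist y r := by
  rw [hp]; exact D.G_le hg hr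

lemma contG [Finite ι] : ContinuousOn D.G Q.S := by
  rw [S_eq]
  have hf : ∀ f, ContinuousOn D.G (Q.face f) := by
    intro f
    have : LipschitzOnWith 1 D.G (Q.face f) := by
      apply LipschitzOnWith.of_dist_le_mul
      intro y hy z hz
      rw [Real.dist_eq]; simpa using D.G_lip hy hz
    exact this.continuousOn
  exact (locallyFinite_of_finite _).continuousOn_iUnion (fun f => isClosed_face f) hf

end Dev
end SPoly
end Pool.Agent.Lib.MP_dd45e6_gt
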