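import Pool.Agent.Lib.MP_dd45e6_gt.Defs

/-! Basic properties of the intrinsic distance. -/

namespace Pool.Agent.Lib.MP_dd45e6_gt
open Set Metric

theorem idist_le_of_curve {S : Set E} {x y : E} {γ : ℝ → E} (h : IsCurve S x y γ) :
    idist S x y ≤ eVariationOn γ (Icc 0 1) :=
  iInf_le (fun γ : {γ : ℝ → E // IsCurve S x y γ} => eVariationOn γ.1 (Icc 0 1)) ⟨γ, h⟩

theorem idist_self {S : Set E} {x : E} (hx : x ∈ S) : idist S x x = 0 := by
  have h : IsCurve S x x (fun _ => x) := ⟨continuousOn_const, fun _ _ => hx, rfl, rfl⟩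
  have h1 := idist_le_of_curve h
  have h2 : eVariationOn (fun _ : ℝ => x) (Icc 0 1) = 0 :=
    eVariationOn.constant_on (by rintro _ ⟨_, _, rfl⟩ _ ⟨_, _, rfl⟩; rfl)
  rw [h2] at h1
  exact le_antisymm h1 (zero_le)

theorem idist_le_edist {S : Set E} {x y : E} (h : segment ℝ x y ⊆ S) :
    idist S x y ≤ edist x y := by
  have hc : IsCurve S x y (fun t => AffineMap.lineMap x y t) := by
    refine ⟨(AffineMap.lineMap_continuous).continuousOn, ?_, by simp, by simp⟩
    intro t ht
    apply h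
    rw [segment_eq_image_lineMap]
    exact ⟨t, ht, rfl⟩
  refine le_trans (idist_le_of_curve hc) ?_
  have hl : LipschitzWith (nndist x y) (fun t : ℝ => (AffineMap.lineMap x y t : E)) :=
    lipschitzWith_lineMap x y
  have h1 := (hl.lipschitzOnWith (s := univ)).comp_eVariationOn_le (g := (id : ℝ → ℝ))
    (s := Icc 0 1) (mapsTo_univ _ _)
  refine le_trans h1 ?_
  have h2 : eVariationOn (id : ℝ → ℝ) (Icc 0 1) = ENNReal.ofReal (1 - 0) := by
    have h3 := (monotone_id.monotoneOn (Icc (0 : ℝ) 1)).eVariationOn_eq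
      (left_mem_Icc.mpr zero_le_one) (right_mem_Icc.mpr zero_le_one)
    rw [inter_self] at h3
    simp
  rw [h2, sub_zero, ENNReal.ofReal_one, mul_one, edist_nndist]

theorem idist_comm_le (S : Set E) (x y : E) : idist S x y ≤ idist S y x := by
  apply le_iInf
  rintro ⟨γ, h1, h2, h3, h4⟩
  have hm : MapsTo (fun t : ℝ => 1 - t) (Icc 0 1) (Icc 0 1) := by
    intro t ht
    exact ⟨by linarith [ht.2], by linarith [ht.1]⟩
  have hc : IsCurve S x y (γ ∘ fun t : ℝ => 1 - t) := by
    refine ⟨h1.comp (by fun_prop) hm, h2.comp hm, ?_, ?_⟩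
    · simp only [Function.comp_apply, sub_zero]; exact h4
    · simp only [Function.comp_apply, sub_self]; exact h3
  refine le_trans (idist_le_of_curve hc) ?_
  exact eVariationOn.comp_le_of_antitoneOn γ _ (fun a _ b _ hab => by linarith) hm

theorem idist_comm (S : Set E) (x y : E) : idist S x y = idist S y x :=
  le_antisymm (idist_comm_le S x y) (idist_comm_le S y x)

theorem idist_triangle (S : Set E) (x y z : E) :
    idist S x z ≤ idist S x y + idist S y z := by
  unfold idist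
  rw [ENNReal.iInf_add]
  apply le_iInf
  rintro ⟨γ₁, h1, h2, h3, h4⟩
  rw [ENNReal.add_iInf]
  apply le_iInf
  rintro ⟨γ₂, g1, g2, g3, g4⟩
  let γ : ℝ → E := fun t => if t ≤ 1 / 2 then γ₁ (2 * t) else γ₂ (2 * t - 1)
  have e1 : EqOn γ (γ₁ ∘ fun t => 2 * t) (Icc 0 (1 / 2)) := by
    intro t ht
    simp only [γ, Function.comp_apply]
    rw [if_pos ht.2]
  have e2 : EqOn γ (γ₂ ∘ fun t => 2 * t - 1) (Icc (1 / 2) 1) := by
    intro t ht
    simp only [γ, Function.comp_apply]
    by_cases h : t ≤ 1 / 2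
    · have : t = 1 / 2 := le_antisymm h ht.1
      rw [if_pos h, this]
      norm_num
      rw [h4, g3]
    · rw [if_neg h]
  have m1 : MapsTo (fun t : ℝ => 2 * t) (Icc 0 (1 / 2)) (Icc 0 1) := by
    intro t ht
    exact ⟨by linarith [ht.1], by linarith [ht.2]⟩
  have m2 : MapsTo (fun t : ℝ => 2 * t - 1) (Icc (1 / 2) 1) (Icc 0 1) := by
    intro t ht
    exact ⟨by linarith [ht.1], by linarith [ht.2]⟩
  have hu : Icc (0 : ℝ) 1 = Icc 0 (1 / 2) ∪ Icc (1 / 2) 1 := by
    rw [Icc_union_Icc_eq_Icc] <;> norm_num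
  have hc : IsCurve S x z γ := by
    refine ⟨?_, ?_, ?_, ?_⟩
    · rw [hu]
      apply ContinuousOn.union_of_isClosed _ _ isClosed_Icc isClosed_Icc
      · exact (h1.comp (by fun_prop) m1).congr e1
      · exact (g1.comp (by fun_prop) m2).congr e2
    · intro t ht
      rw [hu] at ht
      rcases ht with ht | ht
      · rw [e1 ht]; exact h2 (m1 ht)
      · rw [e2 ht]; exact g2 (m2 ht)
    · rw [e1 ⟨le_rfl, by norm_num⟩]
      simp only [Function.comp_apply, mul_zero]
      exact h3
    · rw [e2 ⟨by norm_num, le_rfl⟩]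
      simp only [Function.comp_apply]
      norm_num
      exact g4
  refine le_trans (idist_le_of_curve hc) ?_
  have hsplit := eVariationOn.Icc_add_Icc γ (s := univ) (a := (0 : ℝ)) (b := 1 / 2) (c := 1)
    (by norm_num) (by norm_num) (mem_univ _)
  rw [univ_inter, univ_inter, univ_inter] at hsplit
  rw [← hsplit, eVariationOn.congr e1, eVariationOn.congr e2]
  refine add_le_add ?_ ?_
  · exact eVariationOn.comp_le_of_monotoneOn γ₁ _
      (fun a _ b _ hab => by linarith) m1
  · exact eVariationOn.comp_le_of_monotoneOn γ₂ _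
      (fun a _ b _ hab => by linarith) m2

/-- last exit argument -/
theorem lipschitz_aux {ι : Type*} (K : ι → Set E) (hK : ∀ i, IsClosed (K i)) (G : E → ℝ)
    (hG : ∀ i, ∀ y ∈ K i, ∀ z ∈ K i, |G y - G z| ≤ dist y z) (γ : ℝ → E) (n : ℕ) :
    ∀ (F : Finset ι), F.card = n → ∀ s t : ℝ, s ≤ t → ContinuousOn γ (Icc s t) →
      (∀ u ∈ Icc s t, ∃ i ∈ F, γ u ∈ K i) →
      ENNReal.ofReal |G (γ s) - G (γ t)| ≤ eVariationOn γ (Icc s t) := by
  classical
  induction n with
  | zero =>
    intro F hF s t hst _ hcov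
    obtain ⟨i, hi, _⟩ := hcov s (left_mem_Icc.mpr hst)
    rw [Finset.card_eq_zero] at hF
    rw [hF] at hi
    exact absurd hi (Finset.notMem_empty i)
  | succ n ih =>
    intro F hF s t hst hγ hcov
    obtain ⟨i, hi, hsi⟩ := hcov s (left_mem_Icc.mpr hst)
    -- the last time in `K i`
    let A : Set ℝ := Icc s t ∩ γ ⁻¹' (K i)
    have hAc : IsClosed A := hγ.preimage_isClosed_of_isClosed isClosed_Icc (hK i)
    have hAne : A.Nonempty := ⟨s, left_mem_Icc.mpr hst, hsi⟩
    have hAb : BddAbove A := ⟨t, fun u hu => hu.1.2⟩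
    have hτ : sSup A ∈ A := hAc.csSup_mem hAne hAb
    set τ := sSup A with hτd
    have hτ1 : s ≤ τ := hτ.1.1
    have hτ2 : τ ≤ t := hτ.1.2
    have hsplit := eVariationOn.Icc_add_Icc γ (s := univ) hτ1 hτ2 (mem_univ τ)
    rw [univ_inter, univ_inter, univ_inter] at hsplit
    have hfirst : ENNReal.ofReal |G (γ s) - G (γ τ)| ≤ eVariationOn γ (Icc s τ) := by
      have h1 : ENNReal.ofReal |G (γ s) - G (γ τ)| ≤ edist (γ s) (γ τ) := by
        rw [edist_dist]
        exact ENNReal.ofReal_le_ofReal (hG i _ hsi _ hτ.2)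
      exact le_trans h1 (eVariationOn.edist_le γ (left_mem_Icc.mpr hτ1) (right_mem_Icc.mpr hτ1))
    have hsecond : ENNReal.ofReal |G (γ τ) - G (γ t)| ≤ eVariationOn γ (Icc τ t) := by
      rcases eq_or_lt_of_le hτ2 with he | hlt
      · rw [he, sub_self, abs_zero, ENNReal.ofReal_zero]; exact zero_le
      · have hcov' : ∀ u ∈ Ioc τ t, ∃ j ∈ F.erase i, γ u ∈ K j := by
          intro u hu
          obtain ⟨j, hj, hj'⟩ := hcov u ⟨le_trans hτ1 hu.1.le, hu.2⟩
          refine ⟨j, Finset.mem_erase.mpr ⟨?_, hj⟩, hj'⟩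
          rintro rfl
          have : u ≤ τ := le_csSup hAb ⟨⟨le_trans hτ1 hu.1.le, hu.2⟩, hj'⟩
          exact absurd hu.1 (not_lt.mpr this)
        have hγ' : ContinuousOn γ (Icc τ t) := hγ.mono (Icc_subset_Icc_left hτ1)
        -- closedness
        let B : Set E := ⋃ j ∈ F.erase i, K j
        have hB : IsClosed B := (F.erase i).finite_toSet.isClosed_biUnion fun j _ => hK j
        have hτB : γ τ ∈ B := by
          have h1 : ContinuousWithinAt γ (Ioc τ t) τ :=
            (hγ' τ (left_mem_Icc.mpr hτ2)).mono Ioc_subset_Icc_self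
          have h2 : τ ∈ closure (Ioc τ t) := by
            rw [closure_Ioc hlt.ne]
            exact left_mem_Icc.mpr hτ2
          have h3 := h1.mem_closure h2 (fun u hu => by
            obtain ⟨j, hj, hj'⟩ := hcov' u hu
            exact mem_biUnion hj hj' : MapsTo γ (Ioc τ t) B)
          rwa [hB.closure_eq] at h3
        refine ih (F.erase i) ?_ τ t hτ2 hγ' ?_
        · rw [Finset.card_erase_of_mem hi, hF]; rfl
        · intro u hu
          rcases eq_or_lt_of_le hu.1 with he | hlt'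
          · rw [← he]
            simp only [B, mem_iUnion, exists_prop] at hτB
            exact hτB
          · exact hcov' u ⟨hlt', hu.2⟩
    calc ENNReal.ofReal |G (γ s) - G (γ t)|
        ≤ ENNReal.ofReal (|G (γ s) - G (γ τ)| + |G (γ τ) - G (γ t)|) :=
          ENNReal.ofReal_le_ofReal (abs_sub_le _ _ _)
      _ ≤ ENNReal.ofReal |G (γ s) - G (γ τ)| + ENNReal.ofReal |G (γ τ) - G (γ t)| :=
          ENNReal.ofReal_add_le
      _ ≤ eVariationOn γ (Icc s τ) + eVariationOn γ (Icc τ t) := add_le_add hfirst hsecond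
      _ = eVariationOn γ (Icc s t) := hsplit

/-- a function that is 1-Lipschitz on each of finitely many closed sets covering `S`
is 1-Lipschitz for the intrinsic distance (last exit argument) -/
theorem lipschitz_lower {ι : Type*} [Finite ι] {S : Set E} (K : ι → Set E)
    (hK : ∀ i, IsClosed (K i)) (hS : S ⊆ ⋃ i, K i) (G : E → ℝ)
    (hG : ∀ i, ∀ y ∈ K i, ∀ z ∈ K i, |G y - G z| ≤ dist y z) (x y : E) :
    ENNReal.ofReal |G x - G y| ≤ idist S x y := by
  classical
  have := Fintype.ofFinite ι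
  apply le_iInf
  rintro ⟨γ, h1, h2, h3, h4⟩
  have h5 := lipschitz_aux K hK G hG γ _ Finset.univ rfl 0 1 zero_le_one h1 (by
    intro u hu
    obtain ⟨i, hi⟩ := mem_iUnion.mp (hS (h2 hu))
    exact ⟨i, Finset.mem_univ i, hi⟩)
  rw [h3, h4] at h5
  exact h5

end Pool.Agent.Lib.MP_dd45e6_gt
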