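import Pool.Agent.Lib.MP_dd45e6_gt.Vertex
import Pool.Agent.Lib.MP_dd45e6_gt.Metric

/-! The developed distance function is the intrinsic distance. -/

namespace Pool.Agent.Lib.MP_dd45e6_gt
open Set Metric Filter Topology
open scoped RealInnerProductSpace

namespace SPoly
variable {ι : Type} {Q : SPoly ι}

lemma seg_S {f : ι} {y z : E} (hy : y ∈ Q.face f) (hz : z ∈ Q.face f) :
    segment ℝ y z ⊆ Q.S := (segment_face hy hz).trans (face_sub f)

lemma a_face {f g : ι} (h : Q.adj f g) : Q.a f g ∈ Q.face f ∧ Q.a f g ∈ Q.face g := by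
  have := Q.a_mem f g h
  exact ⟨⟨this.1, this.2.1⟩, ⟨this.1, this.2.2⟩⟩

lemma idist_lt_top {y z : E} (hy : y ∈ Q.S) (hz : z ∈ Q.S) : idist Q.S y z < ⊤ := by
  obtain ⟨f, hf⟩ := mem_S.1 hy
  obtain ⟨g, hg⟩ := mem_S.1 hz
  have key : ∀ g, Relation.ReflTransGen Q.adj f g → ∀ z ∈ Q.face g, idist Q.S y z < ⊤ := by
    intro g hfg
    induction hfg with
    | refl =>
      intro z hz
      exact (idist_le_edist (seg_S hf hz)).trans_lt (edist_lt_top y z)
    | tail _ h ih =>
      intro z hz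
      obtain ⟨h1, h2⟩ := a_face h
      refine (idist_triangle Q.S y _ z).trans_lt (ENNReal.add_lt_top.2 ⟨ih _ h1, ?_⟩)
      exact (idist_le_edist (seg_S h2 hz)).trans_lt (edist_lt_top _ z)
  exact key g (Q.conn f g) z hg

lemma joined_face {f : ι} {y z : E} (hy : y ∈ Q.face f) (hz : z ∈ Q.face f) :
    JoinedIn Q.S y z := by
  have h := ((convex_face f).isPathConnected ⟨y, hy⟩).joinedIn y hy z hz
  exact h.mono (face_sub f)

lemma joined_S {y z : E} (hy : y ∈ Q.S) (hz : z ∈ Q.S) : JoinedIn Q.S y z := by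
  obtain ⟨f, hf⟩ := mem_S.1 hy
  obtain ⟨g, hg⟩ := mem_S.1 hz
  have key : ∀ g, Relation.ReflTransGen Q.adj f g → ∀ z ∈ Q.face g, JoinedIn Q.S y z := by
    intro g hfg
    induction hfg with
    | refl => intro z hz; exact joined_face hf hz
    | tail _ h ih =>
      intro z hz
      obtain ⟨h1, h2⟩ := a_face h
      exact (ih _ h1).trans (joined_face h2 hz)
  exact key g (Q.conn f g) z hg

/-- real valued intrinsic distance -/
noncomputable def d (Q : SPoly ι) (x y : E) : ℝ := (idist Q.S x y).toReal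

lemma d_self {x : E} (hx : x ∈ Q.S) : Q.d x x = 0 := by
  unfold d; rw [idist_self hx]; simp

lemma d_triangle {x y z : E} (hx : x ∈ Q.S) (hy : y ∈ Q.S) (hz : z ∈ Q.S) :
    Q.d x z ≤ Q.d x y + Q.d y z := by
  unfold d
  rw [← ENNReal.toReal_add (idist_lt_top hx hy).ne (idist_lt_top hy hz).ne]
  exact ENNReal.toReal_mono (ENNReal.add_lt_top.2 ⟨idist_lt_top hx hy, idist_lt_top hy hz⟩).ne
    (idist_triangle _ _ _ _)

lemma d_comm (x y : E) : Q.d x y = Q.d y x := by
  unfold d; rw [idist_comm]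

lemma d_face {f : ι} {y z : E} (hy : y ∈ Q.face f) (hz : z ∈ Q.face f) :
    Q.d y z ≤ dist y z := by
  unfold d
  have := ENNReal.toReal_mono (edist_lt_top y z).ne (idist_le_edist (seg_S hy hz))
  rwa [edist_dist, ENNReal.toReal_ofReal dist_nonneg] at this

lemma d_lip {x : E} (hx : x ∈ Q.S) {f : ι} {y z : E} (hy : y ∈ Q.face f) (hz : z ∈ Q.face f) :
    |Q.d x y - Q.d x z| ≤ dist y z := by
  have h1 := d_triangle hx (face_sub f hy) (face_sub f hz)
  have h2 := d_triangle hx (face_sub f hz) (face_sub f hy)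
  have h3 := d_face hy hz
  have h4 := d_face hz hy
  rw [dist_comm z y] at h4
  rw [abs_le]; constructor <;> linarith

lemma cont_of_lip [Finite ι] {F : E → ℝ}
    (h : ∀ f, ∀ y ∈ Q.face f, ∀ z ∈ Q.face f, |F y - F z| ≤ dist y z) : ContinuousOn F Q.S := by
  rw [S_eq]
  have hf : ∀ f, ContinuousOn F (Q.face f) := by
    intro f
    have : LipschitzOnWith 1 F (Q.face f) := by
      apply LipschitzOnWith.of_dist_le_mul
      intro y hy z hz
      rw [Real.dist_eq]; simpa using h f y hy z hz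
    exact this.continuousOn
  exact (locallyFinite_of_finite _).continuousOn_iUnion (fun f => isClosed_face f) hf

lemma cont_d [Finite ι] {x : E} (hx : x ∈ Q.S) : ContinuousOn (Q.d x) Q.S :=
  cont_of_lip fun _ _ hy _ hz => d_lip hx hy hz

/-- moving from `y` towards `p` inside the face `f` -/
lemma exists_step [Finite ι] {f : ι} {y p : E} (hf : y ∈ Q.face f) (hp : Q.sl f p = 0)
    (hfeas : ∀ g, y ∈ Q.face g → 0 ≤ Q.sl g p) :
    ∃ t : ℝ, 0 < t ∧ t < 1 ∧ (1 - t) • y + t • p ∈ Q.face f := by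
  have h1 : ∀ i, ∀ᶠ t in 𝓝[>] (0:ℝ), 0 ≤ Q.sl i ((1 - t) • y + t • p) := by
    intro i
    rcases (hf.1 i).lt_or_eq with h | h
    · have hc : Continuous fun t : ℝ => Q.sl i ((1 - t) • y + t • p) :=
        (continuous_sl i).comp (by fun_prop)
      have h0 : 0 < Q.sl i ((1 - (0:ℝ)) • y + (0:ℝ) • p) := by simpa using h
      have := hc.continuousAt.eventually (lt_mem_nhds h0)
      exact (this.filter_mono nhdsWithin_le_nhds).mono fun t ht => le_of_lt ht
    · filter_upwards [self_mem_nhdsWithin] with t ht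
      rw [sl_comb (by ring), ← h]
      have := hfeas i ⟨hf.1, h.symm⟩
      have ht' : (0:ℝ) < t := ht
      nlinarith
  have h2 : ∀ᶠ t in 𝓝[>] (0:ℝ), ∀ i, 0 ≤ Q.sl i ((1 - t) • y + t • p) :=
    Filter.eventually_all.2 h1
  have h3 : ∀ᶠ t in 𝓝[>] (0:ℝ), t < 1 :=
    Filter.Eventually.filter_mono nhdsWithin_le_nhds (Iio_mem_nhds (by norm_num : (0:ℝ) < 1))
  obtain ⟨t, ht⟩ := (h2.and (h3.and self_mem_nhdsWithin)).exists
  refine ⟨t, ht.2.2, ht.2.1, ht.1, ?_⟩
  rw [sl_comb (by ring), hf.2, hp]; simp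

namespace Dev
variable {A : ι} {x : E} {Pts : ι → Finset E} (D : Dev Q A x Pts)
include D

lemma xS : x ∈ Q.S := face_sub _ D.srcA

lemma exists_feas {y : E} (hy : y ∈ Q.S) : ∃ f, y ∈ Q.face f ∧ ∃ p ∈ Pts f, dist y p = D.G y ∧
    ∀ g, y ∈ Q.face g → 0 ≤ Q.sl g p := by
  obtain ⟨f, hf⟩ := mem_S.1 hy
  by_cases h1 : ∃ g, g ≠ f ∧ y ∈ Q.face g
  · obtain ⟨g, hgf, hg⟩ := h1
    by_cases h2 : ∃ k, k ≠ f ∧ k ≠ g ∧ y ∈ Q.face k
    · obtain ⟨k, hkf, hkg, hk⟩ := h2
      exact D.exists_valid (f := f) (g := g) (k := k)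
        ⟨hgf.symm, hkg.symm, hkf.symm, hf, hg, hk⟩
    · push Not at h2
      obtain ⟨hadj, t, ht, hyt⟩ := Q.inter f g hgf.symm y hf.1 hf.2 hg.2
      obtain ⟨p, hp, hmin, hU⟩ := D.tr_gen hadj ht.1 ht.2
      rw [← hyt] at hmin
      have hact := D.dist_eq_of_act hf hp hmin
      have hpf := D.plane f p hp
      rcases le_or_gt 0 (Q.sl g p) with h3 | h3
      · refine ⟨f, hf, p, hp, hact, fun g' hg' => ?_⟩
        by_cases e1 : g' = f
        · rw [e1, hpf]
        · by_cases e2 : g' = g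
          · rw [e2]; exact h3
          · exact absurd hg' (h2 g' e1 e2)
      · refine ⟨g, hg, Q.U f g p, hU, ?_, fun g' hg' => ?_⟩
        · rw [← hact]
          conv_lhs => rw [← U_fix (f := f) hg.2]
          exact dist_U hadj hf.2 hpf
        · by_cases e1 : g' = f
          · rw [e1, sl_U_f hadj hpf]; linarith
          · by_cases e2 : g' = g
            · rw [e2, sl_U_g hadj]
            · exact absurd hg' (h2 g' e1 e2)
  · push Not at h1
    obtain ⟨p, hp, h⟩ := D.exists_G hf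
    refine ⟨f, hf, p, hp, h.symm, fun g hg => ?_⟩
    by_cases e : g = f
    · rw [e, D.plane f p hp]
    · exact absurd hg (h1 g e)

/-- steepest descent -/
lemma descent [Finite ι] {y : E} (hy : y ∈ Q.S) (hx : y ≠ x) :
    ∃ z, ∃ f, y ∈ Q.face f ∧ z ∈ Q.face f ∧ D.G z ≤ D.G y - dist y z ∧ 0 < dist y z := by
  obtain ⟨f, hf, p, hp, hact, hfeas⟩ := D.exists_feas hy
  obtain ⟨t, ht0, ht1, hz⟩ := exists_step hf (D.plane f p hp) hfeas
  have hpos := D.G_pos hy hx
  have e1 : dist y ((1 - t) • y + t • p) = t * dist y p := by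
    rw [dist_eq_norm, dist_eq_norm]
    have : y - ((1 - t) • y + t • p) = t • (y - p) := by module
    rw [this, norm_smul, Real.norm_eq_abs, abs_of_pos ht0]
  have e2 : dist ((1 - t) • y + t • p) p = (1 - t) * dist y p := by
    rw [dist_eq_norm, dist_eq_norm]
    have : (1 - t) • y + t • p - p = (1 - t) • (y - p) := by module
    rw [this, norm_smul, Real.norm_eq_abs, abs_of_pos (by linarith)]
  refine ⟨_, f, hf, hz, ?_, ?_⟩
  · have := D.G_le hz hp
    rw [e1]; rw [e2] at this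
    rw [← hact]; linarith
  · rw [e1, hact]; exact mul_pos ht0 hpos

lemma G_le_d [Finite ι] {y : E} (hy : y ∈ Q.S) : D.G y ≤ Q.d x y := by
  have h := lipschitz_lower (S := Q.S) (fun f => Q.face f) (fun f => isClosed_face f)
    (by rw [S_eq]) D.G (fun f y hy z hz => D.G_lip hy hz) x y
  have h2 := ENNReal.toReal_mono (idist_lt_top D.xS hy).ne h
  rw [ENNReal.toReal_ofReal (abs_nonneg _), D.G_src, zero_sub, abs_neg] at h2
  exact (le_abs_self _).trans h2

theorem d_eq [Finite ι] {y : E} (hy : y ∈ Q.S) : Q.d x y = D.G y := by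
  apply le_antisymm _ (D.G_le_d hy)
  have hc : ContinuousOn (fun y => Q.d x y - D.G y) Q.S := (cont_d D.xS).sub D.contG
  obtain ⟨y1, hy1, hmax⟩ := isCompact_S.exists_isMaxOn ⟨y, hy⟩ hc
  by_contra hcon
  push Not at hcon
  have hE : 0 < Q.d x y1 - D.G y1 := by
    have := hmax hy
    simp only [mem_ofPred_eq] at this
    linarith
  set Ev := Q.d x y1 - D.G y1 with hEv
  let M := Q.S ∩ {z | Q.d x z - D.G z = Ev}
  have hM : IsCompact M := by
    have : IsClosed (Q.S ∩ (fun z => Q.d x z - D.G z) ⁻¹' {Ev}) :=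
      hc.preimage_isClosed_of_isClosed isCompact_S.isClosed isClosed_singleton
    exact isCompact_S.of_isClosed_subset this inter_subset_left
  obtain ⟨y0, hy0, hmin⟩ := hM.exists_isMinOn ⟨y1, hy1, rfl⟩
    (D.contG.mono inter_subset_left)
  have hy0E : Q.d x y0 - D.G y0 = Ev := hy0.2
  have hne : y0 ≠ x := by
    rintro rfl
    rw [d_self hy0.1, D.G_src] at hy0E
    linarith
  obtain ⟨z, f, hyf, hzf, hz1, hz2⟩ := D.descent hy0.1 hne
  have hzS := face_sub f hzf
  have h1 := d_lip D.xS hyf hzf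
  rw [abs_le] at h1
  have h2 := hmax hzS
  simp only [mem_ofPred_eq] at h2
  have h3 : Q.d x z - D.G z = Ev := by
    apply le_antisymm
    · linarith
    · linarith [h1.2]
  have h4 := hmin (show z ∈ M from ⟨hzS, h3⟩)
  simp only [mem_ofPred_eq] at h4
  linarith

end Dev
end SPoly
end Pool.Agent.Lib.MP_dd45e6_gt
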