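import Pool.Agent.Lib.MP_dd45e6_gt.Local

/-! Flat points: interior points of faces and of edges. -/

namespace Pool.Agent.Lib.MP_dd45e6_gt
open Set Metric Filter Topology
open scoped RealInnerProductSpace

lemma dim3 {n v a z : E} (hn : n ≠ 0) (hv : v ≠ 0) (ha : a ≠ 0) (nv : ⟪n, v⟫ = 0)
    (na : ⟪n, a⟫ = 0) (va : ⟪v, a⟫ = 0) (nz : ⟪n, z⟫ = 0) (vz : ⟪v, z⟫ = 0) (az : ⟪a, z⟫ = 0) :
    z = 0 := by
  by_contra hz
  have nv' : ⟪v, n⟫ = 0 := by rw [real_inner_comm]; exact nv
  have na' : ⟪a, n⟫ = 0 := by rw [real_inner_comm]; exact na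
  have va' : ⟪a, v⟫ = 0 := by rw [real_inner_comm]; exact va
  have nz' : ⟪z, n⟫ = 0 := by rw [real_inner_comm]; exact nz
  have vz' : ⟪z, v⟫ = 0 := by rw [real_inner_comm]; exact vz
  have az' : ⟪z, a⟫ = 0 := by rw [real_inner_comm]; exact az
  have h : LinearIndependent ℝ ![n, v, a, z] := by
    apply linearIndependent_of_ne_zero_of_inner_eq_zero
    · intro i
      fin_cases i
      · exact hn
      · exact hv
      · exact ha
      · exact hz
    · intro i j hij
      fin_cases i <;> fin_cases j <;> first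
        | exact absurd rfl hij
        | assumption
  have h2 := h.fintype_card_le_finrank
  simp [E] at h2

namespace SPoly
variable {ι : Type} {Q : SPoly ι}

/-- unit circle of directions in the plane of `f` -/
def Circ (Q : SPoly ι) (f : ι) : Set E := {u | ‖u‖ = 1 ∧ ⟪Q.n f, u⟫ = 0}

lemma n_ne (f : ι) : Q.n f ≠ 0 := by
  intro h
  have := n_norm (Q := Q) f
  rw [h, norm_zero] at this
  norm_num at this

lemma circ_pc (f : ι) : IsPathConnected (Q.Circ f) := by
  have : Fact (Module.finrank ℝ E = 2 + 1) := ⟨by simp [E]⟩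
  have hd : Module.finrank ℝ ((ℝ ∙ Q.n f)ᗮ : Submodule ℝ E) = 2 :=
    Submodule.finrank_orthogonal_span_singleton (n_ne f)
  have hr : 1 < Module.rank ℝ ((ℝ ∙ Q.n f)ᗮ : Submodule ℝ E) := by
    rw [← Module.finrank_eq_rank, hd]; norm_num
  have h1 := isPathConnected_sphere hr 0 (zero_le_one (α := ℝ))
  have h2 := h1.image (f := fun z : ((ℝ ∙ Q.n f)ᗮ : Submodule ℝ E) => (z : E)) (by fun_prop)
  convert h2 using 1
  ext u
  constructor
  · rintro ⟨h3, h4⟩
    refine ⟨⟨u, Submodule.mem_orthogonal_singleton_iff_inner_right.2 h4⟩, ?_, rfl⟩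
    simpa using h3
  · rintro ⟨z, hz, rfl⟩
    refine ⟨by simpa using hz, Submodule.mem_orthogonal_singleton_iff_inner_right.1 z.2⟩

lemma isCompact_circ (f : ι) : IsCompact (Q.Circ f) := by
  have : Q.Circ f = sphere (0 : E) 1 ∩ {u | ⟪Q.n f, u⟫ = 0} := by
    ext u; simp [Circ]
  rw [this]
  exact (isCompact_sphere (0 : E) 1).inter_right
    (isClosed_eq (by fun_prop) continuous_const)

namespace Dev
variable {A : ι} {x : E} {Pts : ι → Finset E} (D : Dev Q A x Pts)
include D

lemma sg_le {w : E} {f : ι} (hf : w ∈ Q.face f) (u : E) : D.sg w f u ≤ D.G w * ‖u‖ := by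
  obtain ⟨p, hp, hact, he⟩ := D.exists_sg hf u
  rw [he]
  have h1 := real_inner_le_norm u (p - w)
  have h2 : ‖p - w‖ = D.G w := by rw [← hact, dist_eq_norm, norm_sub_rev]
  rw [h2] at h1
  linarith

lemma cont_sg {w : E} {f : ι} (hf : w ∈ Q.face f) : Continuous (D.sg w f) := by
  have : LipschitzWith ⟨D.G w, D.G_nonneg (face_sub f hf)⟩ (D.sg w f) := by
    apply LipschitzWith.of_le_add_mul
    intro u v
    have h1 := D.sg_add hf v (u - v)
    have h2 := D.sg_le hf (u - v)
    rw [add_sub_cancel] at h1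
    rw [dist_eq_norm]
    show D.sg w f u ≤ D.sg w f v + D.G w * ‖u - v‖
    linarith
  exact this.continuous

/-- no degenerate minimum of the slope at a flat point -/
lemma no_zero_min {w : E} {f : ι} (hf : w ∈ Q.face f) {v : E} (hv : v ∈ Q.Circ f)
    (hmin : ∀ u ∈ Q.Circ f, 0 ≤ D.sg w f u) (h0 : D.sg w f v = 0) (hc : 0 < D.G w) : False := by
  -- nonnegative on the whole plane
  have hall : ∀ u : E, ⟪Q.n f, u⟫ = 0 → 0 ≤ D.sg w f u := by
    intro u hu
    by_cases h : u = 0
    · have := D.sg_smul hf (0 : E) (le_refl (0:ℝ))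
      rw [h, zero_smul, zero_mul] at *
      rw [this]
    · have hpos : 0 < ‖u‖ := norm_pos_iff.2 h
      have h1 := D.sg_smul hf (‖u‖⁻¹ • u) hpos.le
      rw [smul_smul, mul_inv_cancel₀ hpos.ne', one_smul] at h1
      rw [h1]
      refine mul_nonneg hpos.le (hmin _ ⟨?_, ?_⟩)
      · rw [norm_smul, norm_inv, norm_norm, inv_mul_cancel₀ hpos.ne']
      · rw [inner_smul_right, hu, mul_zero]
  have hpl : ∀ p ∈ Pts f, ⟪Q.n f, p - w⟫ = 0 := by
    intro p hp
    rw [← sl_sub, hf.2, D.plane f p hp]; simp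
  obtain ⟨p, hp, hpa, hpe⟩ := D.exists_sg hf v
  rw [h0] at hpe
  have hnp : ‖p - w‖ = D.G w := by rw [← hpa, dist_eq_norm, norm_sub_rev]
  -- an opposite active image
  have hex : ∃ q ∈ Pts f, dist w q = D.G w ∧ ⟪v, q - w⟫ = 0 ∧ ⟪p - w, q - w⟫ ≤ 0 := by
    by_contra hcon
    push Not at hcon
    have hev : ∀ᶠ θ in 𝓝[>] (0:ℝ), ∀ q ∈ Pts f, dist w q = D.G w →
        ⟪v - θ • (p - w), q - w⟫ < 0 := by
      rw [Filter.eventually_all_finset]
      intro q hq
      by_cases hqa : dist w q = D.G w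
      · have h1 : ⟪v, q - w⟫ ≤ 0 := by rw [← h0]; exact D.le_sg hf v hq hqa
        rcases h1.lt_or_eq with h2 | h2
        · have hcont : Continuous fun θ : ℝ => ⟪v - θ • (p - w), q - w⟫ := by fun_prop
          have h3 : (fun θ : ℝ => ⟪v - θ • (p - w), q - w⟫) 0 < 0 := by simpa using h2
          have h4 := hcont.continuousAt.eventually (gt_mem_nhds h3)
          have h5 : ∀ᶠ θ in 𝓝[>] (0:ℝ), ⟪v - θ • (p - w), q - w⟫ < 0 :=
            Filter.Eventually.filter_mono nhdsWithin_le_nhds h4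
          exact h5.mono fun θ hθ _ => hθ
        · have h3 := hcon q hq hqa h2
          filter_upwards [self_mem_nhdsWithin] with θ hθ _
          rw [inner_sub_left, inner_smul_left, h2]
          have : (0:ℝ) < θ := hθ
          simp only [RCLike.conj_to_real]
          nlinarith
      · exact Filter.Eventually.of_forall fun θ h => absurd h hqa
    obtain ⟨θ, hθ⟩ := hev.exists
    have h1 := hall (v - θ • (p - w)) (by
      rw [inner_sub_right, inner_smul_right, hv.2, hpl p hp]; simp)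
    obtain ⟨q, hq, hqa, hqe⟩ := D.exists_sg hf (v - θ • (p - w))
    have := hθ q hq hqa
    linarith
  obtain ⟨q, hq, hqa, hqv, hqp⟩ := hex
  have hnq : ‖q - w‖ = D.G w := by rw [← hqa, dist_eq_norm, norm_sub_rev]
  set a := p - w with ha
  set b := q - w with hb
  have ha0 : a ≠ 0 := by rw [← norm_pos_iff, hnp]; exact hc
  have hv0 : v ≠ 0 := by rw [← norm_pos_iff, hv.1]; exact one_pos
  have haa : ⟪a, a⟫ = D.G w ^ 2 := by rw [real_inner_self_eq_norm_sq, hnp]
  have hbb : ⟪b, b⟫ = D.G w ^ 2 := by rw [real_inner_self_eq_norm_sq, hnq]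
  have hz : b - (⟪a, b⟫ / D.G w ^ 2) • a = 0 := by
    apply dim3 (n_ne (Q := Q) f) hv0 ha0 hv.2 (hpl p hp) hpe.symm
    · rw [inner_sub_right, inner_smul_right, hpl q hq, hpl p hp]; simp
    · rw [inner_sub_right, inner_smul_right, hqv, ← hpe]; simp
    · rw [inner_sub_right, inner_smul_right, haa]
      field_simp
      ring
  set κ := ⟪a, b⟫ / D.G w ^ 2 with hκ
  have hbk : b = κ • a := sub_eq_zero.1 hz
  have hκ0 : κ ≤ 0 := div_nonpos_of_nonpos_of_nonneg hqp (by positivity)
  have hκ1 : κ ^ 2 = 1 := by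
    have h1 : ⟪b, b⟫ = κ ^ 2 * ⟪a, a⟫ := by
      rw [hbk, inner_smul_left, inner_smul_right]; simp only [RCLike.conj_to_real]; ring
    rw [haa, hbb] at h1
    have h2 : D.G w ^ 2 ≠ 0 := by positivity
    have h3 : (κ ^ 2 - 1) * D.G w ^ 2 = 0 := by linarith
    rcases mul_eq_zero.1 h3 with h4 | h4
    · linarith
    · exact absurd h4 h2
  have hκ2 : κ = -1 := by nlinarith
  rw [hκ2, neg_one_smul] at hbk
  have hpq : p ≠ q := by
    rintro rfl
    have h1 : a = -a := hbk
    have h2 : (2:ℝ) • a = 0 := by rw [two_smul]; nth_rewrite 1 [h1]; simp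
    exact ha0 ((smul_eq_zero.1 h2).resolve_left (by norm_num))
  have hp' : p = w + a := by rw [ha]; abel
  have hq' : q = w - a := by
    have : q = w + b := by rw [hb]; abel
    rw [this, hbk]; abel
  have hmid : midpoint ℝ p q = w := by
    rw [hp', hq', midpoint_eq_smul_add]
    have : w + a + (w - a) = (2:ℝ) • w := by rw [two_smul]; abel
    rw [this, smul_smul]; norm_num
  obtain ⟨r, hr, hneg⟩ := D.sad f p hp q hq hpq (by rw [hmid]; exact hf)
  have h1 : ⟪p - r, q - r⟫ = dist w r ^ 2 - D.G w ^ 2 := by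
    have e1 : p - r = a - (r - w) := by rw [hp']; abel
    have e2 : q - r = -a - (r - w) := by rw [hq']; abel
    rw [e1, e2, dist_eq_norm, norm_sub_rev w r, ← real_inner_self_eq_norm_sq, ← haa]
    generalize r - w = r'
    simp only [inner_sub_left, inner_sub_right, inner_neg_right, real_inner_comm r' a]
    ring
  rw [h1] at hneg
  have h2 := D.G_le hf hr
  nlinarith [dist_nonneg (x := w) (y := r)]

theorem flat {w : E} {ε : ℝ} (L : D.Loc w ε) {f : ι} (hf : w ∈ Q.face f)
    {ψ : E → E} (hψ : Continuous ψ) (hmap : ∀ u ∈ Q.Circ f, ψ u ∈ Q.Dirs w)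
    (hsurj : ∀ u' ∈ Q.Dirs w, ∃ u ∈ Q.Circ f, ψ u = u')
    (hs : ∀ u ∈ Q.Circ f, D.s w ε (ψ u) = D.sg w f u) :
    SMax Q.S D.G w ∨ Reg Q.S D.G w := by
  have hwS := face_sub f hf
  have hcont := D.cont_sg hf
  obtain ⟨v, hv, hvmin⟩ := (isCompact_circ (Q := Q) f).exists_isMinOn (circ_pc f).nonempty
    hcont.continuousOn
  have hvm : ∀ u ∈ Q.Circ f, D.sg w f v ≤ D.sg w f u := fun u hu => hvmin hu
  rcases lt_trichotomy (D.sg w f v) 0 with h | h | h
  · -- regular point
    right
    apply L.reg_of hwS (δ₀ := - D.sg w f v) (by linarith)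
    · intro δ hδ hδ0 u₁ hu₁ u₂ hu₂ hs₁ hs₂
      obtain ⟨u, hu, rfl⟩ := hsurj u₁ hu₁
      obtain ⟨u', hu', rfl⟩ := hsurj u₂ hu₂
      rw [hs u hu] at hs₁
      rw [hs u' hu'] at hs₂
      -- every u is joined to v
      have key : ∀ u ∈ Q.Circ f, D.sg w f u < δ →
          JoinedIn {z | z ∈ Q.Circ f ∧ D.sg w f z < δ} u v := by
        intro u hu hsu
        have hz : ∀ t ∈ Icc (0:ℝ) 1, D.sg w f ((1 - t) • u + t • v)
            < δ * ‖(1 - t) • u + t • v‖ ∧ (1 - t) • u + t • v ≠ 0 := by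
          intro t ht
          have h1 : D.sg w f ((1 - t) • u + t • v)
              ≤ (1 - t) * D.sg w f u + t * D.sg w f v := by
            refine (D.sg_add hf _ _).trans ?_
            rw [D.sg_smul hf u (by linarith [ht.2]), D.sg_smul hf v ht.1]
          have h2 : (1 - t) * D.sg w f u + t * D.sg w f v < (1 - 2 * t) * δ := by
            rcases ht.1.lt_or_eq with h3 | h3
            · have := mul_le_mul_of_nonneg_left hsu.le (by linarith [ht.2] : 0 ≤ 1 - t)
              nlinarith
            · rw [← h3]; simpa using hsu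
          have h3 : |1 - 2 * t| ≤ ‖(1 - t) • u + t • v‖ := by
            have e : (1 - t) • u + t • v = (1 - t) • u - (-(t • v)) := by abel
            rw [e]
            refine le_trans ?_ (abs_norm_sub_norm_le _ _)
            rw [norm_neg, norm_smul, norm_smul, hu.1, hv.1, Real.norm_eq_abs, Real.norm_eq_abs,
              abs_of_nonneg ht.1, abs_of_nonneg (by linarith [ht.2] : 0 ≤ 1 - t)]
            apply le_of_eq; congr 1; ring
          have h4 := (abs_le.1 h3)
          have h5 : (1 - 2 * t) ≤ ‖(1 - t) • u + t • v‖ := (le_abs_self _).trans h3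
          refine ⟨?_, ?_⟩
          · nlinarith
          · intro h6
            rw [h6, norm_zero] at h3
            have h7 : 1 - 2 * t = 0 := by
              rw [← abs_eq_zero]; exact le_antisymm h3 (abs_nonneg _)
            have h8 : t = 1 / 2 := by linarith
            rw [h6] at h1
            have h9 : D.sg w f 0 = 0 := by
              have := D.sg_smul hf (0 : E) (le_refl (0:ℝ))
              rwa [zero_smul, zero_mul] at this
            rw [h9, h8] at h1
            linarith
        let g : ℝ → E := fun t => ‖(1 - t) • u + t • v‖⁻¹ • ((1 - t) • u + t • v)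
        have hg : ContinuousOn g (Icc 0 1) := by
          apply ContinuousOn.fun_smul
          · apply ContinuousOn.inv₀ (by fun_prop)
            intro t ht
            exact norm_ne_zero_iff.2 (hz t ht).2
          · fun_prop
        have hgm : ∀ t ∈ Icc (0:ℝ) 1, g t ∈ {z | z ∈ Q.Circ f ∧ D.sg w f z < δ} := by
          intro t ht
          have h1 := hz t ht
          have hpos : 0 < ‖(1 - t) • u + t • v‖ := norm_pos_iff.2 h1.2
          refine ⟨⟨?_, ?_⟩, ?_⟩
          · show ‖‖(1 - t) • u + t • v‖⁻¹ • ((1 - t) • u + t • v)‖ = 1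
            rw [norm_smul, norm_inv, norm_norm, inv_mul_cancel₀ hpos.ne']
          · show ⟪Q.n f, ‖(1 - t) • u + t • v‖⁻¹ • ((1 - t) • u + t • v)⟫ = 0
            rw [inner_smul_right, inner_add_right, inner_smul_right, inner_smul_right, hu.2, hv.2]
            simp
          · show D.sg w f (‖(1 - t) • u + t • v‖⁻¹ • ((1 - t) • u + t • v)) < δ
            rw [D.sg_smul hf _ (inv_pos.2 hpos).le, inv_mul_lt_iff₀ hpos, mul_comm]
            exact h1.1
        have h0 : g 0 = u := by simp [g, hu.1]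
        have h1 : g 1 = v := by simp [g, hv.1]
        rw [← h0, ← h1]
        apply JoinedIn.ofLine hg rfl rfl
        rintro _ ⟨t, ht, rfl⟩
        exact hgm t ht
      have J := (key u hu hs₁).trans (key u' hu' hs₂).symm
      obtain ⟨γ, hγ⟩ := J
      refine ⟨γ.map hψ, fun t => ?_⟩
      have := hγ t
      exact ⟨hmap _ this.1, by rw [Path.map_coe, Function.comp, hs _ this.1]; exact this.2⟩
    · exact ⟨ψ v, hmap v hv, by rw [hs v hv]; exact h.le⟩
  · -- minimum zero
    rcases (D.G_nonneg hwS).lt_or_eq with hc | hc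
    · exact (D.no_zero_min hf hv (fun u hu => by rw [← h]; exact hvm u hu) h hc).elim
    · right
      have hsg : ∀ u ∈ Q.Circ f, D.sg w f u ≤ 0 := by
        intro u hu
        have := D.sg_le hf u
        rw [← hc, zero_mul] at this
        exact this
      apply L.reg_of hwS (δ₀ := 1) one_pos
      · intro δ hδ hδ0 u₁ hu₁ u₂ hu₂ hs₁ hs₂
        obtain ⟨u, hu, rfl⟩ := hsurj u₁ hu₁
        obtain ⟨u', hu', rfl⟩ := hsurj u₂ hu₂
        obtain ⟨γ, hγ⟩ := (circ_pc (Q := Q) f).joinedIn u hu u' hu'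
        refine ⟨γ.map hψ, fun t => ?_⟩
        have := hγ t
        refine ⟨hmap _ this, ?_⟩
        rw [Path.map_coe, Function.comp, hs _ this]
        exact (hsg _ this).trans_lt hδ
      · exact ⟨ψ v, hmap v hv, by rw [hs v hv]; exact h.le⟩
  · left
    apply L.smax_of hwS h
    intro u' hu'
    obtain ⟨u, hu, rfl⟩ := hsurj u' hu'
    rw [hs u hu]
    exact hvm u hu

end Dev
end SPoly
end Pool.Agent.Lib.MP_dd45e6_gt
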