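import Pool.Agent.Lib.MP_dd45e6_gt.Flat

/-! Flat points: interior points of faces and of edges (instances). -/

namespace Pool.Agent.Lib.MP_dd45e6_gt
open Set Metric Filter Topology
open scoped RealInnerProductSpace

namespace SPoly
variable {ι : Type} {Q : SPoly ι}

lemma edge_relint [Finite ι] {f g : ι} (hfg : f ≠ g) {w : E} (hf : w ∈ Q.face f)
    (hg : w ∈ Q.face g) (honly : ∀ k, w ∈ Q.face k → k = f ∨ k = g) :
    Q.adj f g ∧ ∃ t : ℝ, 0 < t ∧ t < 1 ∧ w = (1 - t) • Q.a f g + t • Q.b f g := by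
  obtain ⟨hadj, t, ht, hw⟩ := Q.inter f g hfg w hf.1 hf.2 hg.2
  refine ⟨hadj, t, ?_⟩
  have ha := Q.a_mem f g hadj
  have hb := Q.b_mem f g hadj
  set e := Q.b f g - Q.a f g with he
  have he0 : e ≠ 0 := sub_ne_zero.2 (Q.ab_ne f g hadj).symm
  have hef : ⟪Q.n f, e⟫ = 0 := by rw [he, inner_sub_right]; linarith [ha.2.1, hb.2.1]
  have heg : ⟪Q.n g, e⟫ = 0 := by rw [he, inner_sub_right]; linarith [ha.2.2, hb.2.2]
  have hev : ∀ᶠ τ in 𝓝 (0:ℝ), ∀ k, 0 ≤ Q.sl k (w + τ • e) := by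
    rw [Filter.eventually_all]
    intro k
    by_cases hk : w ∈ Q.face k
    · rcases honly k hk with rfl | rfl
      · refine Filter.Eventually.of_forall fun τ => ?_
        rw [sl_add_smul, hef, hf.2]; simp
      · refine Filter.Eventually.of_forall fun τ => ?_
        rw [sl_add_smul, heg, hg.2]; simp
    · have hpos : 0 < Q.sl k w := lt_of_le_of_ne (hf.1 k) fun h => hk ⟨hf.1, h.symm⟩
      have hc : Continuous fun τ : ℝ => Q.sl k (w + τ • e) :=
        (continuous_sl k).comp (by fun_prop)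
      have h0 : 0 < (fun τ : ℝ => Q.sl k (w + τ • e)) 0 := by simpa using hpos
      exact (hc.continuousAt.eventually (lt_mem_nhds h0)).mono fun τ hτ => le_of_lt hτ
  obtain ⟨η, hη, hball⟩ := Metric.eventually_nhds_iff.1 hev
  have key : ∀ τ : ℝ, |τ| < η → 0 ≤ t + τ ∧ t + τ ≤ 1 := by
    intro τ hτ
    have h1 : ∀ k, 0 ≤ Q.sl k (w + τ • e) := hball (by rwa [Real.dist_eq, sub_zero])
    have h2 : Q.sl f (w + τ • e) = 0 := by rw [sl_add_smul, hef, hf.2]; simp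
    have h3 : Q.sl g (w + τ • e) = 0 := by rw [sl_add_smul, heg, hg.2]; simp
    obtain ⟨-, t', ht', hw'⟩ := Q.inter f g hfg _ h1 h2 h3
    have h4 : (t + τ - t') • e = 0 := by
      have e1 : w + τ • e = Q.a f g + (t + τ) • e := by rw [hw, he]; module
      have e2 : (1 - t') • Q.a f g + t' • Q.b f g = Q.a f g + t' • e := by rw [he]; module
      rw [e1, e2] at hw'
      have := add_left_cancel hw'
      rw [sub_smul, this, sub_self]
    have h5 : t + τ = t' := by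
      rcases smul_eq_zero.1 h4 with h | h
      · linarith
      · exact absurd h he0
    rw [h5]; exact ⟨ht'.1, ht'.2⟩
  have k1 := key (-(η / 2)) (by rw [abs_neg, abs_of_pos (by linarith)]; linarith)
  have k2 := key (η / 2) (by rw [abs_of_pos (by linarith)]; linarith)
  exact ⟨by linarith [k1.1], by linarith [k2.2], hw⟩

/-- rotation of directions from the plane of `f` to the plane of `g` -/
noncomputable def R (Q : SPoly ι) (f g : ι) (u : E) : E :=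
  u - (⟪Q.n g, u⟫ / (1 + ⟪Q.n f, Q.n g⟫)) • (Q.n f + Q.n g)

lemma R_eq {f g : ι} {w : E} (hg : Q.sl g w = 0) (u : E) :
    Q.R f g u = Q.U f g (w + u) - w := by
  have : Q.sl g (w + u) = - ⟪Q.n g, u⟫ := by
    have := sl_add_smul (Q := Q) (g := g) (x := w) (u := u) (t := 1)
    rw [one_smul, hg] at this
    rw [this]; ring
  unfold R U
  rw [this, neg_div, neg_smul]
  abel

lemma R_g {f g : ι} (h : Q.adj f g) (u : E) : ⟪Q.n g, Q.R f g u⟫ = 0 := by
  have hc := (Q.cpos f g h).ne'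
  unfold R
  rw [inner_sub_right, inner_smul_right, inner_add_right, Q.nn g, real_inner_comm (Q.n f) (Q.n g)]
  field_simp
  ring

lemma R_f {f g : ι} (h : Q.adj f g) {u : E} (hu : ⟪Q.n f, u⟫ = 0) :
    ⟪Q.n f, Q.R f g u⟫ = - ⟪Q.n g, u⟫ := by
  have hc := (Q.cpos f g h).ne'
  unfold R
  rw [inner_sub_right, inner_smul_right, inner_add_right, Q.nn f, hu]
  field_simp
  ring

lemma R_R {f g : ι} (h : Q.adj f g) {u : E} (hu : ⟪Q.n f, u⟫ = 0) :
    Q.R g f (Q.R f g u) = u := by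
  have h1 := R_f h hu
  unfold R at h1 ⊢
  rw [h1, real_inner_comm (Q.n f) (Q.n g), add_comm (Q.n g) (Q.n f), neg_div, neg_smul]
  abel

lemma sl_w_add {f : ι} {w u : E} (hf : Q.sl f w = 0) (hu : ⟪Q.n f, u⟫ = 0) :
    Q.sl f (w + u) = 0 := by
  have := sl_add_smul (Q := Q) (g := f) (x := w) (u := u) (t := 1)
  rw [one_smul, hf, hu] at this
  rw [this]; ring

lemma norm_R {f g : ι} (h : Q.adj f g) {w : E} (hf : Q.sl f w = 0) (hg : Q.sl g w = 0)
    {u : E} (hu : ⟪Q.n f, u⟫ = 0) : ‖Q.R f g u‖ = ‖u‖ := by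
  have h1 := dist_U h (sl_w_add hf hu) hf
  rw [U_fix hg, dist_eq_norm, dist_eq_norm, ← R_eq hg, add_sub_cancel_left] at h1
  exact h1

lemma inner_R {f g : ι} (h : Q.adj f g) {w : E} (hf : Q.sl f w = 0) (hg : Q.sl g w = 0)
    {u : E} (hu : ⟪Q.n f, u⟫ = 0) {p : E} (hp : Q.sl f p = 0) :
    ⟪Q.R f g u, Q.U f g p - w⟫ = ⟪u, p - w⟫ := by
  have h1 := inner_U h (sl_w_add hf hu) hf hp hf
  rw [U_fix hg, ← R_eq hg, add_sub_cancel_left] at h1
  exact h1

namespace Dev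
variable {A : ι} {x : E} {Pts : ι → Finset E} (D : Dev Q A x Pts)
include D

theorem flat_face {w : E} {ε : ℝ} (L : D.Loc w ε) {f : ι} (hf : w ∈ Q.face f)
    (honly : ∀ k, w ∈ Q.face k → k = f) : SMax Q.S D.G w ∨ Reg Q.S D.G w := by
  have htd : ∀ u ∈ Q.Circ f, Q.TD w f u := by
    intro u hu
    refine ⟨hf, hu.1, hu.2, fun g hg => ?_⟩
    rw [honly g hg, hu.2]
  apply D.flat L hf (ψ := id) continuous_id
  · exact fun u hu => ⟨f, htd u hu⟩
  · rintro u ⟨g, hg⟩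
    have := honly g hg.1
    subst this
    exact ⟨u, ⟨hg.2.1, hg.2.2.1⟩, rfl⟩
  · intro u hu
    exact L.s_eq (htd u hu)

lemma sg_R_le {w : E} {f g : ι} (h : Q.adj f g) {t : ℝ} (ht0 : 0 < t) (ht1 : t < 1)
    (hw : w = (1 - t) • Q.a f g + t • Q.b f g) (hf : w ∈ Q.face f) (hg : w ∈ Q.face g)
    {u : E} (hu : ⟪Q.n f, u⟫ = 0) : D.sg w f u ≤ D.sg w g (Q.R f g u) := by
  obtain ⟨p, hp, hact, he⟩ := D.exists_sg hf u
  have hU : Q.U f g p ∈ Pts g := by
    apply D.tr_relint h ht0 ht1 hp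
    intro q hq
    rw [← hw, hact]
    exact D.G_le hf hq
  have hpf := D.plane f p hp
  have hd : dist w (Q.U f g p) = D.G w := by
    rw [← hact]
    conv_lhs => rw [← U_fix (f := f) hg.2]
    exact dist_U h hf.2 hpf
  rw [he, ← inner_R h hf.2 hg.2 hu hpf]
  exact D.le_sg hg _ hU hd

theorem flat_edge [Finite ι] {w : E} {ε : ℝ} (L : D.Loc w ε) {f g : ι} (hfg : f ≠ g)
    (hf : w ∈ Q.face f)
    (hg : w ∈ Q.face g) (honly : ∀ k, w ∈ Q.face k → k = f ∨ k = g) :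
    SMax Q.S D.G w ∨ Reg Q.S D.G w := by
  obtain ⟨h, t, ht0, ht1, hw⟩ := edge_relint hfg hf hg honly
  have h' := Q.adj_symm f g h
  have hab := Q.ab_symm f g h
  have hsgR : ∀ u, ⟪Q.n f, u⟫ = 0 → D.sg w g (Q.R f g u) = D.sg w f u := by
    intro u hu
    apply le_antisymm
    · have h1 := D.sg_R_le h' ht0 ht1 (by rw [hab.1, hab.2]; exact hw) hg hf (R_g h u)
      rwa [R_R h hu] at h1
    · exact D.sg_R_le h ht0 ht1 hw hf hg hu
  have hc := Q.cpos f g h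
  let ψ : E → E := fun u =>
    u - (max ⟪Q.n g, u⟫ 0 / (1 + ⟪Q.n f, Q.n g⟫)) • (Q.n f + Q.n g)
  have hψ : Continuous ψ := by
    have : Continuous fun u : E => max ⟪Q.n g, u⟫ 0 := by fun_prop
    exact continuous_id.sub ((this.div_const _).smul continuous_const)
  have hψ1 : ∀ u, ⟪Q.n g, u⟫ ≤ 0 → ψ u = u := by
    intro u hu
    simp only [ψ, max_eq_right hu, zero_div, zero_smul, sub_zero]
  have hψ2 : ∀ u, 0 ≤ ⟪Q.n g, u⟫ → ψ u = Q.R f g u := by
    intro u hu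
    simp only [ψ, max_eq_left hu, R]
  have td1 : ∀ u ∈ Q.Circ f, ⟪Q.n g, u⟫ ≤ 0 → Q.TD w f u := by
    intro u hu hle
    refine ⟨hf, hu.1, hu.2, fun k hk => ?_⟩
    rcases honly k hk with rfl | rfl
    · rw [hu.2]
    · exact hle
  have td2 : ∀ u ∈ Q.Circ f, 0 ≤ ⟪Q.n g, u⟫ → Q.TD w g (Q.R f g u) := by
    intro u hu hle
    refine ⟨hg, ?_, R_g h u, fun k hk => ?_⟩
    · rw [norm_R h hf.2 hg.2 hu.2]; exact hu.1
    · rcases honly k hk with rfl | rfl
      · rw [R_f h hu.2]; linarith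
      · rw [R_g h u]
  apply D.flat L hf hψ
  · intro u hu
    rcases le_total ⟪Q.n g, u⟫ 0 with h1 | h1
    · rw [hψ1 u h1]; exact ⟨f, td1 u hu h1⟩
    · rw [hψ2 u h1]; exact ⟨g, td2 u hu h1⟩
  · rintro u' ⟨k, hk⟩
    rcases honly k hk.1 with rfl | rfl
    · exact ⟨u', ⟨hk.2.1, hk.2.2.1⟩, hψ1 u' (hk.2.2.2 g hg)⟩
    · refine ⟨Q.R k f u', ⟨?_, R_g h' u'⟩, ?_⟩
      · rw [norm_R h' hg.2 hf.2 hk.2.2.1]; exact hk.2.1
      · rw [hψ2, R_R h' hk.2.2.1]
        rw [R_f h' hk.2.2.1]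
        linarith [hk.2.2.2 f hf]
  · intro u hu
    rcases le_total ⟪Q.n g, u⟫ 0 with h1 | h1
    · rw [hψ1 u h1]; exact L.s_eq (td1 u hu h1)
    · rw [hψ2 u h1, L.s_eq (td2 u hu h1)]
      exact hsgR u hu.2

end Dev
end SPoly
end Pool.Agent.Lib.MP_dd45e6_gt
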