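import Pool.Agent.Lib.MP_dd45e6_gt.Poly
import Pool.Agent.Lib.MP_dd45e6_gt.HPoly
import Pool.Agent.Lib.MP_dd45e6_gt.Dev

/-! Vertices of the polytope `Q0`, its description as a convex hull, its frontier. -/

namespace Pool.Agent.Lib.MP_dd45e6_gt
open Set Metric Filter Topology
open scoped RealInnerProductSpace

/-- the set of vertices -/
noncomputable def V0 : Finset E := Finset.univ.image (fun j : Fin 12 => toE W0 (YT j))

/-- integer slack of the face `i` at the vertex `j` -/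
def hlSl (i : Fin 8) (j : Fin 12) : ℤ :=
  KT i * W0 - ((uT i).1 * (YT j).1 + (uT i).2.1 * (YT j).2.1 + (uT i).2.2 * (YT j).2.2)

lemma hl_nonneg : ∀ (i : Fin 8) (j : Fin 12), 0 ≤ hlSl i j := by decide

lemma hl_zero : ∀ (i : Fin 8) (j : Fin 12), hlSl i j = 0 ↔ i ∈ vfT j := by decide

lemma hl_pT : ∀ i : Fin 8, 0 < pT i := by decide

lemma hl_KT : ∀ i : Fin 8, 0 < KT i := by decide

lemma hl_inner (p q : ℤ) (u v : Z3) : ⟪toE p u, toE q v⟫
    = ((u.1 : ℝ) / p) * ((v.1 : ℝ) / q) + ((u.2.1 : ℝ) / p) * ((v.2.1 : ℝ) / q)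
      + ((u.2.2 : ℝ) / p) * ((v.2.2 : ℝ) / q) := by
  simp [toE, PiLp.inner_apply, Fin.sum_univ_three, mul_comm]

lemma hl_sl (i : Fin 8) (j : Fin 12) :
    Q0.sl i (toE W0 (YT j)) = (hlSl i j : ℝ) / ((pT i : ℝ) * (W0 : ℝ)) := by
  have h1 : (pT i : ℝ) ≠ 0 := by exact_mod_cast (hl_pT i).ne'
  have h2 : (W0 : ℝ) ≠ 0 := by norm_num [W0]
  have h3 : Q0.sl i (toE W0 (YT j)) = (KT i : ℝ) / pT i - ⟪toE (pT i) (uT i), toE W0 (YT j)⟫ := rfl
  rw [h3, hl_inner, hlSl]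
  push_cast
  field_simp

lemma hl_sl_nonneg (i : Fin 8) (j : Fin 12) : 0 ≤ Q0.sl i (toE W0 (YT j)) := by
  rw [hl_sl]
  have h1 : (0 : ℝ) < pT i := by exact_mod_cast hl_pT i
  have h2 : (0 : ℝ) < W0 := by norm_num [W0]
  have h3 : (0 : ℝ) ≤ hlSl i j := by exact_mod_cast hl_nonneg i j
  positivity

theorem vert_Q0 {v : E} (h : Q0.IsVert v) : ∃ j : Fin 12, v = toE W0 (YT j) := by
  obtain ⟨f, g, k, hfg, hgk, hfk, hf, hg, hk⟩ := h
  rcases (Q0.vert f g k hfg hgk hfk v hf.1 hf.2 hg.2 hk.2).2.1 with h | h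
  · exact ⟨aT f g, h⟩
  · exact ⟨bT f g, h⟩

theorem mem_face_Y (j : Fin 12) (f : Fin 8) : toE W0 (YT j) ∈ Q0.face f ↔ f ∈ vfT j := by
  have h1 : (0 : ℝ) < pT f := by exact_mod_cast hl_pT f
  have h2 : (0 : ℝ) < W0 := by norm_num [W0]
  have h0 : Q0.sl f (toE W0 (YT j)) = 0 ↔ f ∈ vfT j := by
    rw [hl_sl, ← hl_zero]
    constructor
    · intro h
      rcases div_eq_zero_iff.1 h with h | h
      · exact_mod_cast h
      · exact absurd h (by positivity)
    · intro h; rw [h]; simp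
  constructor
  · intro h; exact h0.1 h.2
  · intro h; exact ⟨fun i => hl_sl_nonneg i j, h0.2 h⟩

lemma hl_orth (s : Finset E) (hs : s.card ≤ 2) : ∃ u : E, u ≠ 0 ∧ ∀ v ∈ s, ⟪v, u⟫ = 0 := by
  classical
  have hE : Module.finrank ℝ E = 3 := by simp [E]
  have h1 : Module.finrank ℝ (Submodule.span ℝ (s : Set E)) ≤ 2 :=
    (finrank_span_finset_le_card s).trans hs
  have h2 := Submodule.finrank_add_finrank_orthogonal (Submodule.span ℝ (s : Set E))
  have h3 : (Submodule.span ℝ (s : Set E))ᗮ ≠ ⊥ := by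
    intro h
    rw [h, finrank_bot, hE] at h2
    omega
  obtain ⟨u, hu, hu0⟩ := (Submodule.ne_bot_iff _).1 h3
  refine ⟨u, hu0, fun v hv => ?_⟩
  exact (Submodule.mem_orthogonal _ u).1 hu v (Submodule.subset_span (by simpa using hv))

theorem hull_Q0 : convexHull ℝ (V0 : Set E) = {x : E | ∀ i, ⟪Q0.n i, x⟫ ≤ Q0.h i} := by
  classical
  apply hpoly_eq_convexHull
  · refine Q0.bdd.subset fun x hx i => ?_
    have := hx i
    linarith
  · intro v hv i
    obtain ⟨j, -, rfl⟩ := Finset.mem_image.1 hv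
    have := hl_sl_nonneg i j
    unfold SPoly.sl at this
    linarith
  · intro x hx hxV
    set A : Finset (Fin 8) := Finset.univ.filter (fun i => ⟪Q0.n i, x⟫ = Q0.h i) with hA
    have hcard : A.card ≤ 2 := by
      by_contra hc
      push Not at hc
      obtain ⟨f, hf, g, hg, k, hk, hfg, hfk, hgk⟩ := Finset.two_lt_card.1 hc
      have hx' : ∀ i, 0 ≤ Q0.sl i x := fun i => by
        have := hx i; unfold SPoly.sl; linarith
      have e : ∀ i, i ∈ A → x ∈ Q0.face i := fun i hi => by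
        refine ⟨hx', ?_⟩
        have := (Finset.mem_filter.1 hi).2
        unfold SPoly.sl; linarith
      obtain ⟨j, hj⟩ := vert_Q0 (v := x) ⟨f, g, k, hfg, hgk, hfk, e f hf, e g hg, e k hk⟩
      exact hxV (Finset.mem_image.2 ⟨j, Finset.mem_univ _, hj.symm⟩)
    obtain ⟨u, hu0, hu⟩ := hl_orth (A.image Q0.n) (Finset.card_image_le.trans hcard)
    refine ⟨u, hu0, fun i hi => hu _ ?_⟩
    exact Finset.mem_image.2 ⟨i, Finset.mem_filter.2 ⟨Finset.mem_univ _, hi⟩, rfl⟩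

lemma hl_n_ne (i : Fin 8) : Q0.n i ≠ 0 := by
  intro h
  have := Q0.nn i
  rw [h, inner_zero_left] at this
  norm_num at this

theorem frontier_Q0 : frontier (convexHull ℝ (V0 : Set E)) = Q0.S := by
  rw [hull_Q0, hpoly_frontier _ _ hl_n_ne]
  ext x
  simp only [SPoly.S, SPoly.sl, Set.mem_ofPred_eq, sub_nonneg, sub_eq_zero]
  constructor
  · rintro ⟨h1, i, hi⟩; exact ⟨h1, i, hi.symm⟩
  · rintro ⟨h1, i, hi⟩; exact ⟨h1, i, hi.symm⟩

theorem interior_Q0 : (interior (convexHull ℝ (V0 : Set E))).Nonempty := by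
  refine ⟨0, ?_⟩
  rw [hull_Q0]
  apply hpoly_interior
  intro i
  rw [inner_zero_right]
  have h1 : (0 : ℝ) < pT i := by exact_mod_cast hl_pT i
  have h2 : (0 : ℝ) < KT i := by exact_mod_cast hl_KT i
  have h3 : Q0.h i = (KT i : ℝ) / pT i := rfl
  rw [h3]; positivity

end Pool.Agent.Lib.MP_dd45e6_gt
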