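import Pool.Agent.Lib.MP_dd45e6_gt.Defs

/-! A mountain pass lemma for compact, locally star-shaped sets. -/

namespace Pool.Agent.Lib.MP_dd45e6_gt
open Set Metric

/-- strict local maximum of `f` on `S` -/
def SMax (S : Set E) (f : E → ℝ) (w : E) : Prop :=
  ∃ ε > 0, ∀ y ∈ S, dist y w < ε → y ≠ w → f y < f w

/-- regular point: near `w` the strict superlevel set lies in one path component of the
strict superlevel set, and the weak superlevel set is in its closure -/
def Reg (S : Set E) (f : E → ℝ) (w : E) : Prop :=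
  ∃ ε > 0,
    (∀ y ∈ S, ∀ z ∈ S, dist y w < ε → dist z w < ε → f w < f y → f w < f z →
      JoinedIn {q | q ∈ S ∧ f w < f q} y z) ∧
    (∀ y ∈ S, dist y w < ε → f w ≤ f y → y ∈ closure {q | q ∈ S ∧ f w < f q})

/-- a path in `S` along which a continuous real function goes from `≤ v` to `≥ v` passes
through the value `v` -/
theorem joined_cross {P : Set E} {x y : E} (h : JoinedIn P x y) (g : E → ℝ)
    (hg : Continuous g) {v : ℝ} (hx : g x ≤ v) (hy : v ≤ g y) :
    ∃ q ∈ P, g q = v := by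
  obtain ⟨γ, hγ⟩ := h
  have hc : Continuous (fun t => g (γ t)) := hg.comp γ.continuous
  have := mem_range_of_exists_le_of_exists_ge (f := fun t => g (γ t)) (c := v) hc
    ⟨0, by simpa using hx⟩ ⟨1, by simpa using hy⟩
  obtain ⟨t, ht⟩ := this
  exact ⟨γ t, hγ t, ht⟩

/-- local joining inside the strict superlevel set -/
theorem local_join (S : Set E)
    (hloc : ∀ y ∈ S, ∃ ε > 0, ∀ z ∈ S, dist z y < ε → segment ℝ y z ⊆ S)
    (f : E → ℝ) (hf : ContinuousOn f S) {c : ℝ} {y : E} (hy : y ∈ S) (hcy : c < f y) :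
    ∃ ε > 0, ∀ z ∈ S, dist z y < ε → JoinedIn {q | q ∈ S ∧ c < f q} y z := by
  obtain ⟨ε₁, h1, H1⟩ := hloc y hy
  have hcont := hf y hy
  have hev : ∀ᶠ q in nhdsWithin y S, c < f q := hcont.eventually (lt_mem_nhds hcy)
  obtain ⟨ε₂, h2, H2'⟩ := Metric.mem_nhdsWithin_iff.1 hev
  have H2 : ∀ q, dist q y < ε₂ → q ∈ S → c < f q := fun q hd hq =>
    H2' ⟨mem_ball.2 hd, hq⟩
  refine ⟨min ε₁ ε₂, lt_min h1 h2, fun z hz hd => ?_⟩
  have hseg : segment ℝ y z ⊆ S := H1 z hz (lt_of_lt_of_le hd (min_le_left _ _))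
  have hball : segment ℝ y z ⊆ ball y ε₂ := by
    apply (convex_ball y ε₂).segment_subset (mem_ball_self h2)
    exact mem_ball.2 (lt_of_lt_of_le hd (min_le_right _ _))
  have : segment ℝ y z ⊆ {q | q ∈ S ∧ c < f q} := by
    intro q hq
    exact ⟨hseg hq, H2 q (mem_ball.1 (hball hq)) (hseg hq)⟩
  exact (JoinedIn.of_segment_subset this)

theorem mountain_pass_aux (S : Set E) (hS : IsCompact S)
    (hloc : ∀ y ∈ S, ∃ ε > 0, ∀ z ∈ S, dist z y < ε → segment ℝ y z ⊆ S)
    (hconn : ∀ y ∈ S, ∀ z ∈ S, JoinedIn S y z)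
    (f : E → ℝ) (hf : ContinuousOn f S)
    (hcrit : ∀ w ∈ S, SMax S f w ∨ Reg S f w)
    {z₁ z₂ : E} (h1 : z₁ ∈ S) (h2 : z₂ ∈ S) (hle : f z₁ ≤ f z₂)
    (m1 : SMax S f z₁) (hne : z₁ ≠ z₂) : False := by
  classical
  set T : Set ℝ := {c | c < f z₁ ∧ JoinedIn {q | q ∈ S ∧ c < f q} z₁ z₂} with hT
  -- T is nonempty
  obtain ⟨w0, hw0, hw0min⟩ := hS.exists_isMinOn ⟨z₁, h1⟩ hf
  have hTne : T.Nonempty := by
    refine ⟨f w0 - 1, ?_, ?_⟩
    · have := hw0min h1
      simp only [mem_ofPred_eq] at this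
      linarith
    · have hj := hconn z₁ h1 z₂ h2
      refine hj.mono (fun q hq => ⟨hq, ?_⟩)
      have := hw0min hq
      simp only [mem_ofPred_eq] at this
      linarith
  have hTbdd : BddAbove T := ⟨f z₁, fun c hc => hc.1.le⟩
  set cs := sSup T with hcs
  -- Claim 1
  have hcs1 : cs < f z₁ := by
    obtain ⟨ε, hε, H⟩ := m1
    set r := min (ε / 2) (dist z₂ z₁) with hr
    have hdpos : 0 < dist z₂ z₁ := dist_pos.2 (Ne.symm hne)
    have hrpos : 0 < r := lt_min (by linarith) hdpos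
    set K : Set E := S ∩ sphere z₁ r with hK
    have hKc : IsCompact K := hS.inter_right isClosed_sphere
    have hcross : ∀ c ∈ T, ∃ q ∈ K, c < f q := by
      intro c hc
      have hr2 : r ≤ dist z₂ z₁ := min_le_right _ _
      obtain ⟨q, hq, hqr⟩ := joined_cross hc.2 (fun q => dist q z₁)
        (continuous_id.dist continuous_const) (v := r) (by simpa using hrpos.le)
        hr2
      exact ⟨q, ⟨hq.1, hqr⟩, hq.2⟩
    have hKne : K.Nonempty := by
      obtain ⟨c, hc⟩ := hTne
      obtain ⟨q, hq, _⟩ := hcross c hc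
      exact ⟨q, hq⟩
    obtain ⟨q0, hq0, hmax⟩ := hKc.exists_isMaxOn hKne (hf.mono inter_subset_left)
    have hlt : f q0 < f z₁ := by
      apply H q0 hq0.1
      · have : dist q0 z₁ = r := hq0.2
        rw [this]
        exact lt_of_le_of_lt (min_le_left _ _) (by linarith)
      · intro h
        have : dist q0 z₁ = r := hq0.2
        rw [h, dist_self] at this
        linarith
    refine lt_of_le_of_lt (csSup_le hTne ?_) hlt
    intro c hc
    obtain ⟨q, hq, hcq⟩ := hcross c hc
    have := hmax hq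
    simp only [mem_ofPred_eq] at this
    linarith
  -- Claim 2
  have hcs2 : ¬ JoinedIn {q | q ∈ S ∧ cs < f q} z₁ z₂ := by
    rintro ⟨γ, hγ⟩
    have hcomp : IsCompact (range γ) := isCompact_range γ.continuous
    have hsub : range γ ⊆ S := by
      rintro _ ⟨t, rfl⟩
      exact (hγ t).1
    obtain ⟨q0, ⟨t0, rfl⟩, hmin⟩ := hcomp.exists_isMinOn ⟨γ 0, mem_range_self 0⟩ (hf.mono hsub)
    have hlt : cs < f (γ t0) := (hγ t0).2
    have hz1 : f (γ t0) ≤ f z₁ := by
      have := hmin (mem_range_self (0 : unitInterval))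
      simpa using this
    have hmem : (cs + f (γ t0)) / 2 ∈ T := by
      refine ⟨by linarith, γ, fun t => ⟨(hγ t).1, ?_⟩⟩
      have := hmin (mem_range_self t)
      simp only [mem_ofPred_eq] at this
      linarith
    have := le_csSup hTbdd hmem
    linarith
  set U : Set E := {y | JoinedIn {q | q ∈ S ∧ cs < f q} z₁ y} with hU
  have hz1P : z₁ ∈ {q | q ∈ S ∧ cs < f q} := ⟨h1, hcs1⟩
  have hz1U : z₁ ∈ U := JoinedIn.refl hz1P
  have hUsub : U ⊆ {q | q ∈ S ∧ cs < f q} := fun y hy => hy.target_mem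
  have hUS : U ⊆ S := fun y hy => (hUsub hy).1
  have hClS : closure U ⊆ S := closure_minimal hUS hS.isClosed
  -- points of closure U with f > cs are in U together with a neighbourhood
  have hopen : ∀ y ∈ closure U, cs < f y → ∃ ε > 0, ∀ z ∈ S, dist z y < ε → z ∈ U := by
    intro y hy hyc
    obtain ⟨ε, hε, H⟩ := local_join S hloc f hf (hClS hy) hyc
    obtain ⟨u, hu, hdu⟩ := Metric.mem_closure_iff.1 hy ε hε
    have hyu := H u (hUS hu) (by rwa [dist_comm])
    refine ⟨ε, hε, fun z hz hd => ?_⟩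
    have hyz := H z hz hd
    exact (JoinedIn.trans hu hyu.symm).trans hyz
  have hz2cl : z₂ ∉ closure U := by
    intro h
    obtain ⟨ε, hε, H⟩ := hopen z₂ h (by linarith)
    exact hcs2 (H z₂ h2 (by simpa using hε))
  have hClne : (closure U).Nonempty := ⟨z₁, subset_closure hz1U⟩
  have hδ : 0 < infDist z₂ (closure U) :=
    (isClosed_closure.notMem_iff_infDist_pos hClne).1 hz2cl
  -- points at distance exactly η
  have hη : ∀ η : ℝ, 0 < η → η ≤ infDist z₂ (closure U) →
      ∃ y ∈ S, cs ≤ f y ∧ infDist y (closure U) = η := by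
    intro η h0 hηle
    set K : Set E := S ∩ {y | infDist y (closure U) = η} with hK
    have hKc : IsCompact K :=
      hS.inter_right (isClosed_eq (continuous_infDist_pt _) continuous_const)
    have hcross : ∀ c ∈ T, ∃ q ∈ K, c < f q := by
      intro c hc
      obtain ⟨q, hq, hqr⟩ := joined_cross hc.2 (fun q => infDist q (closure U))
        (continuous_infDist_pt _) (v := η)
        (by
          have : infDist z₁ (closure U) = 0 := infDist_zero_of_mem (subset_closure hz1U)
          simpa [this] using h0.le)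
        hηle
      exact ⟨q, ⟨hq.1, hqr⟩, hq.2⟩
    have hKne : K.Nonempty := by
      obtain ⟨c, hc⟩ := hTne
      obtain ⟨q, hq, _⟩ := hcross c hc
      exact ⟨q, hq⟩
    obtain ⟨q0, hq0, hmax⟩ := hKc.exists_isMaxOn hKne (hf.mono inter_subset_left)
    refine ⟨q0, hq0.1, ?_, hq0.2⟩
    refine csSup_le hTne ?_
    intro c hc
    obtain ⟨q, hq, hcq⟩ := hcross c hc
    have := hmax hq
    simp only [mem_ofPred_eq] at this
    linarith
  -- sequence
  set δ := infDist z₂ (closure U) with hδdef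
  have hseq : ∀ n : ℕ, ∃ y ∈ S, cs ≤ f y ∧ infDist y (closure U) = δ / (n + 1) := by
    intro n
    apply hη
    · positivity
    · apply div_le_self hδ.le
      have : (0 : ℝ) ≤ n := Nat.cast_nonneg n
      linarith
  choose y hyS hyc hyd using hseq
  obtain ⟨y0, hy0S, φ, hφ, hlim⟩ := hS.tendsto_subseq hyS
  have hdist0 : infDist y0 (closure U) = 0 := by
    have hl1 : Filter.Tendsto (fun n => infDist (y (φ n)) (closure U)) Filter.atTop
        (nhds (infDist y0 (closure U))) :=
      ((continuous_infDist_pt _).tendsto y0).comp hlim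
    have hl2 : Filter.Tendsto (fun n => infDist (y (φ n)) (closure U)) Filter.atTop (nhds 0) := by
      have h3 : Filter.Tendsto (fun n : ℕ => δ / ((n : ℝ) + 1)) Filter.atTop (nhds 0) := by
        have := tendsto_one_div_add_atTop_nhds_zero_nat (𝕜 := ℝ)
        have := this.const_mul δ
        simpa [div_eq_mul_inv] using this
      have h4 := h3.comp hφ.tendsto_atTop
      refine h4.congr (fun n => ?_)
      simp [hyd]
    exact tendsto_nhds_unique hl1 hl2
  have hy0cl : y0 ∈ closure U := by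
    exact ((isClosed_closure (s := U)).mem_iff_infDist_zero hClne).2 hdist0
  have hfy0 : cs ≤ f y0 := by
    have hcw : Filter.Tendsto (fun n => f (y (φ n))) Filter.atTop (nhds (f y0)) := by
      have h5 : Filter.Tendsto (fun n => y (φ n)) Filter.atTop (nhdsWithin y0 S) :=
        tendsto_nhdsWithin_iff.2 ⟨hlim, Filter.Eventually.of_forall (fun n => hyS _)⟩
      exact (hf y0 hy0S).tendsto.comp h5
    exact ge_of_tendsto' hcw (fun n => hyc _)
  -- y (φ n) not in closure U
  have hynot : ∀ n, y n ∉ closure U := by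
    intro n h
    have := infDist_zero_of_mem h
    rw [hyd] at this
    have : 0 < δ / ((n : ℝ) + 1) := by positivity
    linarith
  have hnear : ∀ ε > 0, ∃ n, dist (y n) y0 < ε := by
    intro ε hε
    obtain ⟨n, hn⟩ := (Metric.tendsto_atTop.1 hlim ε hε)
    exact ⟨φ n, hn n le_rfl⟩
  rcases lt_or_eq_of_le hfy0 with hlt | heq
  · obtain ⟨ε, hε, H⟩ := hopen y0 hy0cl hlt
    obtain ⟨n, hn⟩ := hnear ε hε
    exact hynot n (subset_closure (H (y n) (hyS n) hn))
  · rcases hcrit y0 hy0S with hm | hr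
    · obtain ⟨ε, hε, H⟩ := hm
      obtain ⟨u, hu, hdu⟩ := Metric.mem_closure_iff.1 hy0cl ε hε
      have hfu := (hUsub hu).2
      by_cases huy : u = y0
      · rw [huy] at hfu; linarith
      · have := H u (hUS hu) (by rwa [dist_comm]) huy
        linarith
    · obtain ⟨ε, hε, H1, H2⟩ := hr
      rw [← heq] at H1 H2
      obtain ⟨u, hu, hdu⟩ := Metric.mem_closure_iff.1 hy0cl ε hε
      have hall : ∀ z ∈ S, dist z y0 < ε → cs < f z → z ∈ U := by
        intro z hz hd hcz
        exact JoinedIn.trans hu (H1 u (hUS hu) z hz (by rwa [dist_comm]) hd (hUsub hu).2 hcz)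
      obtain ⟨n, hn⟩ := hnear ε hε
      have hcl := H2 (y n) (hyS n) hn (hyc n)
      apply hynot n
      rw [Metric.mem_closure_iff] at hcl ⊢
      intro η hη0
      obtain ⟨q, hq, hqd⟩ := hcl (min η (ε - dist (y n) y0)) (lt_min hη0 (by linarith))
      refine ⟨q, hall q hq.1 ?_ hq.2, lt_of_lt_of_le hqd (min_le_left _ _)⟩
      have h6 := lt_of_lt_of_le hqd (min_le_right _ _)
      have h7 := dist_triangle q (y n) y0
      rw [dist_comm q (y n)] at h7
      linarith

theorem smax_of_localMax (S : Set E) (f : E → ℝ)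
    (hcrit : ∀ w ∈ S, SMax S f w ∨ Reg S f w) {z : E} (hz : z ∈ S)
    (m : IsLocalMaxOn f S z) : SMax S f z := by
  rcases hcrit z hz with h | h
  · exact h
  · exfalso
    obtain ⟨ε, hε, _, H2⟩ := h
    have hcl := H2 z hz (by simpa using hε) le_rfl
    have hm : ∀ᶠ q in nhdsWithin z S, f q ≤ f z := m
    obtain ⟨η, hη, H'⟩ := Metric.mem_nhdsWithin_iff.1 hm
    have H : ∀ q, dist q z < η → q ∈ S → f q ≤ f z := fun q hd hq =>
      H' ⟨mem_ball.2 hd, hq⟩
    obtain ⟨q, hq, hd⟩ := Metric.mem_closure_iff.1 hcl η hη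
    have := H q (by rwa [dist_comm] at hd) hq.1
    linarith [hq.2]

theorem mountain_pass (S : Set E) (hS : IsCompact S)
    (hloc : ∀ y ∈ S, ∃ ε > 0, ∀ z ∈ S, dist z y < ε → segment ℝ y z ⊆ S)
    (hconn : ∀ y ∈ S, ∀ z ∈ S, JoinedIn S y z)
    (f : E → ℝ) (hf : ContinuousOn f S)
    (hcrit : ∀ w ∈ S, SMax S f w ∨ Reg S f w)
    {z₁ z₂ : E} (h1 : z₁ ∈ S) (h2 : z₂ ∈ S)
    (m1 : IsLocalMaxOn f S z₁) (m2 : IsLocalMaxOn f S z₂) : z₁ = z₂ := by
  by_contra hne
  have s1 := smax_of_localMax S f hcrit h1 m1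
  have s2 := smax_of_localMax S f hcrit h2 m2
  rcases le_total (f z₁) (f z₂) with hle | hle
  · exact mountain_pass_aux S hS hloc hconn f hf hcrit h1 h2 hle s1 hne
  · exact mountain_pass_aux S hS hloc hconn f hf hcrit h2 h1 hle s2 (Ne.symm hne)

end Pool.Agent.Lib.MP_dd45e6_gt
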