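import Pool.Agent.Lib.MP_dd45e6_gt.Exact
import Pool.Agent.Lib.MP_dd45e6_gt.MP

/-! Local structure of the developed distance function: radial formula and criteria. -/

namespace Pool.Agent.Lib.MP_dd45e6_gt
open Set Metric Filter Topology
open scoped RealInnerProductSpace

namespace SPoly
variable {ι : Type} {Q : SPoly ι}

/-- unit direction at `w` into the face `f` -/
def TD (Q : SPoly ι) (w : E) (f : ι) (u : E) : Prop :=
  w ∈ Q.face f ∧ ‖u‖ = 1 ∧ ⟪Q.n f, u⟫ = 0 ∧ ∀ g, w ∈ Q.face g → ⟪Q.n g, u⟫ ≤ 0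

/-- unit directions at `w` -/
def Dirs (Q : SPoly ι) (w : E) : Set E := {u | ∃ f, Q.TD w f u}

namespace Dev
variable {A : ι} {x : E} {Pts : ι → Finset E}

/-- `ε` is a radius in which the radial formula holds -/
structure Loc (D : Dev Q A x Pts) (w : E) (ε : ℝ) : Prop where
  pos : 0 < ε
  far : ∀ g, w ∉ Q.face g → ∀ y, dist y w < ε → 0 < Q.sl g y
  form : ∀ f, w ∈ Q.face f → ∀ y ∈ Q.face f, dist y w < ε →
    D.G y ^ 2 = D.G w ^ 2 + ‖y - w‖ ^ 2 - 2 * D.sg w f (y - w)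

lemma dist_sq (y w p : E) :
    dist y p ^ 2 = dist w p ^ 2 + ‖y - w‖ ^ 2 - 2 * ⟪y - w, p - w⟫ := by
  rw [dist_eq_norm, dist_eq_norm, norm_sub_rev w p]
  have : y - p = (y - w) - (p - w) := by abel
  rw [this, norm_sub_sq_real]
  ring

variable (D : Dev Q A x Pts)
include D

lemma exists_loc [Finite ι] {w : E} (hw : w ∈ Q.S) : ∃ ε, D.Loc w ε := by
  have h1 : ∀ᶠ y in 𝓝 w, ∀ g, w ∉ Q.face g → 0 < Q.sl g y := by
    rw [Filter.eventually_all]
    intro g
    by_cases hg : w ∈ Q.face g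
    · exact Filter.Eventually.of_forall fun y h => absurd hg h
    · have : 0 < Q.sl g w := lt_of_le_of_ne (hw.1 g) fun h => hg ⟨hw.1, h.symm⟩
      exact ((continuous_sl g).continuousAt.eventually (lt_mem_nhds this)).mono
        fun y hy _ => hy
  have h2 : ∀ᶠ y in 𝓝 w, ∀ f, w ∈ Q.face f → ∀ p ∈ Pts f, dist w p ≠ D.G w →
      ∃ q ∈ Pts f, dist y q < dist y p := by
    rw [Filter.eventually_all]
    intro f
    by_cases hf : w ∈ Q.face f
    · have : ∀ᶠ y in 𝓝 w, ∀ p ∈ Pts f, dist w p ≠ D.G w → ∃ q ∈ Pts f, dist y q < dist y p := by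
        rw [Filter.eventually_all_finset]
        intro p hp
        by_cases hpa : dist w p = D.G w
        · exact Filter.Eventually.of_forall fun y h => absurd hpa h
        · obtain ⟨q, hq, hqa⟩ := D.exists_G hf
          have hlt : dist w q < dist w p := by
            rw [← hqa]; exact lt_of_le_of_ne (D.G_le hf hp) fun h => hpa h.symm
          have hc : Continuous fun y => dist y p - dist y q := by fun_prop
          have h0 : 0 < (fun y => dist y p - dist y q) w := by simpa using hlt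
          refine (hc.continuousAt.eventually (lt_mem_nhds h0)).mono fun y hy _ => ⟨q, hq, ?_⟩
          have : 0 < dist y p - dist y q := hy
          linarith
      exact this.mono fun y hy _ => hy
    · exact Filter.Eventually.of_forall fun y h => absurd h hf
  obtain ⟨ε, hε, hball⟩ := Metric.eventually_nhds_iff.1 (h1.and h2)
  refine ⟨ε, hε, fun g hg y hy => (hball hy).1 g hg, fun f hf y hyf hy => ?_⟩
  apply le_antisymm
  · obtain ⟨q, hq, hact, he⟩ := D.exists_sg hf (y - w)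
    have h3 := D.G_le hyf hq
    have h4 := pow_le_pow_left₀ (D.G_nonneg (face_sub f hyf)) h3 2
    rw [dist_sq y w q, hact] at h4
    rw [he]; exact h4
  · obtain ⟨p, hp, hpy⟩ := D.exists_G hyf
    have hact : dist w p = D.G w := by
      by_contra hne
      obtain ⟨q, hq, hlt⟩ := (hball hy).2 f hf p hp hne
      have := D.G_le hyf hq
      linarith
    have h3 := D.le_sg hf (y - w) hp hact
    rw [hpy, dist_sq y w p, hact]
    linarith

omit D in
/-- radial slope function -/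
noncomputable def s (D : Dev Q A x Pts) (w : E) (ε : ℝ) (u : E) : ℝ :=
  (D.G w ^ 2 + (ε / 2) ^ 2 - D.G (w + (ε / 2) • u) ^ 2) / ε

namespace Loc
variable {D} {w : E} {ε : ℝ} (L : D.Loc w ε)
include L

lemma mem_of_face {f : ι} {y : E} (hy : y ∈ Q.face f) (hd : dist y w < ε) : w ∈ Q.face f := by
  by_contra h
  have := L.far f h y hd
  rw [hy.2] at this
  exact lt_irrefl _ this

lemma td {f : ι} {y : E} (hy : y ∈ Q.face f) (hd : dist y w < ε) (hne : y ≠ w) :
    Q.TD w f (‖y - w‖⁻¹ • (y - w)) := by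
  have hpos : 0 < ‖y - w‖ := norm_pos_iff.2 (sub_ne_zero.2 hne)
  have hf := L.mem_of_face hy hd
  refine ⟨hf, ?_, ?_, fun g hg => ?_⟩
  · rw [norm_smul, norm_inv, norm_norm, inv_mul_cancel₀ hpos.ne']
  · rw [inner_smul_right, ← sl_sub, hf.2, hy.2]; simp
  · rw [inner_smul_right, ← sl_sub, hg.2]
    have := hy.1 g
    have h2 := inv_pos.2 hpos
    nlinarith

lemma face_mem {f : ι} {u : E} (hu : Q.TD w f u) {ρ : ℝ} (h0 : 0 ≤ ρ) (h1 : ρ < ε) :
    w + ρ • u ∈ Q.face f := by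
  obtain ⟨hf, hn, hpl, hle⟩ := hu
  refine ⟨fun g => ?_, ?_⟩
  · by_cases hg : w ∈ Q.face g
    · rw [sl_add_smul, hg.2]
      have := hle g hg
      nlinarith
    · refine (L.far g hg _ ?_).le
      rw [dist_eq_norm]
      simp only [add_sub_cancel_left, norm_smul, hn, mul_one, Real.norm_eq_abs, abs_of_nonneg h0]
      exact h1
  · rw [sl_add_smul, hf.2, hpl]; simp

lemma form_td {f : ι} {u : E} (hu : Q.TD w f u) {ρ : ℝ} (h0 : 0 ≤ ρ) (h1 : ρ < ε) :
    D.G (w + ρ • u) ^ 2 = D.G w ^ 2 + ρ ^ 2 - 2 * ρ * D.sg w f u := by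
  have hd : dist (w + ρ • u) w = ρ := by
    rw [dist_eq_norm]
    simp [norm_smul, hu.2.1, abs_of_nonneg h0]
  have h := L.form f hu.1 _ (L.face_mem hu h0 h1) (by rw [hd]; exact h1)
  rw [h, ← dist_eq_norm, hd, add_sub_cancel_left, D.sg_smul hu.1 u h0]
  ring

lemma s_eq {f : ι} {u : E} (hu : Q.TD w f u) : D.s w ε u = D.sg w f u := by
  have hε := L.pos
  unfold s
  rw [L.form_td hu (by linarith) (by linarith)]
  field_simp
  ring

lemma form_s {u : E} (hu : u ∈ Q.Dirs w) {ρ : ℝ} (h0 : 0 ≤ ρ) (h1 : ρ < ε) :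
    D.G (w + ρ • u) ^ 2 = D.G w ^ 2 + ρ ^ 2 - 2 * ρ * D.s w ε u := by
  obtain ⟨f, hf⟩ := hu
  rw [L.form_td hf h0 h1, L.s_eq hf]

lemma mem_s {u : E} (hu : u ∈ Q.Dirs w) {ρ : ℝ} (h0 : 0 ≤ ρ) (h1 : ρ < ε) :
    w + ρ • u ∈ Q.S := by
  obtain ⟨f, hf⟩ := hu
  exact face_sub f (L.face_mem hf h0 h1)

/-- `c < G` on the ray -/
lemma lt_iff (hw : w ∈ Q.S) {u : E} (hu : u ∈ Q.Dirs w) {ρ : ℝ} (h0 : 0 < ρ) (h1 : ρ < ε) :
    D.G w < D.G (w + ρ • u) ↔ D.s w ε u < ρ / 2 := by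
  have hf := L.form_s hu h0.le h1
  have hn := D.G_nonneg (L.mem_s hu h0.le h1)
  have hn' := D.G_nonneg hw
  constructor
  · intro h
    have := pow_lt_pow_left₀ h hn' two_ne_zero
    rw [hf] at this
    by_contra hcon
    push Not at hcon
    nlinarith
  · intro h
    refine lt_of_pow_lt_pow_left₀ 2 hn ?_
    rw [hf]; nlinarith

lemma le_iff (hw : w ∈ Q.S) {u : E} (hu : u ∈ Q.Dirs w) {ρ : ℝ} (h0 : 0 < ρ) (h1 : ρ < ε) :
    D.G w ≤ D.G (w + ρ • u) ↔ D.s w ε u ≤ ρ / 2 := by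
  have hf := L.form_s hu h0.le h1
  have hn := D.G_nonneg (L.mem_s hu h0.le h1)
  have hn' := D.G_nonneg hw
  constructor
  · intro h
    have := pow_le_pow_left₀ hn' h 2
    rw [hf] at this
    by_contra hcon
    push Not at hcon
    nlinarith
  · intro h
    refine le_of_sq_le_sq ?_ hn
    rw [hf]; nlinarith
where
  le_of_sq_le_sq {a b : ℝ} (h : a ^ 2 ≤ b ^ 2) (hb : 0 ≤ b) : a ≤ b := by
    exact abs_le_of_sq_le_sq' h hb |>.2

lemma smax_of {m : ℝ} (hw : w ∈ Q.S) (hm : 0 < m) (h : ∀ u ∈ Q.Dirs w, m ≤ D.s w ε u) :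
    SMax Q.S D.G w := by
  refine ⟨min ε (2 * m), lt_min L.pos (by linarith), fun y hy hd hne => ?_⟩
  have hpos : 0 < ‖y - w‖ := norm_pos_iff.2 (sub_ne_zero.2 hne)
  obtain ⟨f, hf⟩ := mem_S.1 hy
  have hd1 : dist y w < ε := hd.trans_le (min_le_left _ _)
  have hd2 : dist y w < 2 * m := hd.trans_le (min_le_right _ _)
  have htd := L.td hf hd1 hne
  set u := ‖y - w‖⁻¹ • (y - w) with hu
  have hyu : w + ‖y - w‖ • u = y := by
    rw [hu, smul_smul, mul_inv_cancel₀ hpos.ne', one_smul]; abel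
  rw [dist_eq_norm] at hd1 hd2
  by_contra hcon
  push Not at hcon
  rw [← hyu, L.le_iff hw ⟨f, htd⟩ hpos hd1] at hcon
  have := h u ⟨f, htd⟩
  linarith

lemma reg_of (hw : w ∈ Q.S) {δ₀ : ℝ} (hδ₀ : 0 < δ₀)
    (hconn : ∀ δ, 0 < δ → δ < δ₀ → ∀ u ∈ Q.Dirs w, ∀ u' ∈ Q.Dirs w, D.s w ε u < δ →
      D.s w ε u' < δ → JoinedIn {u | u ∈ Q.Dirs w ∧ D.s w ε u < δ} u u')
    (hneg : ∃ v ∈ Q.Dirs w, D.s w ε v ≤ 0) : Reg Q.S D.G w := by
  have hε := L.pos
  -- polar coordinates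
  have polar : ∀ y ∈ Q.S, dist y w < ε → y ≠ w → ∃ u ∈ Q.Dirs w, ∃ ρ, 0 < ρ ∧ ρ = dist y w ∧
      y = w + ρ • u := by
    intro y hy hd hne
    have hpos : 0 < ‖y - w‖ := norm_pos_iff.2 (sub_ne_zero.2 hne)
    obtain ⟨f, hf⟩ := mem_S.1 hy
    refine ⟨‖y - w‖⁻¹ • (y - w), ⟨f, L.td hf hd hne⟩, ‖y - w‖, hpos, (dist_eq_norm _ _).symm, ?_⟩
    rw [smul_smul, mul_inv_cancel₀ hpos.ne', one_smul]; abel
  have main : ∀ u ∈ Q.Dirs w, ∀ u' ∈ Q.Dirs w, ∀ ρ ρ' : ℝ, 0 < ρ → ρ ≤ ρ' → ρ' < ε →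
      ρ' < 2 * δ₀ → D.s w ε u < ρ / 2 → D.s w ε u' < ρ' / 2 →
      JoinedIn {q | q ∈ Q.S ∧ D.G w < D.G q} (w + ρ • u) (w + ρ' • u') := by
    intro u hu u' hu' ρ ρ' h0 hle h1 h2 hs hs'
    have J1 : JoinedIn {q | q ∈ Q.S ∧ D.G w < D.G q} (w + ρ • u) (w + ρ' • u) := by
      apply JoinedIn.of_segment_subset
      rintro q ⟨a, b, ha, hb, hab, rfl⟩
      have e : a • (w + ρ • u) + b • (w + ρ' • u) = w + (a * ρ + b * ρ') • u := by
        rw [smul_add, smul_add, add_add_add_comm, ← add_smul, hab, one_smul, smul_smul,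
          smul_smul, ← add_smul]
      have e1 : ρ ≤ a * ρ + b * ρ' := by
        have : a = 1 - b := by linarith
        rw [this]; nlinarith
      have e2 : a * ρ + b * ρ' ≤ ρ' := by
        have : b = 1 - a := by linarith
        rw [this]; nlinarith
      rw [e]
      refine ⟨L.mem_s hu (by linarith) (by linarith), ?_⟩
      rw [L.lt_iff hw hu (by linarith) (by linarith)]
      linarith
    have J2 : JoinedIn {q | q ∈ Q.S ∧ D.G w < D.G q} (w + ρ' • u) (w + ρ' • u') := by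
      obtain ⟨γ, hγ⟩ := hconn (ρ' / 2) (by linarith) (by linarith) u hu u' hu' (by linarith) hs'
      refine ⟨γ.map (f := fun z => w + ρ' • z) (by fun_prop), fun t => ?_⟩
      have := hγ t
      refine ⟨L.mem_s this.1 (by linarith) h1, ?_⟩
      exact (L.lt_iff hw this.1 (by linarith) h1).2 this.2
    exact J1.trans J2
  refine ⟨min ε (2 * δ₀), lt_min hε (by linarith), ?_, ?_⟩
  · intro y hy z hz hyd hzd hcy hcz
    have hy1 : dist y w < ε := hyd.trans_le (min_le_left _ _)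
    have hz1 : dist z w < ε := hzd.trans_le (min_le_left _ _)
    have hy2 : dist y w < 2 * δ₀ := hyd.trans_le (min_le_right _ _)
    have hz2 : dist z w < 2 * δ₀ := hzd.trans_le (min_le_right _ _)
    have hyw : y ≠ w := by rintro rfl; exact lt_irrefl _ hcy
    have hzw : z ≠ w := by rintro rfl; exact lt_irrefl _ hcz
    obtain ⟨u, hu, ρ, hρ, hρd, rfl⟩ := polar y hy hy1 hyw
    obtain ⟨u', hu', ρ', hρ', hρd', rfl⟩ := polar z hz hz1 hzw
    rw [← hρd] at hy1 hy2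
    rw [← hρd'] at hz1 hz2
    rw [L.lt_iff hw hu hρ hy1] at hcy
    rw [L.lt_iff hw hu' hρ' hz1] at hcz
    rcases le_total ρ ρ' with h | h
    · exact main u hu u' hu' ρ ρ' hρ h hz1 hz2 hcy hcz
    · exact (main u' hu' u hu ρ' ρ hρ' h hy1 hy2 hcz hcy).symm
  · intro y hy hyd hcy
    have hy1 : dist y w < ε := hyd.trans_le (min_le_left _ _)
    rw [Metric.mem_closure_iff]
    intro η hη
    by_cases hyw : y = w
    · subst hyw
      obtain ⟨v, hv, hv0⟩ := hneg
      set τ := min η ε / 2 with hτ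
      have hm : 0 < min η ε := lt_min hη hε
      have h1 := min_le_left η ε
      have h2 := min_le_right η ε
      have h3 : 0 < τ := by rw [hτ]; linarith
      have h4 : τ < ε := by rw [hτ]; linarith
      refine ⟨y + τ • v, ⟨L.mem_s hv h3.le h4, ?_⟩, ?_⟩
      · rw [L.lt_iff hw hv h3 h4]; linarith
      · obtain ⟨f, hf⟩ := hv
        rw [dist_comm, dist_eq_norm]
        simp only [add_sub_cancel_left, norm_smul, hf.2.1, mul_one, Real.norm_eq_abs,
          abs_of_pos h3]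
        rw [hτ]; linarith
    · obtain ⟨u, hu, ρ, hρ, hρd, rfl⟩ := polar y hy hy1 hyw
      rw [← hρd] at hy1
      rw [L.le_iff hw hu hρ hy1] at hcy
      set τ := min η (ε - ρ) / 2 with hτ
      have hm : 0 < min η (ε - ρ) := lt_min hη (by linarith)
      have h1 := min_le_left η (ε - ρ)
      have h2 := min_le_right η (ε - ρ)
      have h3 : 0 < τ := by rw [hτ]; linarith
      have h4 : ρ + τ < ε := by rw [hτ]; linarith
      refine ⟨w + (ρ + τ) • u, ⟨L.mem_s hu (by linarith) h4, ?_⟩, ?_⟩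
      · rw [L.lt_iff hw hu (by linarith) h4]; linarith
      · obtain ⟨f, hf⟩ := hu
        rw [dist_comm, dist_eq_norm]
        have : w + (ρ + τ) • u - (w + ρ • u) = τ • u := by rw [add_smul]; abel
        rw [this, norm_smul, hf.2.1, mul_one, Real.norm_eq_abs, abs_of_pos h3]
        rw [hτ]; linarith

end Loc
end Dev
end SPoly
end Pool.Agent.Lib.MP_dd45e6_gt
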