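import Pool.Agent.Lib.MP_dd45e6_gt.Sound3
import Pool.Agent.Lib.MP_dd45e6_gt.Cover
import Pool.Agent.Lib.MP_dd45e6_gt.D0
import Pool.Agent.Lib.MP_dd45e6_gt.D2
import Pool.Agent.Lib.MP_dd45e6_gt.D3
import Pool.Agent.Lib.MP_dd45e6_gt.D4
import Pool.Agent.Lib.MP_dd45e6_gt.DT

/-! The farthest point map of the polytope `V0` is single valued. -/

namespace Pool.Agent.Lib.MP_dd45e6_gt
open Set Metric Filter Topology
open scoped RealInnerProductSpace

namespace Chk

lemma fN_eq {α : Type} (n : ℕ) (k : ℕ → α) : fN n k = k n := by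
  cases n <;> rfl

lemma fI_eq {α : Type} (i : ℤ) (k : ℤ → α) : fI i k = k i := by
  cases i with
  | ofNat n => exact fN_eq n (fun n => k (.ofNat n))
  | negSucc n => exact fN_eq n (fun n => k (.negSucc n))

lemma fV_eq {α : Type} (v : V3) (k : V3 → α) : fV v k = k v := by
  unfold fV
  rw [fI_eq, fI_eq, fI_eq]

lemma fT_eq {α : Type} (T : Tri) (k : Tri → α) : fT T k = k T := by
  unfold fT
  rw [fV_eq, fV_eq, fV_eq]

lemma bld_sound {W : ℤ} : ∀ {ps : List (ℕ × ℕ)} {acc : List (ℕ × Tri)}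
    {k : List (ℕ × Tri) → Bool}, bld W ps acc k = true → ∃ acc', k acc' = true
  | [], acc, k, h => ⟨acc, h⟩
  | p :: ps, acc, k, h => by
    unfold bld at h
    cases hn : nth acc p.1 with
    | none => rw [hn] at h; simp at h
    | some x =>
      rw [hn] at h
      simp only [fT_eq] at h
      exact bld_sound h

end Chk

lemma run_cell {W c : ℤ} {A : Fin 8} {V : Chk.Tri} {ps : List (ℕ × ℕ)} {hf : List Chk.FH}
    {hv : List (List ℕ)} (h : Chk.run W c A.val V ps hf hv = true) :
    ∃ Nd, SPoly.Cell Q0 A (tri W V) Nd := by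
  obtain ⟨acc, h1⟩ := Chk.bld_sound h
  exact ⟨_, cell_sound h1⟩

/-- uniqueness of the antipode of `x` -/
def Good (x : E) : Prop := ∀ z₁ ∈ Q0.S, ∀ z₂ ∈ Q0.S, (∀ y ∈ Q0.S, Q0.d x y ≤ Q0.d x z₁) →
  (∀ y ∈ Q0.S, Q0.d x y ≤ Q0.d x z₂) → z₁ = z₂

/-- uniqueness of the antipode for all points of a closed triangle -/
def GoodT (a b c : E) : Prop := ∀ l : Fin 3 → ℝ, (∀ i, 0 ≤ l i) → l 0 + l 1 + l 2 = 1 →
  Good (l 0 • a + l 1 • b + l 2 • c)

lemma run_good {W c : ℤ} {A : Fin 8} {V : Chk.Tri} {ps : List (ℕ × ℕ)} {hf : List Chk.FH}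
    {hv : List (List ℕ)} (h : Chk.run W c A.val V ps hf hv = true) :
    GoodT (toE W V.1) (toE W V.2.1) (toE W V.2.2) := by
  obtain ⟨Nd, C⟩ := run_cell h
  intro l h0 hl z₁ hz₁ z₂ hz₂ m₁ m₂
  exact C.antipode_unique h0 hl hz₁ hz₂ m₁ m₂

lemma GoodT.split12 {a b c m : E} (hm : m = (1 / 2 : ℝ) • (b + c)) (h1 : GoodT a m c)
    (h2 : GoodT a b m) : GoodT a b c := by
  intro l h0 hl
  rcases le_total (l 1) (l 2) with h | h
  · have := h1 ![l 0, 2 * l 1, l 2 - l 1] (by
      intro i; fin_cases i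
      · exact h0 0
      · exact mul_nonneg (by norm_num) (h0 1)
      · exact sub_nonneg.2 h) (by
      simp only [Matrix.cons_val_zero, Matrix.cons_val_one, Matrix.cons_val]; linarith)
    simp only [Matrix.cons_val_zero, Matrix.cons_val_one, Matrix.cons_val, hm] at this
    convert this using 1
    module
  · have := h2 ![l 0, l 1 - l 2, 2 * l 2] (by
      intro i; fin_cases i
      · exact h0 0
      · exact sub_nonneg.2 h
      · exact mul_nonneg (by norm_num) (h0 2)) (by
      simp only [Matrix.cons_val_zero, Matrix.cons_val_one, Matrix.cons_val]; linarith)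
    simp only [Matrix.cons_val_zero, Matrix.cons_val_one, Matrix.cons_val, hm] at this
    convert this using 1
    module

lemma GoodT.split01 {a b c m : E} (hm : m = (1 / 2 : ℝ) • (a + b)) (h1 : GoodT m b c)
    (h2 : GoodT a m c) : GoodT a b c := by
  intro l h0 hl
  rcases le_total (l 0) (l 1) with h | h
  · have := h1 ![2 * l 0, l 1 - l 0, l 2] (by
      intro i; fin_cases i
      · exact mul_nonneg (by norm_num) (h0 0)
      · exact sub_nonneg.2 h
      · exact h0 2) (by
      simp only [Matrix.cons_val_zero, Matrix.cons_val_one, Matrix.cons_val]; linarith)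
    simp only [Matrix.cons_val_zero, Matrix.cons_val_one, Matrix.cons_val, hm] at this
    convert this using 1
    module
  · have := h2 ![l 0 - l 1, 2 * l 1, l 2] (by
      intro i; fin_cases i
      · exact sub_nonneg.2 h
      · exact mul_nonneg (by norm_num) (h0 1)
      · exact h0 2) (by
      simp only [Matrix.cons_val_zero, Matrix.cons_val_one, Matrix.cons_val]; linarith)
    simp only [Matrix.cons_val_zero, Matrix.cons_val_one, Matrix.cons_val, hm] at this
    convert this using 1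
    module

lemma center_eq {W c : ℤ} (hW : 0 < W) (hc : W = c * W0) {P C : Z3}
    (h : Chk.smul 6 P = Chk.smul c C) : toE (6 * W0) C = toE W P := by
  have hc0 : c ≠ 0 := by
    rintro rfl
    rw [zero_mul] at hc
    omega
  rw [← toE_smul hc0 C, ← h, show c * (6 * W0) = 6 * (c * W0) by ring, ← hc,
    toE_smul (by norm_num)]

lemma hex_of_run {f : Fin 8} {k : Fin 6} {W c : ℤ} {V : Chk.Tri} {ps : List (ℕ × ℕ)}
    {hf : List Chk.FH} {hv : List (List ℕ)} (h : Chk.run W c f.val V ps hf hv = true)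
    (hW : 0 < W) (hc : W = c * W0) (e1 : Chk.smul 6 V.1 = Chk.smul c (cT f))
    (e2 : V.2.1 = Chk.smul c (YT (hexT f k))) (e3 : V.2.2 = Chk.smul c (YT (hexT f (k + 1)))) :
    GoodT (toE (6 * W0) (cT f)) (toE W0 (YT (hexT f k))) (toE W0 (YT (hexT f (k + 1)))) := by
  have h1 := run_good h
  rw [e2, e3, ← vertex_eq hW hc, ← vertex_eq hW hc, ← center_eq hW hc e1] at h1
  exact h1

lemma tri_of_run {f : Fin 8} {W c : ℤ} {V : Chk.Tri} {ps : List (ℕ × ℕ)}
    {hf : List Chk.FH} {hv : List (List ℕ)} (h : Chk.run W c f.val V ps hf hv = true)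
    (hW : 0 < W) (hc : W = c * W0) (e1 : V.1 = Chk.smul c (YT (triT f 0)))
    (e2 : V.2.1 = Chk.smul c (YT (triT f 1))) (e3 : V.2.2 = Chk.smul c (YT (triT f 2))) :
    GoodT (toE W0 (YT (triT f 0))) (toE W0 (YT (triT f 1))) (toE W0 (YT (triT f 2))) := by
  have h1 := run_good h
  rw [e1, e2, e3, ← vertex_eq hW hc, ← vertex_eq hW hc, ← vertex_eq hW hc] at h1
  exact h1

lemma hex_0_5 : GoodT (toE (6 * W0) (cT 0)) (toE W0 (YT (hexT 0 5)))
    (toE W0 (YT (hexT 0 (5 + 1)))) :=
  hex_of_run (f := 0) (k := 5) Chk.run0 (by decide +kernel) (by decide +kernel)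
    (by decide +kernel) (by decide +kernel) (by decide +kernel)

lemma hex_0_4 : GoodT (toE (6 * W0) (cT 0)) (toE W0 (YT (hexT 0 4)))
    (toE W0 (YT (hexT 0 (4 + 1)))) :=
  hex_of_run (f := 0) (k := 4) Chk.run1 (by decide +kernel) (by decide +kernel)
    (by decide +kernel) (by decide +kernel) (by decide +kernel)

lemma hex_0_3 : GoodT (toE (6 * W0) (cT 0)) (toE W0 (YT (hexT 0 3)))
    (toE W0 (YT (hexT 0 (3 + 1)))) :=
  hex_of_run (f := 0) (k := 3) Chk.run2 (by decide +kernel) (by decide +kernel)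
    (by decide +kernel) (by decide +kernel) (by decide +kernel)

lemma hex_0_2 : GoodT (toE (6 * W0) (cT 0)) (toE W0 (YT (hexT 0 2)))
    (toE W0 (YT (hexT 0 (2 + 1)))) :=
  hex_of_run (f := 0) (k := 2) Chk.run3 (by decide +kernel) (by decide +kernel)
    (by decide +kernel) (by decide +kernel) (by decide +kernel)

lemma hex_0_1 : GoodT (toE (6 * W0) (cT 0)) (toE W0 (YT (hexT 0 1)))
    (toE W0 (YT (hexT 0 (1 + 1)))) :=
  hex_of_run (f := 0) (k := 1) Chk.run4 (by decide +kernel) (by decide +kernel)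
    (by decide +kernel) (by decide +kernel) (by decide +kernel)

lemma hex_0_0 : GoodT (toE (6 * W0) (cT 0)) (toE W0 (YT (hexT 0 0)))
    (toE W0 (YT (hexT 0 (0 + 1)))) :=
  hex_of_run (f := 0) (k := 0) Chk.run5 (by decide +kernel) (by decide +kernel)
    (by decide +kernel) (by decide +kernel) (by decide +kernel)

lemma hex_2_5 : GoodT (toE (6 * W0) (cT 2)) (toE W0 (YT (hexT 2 5)))
    (toE W0 (YT (hexT 2 (5 + 1)))) :=
  hex_of_run (f := 2) (k := 5) Chk.run6 (by decide +kernel) (by decide +kernel)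
    (by decide +kernel) (by decide +kernel) (by decide +kernel)

lemma hex_2_4 : GoodT (toE (6 * W0) (cT 2)) (toE W0 (YT (hexT 2 4)))
    (toE W0 (YT (hexT 2 (4 + 1)))) :=
  hex_of_run (f := 2) (k := 4) Chk.run7 (by decide +kernel) (by decide +kernel)
    (by decide +kernel) (by decide +kernel) (by decide +kernel)

lemma hex_2_3 : GoodT (toE (6 * W0) (cT 2)) (toE W0 (YT (hexT 2 3)))
    (toE W0 (YT (hexT 2 (3 + 1)))) :=
  hex_of_run (f := 2) (k := 3) Chk.run8 (by decide +kernel) (by decide +kernel)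
    (by decide +kernel) (by decide +kernel) (by decide +kernel)

lemma hex_2_1 : GoodT (toE (6 * W0) (cT 2)) (toE W0 (YT (hexT 2 1)))
    (toE W0 (YT (hexT 2 (1 + 1)))) :=
  hex_of_run (f := 2) (k := 1) Chk.run12 (by decide +kernel) (by decide +kernel)
    (by decide +kernel) (by decide +kernel) (by decide +kernel)

lemma hex_2_0 : GoodT (toE (6 * W0) (cT 2)) (toE W0 (YT (hexT 2 0)))
    (toE W0 (YT (hexT 2 (0 + 1)))) :=
  hex_of_run (f := 2) (k := 0) Chk.run13 (by decide +kernel) (by decide +kernel)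
    (by decide +kernel) (by decide +kernel) (by decide +kernel)

lemma tri_6 : GoodT (toE W0 (YT (triT 6 0))) (toE W0 (YT (triT 6 1)))
    (toE W0 (YT (triT 6 2))) :=
  tri_of_run (f := 6) Chk.run14 (by decide +kernel) (by decide +kernel)
    (by decide +kernel) (by decide +kernel) (by decide +kernel)

lemma tri_7 : GoodT (toE W0 (YT (triT 7 0))) (toE W0 (YT (triT 7 1)))
    (toE W0 (YT (triT 7 2))) :=
  tri_of_run (f := 7) Chk.run15 (by decide +kernel) (by decide +kernel)
    (by decide +kernel) (by decide +kernel) (by decide +kernel)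

lemma hex_3_5 : GoodT (toE (6 * W0) (cT 3)) (toE W0 (YT (hexT 3 5)))
    (toE W0 (YT (hexT 3 (5 + 1)))) :=
  hex_of_run (f := 3) (k := 5) Chk.run16 (by decide +kernel) (by decide +kernel)
    (by decide +kernel) (by decide +kernel) (by decide +kernel)

lemma hex_3_4 : GoodT (toE (6 * W0) (cT 3)) (toE W0 (YT (hexT 3 4)))
    (toE W0 (YT (hexT 3 (4 + 1)))) :=
  hex_of_run (f := 3) (k := 4) Chk.run17 (by decide +kernel) (by decide +kernel)
    (by decide +kernel) (by decide +kernel) (by decide +kernel)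

lemma hex_3_3 : GoodT (toE (6 * W0) (cT 3)) (toE W0 (YT (hexT 3 3)))
    (toE W0 (YT (hexT 3 (3 + 1)))) :=
  hex_of_run (f := 3) (k := 3) Chk.run18 (by decide +kernel) (by decide +kernel)
    (by decide +kernel) (by decide +kernel) (by decide +kernel)

lemma hex_3_2 : GoodT (toE (6 * W0) (cT 3)) (toE W0 (YT (hexT 3 2)))
    (toE W0 (YT (hexT 3 (2 + 1)))) :=
  hex_of_run (f := 3) (k := 2) Chk.run19 (by decide +kernel) (by decide +kernel)
    (by decide +kernel) (by decide +kernel) (by decide +kernel)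

lemma hex_3_1 : GoodT (toE (6 * W0) (cT 3)) (toE W0 (YT (hexT 3 1)))
    (toE W0 (YT (hexT 3 (1 + 1)))) :=
  hex_of_run (f := 3) (k := 1) Chk.run20 (by decide +kernel) (by decide +kernel)
    (by decide +kernel) (by decide +kernel) (by decide +kernel)

lemma hex_3_0 : GoodT (toE (6 * W0) (cT 3)) (toE W0 (YT (hexT 3 0)))
    (toE W0 (YT (hexT 3 (0 + 1)))) :=
  hex_of_run (f := 3) (k := 0) Chk.run21 (by decide +kernel) (by decide +kernel)
    (by decide +kernel) (by decide +kernel) (by decide +kernel)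

lemma tri_5 : GoodT (toE W0 (YT (triT 5 0))) (toE W0 (YT (triT 5 1)))
    (toE W0 (YT (triT 5 2))) :=
  tri_of_run (f := 5) Chk.run22 (by decide +kernel) (by decide +kernel)
    (by decide +kernel) (by decide +kernel) (by decide +kernel)

lemma hex_4_5 : GoodT (toE (6 * W0) (cT 4)) (toE W0 (YT (hexT 4 5)))
    (toE W0 (YT (hexT 4 (5 + 1)))) :=
  hex_of_run (f := 4) (k := 5) Chk.run23 (by decide +kernel) (by decide +kernel)
    (by decide +kernel) (by decide +kernel) (by decide +kernel)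

lemma hex_4_4 : GoodT (toE (6 * W0) (cT 4)) (toE W0 (YT (hexT 4 4)))
    (toE W0 (YT (hexT 4 (4 + 1)))) :=
  hex_of_run (f := 4) (k := 4) Chk.run24 (by decide +kernel) (by decide +kernel)
    (by decide +kernel) (by decide +kernel) (by decide +kernel)

lemma hex_4_3 : GoodT (toE (6 * W0) (cT 4)) (toE W0 (YT (hexT 4 3)))
    (toE W0 (YT (hexT 4 (3 + 1)))) :=
  hex_of_run (f := 4) (k := 3) Chk.run25 (by decide +kernel) (by decide +kernel)
    (by decide +kernel) (by decide +kernel) (by decide +kernel)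

lemma hex_4_2 : GoodT (toE (6 * W0) (cT 4)) (toE W0 (YT (hexT 4 2)))
    (toE W0 (YT (hexT 4 (2 + 1)))) :=
  hex_of_run (f := 4) (k := 2) Chk.run26 (by decide +kernel) (by decide +kernel)
    (by decide +kernel) (by decide +kernel) (by decide +kernel)

lemma hex_4_1 : GoodT (toE (6 * W0) (cT 4)) (toE W0 (YT (hexT 4 1)))
    (toE W0 (YT (hexT 4 (1 + 1)))) :=
  hex_of_run (f := 4) (k := 1) Chk.run27 (by decide +kernel) (by decide +kernel)
    (by decide +kernel) (by decide +kernel) (by decide +kernel)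

lemma hex_4_0 : GoodT (toE (6 * W0) (cT 4)) (toE W0 (YT (hexT 4 0)))
    (toE W0 (YT (hexT 4 (0 + 1)))) :=
  hex_of_run (f := 4) (k := 0) Chk.run28 (by decide +kernel) (by decide +kernel)
    (by decide +kernel) (by decide +kernel) (by decide +kernel)

lemma tri_1 : GoodT (toE W0 (YT (triT 1 0))) (toE W0 (YT (triT 1 1)))
    (toE W0 (YT (triT 1 2))) :=
  tri_of_run (f := 1) Chk.run29 (by decide +kernel) (by decide +kernel)
    (by decide +kernel) (by decide +kernel) (by decide +kernel)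
/-! ### the subdivided triangle -/

lemma toE_comb {W W1 W2 : ℤ} {P A B : Z3} (hW : W ≠ 0) (hW1 : W1 ≠ 0) (hW2 : W2 ≠ 0)
    (h : Chk.smul (2 * W1 * W2) P = Chk.add (Chk.smul (W * W2) A) (Chk.smul (W * W1) B)) :
    toE W P = (1 / 2 : ℝ) • (toE W1 A + toE W2 B) := by
  have w0 : (W:ℝ) ≠ 0 := by exact_mod_cast hW
  have w1 : (W1:ℝ) ≠ 0 := by exact_mod_cast hW1
  have w2 : (W2:ℝ) ≠ 0 := by exact_mod_cast hW2
  simp only [Chk.smul, Chk.add, Prod.mk.injEq] at h
  obtain ⟨h1, h2, h3⟩ := h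
  have r1 := congrArg (fun z : ℤ => (z : ℝ)) h1
  have r2 := congrArg (fun z : ℤ => (z : ℝ)) h2
  have r3 := congrArg (fun z : ℤ => (z : ℝ)) h3
  push_cast at r1 r2 r3
  ext i
  fin_cases i
  · simp only [toE, Fin.zero_eta, Matrix.cons_val_zero, PiLp.add_apply, PiLp.smul_apply,
      smul_eq_mul]
    field_simp
    linear_combination r1
  · simp only [toE, Fin.mk_one, Matrix.cons_val, PiLp.add_apply, PiLp.smul_apply,
      smul_eq_mul]
    field_simp
    linear_combination r2
  · simp only [toE, Fin.reduceFinMk, Matrix.cons_val, PiLp.add_apply, PiLp.smul_apply,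
      smul_eq_mul]
    field_simp
    linear_combination r3

/-- midpoint of `w 2`, `w 3` in the face `2` -/
noncomputable def m23 : E := (1 / 2 : ℝ) • (toE W0 (YT (hexT 2 2)) + toE W0 (YT (hexT 2 (2 + 1))))
/-- midpoint of the centre and `w 2` in the face `2` -/
noncomputable def mc2 : E := (1 / 2 : ℝ) • (toE (6 * W0) (cT 2) + toE W0 (YT (hexT 2 2)))

lemma good_9 : GoodT (toE (6 * W0) (cT 2)) mc2 m23 := by
  have h := run_good (A := 2) Chk.run9
  have e1 : toE (6 * W0) (cT 2) = toE Chk.wC9 Chk.tV9.1 :=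
    center_eq (c := Chk.cC9) (by decide +kernel) (by decide +kernel) (by decide +kernel)
  have e2 : toE Chk.wC9 Chk.tV9.2.1 = mc2 :=
    toE_comb (by decide +kernel) (by decide +kernel) (by decide +kernel) (by decide +kernel)
  have e3 : toE Chk.wC9 Chk.tV9.2.2 = m23 :=
    toE_comb (by decide +kernel) (by decide +kernel) (by decide +kernel) (by decide +kernel)
  rw [← e1, e2, e3] at h
  exact h

lemma good_10 : GoodT mc2 (toE W0 (YT (hexT 2 2))) m23 := by
  have h := run_good (A := 2) Chk.run10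
  have e1 : toE Chk.wC10 Chk.tV10.1 = mc2 :=
    toE_comb (by decide +kernel) (by decide +kernel) (by decide +kernel) (by decide +kernel)
  have e2 : toE W0 (YT (hexT 2 2)) = toE Chk.wC10 Chk.tV10.2.1 := by
    rw [vertex_eq (W := Chk.wC10) (c := Chk.cC10) (by decide +kernel) (by decide +kernel)]
    exact congrArg _ (by decide +kernel)
  have e3 : toE Chk.wC10 Chk.tV10.2.2 = m23 :=
    toE_comb (by decide +kernel) (by decide +kernel) (by decide +kernel) (by decide +kernel)
  rw [e1, ← e2, e3] at h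
  exact h

lemma good_11 : GoodT (toE (6 * W0) (cT 2)) m23 (toE W0 (YT (hexT 2 (2 + 1)))) := by
  have h := run_good (A := 2) Chk.run11
  have e1 : toE (6 * W0) (cT 2) = toE Chk.wC11 Chk.tV11.1 :=
    center_eq (c := Chk.cC11) (by decide +kernel) (by decide +kernel) (by decide +kernel)
  have e2 : toE Chk.wC11 Chk.tV11.2.1 = m23 :=
    toE_comb (by decide +kernel) (by decide +kernel) (by decide +kernel) (by decide +kernel)
  have e3 : toE W0 (YT (hexT 2 (2 + 1))) = toE Chk.wC11 Chk.tV11.2.2 := by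
    rw [vertex_eq (W := Chk.wC11) (c := Chk.cC11) (by decide +kernel) (by decide +kernel)]
    exact congrArg _ (by decide +kernel)
  rw [← e1, e2, ← e3] at h
  exact h

lemma hex_2_2 : GoodT (toE (6 * W0) (cT 2)) (toE W0 (YT (hexT 2 2)))
    (toE W0 (YT (hexT 2 (2 + 1)))) :=
  GoodT.split12 rfl good_11 (GoodT.split01 rfl good_10 good_9)

/-- every point of the surface has a unique antipode -/
theorem all_good {x : E} (hx : x ∈ Q0.S) : Good x := by
  obtain ⟨f, hf⟩ := SPoly.mem_S.1 hx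
  have hex : ∀ f : Fin 8, (f = 0 ∨ f = 2 ∨ f = 3 ∨ f = 4) → ∀ k : Fin 6,
      GoodT (toE (6 * W0) (cT f)) (toE W0 (YT (hexT f k))) (toE W0 (YT (hexT f (k + 1)))) := by
    intro f hf k
    rcases hf with rfl | rfl | rfl | rfl
    · fin_cases k
      · exact hex_0_0
      · exact hex_0_1
      · exact hex_0_2
      · exact hex_0_3
      · exact hex_0_4
      · exact hex_0_5
    · fin_cases k
      · exact hex_2_0
      · exact hex_2_1
      · exact hex_2_2
      · exact hex_2_3
      · exact hex_2_4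
      · exact hex_2_5
    · fin_cases k
      · exact hex_3_0
      · exact hex_3_1
      · exact hex_3_2
      · exact hex_3_3
      · exact hex_3_4
      · exact hex_3_5
    · fin_cases k
      · exact hex_4_0
      · exact hex_4_1
      · exact hex_4_2
      · exact hex_4_3
      · exact hex_4_4
      · exact hex_4_5
  have tr : ∀ f : Fin 8, (f = 1 ∨ f = 5 ∨ f = 6 ∨ f = 7) →
      GoodT (toE W0 (YT (triT f 0))) (toE W0 (YT (triT f 1))) (toE W0 (YT (triT f 2))) := by
    intro f hf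
    rcases hf with rfl | rfl | rfl | rfl
    · exact tri_1
    · exact tri_5
    · exact tri_6
    · exact tri_7
  have cases : (f = 0 ∨ f = 2 ∨ f = 3 ∨ f = 4) ∨ (f = 1 ∨ f = 5 ∨ f = 6 ∨ f = 7) := by
    fin_cases f <;> simp
  rcases cases with h | h
  · obtain ⟨k, l, h0, hl, rfl⟩ := cover_hex f h x hf
    exact hex f h k l h0 hl
  · obtain ⟨l, h0, hl, rfl⟩ := cover_tri f h x hf
    exact tr f h l h0 hl

lemma idist_le_iff {x y z : E} (hx : x ∈ Q0.S) (hy : y ∈ Q0.S) (hz : z ∈ Q0.S) :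
    idist Q0.S x z ≤ idist Q0.S x y ↔ Q0.d x z ≤ Q0.d x y :=
  (ENNReal.toReal_le_toReal (SPoly.idist_lt_top hx hz).ne (SPoly.idist_lt_top hx hy).ne).symm

theorem unique_antipode {x : E} (hx : x ∈ Q0.S) :
    ∃! y, y ∈ Q0.S ∧ ∀ z ∈ Q0.S, idist Q0.S x z ≤ idist Q0.S x y := by
  obtain ⟨y, hy, hmax⟩ := (SPoly.isCompact_S (Q := Q0)).exists_isMaxOn ⟨x, hx⟩
    (SPoly.cont_d hx)
  refine ⟨y, ⟨hy, fun z hz => (idist_le_iff hx hy hz).2 (hmax hz)⟩, ?_⟩
  rintro y' ⟨hy', h'⟩
  exact all_good hx y' hy' y hy (fun z hz => (idist_le_iff hx hy' hz).1 (h' z hz))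
    (fun z hz => hmax hz)

end Pool.Agent.Lib.MP_dd45e6_gt
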