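import Pool.Agent.Lib.MP_dd45e6_gt.Tab

/-! The polytope as an `SPoly`. -/

namespace Pool.Agent.Lib.MP_dd45e6_gt
open Set Metric Filter Topology
open scoped RealInnerProductSpace

/-! ### integer facts -/

/-- integer dot product -/
def dotZ (u v : Z3) : ℤ := u.1 * v.1 + u.2.1 * v.2.1 + u.2.2 * v.2.2

/-- integer determinant -/
def detZ (u v w : Z3) : ℤ :=
  u.1 * (v.2.1 * w.2.2 - v.2.2 * w.2.1) - u.2.1 * (v.1 * w.2.2 - v.2.2 * w.1)
    + u.2.2 * (v.1 * w.2.1 - v.2.1 * w.1)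

/-- third face at the end point `aT f g` -/
def kT : Fin 8 → Fin 8 → Fin 8 := ![![0, 0, 6, 5, 5, 3, 2, 2], ![0, 0, 3, 2, 2, 0, 0, 0],
  ![6, 3, 0, 1, 1, 0, 0, 0], ![5, 2, 1, 0, 1, 0, 0, 0], ![5, 2, 1, 1, 0, 0, 0, 0],
  ![3, 0, 0, 0, 0, 0, 0, 0], ![2, 0, 0, 0, 0, 0, 0, 0], ![2, 0, 0, 0, 0, 0, 0, 0]]
/-- third face at the end point `bT f g` -/
def lT : Fin 8 → Fin 8 → Fin 8 := ![![0, 0, 7, 7, 6, 4, 4, 3], ![0, 0, 4, 4, 3, 0, 0, 0],
  ![7, 4, 0, 7, 6, 0, 4, 3], ![7, 4, 7, 0, 5, 4, 0, 2], ![6, 3, 6, 5, 0, 3, 2, 0],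
  ![4, 0, 0, 4, 3, 0, 0, 0], ![4, 0, 4, 0, 2, 0, 0, 0], ![3, 0, 3, 2, 0, 0, 0, 0]]
/-- Farkas certificates for the nonadjacent pairs -/
def crT : Fin 8 → Fin 8 → Fin 8 → ℤ := ![![![0, 0, 0, 0, 0, 0, 0, 0], ![-1, -1, 0, 0, 0, 0, 0, 0], ![0, 0, 0, 0, 0, 0, 0, 0], ![0, 0, 0, 0, 0, 0, 0, 0], ![0, 0, 0, 0, 0, 0, 0, 0], ![0, 0, 0, 0, 0, 0, 0, 0], ![0, 0, 0, 0, 0, 0, 0, 0], ![0, 0, 0, 0, 0, 0, 0, 0]],
  ![![-1, -1, 0, 0, 0, 0, 0, 0], ![0, 0, 0, 0, 0, 0, 0, 0], ![0, 0, 0, 0, 0, 0, 0, 0], ![0, 0, 0, 0, 0, 0, 0, 0], ![0, 0, 0, 0, 0, 0, 0, 0], ![0, -1589, 0, 200, 512, -385, 0, 0], ![0, -3029, 785, 0, 1032, 0, -400, 0], ![0, -1589, 385, 200, 0, 0, 0, -512]],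
  ![![0, 0, 0, 0, 0, 0, 0, 0], ![0, 0, 0, 0, 0, 0, 0, 0], ![0, 0, 0, 0, 0, 0, 0, 0], ![0, 0, 0, 0, 0, 0, 0, 0], ![0, 0, 0, 0, 0, 0, 0, 0], ![0, 0, -1, 0, 0, -1, 0, 0], ![0, 0, 0, 0, 0, 0, 0, 0], ![0, 0, 0, 0, 0, 0, 0, 0]],
  ![![0, 0, 0, 0, 0, 0, 0, 0], ![0, 0, 0, 0, 0, 0, 0, 0], ![0, 0, 0, 0, 0, 0, 0, 0], ![0, 0, 0, 0, 0, 0, 0, 0], ![0, 0, 0, 0, 0, 0, 0, 0], ![0, 0, 0, 0, 0, 0, 0, 0], ![0, 406, 0, -785, 0, 0, -770, 23], ![0, 0, 0, 0, 0, 0, 0, 0]],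
  ![![0, 0, 0, 0, 0, 0, 0, 0], ![0, 0, 0, 0, 0, 0, 0, 0], ![0, 0, 0, 0, 0, 0, 0, 0], ![0, 0, 0, 0, 0, 0, 0, 0], ![0, 0, 0, 0, 0, 0, 0, 0], ![0, 0, 0, 0, 0, 0, 0, 0], ![0, 0, 0, 0, 0, 0, 0, 0], ![0, 0, 0, 0, -1, 0, 0, -1]],
  ![![0, 0, 0, 0, 0, 0, 0, 0], ![0, -1589, 0, 200, 512, -385, 0, 0], ![0, 0, -1, 0, 0, -1, 0, 0], ![0, 0, 0, 0, 0, 0, 0, 0], ![0, 0, 0, 0, 0, 0, 0, 0], ![0, 0, 0, 0, 0, 0, 0, 0], ![3029, 0, 0, 0, 1032, -785, -400, 0], ![1589, 0, 0, 200, 0, -385, 0, -512]],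
  ![![0, 0, 0, 0, 0, 0, 0, 0], ![0, -3029, 785, 0, 1032, 0, -400, 0], ![0, 0, 0, 0, 0, 0, 0, 0], ![0, 406, 0, -785, 0, 0, -770, 23], ![0, 0, 0, 0, 0, 0, 0, 0], ![3029, 0, 0, 0, 1032, -785, -400, 0], ![0, 0, 0, 0, 0, 0, 0, 0], ![3029, 0, 785, 0, 0, 0, -400, -1032]],
  ![![0, 0, 0, 0, 0, 0, 0, 0], ![0, -1589, 385, 200, 0, 0, 0, -512], ![0, 0, 0, 0, 0, 0, 0, 0], ![0, 0, 0, 0, 0, 0, 0, 0], ![0, 0, 0, 0, -1, 0, 0, -1], ![1589, 0, 0, 200, 0, -385, 0, -512], ![3029, 0, 785, 0, 0, 0, -400, -1032], ![0, 0, 0, 0, 0, 0, 0, 0]]]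

lemma pT_pos : ∀ f, 0 < pT f := by decide +kernel
lemma uT_sq : ∀ f, dotZ (uT f) (uT f) = pT f * pT f := by decide +kernel
lemma slack_nonneg : ∀ j i, dotZ (uT i) (YT j) ≤ KT i * W0 := by decide +kernel
lemma slack_zero : ∀ j i, dotZ (uT i) (YT j) = KT i * W0 ↔ i ∈ vfT j := by decide +kernel
lemma mem_aT : ∀ f, ∀ g ∈ nbT f, f ∈ vfT (aT f g) ∧ g ∈ vfT (aT f g) ∧ kT f g ∈ vfT (aT f g) ∧
    lT f g ∉ vfT (aT f g) := by decide +kernel
lemma mem_bT : ∀ f, ∀ g ∈ nbT f, f ∈ vfT (bT f g) ∧ g ∈ vfT (bT f g) ∧ lT f g ∈ vfT (bT f g) ∧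
    kT f g ∉ vfT (bT f g) := by decide +kernel
lemma det_kT : ∀ f, ∀ g ∈ nbT f, detZ (uT f) (uT g) (uT (kT f g)) ≠ 0 := by decide +kernel
lemma nbT_symm : ∀ f, ∀ g ∈ nbT f, f ∈ nbT g := by decide +kernel
lemma nbT_ne : ∀ f, ∀ g ∈ nbT f, f ≠ g := by decide +kernel
lemma cposT : ∀ f, ∀ g ∈ nbT f, 0 < pT f * pT g + dotZ (uT f) (uT g) := by decide +kernel
lemma ab_symmT : ∀ f, ∀ g ∈ nbT f, aT g f = aT f g ∧ bT g f = bT f g := by decide +kernel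
lemma YT_inj : ∀ i j, i ≠ j → (YT i).1 ≠ (YT j).1 := by decide +kernel
lemma abT_ne : ∀ f, ∀ g ∈ nbT f, aT f g ≠ bT f g := by decide +kernel
lemma crT_nonneg : ∀ f g, f ≠ g → g ∉ nbT f → ∀ i, i ≠ f → i ≠ g → 0 ≤ crT f g i := by
  decide +kernel
lemma crT_zero : ∀ f g, f ≠ g → g ∉ nbT f → (∑ i, crT f g i * (uT i).1 = 0) ∧
    (∑ i, crT f g i * (uT i).2.1 = 0) ∧ (∑ i, crT f g i * (uT i).2.2 = 0) ∧
    ∑ i, crT f g i * KT i < 0 := by decide +kernel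
lemma vf_three : ∀ j, ∀ f ∈ vfT j, ∀ g ∈ vfT j, ∀ k ∈ vfT j, f ≠ g → g ≠ k → f ≠ k →
    (∀ i ∈ vfT j, i = f ∨ i = g ∨ i = k) ∧ detZ (uT f) (uT g) (uT k) ≠ 0 := by decide +kernel
lemma vf_edge : ∀ f, ∀ g ∈ nbT f, ∀ k ∈ vfT (aT f g), k ∈ vfT (bT f g) → k = f ∨ k = g := by
  decide +kernel
lemma nb_zero : ∀ f, f ≠ 0 → f ≠ 1 → f ∈ nbT 0 := by decide +kernel

/-! ### real versions -/

/-- dot product of an integer vector with a point -/
noncomputable def dotR (u : Z3) (y : E) : ℝ := u.1 * y 0 + u.2.1 * y 1 + u.2.2 * y 2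

lemma inner_toE (p : ℤ) (u : Z3) (y : E) : ⟪toE p u, y⟫ = dotR u y / p := by
  unfold toE dotR
  rw [PiLp.inner_apply, Fin.sum_univ_three]
  simp
  ring

lemma dotR_toE (u : Z3) (W : ℤ) (P : Z3) : dotR u (toE W P) = (dotZ u P : ℝ) / W := by
  unfold dotR toE dotZ
  simp
  ring

lemma dotR_comb (u : Z3) (x y : E) (s t : ℝ) :
    dotR u (s • x + t • y) = s * dotR u x + t * dotR u y := by
  unfold dotR
  simp
  ring

lemma dotR_sub (u : Z3) (x y : E) : dotR u (x - y) = dotR u x - dotR u y := by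
  unfold dotR
  simp
  ring

lemma eq_zero_of_det {u v w : Z3} (h : detZ u v w ≠ 0) {x : E} (hu : dotR u x = 0)
    (hv : dotR v x = 0) (hw : dotR w x = 0) : x = 0 := by
  have h' : (detZ u v w : ℝ) ≠ 0 := by exact_mod_cast h
  have hd : (detZ u v w : ℝ) =
      u.1 * (v.2.1 * w.2.2 - v.2.2 * w.2.1) - u.2.1 * (v.1 * w.2.2 - v.2.2 * w.1)
        + u.2.2 * (v.1 * w.2.1 - v.2.1 * w.1) := by
    unfold detZ; push_cast; ring
  unfold dotR at hu hv hw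
  have h0 : (detZ u v w : ℝ) * x 0 = 0 := by
    rw [hd]
    linear_combination ((v.2.1 : ℝ) * w.2.2 - v.2.2 * w.2.1) * hu
      + ((w.2.1 : ℝ) * u.2.2 - w.2.2 * u.2.1) * hv + ((u.2.1 : ℝ) * v.2.2 - u.2.2 * v.2.1) * hw
  have h1 : (detZ u v w : ℝ) * x 1 = 0 := by
    rw [hd]
    linear_combination ((v.2.2 : ℝ) * w.1 - v.1 * w.2.2) * hu
      + ((w.2.2 : ℝ) * u.1 - w.1 * u.2.2) * hv + ((u.2.2 : ℝ) * v.1 - u.1 * v.2.2) * hw
  have h2 : (detZ u v w : ℝ) * x 2 = 0 := by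
    rw [hd]
    linear_combination ((v.1 : ℝ) * w.2.1 - v.2.1 * w.1) * hu
      + ((w.1 : ℝ) * u.2.1 - w.2.1 * u.1) * hv + ((u.1 : ℝ) * v.2.1 - u.2.1 * v.1) * hw
  ext i
  fin_cases i
  · simpa [h'] using h0
  · simpa [h'] using h1
  · simpa [h'] using h2

lemma W0_pos : (0 : ℝ) < (W0 : ℤ) := by
  have : (0 : ℤ) < W0 := by decide
  exact_mod_cast this

lemma pT_pos' (f : Fin 8) : (0 : ℝ) < pT f := by exact_mod_cast pT_pos f

/-- the slack, with denominators cleared -/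
lemma slack_eq (i : Fin 8) (y : E) :
    (KT i : ℝ) / pT i - ⟪toE (pT i) (uT i), y⟫ = (KT i - dotR (uT i) y) / pT i := by
  rw [inner_toE, sub_div]

lemma slack_nn {i : Fin 8} {y : E} :
    0 ≤ (KT i : ℝ) / pT i - ⟪toE (pT i) (uT i), y⟫ ↔ dotR (uT i) y ≤ KT i := by
  rw [slack_eq, le_div_iff₀ (pT_pos' i), zero_mul, sub_nonneg]

lemma slack_z {i : Fin 8} {y : E} :
    (KT i : ℝ) / pT i - ⟪toE (pT i) (uT i), y⟫ = 0 ↔ dotR (uT i) y = KT i := by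
  rw [slack_eq, div_eq_zero_iff]
  have := (pT_pos' i).ne'
  constructor
  · rintro (h | h)
    · linarith
    · exact absurd h this
  · intro h
    left
    linarith

lemma vert_le (j : Fin 12) (i : Fin 8) : dotR (uT i) (toE W0 (YT j)) ≤ KT i := by
  rw [dotR_toE, div_le_iff₀ W0_pos]
  exact_mod_cast slack_nonneg j i

lemma vert_eq (j : Fin 12) (i : Fin 8) :
    dotR (uT i) (toE W0 (YT j)) = KT i ↔ i ∈ vfT j := by
  rw [dotR_toE, div_eq_iff W0_pos.ne', ← slack_zero j i]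
  exact_mod_cast Iff.rfl

lemma inter_adj {f g : Fin 8} (h : g ∈ nbT f) {y : E} (hy : ∀ i, dotR (uT i) y ≤ KT i)
    (hf : dotR (uT f) y = KT f) (hg : dotR (uT g) y = KT g) :
    ∃ t ∈ Icc (0:ℝ) 1, y = (1 - t) • toE W0 (YT (aT f g)) + t • toE W0 (YT (bT f g)) := by
  obtain ⟨a1, a2, a3, a4⟩ := mem_aT f g h
  obtain ⟨b1, b2, b3, b4⟩ := mem_bT f g h
  set A := toE W0 (YT (aT f g)) with hA
  set B := toE W0 (YT (bT f g)) with hB
  set k := kT f g with hk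
  set l := lT f g with hl
  have kB : dotR (uT k) B < KT k :=
    lt_of_le_of_ne (vert_le _ _) fun h => b4 ((vert_eq _ _).1 h)
  have lA : dotR (uT l) A < KT l :=
    lt_of_le_of_ne (vert_le _ _) fun h => a4 ((vert_eq _ _).1 h)
  have kA : dotR (uT k) A = KT k := (vert_eq _ _).2 a3
  have lB : dotR (uT l) B = KT l := (vert_eq _ _).2 b3
  have fA : dotR (uT f) A = KT f := (vert_eq _ _).2 a1
  have gA : dotR (uT g) A = KT g := (vert_eq _ _).2 a2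
  have fB : dotR (uT f) B = KT f := (vert_eq _ _).2 b1
  have gB : dotR (uT g) B = KT g := (vert_eq _ _).2 b2
  set t := (KT k - dotR (uT k) y) / (KT k - dotR (uT k) B) with ht
  have hden : 0 < (KT k : ℝ) - dotR (uT k) B := by linarith
  have ht' : t * (KT k - dotR (uT k) B) = KT k - dotR (uT k) y := by
    rw [ht]; field_simp
  have hye : y = (1 - t) • A + t • B := by
    rw [← sub_eq_zero]
    apply eq_zero_of_det (det_kT f g h)
    · rw [dotR_sub, dotR_comb, hf, fA, fB]; ring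
    · rw [dotR_sub, dotR_comb, hg, gA, gB]; ring
    · rw [dotR_sub, dotR_comb, kA]
      linarith
  refine ⟨t, ⟨?_, ?_⟩, hye⟩
  · rw [ht]
    exact div_nonneg (by linarith [hy k]) hden.le
  · have h1 := hy l
    rw [hye, dotR_comb, lB] at h1
    have h2 : 0 ≤ (1 - t) * (KT l - dotR (uT l) A) := by linarith
    have h3 : 0 < (KT l : ℝ) - dotR (uT l) A := by linarith
    have := nonneg_of_mul_nonneg_left h2 h3
    linarith

lemma not_inter {f g : Fin 8} (hfg : f ≠ g) (h : g ∉ nbT f) {y : E}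
    (hy : ∀ i, dotR (uT i) y ≤ KT i) (hf : dotR (uT f) y = KT f) (hg : dotR (uT g) y = KT g) :
    False := by
  obtain ⟨c1, c2, c3, c4⟩ := crT_zero f g hfg h
  have d1 : (∑ i, (crT f g i : ℝ) * (uT i).1) = 0 := by exact_mod_cast c1
  have d2 : (∑ i, (crT f g i : ℝ) * (uT i).2.1) = 0 := by exact_mod_cast c2
  have d3 : (∑ i, (crT f g i : ℝ) * (uT i).2.2) = 0 := by exact_mod_cast c3
  have d4 : (∑ i, (crT f g i : ℝ) * KT i) < 0 := by exact_mod_cast c4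
  have h1 : 0 ≤ ∑ i, (crT f g i : ℝ) * (KT i - dotR (uT i) y) := by
    apply Finset.sum_nonneg
    intro i _
    by_cases hif : i = f
    · rw [hif, hf]; simp
    by_cases hig : i = g
    · rw [hig, hg]; simp
    apply mul_nonneg
    · exact_mod_cast crT_nonneg f g hfg h i hif hig
    · linarith [hy i]
  have h2 : ∑ i, (crT f g i : ℝ) * (KT i - dotR (uT i) y) =
      ∑ i, (crT f g i : ℝ) * KT i - ((∑ i, (crT f g i : ℝ) * (uT i).1) * y 0
        + (∑ i, (crT f g i : ℝ) * (uT i).2.1) * y 1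
        + (∑ i, (crT f g i : ℝ) * (uT i).2.2) * y 2) := by
    rw [Finset.sum_mul, Finset.sum_mul, Finset.sum_mul, ← Finset.sum_add_distrib,
      ← Finset.sum_add_distrib, ← Finset.sum_sub_distrib]
    apply Finset.sum_congr rfl
    intro i _
    unfold dotR
    ring
  rw [h2, d1, d2, d3] at h1
  linarith

lemma bdd_aux : Bornology.IsBounded {x : E | ∀ i, dotR (uT i) x ≤ KT i} := by
  rw [isBounded_iff_forall_norm_le]
  refine ⟨2000, fun x hx => ?_⟩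
  have h0 := hx 0
  have h1 := hx 1
  have h2 := hx 2
  have h5 := hx 5
  have h4 := hx 4
  have h7 := hx 7
  have e0 : dotR (uT 0) x = -x 0 - 2 * x 1 - 2 * x 2 := by
    simp [dotR, uT]; ring
  have e1 : dotR (uT 1) x = x 0 + 2 * x 1 + 2 * x 2 := by
    simp [dotR, uT]
  have e2 : dotR (uT 2) x = -11 * x 0 + 2 * x 1 + 10 * x 2 := by
    simp [dotR, uT]
  have e5 : dotR (uT 5) x = 11 * x 0 - 2 * x 1 - 10 * x 2 := by
    simp [dotR, uT]; ring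
  have e4 : dotR (uT 4) x = 2 * x 0 + 9 * x 1 - 6 * x 2 := by
    simp [dotR, uT]; ring
  have e7 : dotR (uT 7) x = -2 * x 0 - 9 * x 1 + 6 * x 2 := by
    simp [dotR, uT]; ring
  have k0 : (KT 0 : ℝ) = 220 := by simp [KT]
  have k1 : (KT 1 : ℝ) = 264 := by simp [KT]
  have k2 : (KT 2 : ℝ) = 879 := by simp [KT]
  have k5 : (KT 5 : ℝ) = 1604 := by simp [KT]
  have k4 : (KT 4 : ℝ) = 644 := by simp [KT]
  have k7 : (KT 7 : ℝ) = 1177 := by simp [KT]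
  rw [e0, k0] at h0
  rw [e1, k1] at h1
  rw [e2, k2] at h2
  rw [e5, k5] at h5
  rw [e4, k4] at h4
  rw [e7, k7] at h7
  have a0 : |x 0| ≤ 300 := by rw [abs_le]; constructor <;> linarith
  have a1 : |x 1| ≤ 300 := by rw [abs_le]; constructor <;> linarith
  have a2 : |x 2| ≤ 300 := by rw [abs_le]; constructor <;> linarith
  have hn : ‖x‖ ^ 2 = x 0 ^ 2 + x 1 ^ 2 + x 2 ^ 2 := by
    rw [EuclideanSpace.norm_sq_eq, Fin.sum_univ_three]
    simp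
  have b0 : x 0 ^ 2 ≤ 300 ^ 2 := sq_le_sq' (abs_le.1 a0).1 (abs_le.1 a0).2
  have b1 : x 1 ^ 2 ≤ 300 ^ 2 := sq_le_sq' (abs_le.1 a1).1 (abs_le.1 a1).2
  have b2 : x 2 ^ 2 ≤ 300 ^ 2 := sq_le_sq' (abs_le.1 a2).1 (abs_le.1 a2).2
  nlinarith [norm_nonneg x]

/-- the polytope -/
noncomputable def Q0 : SPoly (Fin 8) where
  n f := toE (pT f) (uT f)
  h f := (KT f : ℝ) / pT f
  nn f := by
    have hp := (pT_pos' f).ne'
    have h1 : ((dotZ (uT f) (uT f) : ℤ) : ℝ) = pT f * pT f := by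
      rw [uT_sq]; push_cast; ring
    rw [inner_toE, dotR_toE, h1]
    field_simp
  adj f g := g ∈ nbT f
  adj_symm := nbT_symm
  adj_ne := nbT_ne
  cpos f g h := by
    have hp := pT_pos' f
    have hq := pT_pos' g
    have h1 : (0 : ℝ) < pT f * pT g + dotZ (uT f) (uT g) := by exact_mod_cast cposT f g h
    rw [inner_toE, dotR_toE]
    have : (1 : ℝ) + (dotZ (uT f) (uT g) : ℝ) / (pT g) / (pT f)
        = (pT f * pT g + dotZ (uT f) (uT g)) / (pT f * pT g) := by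
      field_simp
    rw [this]
    positivity
  a f g := toE W0 (YT (aT f g))
  b f g := toE W0 (YT (bT f g))
  a_mem f g h := by
    obtain ⟨a1, a2, _, _⟩ := mem_aT f g h
    exact ⟨fun i => slack_nn.2 (vert_le _ _), slack_z.2 ((vert_eq _ _).2 a1),
      slack_z.2 ((vert_eq _ _).2 a2)⟩
  b_mem f g h := by
    obtain ⟨a1, a2, _, _⟩ := mem_bT f g h
    exact ⟨fun i => slack_nn.2 (vert_le _ _), slack_z.2 ((vert_eq _ _).2 a1),
      slack_z.2 ((vert_eq _ _).2 a2)⟩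
  ab_ne f g h := by
    intro he
    obtain ⟨a1, a2, a3, a4⟩ := mem_aT f g h
    obtain ⟨b1, b2, b3, b4⟩ := mem_bT f g h
    apply a4
    rw [← vert_eq, he, vert_eq]
    exact b3
  ab_symm f g h := by
    obtain ⟨h1, h2⟩ := ab_symmT f g h
    exact ⟨by rw [h1], by rw [h2]⟩
  inter f g hfg y hy hf hg := by
    have hy' : ∀ i, dotR (uT i) y ≤ KT i := fun i => slack_nn.1 (hy i)
    rw [slack_z] at hf hg
    by_cases h : g ∈ nbT f
    · exact ⟨h, inter_adj h hy' hf hg⟩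
    · exact (not_inter hfg h hy' hf hg).elim
  vert f g k hfg hgk hfk y hy hf hg hk := by
    have hy' : ∀ i, dotR (uT i) y ≤ KT i := fun i => slack_nn.1 (hy i)
    rw [slack_z] at hf hg hk
    by_cases h : g ∈ nbT f
    swap
    · exact (not_inter hfg h hy' hf hg).elim
    obtain ⟨t, ht, hyt⟩ := inter_adj h hy' hf hg
    have key : ∀ j, f ∈ vfT j → g ∈ vfT j → y = toE W0 (YT j) →
        (∀ i, (KT i : ℝ) / pT i - ⟪toE (pT i) (uT i), y⟫ = 0 → i = f ∨ i = g ∨ i = k) ∧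
        ∀ z : E, ⟪toE (pT f) (uT f), z⟫ = 0 → ⟪toE (pT g) (uT g), z⟫ = 0 →
          ⟪toE (pT k) (uT k), z⟫ = 0 → z = 0 := by
      intro j hfj hgj hyj
      have hkj : k ∈ vfT j := by
        rw [← vert_eq, ← hyj]; exact hk
      obtain ⟨h1, h2⟩ := vf_three j f hfj g hgj k hkj hfg hgk hfk
      refine ⟨fun i hi => h1 i ?_, fun z hz1 hz2 hz3 => ?_⟩
      · rw [slack_z, hyj, vert_eq] at hi
        exact hi
      · rw [inner_toE, div_eq_zero_iff] at hz1 hz2 hz3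
        have e1 := hz1.resolve_right (pT_pos' f).ne'
        have e2 := hz2.resolve_right (pT_pos' g).ne'
        have e3 := hz3.resolve_right (pT_pos' k).ne'
        exact eq_zero_of_det h2 e1 e2 e3
    obtain ⟨a1, a2, a3, a4⟩ := mem_aT f g h
    obtain ⟨b1, b2, b3, b4⟩ := mem_bT f g h
    have hk' := hk
    rw [hyt, dotR_comb] at hk'
    have kA := vert_le (aT f g) k
    have kB := vert_le (bT f g) k
    have hcase : t = 0 ∨ t = 1 := by
      by_contra hcon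
      rw [not_or] at hcon
      have t0 : 0 < t := lt_of_le_of_ne ht.1 (Ne.symm hcon.1)
      have t1 : t < 1 := lt_of_le_of_ne ht.2 hcon.2
      have s1 : 0 ≤ (1 - t) * (KT k - dotR (uT k) (toE W0 (YT (aT f g)))) :=
        mul_nonneg (by linarith) (by linarith)
      have s2 : 0 ≤ t * (KT k - dotR (uT k) (toE W0 (YT (bT f g)))) :=
        mul_nonneg (by linarith) (by linarith)
      have s3 : (1 - t) * (KT k - dotR (uT k) (toE W0 (YT (aT f g)))) +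
          t * (KT k - dotR (uT k) (toE W0 (YT (bT f g)))) = 0 := by linarith
      have s4 : (1 - t) * (KT k - dotR (uT k) (toE W0 (YT (aT f g)))) = 0 := by linarith
      have s5 : t * (KT k - dotR (uT k) (toE W0 (YT (bT f g)))) = 0 := by linarith
      have s6 : (KT k : ℝ) - dotR (uT k) (toE W0 (YT (aT f g))) = 0 :=
        (mul_eq_zero.1 s4).resolve_left (by linarith)
      have s7 : (KT k : ℝ) - dotR (uT k) (toE W0 (YT (bT f g))) = 0 :=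
        (mul_eq_zero.1 s5).resolve_left (by linarith)
      have s8 : k ∈ vfT (aT f g) := (vert_eq _ _).1 (by linarith)
      have s9 : k ∈ vfT (bT f g) := (vert_eq _ _).1 (by linarith)
      rcases vf_edge f g h k s8 s9 with h' | h'
      · exact hfk h'.symm
      · exact hgk h'.symm
    rcases hcase with h0 | h0
    · have hyA : y = toE W0 (YT (aT f g)) := by rw [hyt, h0]; simp
      obtain ⟨k1, k2⟩ := key _ a1 a2 hyA
      exact ⟨k1, Or.inl hyA, k2⟩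
    · have hyB : y = toE W0 (YT (bT f g)) := by rw [hyt, h0]; simp
      obtain ⟨k1, k2⟩ := key _ b1 b2 hyB
      exact ⟨k1, Or.inr hyB, k2⟩
  bdd := by
    have : {x : E | ∀ i, 0 ≤ (KT i : ℝ) / pT i - ⟪toE (pT i) (uT i), x⟫}
        = {x : E | ∀ i, dotR (uT i) x ≤ KT i} := by
      ext x
      exact forall_congr' fun i => slack_nn
    rw [this]
    exact bdd_aux
  conn f g := by
    have h12 : (2 : Fin 8) ∈ nbT 1 := by decide
    have h20 : (0 : Fin 8) ∈ nbT 2 := by decide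
    have from0 : ∀ f : Fin 8, Relation.ReflTransGen (fun f g => g ∈ nbT f) 0 f := by
      intro f
      by_cases h0 : f = 0
      · rw [h0]
      by_cases h1 : f = 1
      · rw [h1]
        exact (Relation.ReflTransGen.single (nbT_symm _ _ h20)).tail (nbT_symm _ _ h12)
      · exact Relation.ReflTransGen.single (nb_zero f h0 h1)
    have to0 : ∀ f : Fin 8, Relation.ReflTransGen (fun f g => g ∈ nbT f) f 0 := by
      intro f
      by_cases h0 : f = 0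
      · rw [h0]
      by_cases h1 : f = 1
      · rw [h1]
        exact (Relation.ReflTransGen.single h12).tail h20
      · exact Relation.ReflTransGen.single (nbT_symm _ _ (nb_zero f h0 h1))
    exact (to0 f).trans (from0 g)

end Pool.Agent.Lib.MP_dd45e6_gt
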