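import Pool.Agent.Lib.MP_dd45e6_gt.Check

/-! Soundness of the subdivision trees. -/

namespace Pool.Agent.Lib.MP_dd45e6_gt.Chk

lemma npos_iff {a : ℤ} : npos a = true ↔ a ≤ 0 := by
  cases a with
  | ofNat n =>
    simp only [npos, Int.ofNat_eq_natCast]
    rw [Nat.beq_eq]
    omega
  | negSucc n => simp only [npos, true_iff]; omega

lemma neg_iff {a : ℤ} : neg a = true ↔ a < 0 := by
  cases a with
  | ofNat n => simp only [neg, Int.ofNat_eq_natCast, Bool.false_eq_true, false_iff]; omega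
  | negSucc n => simp only [neg, true_iff]; omega

lemma zer_iff {a : ℤ} : zer a = true ↔ a = 0 := by
  cases a with
  | ofNat n =>
    simp only [zer, Int.ofNat_eq_natCast]
    rw [Nat.beq_eq]
    omega
  | negSucc n => simp only [zer, Bool.false_eq_true, false_iff]; omega

lemma zer3_iff {a : V3} : zer3 a = true ↔ a.1 = 0 ∧ a.2.1 = 0 ∧ a.2.2 = 0 := by
  simp only [zer3, Bool.and_eq_true, zer_iff, and_assoc]

/-- the weights `l` are in the cone spanned by the corners -/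
def InC (C : Cor) (l : Fin 3 → ℝ) : Prop :=
  ∃ a b c : ℝ, 0 ≤ a ∧ 0 ≤ b ∧ 0 ≤ c ∧
    l 0 = a * C.1.1 + b * C.2.1.1 + c * C.2.2.1 ∧
    l 1 = a * C.1.2.1 + b * C.2.1.2.1 + c * C.2.2.2.1 ∧
    l 2 = a * C.1.2.2 + b * C.2.1.2.2 + c * C.2.2.2.2

lemma inC_unit {l : Fin 3 → ℝ} (h : ∀ i, 0 < l i) : InC unitC l :=
  ⟨l 0, l 1, l 2, (h 0).le, (h 1).le, (h 2).le, by simp [unitC], by simp [unitC],
    by simp [unitC]⟩

lemma mid_eq (x y : V3) : ∃ s t : ℕ, 0 < s ∧ 0 < t ∧ mid x y = add (smul s x) (smul t y) :=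
  ⟨_, _, Nat.succ_pos _, Nat.succ_pos _, rfl⟩

lemma two_split {a b s t : ℝ} (ha : 0 ≤ a) (hb : 0 ≤ b) (hs : 0 < s) (ht : 0 < t) :
    (∃ a' m : ℝ, 0 ≤ a' ∧ 0 ≤ m ∧ a = a' + m * s ∧ b = m * t) ∨
    (∃ b' m : ℝ, 0 ≤ b' ∧ 0 ≤ m ∧ a = m * s ∧ b = b' + m * t) := by
  rcases le_total (b * s) (a * t) with h | h
  · left
    refine ⟨a - b / t * s, b / t, ?_, by positivity, by ring, by field_simp⟩
    rw [sub_nonneg, div_mul_eq_mul_div, div_le_iff₀ ht]; exact h
  · right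
    refine ⟨b - a / s * t, a / s, ?_, by positivity, by field_simp, by ring⟩
    rw [sub_nonneg, div_mul_eq_mul_div, div_le_iff₀ hs]; exact h

lemma split_cor {C : Cor} {l : Fin 3 → ℝ} (h : InC C l) (e : ℕ) :
    InC (cor1 e C) l ∨ InC (cor2 e C) l := by
  obtain ⟨a, b, c, ha, hb, hc, h0, h1, h2⟩ := h
  match e with
  | 0 =>
    obtain ⟨s, t, hs, ht, hm⟩ := mid_eq C.1 C.2.1
    have hs' : (0:ℝ) < s := by exact_mod_cast hs
    have ht' : (0:ℝ) < t := by exact_mod_cast ht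
    rcases two_split ha hb hs' ht' with ⟨a', m, ha', hm', e1, e2⟩ | ⟨b', m, hb', hm', e1, e2⟩
    · right
      refine ⟨a', m, c, ha', hm', hc, ?_, ?_, ?_⟩ <;>
        simp only [cor2, hm, add, smul] <;> push_cast
      · rw [h0, e1, e2]; ring
      · rw [h1, e1, e2]; ring
      · rw [h2, e1, e2]; ring
    · left
      refine ⟨m, b', c, hm', hb', hc, ?_, ?_, ?_⟩ <;>
        simp only [cor1, hm, add, smul] <;> push_cast
      · rw [h0, e1, e2]; ring
      · rw [h1, e1, e2]; ring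
      · rw [h2, e1, e2]; ring
  | 1 =>
    obtain ⟨s, t, hs, ht, hm⟩ := mid_eq C.2.1 C.2.2
    have hs' : (0:ℝ) < s := by exact_mod_cast hs
    have ht' : (0:ℝ) < t := by exact_mod_cast ht
    rcases two_split hb hc hs' ht' with ⟨a', m, ha', hm', e1, e2⟩ | ⟨b', m, hb', hm', e1, e2⟩
    · right
      refine ⟨a, a', m, ha, ha', hm', ?_, ?_, ?_⟩ <;>
        simp only [cor2, hm, add, smul] <;> push_cast
      · rw [h0, e1, e2]; ring
      · rw [h1, e1, e2]; ring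
      · rw [h2, e1, e2]; ring
    · left
      refine ⟨a, m, b', ha, hm', hb', ?_, ?_, ?_⟩ <;>
        simp only [cor1, hm, add, smul] <;> push_cast
      · rw [h0, e1, e2]; ring
      · rw [h1, e1, e2]; ring
      · rw [h2, e1, e2]; ring
  | n + 2 =>
    obtain ⟨s, t, hs, ht, hm⟩ := mid_eq C.2.2 C.1
    have hs' : (0:ℝ) < s := by exact_mod_cast hs
    have ht' : (0:ℝ) < t := by exact_mod_cast ht
    rcases two_split hc ha hs' ht' with ⟨a', m, ha', hm', e1, e2⟩ | ⟨b', m, hb', hm', e1, e2⟩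
    · right
      refine ⟨m, b, a', hm', hb, ha', ?_, ?_, ?_⟩ <;>
        simp only [cor2, hm, add, smul] <;> push_cast
      · rw [h0, e1, e2]; ring
      · rw [h1, e1, e2]; ring
      · rw [h2, e1, e2]; ring
    · left
      refine ⟨b', b, m, hb', hb, hm', ?_, ?_, ?_⟩ <;>
        simp only [cor1, hm, add, smul] <;> push_cast
      · rw [h0, e1, e2]; ring
      · rw [h1, e1, e2]; ring
      · rw [h2, e1, e2]; ring

lemma tree_sound {test : ℕ → Cor → Bool} {P : (Fin 3 → ℝ) → Prop}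
    (ht : ∀ e C, test e C = true → ∀ l, InC C l → (∀ i, 0 < l i) → P l) :
    ∀ n H C k, tree test n H C k = true →
      (∀ l, InC C l → (∀ i, 0 < l i) → P l) ∧ ∃ H', k H' = true := by
  intro n
  induction n with
  | zero => intro H C k h; simp [tree] at h
  | succ n ih =>
    intro H C k h
    rw [tree] at h
    cases hb : Nat.blt (H % 128) 120 with
    | true =>
      rw [hb] at h
      simp only [cond_true, Bool.and_eq_true] at h
      exact ⟨ht _ _ h.1, _, h.2⟩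
    | false =>
      rw [hb] at h
      simp only [cond_false] at h
      obtain ⟨h1, H1, h2⟩ := ih _ _ _ h
      obtain ⟨h3, H2, h4⟩ := ih _ _ _ h2
      refine ⟨fun l hl hpos => ?_, H2, h4⟩
      rcases split_cor hl (H % 128 - 120) with h5 | h5
      · exact h1 l h5 hpos
      · exact h3 l h5 hpos

lemma runT_sound {test0 : ℕ → Bool} {test : ℕ → Cor → Bool} {P : (Fin 3 → ℝ) → Prop}
    (h0 : ∀ e, test0 e = true → ∀ l : Fin 3 → ℝ, (∀ i, 0 < l i) → P l)
    (ht : ∀ e C, test e C = true → ∀ l, InC C l → (∀ i, 0 < l i) → P l) {H : ℕ}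
    (h : runT test0 test H = true) : ∀ l : Fin 3 → ℝ, (∀ i, 0 < l i) → P l := by
  unfold runT at h
  cases hb : Nat.blt H 120 with
  | true =>
    rw [hb] at h
    simp only [cond_true] at h
    exact h0 _ h
  | false =>
    rw [hb] at h
    simp only [cond_false] at h
    intro l hl
    exact (tree_sound ht _ _ _ _ h).1 l (inC_unit hl) hl

lemma cok_iff {v : ℤ} {c : V3} (h : cok v c = true) : v ≤ 0 ∧ (v < 0 ∨
    (c.2.1 = 0 ∧ c.2.2 = 0) ∨ (c.1 = 0 ∧ c.2.2 = 0) ∨ (c.1 = 0 ∧ c.2.1 = 0)) := by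
  simp only [cok, pure3, Bool.or_eq_true, Bool.and_eq_true, neg_iff, npos_iff, zer_iff] at h
  rcases h with h | ⟨h1, (h2 | h2) | h2⟩
  · exact ⟨h.le, Or.inl h⟩
  · exact ⟨h1, Or.inr (Or.inl h2)⟩
  · exact ⟨h1, Or.inr (Or.inr (Or.inl h2))⟩
  · exact ⟨h1, Or.inr (Or.inr (Or.inr h2))⟩

lemma two_contrib {l : Fin 3 → ℝ} (hl : ∀ i, 0 < l i) {b c : ℝ} {x y : V3}
    (hx : b = 0 ∨ (x.2.1 = 0 ∧ x.2.2 = 0) ∨ (x.1 = 0 ∧ x.2.2 = 0) ∨ (x.1 = 0 ∧ x.2.1 = 0))
    (hy : c = 0 ∨ (y.2.1 = 0 ∧ y.2.2 = 0) ∨ (y.1 = 0 ∧ y.2.2 = 0) ∨ (y.1 = 0 ∧ y.2.1 = 0))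
    (h0 : l 0 = b * x.1 + c * y.1) (h1 : l 1 = b * x.2.1 + c * y.2.1)
    (h2 : l 2 = b * x.2.2 + c * y.2.2) : False := by
  have p0 := hl 0
  have p1 := hl 1
  have p2 := hl 2
  rcases hx with hx | ⟨hx, hx'⟩ | ⟨hx, hx'⟩ | ⟨hx, hx'⟩ <;>
  rcases hy with hy | ⟨hy, hy'⟩ | ⟨hy, hy'⟩ | ⟨hy, hy'⟩ <;>
  simp only [hx, hy, zero_mul, add_zero, zero_add, Int.cast_zero, mul_zero] at h0 h1 h2 <;>
  (try simp only [hx', zero_mul, add_zero, zero_add, Int.cast_zero, mul_zero] at h0 h1 h2) <;>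
  (try simp only [hy', zero_mul, add_zero, zero_add, Int.cast_zero, mul_zero] at h0 h1 h2) <;>
  linarith

lemma all_pos {l : Fin 3 → ℝ} (hl : ∀ i, 0 < l i) {a b c : ℝ} {C : Cor}
    (ha : 0 ≤ a) (hb : 0 ≤ b) (hc : 0 ≤ c)
    (h0 : l 0 = a * C.1.1 + b * C.2.1.1 + c * C.2.2.1)
    (h1 : l 1 = a * C.1.2.1 + b * C.2.1.2.1 + c * C.2.2.2.1)
    (h2 : l 2 = a * C.1.2.2 + b * C.2.1.2.2 + c * C.2.2.2.2)
    {v0 v1 v2 : ℤ} (k0 : cok v0 C.1 = true) (k1 : cok v1 C.2.1 = true) (k2 : cok v2 C.2.2 = true)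
    (e0 : a * v0 = 0) (e1 : b * v1 = 0) (e2 : c * v2 = 0) :
    (0 < a ∧ 0 < b ∧ 0 < c) ∧ v0 = 0 ∧ v1 = 0 ∧ v2 = 0 := by
  have g : ∀ {r : ℝ} {v : ℤ} {x : V3}, cok v x = true → r * v = 0 →
      (r = 0 ∨ (x.2.1 = 0 ∧ x.2.2 = 0) ∨ (x.1 = 0 ∧ x.2.2 = 0) ∨ (x.1 = 0 ∧ x.2.1 = 0)) := by
    intro r v x hk he
    rcases (cok_iff hk).2 with h | h
    · left
      rcases mul_eq_zero.1 he with h3 | h3
      · exact h3
      · have : v = 0 := by exact_mod_cast h3
        omega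
    · exact Or.inr h
  have g0 := g k0 e0
  have g1 := g k1 e1
  have g2 := g k2 e2
  have pa : 0 < a := by
    rcases ha.lt_or_eq with h | h
    · exact h
    · exfalso
      subst h
      exact two_contrib hl g1 g2 (by rw [h0]; ring) (by rw [h1]; ring) (by rw [h2]; ring)
  have pb : 0 < b := by
    rcases hb.lt_or_eq with h | h
    · exact h
    · exfalso
      subst h
      exact two_contrib hl g0 g2 (by rw [h0]; ring) (by rw [h1]; ring) (by rw [h2]; ring)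
  have pc : 0 < c := by
    rcases hc.lt_or_eq with h | h
    · exact h
    · exfalso
      subst h
      exact two_contrib hl g0 g1 (by rw [h0]; ring) (by rw [h1]; ring) (by rw [h2]; ring)
  refine ⟨⟨pa, pb, pc⟩, ?_, ?_, ?_⟩
  · rcases mul_eq_zero.1 e0 with h | h
    · linarith
    · exact_mod_cast h
  · rcases mul_eq_zero.1 e1 with h | h
    · linarith
    · exact_mod_cast h
  · rcases mul_eq_zero.1 e2 with h | h
    · linarith
    · exact_mod_cast h

/-- linear form -/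
def lf (s : V3) (l : Fin 3 → ℝ) : ℝ := l 0 * s.1 + l 1 * s.2.1 + l 2 * s.2.2

lemma lin0_sound {s : V3} (h : lin0 s = true) {l : Fin 3 → ℝ} (hl : ∀ i, 0 < l i) :
    lf s l < 0 := by
  simp only [lin0, Bool.and_eq_true, Bool.or_eq_true, npos_iff, neg_iff] at h
  obtain ⟨⟨⟨h0, h1⟩, h2⟩, h3⟩ := h
  have r0 : (s.1 : ℝ) ≤ 0 := by exact_mod_cast h0
  have r1 : (s.2.1 : ℝ) ≤ 0 := by exact_mod_cast h1
  have r2 : (s.2.2 : ℝ) ≤ 0 := by exact_mod_cast h2
  have p0 := mul_nonneg (hl 0).le (neg_nonneg.2 r0)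
  have p1 := mul_nonneg (hl 1).le (neg_nonneg.2 r1)
  have p2 := mul_nonneg (hl 2).le (neg_nonneg.2 r2)
  unfold lf
  rcases h3 with (h3 | h3) | h3
  · have r : (s.1 : ℝ) < 0 := by exact_mod_cast h3
    have := mul_pos (hl 0) (neg_pos.2 r)
    nlinarith
  · have r : (s.2.1 : ℝ) < 0 := by exact_mod_cast h3
    have := mul_pos (hl 1) (neg_pos.2 r)
    nlinarith
  · have r : (s.2.2 : ℝ) < 0 := by exact_mod_cast h3
    have := mul_pos (hl 2) (neg_pos.2 r)
    nlinarith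

lemma linT_sound {s : V3} {C : Cor} (h : linT s C = true) {l : Fin 3 → ℝ} (hC : InC C l)
    (hl : ∀ i, 0 < l i) : lf s l < 0 := by
  simp only [linT, Bool.and_eq_true, Bool.or_eq_true, neg_iff] at h
  obtain ⟨⟨⟨k0, k1⟩, k2⟩, h3⟩ := h
  obtain ⟨a, b, c, ha, hb, hc, h0, h1, h2⟩ := hC
  have n0 : ((dot C.1 s : ℤ) : ℝ) ≤ 0 := by exact_mod_cast (cok_iff k0).1
  have n1 : ((dot C.2.1 s : ℤ) : ℝ) ≤ 0 := by exact_mod_cast (cok_iff k1).1
  have n2 : ((dot C.2.2 s : ℤ) : ℝ) ≤ 0 := by exact_mod_cast (cok_iff k2).1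
  have e : lf s l = a * (dot C.1 s : ℤ) + b * (dot C.2.1 s : ℤ) + c * (dot C.2.2 s : ℤ) := by
    unfold lf
    rw [h0, h1, h2]
    simp only [dot]
    push_cast
    ring
  have p0 := mul_nonneg ha (neg_nonneg.2 n0)
  have p1 := mul_nonneg hb (neg_nonneg.2 n1)
  have p2 := mul_nonneg hc (neg_nonneg.2 n2)
  have hle : lf s l ≤ 0 := by rw [e]; nlinarith
  rcases hle.lt_or_eq with h4 | h4
  · exact h4
  · exfalso
    rw [e] at h4
    have q0 : a * (dot C.1 s : ℤ) = 0 := by nlinarith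
    have q1 : b * (dot C.2.1 s : ℤ) = 0 := by nlinarith
    have q2 : c * (dot C.2.2 s : ℤ) = 0 := by nlinarith
    obtain ⟨-, z0, z1, z2⟩ := all_pos hl ha hb hc h0 h1 h2 k0 k1 k2 q0 q1 q2
    omega

/-- bilinear form -/
def bf (u w : Tri) (l : Fin 3 → ℝ) : ℝ :=
  (l 0 * u.1.1 + l 1 * u.2.1.1 + l 2 * u.2.2.1) * (l 0 * w.1.1 + l 1 * w.2.1.1 + l 2 * w.2.2.1)
  + (l 0 * u.1.2.1 + l 1 * u.2.1.2.1 + l 2 * u.2.2.2.1)
    * (l 0 * w.1.2.1 + l 1 * w.2.1.2.1 + l 2 * w.2.2.2.1)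
  + (l 0 * u.1.2.2 + l 1 * u.2.1.2.2 + l 2 * u.2.2.2.2)
    * (l 0 * w.1.2.2 + l 1 * w.2.1.2.2 + l 2 * w.2.2.2.2)

lemma quadT_sound {u w : Tri} {C : Cor} (h : quadT u w C = true) {l : Fin 3 → ℝ} (hC : InC C l)
    (hl : ∀ i, 0 < l i) : bf u w l < 0 := by
  simp only [quadT, quadV, Bool.and_eq_true, Bool.or_eq_true, neg_iff, npos_iff] at h
  obtain ⟨⟨⟨⟨⟨⟨k0, k1⟩, k2⟩, m01⟩, m02⟩, m12⟩, h3⟩ := h
  obtain ⟨a, b, c, ha, hb, hc, h0, h1, h2⟩ := hC
  set d0 := dot (comb u C.1) (comb w C.1) with hd0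
  set d1 := dot (comb u C.2.1) (comb w C.2.1) with hd1
  set d2 := dot (comb u C.2.2) (comb w C.2.2) with hd2
  set e01 := dot (comb u C.1) (comb w C.2.1) + dot (comb u C.2.1) (comb w C.1) with he01
  set e02 := dot (comb u C.1) (comb w C.2.2) + dot (comb u C.2.2) (comb w C.1) with he02
  set e12 := dot (comb u C.2.1) (comb w C.2.2) + dot (comb u C.2.2) (comb w C.2.1) with he12
  have n0 : (d0 : ℝ) ≤ 0 := by exact_mod_cast (cok_iff k0).1
  have n1 : (d1 : ℝ) ≤ 0 := by exact_mod_cast (cok_iff k1).1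
  have n2 : (d2 : ℝ) ≤ 0 := by exact_mod_cast (cok_iff k2).1
  have n3 : (e01 : ℝ) ≤ 0 := by exact_mod_cast m01
  have n4 : (e02 : ℝ) ≤ 0 := by exact_mod_cast m02
  have n5 : (e12 : ℝ) ≤ 0 := by exact_mod_cast m12
  have e : bf u w l = a ^ 2 * d0 + b ^ 2 * d1 + c ^ 2 * d2 + a * b * e01 + a * c * e02
      + b * c * e12 := by
    unfold bf
    rw [h0, h1, h2, hd0, hd1, hd2, he01, he02, he12]
    simp only [dot, comb, add, smul]
    push_cast
    ring
  have p0 := mul_nonneg (sq_nonneg a) (neg_nonneg.2 n0)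
  have p1 := mul_nonneg (sq_nonneg b) (neg_nonneg.2 n1)
  have p2 := mul_nonneg (sq_nonneg c) (neg_nonneg.2 n2)
  have p3 := mul_nonneg (mul_nonneg ha hb) (neg_nonneg.2 n3)
  have p4 := mul_nonneg (mul_nonneg ha hc) (neg_nonneg.2 n4)
  have p5 := mul_nonneg (mul_nonneg hb hc) (neg_nonneg.2 n5)
  have hle : bf u w l ≤ 0 := by rw [e]; linarith
  rcases hle.lt_or_eq with h4 | h4
  · exact h4
  · exfalso
    rw [e] at h4
    have q0 : a ^ 2 * d0 = 0 := by linarith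
    have q1 : b ^ 2 * d1 = 0 := by linarith
    have q2 : c ^ 2 * d2 = 0 := by linarith
    have q3 : a * b * e01 = 0 := by linarith
    have q4 : a * c * e02 = 0 := by linarith
    have q5 : b * c * e12 = 0 := by linarith
    have sq : ∀ {r : ℝ} {v : ℤ}, r ^ 2 * v = 0 → r * v = 0 := by
      intro r v h
      rcases mul_eq_zero.1 h with h | h
      · rw [pow_eq_zero_iff two_ne_zero] at h
        rw [h, zero_mul]
      · rw [h, mul_zero]
    obtain ⟨⟨pa, pb, pc⟩, z0, z1, z2⟩ :=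
      all_pos hl ha hb hc h0 h1 h2 k0 k1 k2 (sq q0) (sq q1) (sq q2)
    have z3 : e01 = 0 := by
      rcases mul_eq_zero.1 q3 with h | h
      · have := mul_pos pa pb; linarith
      · exact_mod_cast h
    have z4 : e02 = 0 := by
      rcases mul_eq_zero.1 q4 with h | h
      · have := mul_pos pa pc; linarith
      · exact_mod_cast h
    have z5 : e12 = 0 := by
      rcases mul_eq_zero.1 q5 with h | h
      · have := mul_pos pb pc; linarith
      · exact_mod_cast h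
    omega

lemma quad0_sound {u w : Tri} (h : quad0 u w = true) {l : Fin 3 → ℝ} (hl : ∀ i, 0 < l i) :
    bf u w l < 0 := by
  simp only [quad0, quadV, Bool.and_eq_true, Bool.or_eq_true, neg_iff, npos_iff] at h
  obtain ⟨⟨⟨⟨⟨⟨k0, k1⟩, k2⟩, m01⟩, m02⟩, m12⟩, h3⟩ := h
  set d0 := dot u.1 w.1 with hd0
  set d1 := dot u.2.1 w.2.1 with hd1
  set d2 := dot u.2.2 w.2.2 with hd2
  set e01 := dot u.1 w.2.1 + dot u.2.1 w.1 with he01
  set e02 := dot u.1 w.2.2 + dot u.2.2 w.1 with he02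
  set e12 := dot u.2.1 w.2.2 + dot u.2.2 w.2.1 with he12
  have n0 : (d0 : ℝ) ≤ 0 := by exact_mod_cast k0
  have n1 : (d1 : ℝ) ≤ 0 := by exact_mod_cast k1
  have n2 : (d2 : ℝ) ≤ 0 := by exact_mod_cast k2
  have n3 : (e01 : ℝ) ≤ 0 := by exact_mod_cast m01
  have n4 : (e02 : ℝ) ≤ 0 := by exact_mod_cast m02
  have n5 : (e12 : ℝ) ≤ 0 := by exact_mod_cast m12
  have e : bf u w l = l 0 ^ 2 * d0 + l 1 ^ 2 * d1 + l 2 ^ 2 * d2 + l 0 * l 1 * e01
      + l 0 * l 2 * e02 + l 1 * l 2 * e12 := by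
    unfold bf
    rw [hd0, hd1, hd2, he01, he02, he12]
    simp only [dot]
    push_cast
    ring
  have q0 := hl 0
  have q1 := hl 1
  have q2 := hl 2
  have p0 := mul_nonneg (sq_nonneg (l 0)) (neg_nonneg.2 n0)
  have p1 := mul_nonneg (sq_nonneg (l 1)) (neg_nonneg.2 n1)
  have p2 := mul_nonneg (sq_nonneg (l 2)) (neg_nonneg.2 n2)
  have p3 := mul_nonneg (mul_nonneg q0.le q1.le) (neg_nonneg.2 n3)
  have p4 := mul_nonneg (mul_nonneg q0.le q2.le) (neg_nonneg.2 n4)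
  have p5 := mul_nonneg (mul_nonneg q1.le q2.le) (neg_nonneg.2 n5)
  have hle : bf u w l ≤ 0 := by rw [e]; linarith
  rcases hle.lt_or_eq with h4 | h4
  · exact h4
  · exfalso
    rw [e] at h4
    have r0 : l 0 ^ 2 * d0 = 0 := by linarith
    have r1 : l 1 ^ 2 * d1 = 0 := by linarith
    have r2 : l 2 ^ 2 * d2 = 0 := by linarith
    have r3 : l 0 * l 1 * e01 = 0 := by linarith
    have r4 : l 0 * l 2 * e02 = 0 := by linarith
    have r5 : l 1 * l 2 * e12 = 0 := by linarith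
    have z : ∀ {r : ℝ} {v : ℤ}, 0 < r → r * v = 0 → v = 0 := by
      intro r v hr h
      rcases mul_eq_zero.1 h with h | h
      · linarith
      · exact_mod_cast h
    have z0 := z (by positivity) r0
    have z1 := z (by positivity) r1
    have z2 := z (by positivity) r2
    have z3 := z (by positivity) r3
    have z4 := z (by positivity) r4
    have z5 := z (by positivity) r5
    omega

/-! ### lists -/

lemma nth_mem {α : Type} : ∀ {l : List α} {n : ℕ} {a : α}, nth l n = some a → a ∈ l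
  | [], _, _, h => by simp [nth] at h
  | b :: l, 0, a, h => by
    simp only [nth, Option.some.injEq] at h
    rw [h]; exact List.mem_cons_self
  | b :: l, n + 1, a, h => List.mem_cons_of_mem _ (nth_mem (l := l) h)

lemma memN_iff {n : ℕ} : ∀ {l : List ℕ}, memN n l = true ↔ n ∈ l
  | [] => by simp [memN]
  | a :: l => by
    simp only [memN, Bool.or_eq_true, List.mem_cons, memN_iff (l := l)]
    rw [Nat.beq_eq]

lemma all2_sound {α β : Type} {p : α → β → Bool} : ∀ {l : List α} {m : List β},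
    all2 p l m = true → ∀ a ∈ l, ∃ b, p a b = true
  | [], _, _, a, ha => by simp at ha
  | _ :: _, [], h, _, _ => by simp [all2] at h
  | x :: l, y :: m, h, a, ha => by
    simp only [all2, Bool.and_eq_true] at h
    rcases List.mem_cons.1 ha with rfl | ha
    · exact ⟨y, h.1⟩
    · exact all2_sound h.2 a ha

lemma pairs2_sound {α β : Type} {p : α → α → β → Bool} : ∀ {l : List α} {m : List (List β)},
    pairs2 p l m = true → l.Pairwise fun a b => ∃ h, p a b h = true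
  | [], _, _ => List.Pairwise.nil
  | _ :: _, [], h => by simp [pairs2] at h
  | x :: l, y :: m, h => by
    simp only [pairs2, Bool.and_eq_true] at h
    exact List.Pairwise.cons (fun a ha => all2_sound h.1 a ha) (pairs2_sound h.2)

end Pool.Agent.Lib.MP_dd45e6_gt.Chk
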