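import Pool.Agent.Lib.MP_dd45e6_gt.Sound1
import Pool.Agent.Lib.MP_dd45e6_gt.Anti
import Pool.Agent.Lib.MP_dd45e6_gt.Hull

/-! Soundness of the checker: from a checked cell to the structure `Cell`. -/

namespace Pool.Agent.Lib.MP_dd45e6_gt
open Set Metric Filter Topology
open scoped RealInnerProductSpace

/-! ### real points -/

lemma inner_toE_toE (a b : ℤ) (P R : Z3) :
    ⟪toE a P, toE b R⟫ = (Chk.dot P R : ℝ) / (a * b) := by
  simp only [toE, Chk.dot, PiLp.inner_apply, Fin.sum_univ_three, RCLike.inner_apply,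
    conj_trivial, Matrix.cons_val_zero, Matrix.cons_val_one, Matrix.cons_val]
  push_cast
  by_cases ha : (a:ℝ) = 0
  · simp [ha]
  · by_cases hb : (b:ℝ) = 0
    · simp [hb]
    · field_simp

lemma toE_sub (W : ℤ) (P R : Z3) : toE W P - toE W R = toE W (Chk.sub P R) := by
  ext i
  fin_cases i <;> simp [toE, Chk.sub] <;> ring

lemma toE_smul {c W : ℤ} (hc : c ≠ 0) (P : Z3) : toE (c * W) (Chk.smul c P) = toE W P := by
  have hc' : (c:ℝ) ≠ 0 := by exact_mod_cast hc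
  ext i
  by_cases hW : (W:ℝ) = 0
  · fin_cases i <;> simp [toE, Chk.smul, hW]
  · fin_cases i <;> simp [toE, Chk.smul] <;> field_simp

lemma dist_toE (W : ℤ) (P R : Z3) :
    dist (toE W P) (toE W R) ^ 2 = (Chk.nsq (Chk.sub P R) : ℝ) / (W : ℝ) ^ 2 := by
  rw [dist_eq_norm, ← real_inner_self_eq_norm_sq, toE_sub, inner_toE_toE, Chk.nsq, sq]

/-- the real triangle of an integer triangle -/
noncomputable def tri (W : ℤ) (T : Chk.Tri) : Fin 3 → E := ![toE W T.1, toE W T.2.1, toE W T.2.2]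

lemma tri0 (W : ℤ) (T : Chk.Tri) : tri W T 0 = toE W T.1 := rfl
lemma tri1 (W : ℤ) (T : Chk.Tri) : tri W T 1 = toE W T.2.1 := rfl
lemma tri2 (W : ℤ) (T : Chk.Tri) : tri W T 2 = toE W T.2.2 := rfl

/-! ### tables -/

lemma uT_eq : ∀ f : Fin 8, uT f = Chk.uN f.val := by decide
lemma pT_eq : ∀ f : Fin 8, pT f = Chk.pN f.val := by decide
lemma KT_eq : ∀ f : Fin 8, KT f = Chk.KN f.val := by decide
lemma pN_pos : ∀ f : Fin 8, 0 < Chk.pN f.val := by decide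
lemma YT_eq : ∀ j : Fin 12, YT j = Chk.YN j.val := by decide +kernel
lemma nb_eq : ∀ f g : Fin 8, g ∈ nbT f ↔ g.val ∈ Chk.nbN f.val := by decide +kernel
lemma vf_eq : ∀ (j : Fin 12) (f : Fin 8), f ∈ vfT j ↔ f.val ∈ Chk.vfN j.val := by decide +kernel
lemma aT_eq : ∀ f g : Fin 8, g ∈ nbT f → YT (aT f g) = Chk.YN (Chk.aN f.val g.val) := by
  decide +kernel
lemma bT_eq : ∀ f g : Fin 8, g ∈ nbT f → YT (bT f g) = Chk.YN (Chk.bN f.val g.val) := by
  decide +kernel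

lemma sl_toE_div {W : ℤ} (hW : 0 < W) (g : Fin 8) (P : Z3) :
    Q0.sl g (toE W P) = (Chk.S W g.val P : ℝ) / (Chk.pN g.val * W) := by
  have hp : (0:ℝ) < Chk.pN g.val := by exact_mod_cast pN_pos g
  have hW' : (0:ℝ) < W := by exact_mod_cast hW
  have e1 : Q0.sl g (toE W P) = (KT g : ℝ) / pT g - ⟪toE (pT g) (uT g), toE W P⟫ := rfl
  rw [e1, inner_toE_toE, KT_eq, pT_eq, uT_eq, Chk.S]
  push_cast
  field_simp

lemma sl_zero_iff {W : ℤ} (hW : 0 < W) (g : Fin 8) (P : Z3) :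
    Q0.sl g (toE W P) = 0 ↔ Chk.S W g.val P = 0 := by
  have hp : (0:ℝ) < Chk.pN g.val := by exact_mod_cast pN_pos g
  have hW' : (0:ℝ) < W := by exact_mod_cast hW
  rw [sl_toE_div hW, div_eq_zero_iff]
  constructor
  · rintro (h | h)
    · exact_mod_cast h
    · have : (0:ℝ) < Chk.pN g.val * W := mul_pos hp hW'
      linarith
  · intro h; left; exact_mod_cast h

lemma sl_pos_iff {W : ℤ} (hW : 0 < W) (g : Fin 8) (P : Z3) :
    0 < Q0.sl g (toE W P) ↔ 0 < Chk.S W g.val P := by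
  have hp : (0:ℝ) < Chk.pN g.val := by exact_mod_cast pN_pos g
  have hW' : (0:ℝ) < W := by exact_mod_cast hW
  rw [sl_toE_div hW, div_pos_iff_of_pos_right (mul_pos hp hW')]
  exact_mod_cast Iff.rfl

lemma sl_nonneg_iff {W : ℤ} (hW : 0 < W) (g : Fin 8) (P : Z3) :
    0 ≤ Q0.sl g (toE W P) ↔ 0 ≤ Chk.S W g.val P := by
  have hp : (0:ℝ) < Chk.pN g.val := by exact_mod_cast pN_pos g
  have hW' : (0:ℝ) < W := by exact_mod_cast hW
  rw [sl_toE_div hW, le_div_iff₀ (mul_pos hp hW'), zero_mul]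
  exact_mod_cast Iff.rfl

lemma ls_tri {W : ℤ} (hW : 0 < W) (g : Fin 8) (T : Chk.Tri) (l : Fin 3 → ℝ) :
    Q0.ls g (tri W T) l = Chk.lf (Chk.S3 W g.val T) l / (Chk.pN g.val * W) := by
  unfold SPoly.ls Chk.lf Chk.S3
  rw [tri0, tri1, tri2, sl_toE_div hW, sl_toE_div hW, sl_toE_div hW]
  ring

lemma ls_neg {W : ℤ} (hW : 0 < W) (g : Fin 8) (T : Chk.Tri) {l : Fin 3 → ℝ}
    (h : Chk.lf (Chk.S3 W g.val T) l < 0) : Q0.ls g (tri W T) l < 0 := by
  have hp : (0:ℝ) < Chk.pN g.val := by exact_mod_cast pN_pos g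
  have hW' : (0:ℝ) < W := by exact_mod_cast hW
  rw [ls_tri hW]
  exact div_neg_of_neg_of_pos h (mul_pos hp hW')

lemma lf_add (s t : Chk.V3) (l : Fin 3 → ℝ) :
    Chk.lf (Chk.add s t) l = Chk.lf s l + Chk.lf t l := by
  unfold Chk.lf Chk.add; push_cast; ring

lemma lf_sub (s t : Chk.V3) (l : Fin 3 → ℝ) :
    Chk.lf (Chk.sub s t) l = Chk.lf s l - Chk.lf t l := by
  unfold Chk.lf Chk.sub; push_cast; ring

lemma ls_add_neg {W : ℤ} (hW : 0 < W) (g : Fin 8) (T T' : Chk.Tri) {l : Fin 3 → ℝ}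
    (h : Chk.lf (Chk.add (Chk.S3 W g.val T) (Chk.S3 W g.val T')) l < 0) :
    Q0.ls g (tri W T) l + Q0.ls g (tri W T') l < 0 := by
  have hp : (0:ℝ) < Chk.pN g.val := by exact_mod_cast pN_pos g
  have hW' : (0:ℝ) < W := by exact_mod_cast hW
  rw [ls_tri hW, ls_tri hW, ← add_div, ← lf_add]
  exact div_neg_of_neg_of_pos h (mul_pos hp hW')

lemma ev_sub_inner {W : ℤ} (T T' T'' : Chk.Tri) (l : Fin 3 → ℝ) :
    ⟪ev (tri W T) l - ev (tri W T'') l, ev (tri W T') l - ev (tri W T'') l⟫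
      = Chk.bf (Chk.subT T T'') (Chk.subT T' T'') l / (W : ℝ) ^ 2 := by
  simp only [ev, tri0, tri1, tri2, toE, Chk.bf, Chk.subT, Chk.sub, PiLp.inner_apply,
    Fin.sum_univ_three, RCLike.inner_apply,
    conj_trivial, Matrix.cons_val_zero, Matrix.cons_val_one, Matrix.cons_val, PiLp.sub_apply,
    PiLp.add_apply, PiLp.smul_apply, smul_eq_mul]
  push_cast
  by_cases hW : (W:ℝ) = 0
  · simp [hW]
  · field_simp
    ring

/-- vertex with a cell denominator -/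
lemma vertex_eq {W c : ℤ} (hW : 0 < W) (hc : W = c * W0) (P : Z3) :
    toE W0 P = toE W (Chk.smul c P) := by
  have : c ≠ 0 := by
    rintro rfl
    rw [zero_mul] at hc
    omega
  rw [hc, toE_smul this]

lemma dist_vertex {W c : ℤ} (hW : 0 < W) (hc : W = c * W0) (j : ℕ) (P : Z3) :
    dist (toE W0 (Chk.YN j)) (toE W P) ^ 2 = (Chk.dq c j P : ℝ) / (W : ℝ) ^ 2 := by
  rw [vertex_eq hW hc, dist_toE, Chk.dq]

lemma ld_tri {W c : ℤ} (hW : 0 < W) (hc : W = c * W0) (j : ℕ) (T T' : Chk.Tri)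
    (l : Fin 3 → ℝ) :
    SPoly.ld (toE W0 (Chk.YN j)) (tri W T) (tri W T') l
      = Chk.lf (Chk.sub (Chk.dq3 c j T) (Chk.dq3 c j T')) l / (W : ℝ) ^ 2 := by
  unfold SPoly.ld
  rw [tri0, tri1, tri2, tri0, tri1, tri2, dist_vertex hW hc, dist_vertex hW hc,
    dist_vertex hW hc, dist_vertex hW hc, dist_vertex hW hc, dist_vertex hW hc, lf_sub]
  unfold Chk.lf Chk.dq3
  ring

lemma dist_lt_iff {W c : ℤ} (hW : 0 < W) (hc : W = c * W0) (j : ℕ) (P R : Z3) :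
    dist (toE W0 (Chk.YN j)) (toE W P) < dist (toE W0 (Chk.YN j)) (toE W R)
      ↔ Chk.dq c j P < Chk.dq c j R := by
  have hW' : (0:ℝ) < (W:ℝ) ^ 2 := by
    have : (0:ℝ) < W := by exact_mod_cast hW
    positivity
  rw [← pow_lt_pow_iff_left₀ dist_nonneg dist_nonneg two_ne_zero, dist_vertex hW hc,
    dist_vertex hW hc, div_lt_div_iff_of_pos_right hW']
  exact_mod_cast Iff.rfl

lemma dist_le_iff {W c : ℤ} (hW : 0 < W) (hc : W = c * W0) (j : ℕ) (P R : Z3) :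
    dist (toE W0 (Chk.YN j)) (toE W P) ≤ dist (toE W0 (Chk.YN j)) (toE W R)
      ↔ Chk.dq c j P ≤ Chk.dq c j R := by
  rw [← not_lt, dist_lt_iff hW hc, not_lt]

lemma dist_eq_iff {W c : ℤ} (hW : 0 < W) (hc : W = c * W0) (j : ℕ) (P R : Z3) :
    dist (toE W0 (Chk.YN j)) (toE W P) = dist (toE W0 (Chk.YN j)) (toE W R)
      ↔ Chk.dq c j P = Chk.dq c j R := by
  rw [le_antisymm_iff, le_antisymm_iff, dist_le_iff hW hc, dist_le_iff hW hc]

/-- unfolding -/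
lemma isU1_sound {W : ℤ} (hW : 0 < W) {f g : Fin 8} (hadj : Q0.adj f g) {P P' : Z3}
    (h : Chk.isU1 W f.val g.val P P' = true) : toE W P' = Q0.U f g (toE W P) := by
  have hpf : (0:ℝ) < Chk.pN f.val := by exact_mod_cast pN_pos f
  have hpg : (0:ℝ) < Chk.pN g.val := by exact_mod_cast pN_pos g
  have hW' : (0:ℝ) < W := by exact_mod_cast hW
  have hcp := Q0.cpos f g hadj
  have e1 : ⟪Q0.n f, Q0.n g⟫ = (Chk.dot (Chk.uN f.val) (Chk.uN g.val) : ℝ)
      / (Chk.pN f.val * Chk.pN g.val) := by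
    show ⟪toE (pT f) (uT f), toE (pT g) (uT g)⟫ = _
    rw [inner_toE_toE, uT_eq, uT_eq, pT_eq, pT_eq]
  have hn : Q0.n f + Q0.n g = toE (pT f) (uT f) + toE (pT g) (uT g) := rfl
  have hD : (0:ℝ) < Chk.pN f.val * Chk.pN g.val + Chk.dot (Chk.uN f.val) (Chk.uN g.val) := by
    rw [e1] at hcp
    have h2 : (0:ℝ) < Chk.pN f.val * Chk.pN g.val := mul_pos hpf hpg
    have h3 := mul_pos hcp h2
    have h4 : (1 + (Chk.dot (Chk.uN f.val) (Chk.uN g.val) : ℝ)
      / (Chk.pN f.val * Chk.pN g.val)) * (Chk.pN f.val * Chk.pN g.val)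
      = Chk.pN f.val * Chk.pN g.val + Chk.dot (Chk.uN f.val) (Chk.uN g.val) := by
      field_simp
    rw [h4] at h3
    exact h3
  simp only [Chk.isU1, Chk.zer3_iff, Chk.sub, Chk.smul, Chk.add] at h
  obtain ⟨h1, h2, h3⟩ := h
  have r1 := congrArg (fun z : ℤ => (z : ℝ)) h1
  have r2 := congrArg (fun z : ℤ => (z : ℝ)) h2
  have r3 := congrArg (fun z : ℤ => (z : ℝ)) h3
  push_cast at r1 r2 r3
  set D : ℝ := Chk.pN f.val * Chk.pN g.val + Chk.dot (Chk.uN f.val) (Chk.uN g.val) with hDdef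
  set s : ℝ := ((Chk.S W g.val P : ℤ) : ℝ) with hs
  have e2 : 1 + ⟪Q0.n f, Q0.n g⟫ = D / (Chk.pN f.val * Chk.pN g.val) := by
    rw [e1, hDdef]; field_simp
  unfold SPoly.U
  rw [sl_toE_div hW, e2, hn, uT_eq, uT_eq, pT_eq, pT_eq]
  ext i
  fin_cases i
  · simp only [toE, Fin.zero_eta, Matrix.cons_val_zero, PiLp.add_apply, PiLp.smul_apply,
      smul_eq_mul]
    rw [← hs]
    field_simp
    linear_combination r1
  · simp only [toE, Fin.mk_one, Matrix.cons_val, PiLp.add_apply, PiLp.smul_apply,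
      smul_eq_mul]
    rw [← hs]
    field_simp
    linear_combination r2
  · simp only [toE, Fin.reduceFinMk, Matrix.cons_val, PiLp.add_apply, PiLp.smul_apply,
      smul_eq_mul]
    rw [← hs]
    field_simp
    linear_combination r3

lemma isU_sound {W : ℤ} (hW : 0 < W) {f g : Fin 8} (hadj : Q0.adj f g) {T T' : Chk.Tri}
    (h : Chk.isU W f.val g.val T T' = true) : tri W T' = fun v => Q0.U f g (tri W T v) := by
  simp only [Chk.isU, Bool.and_eq_true] at h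
  funext v
  fin_cases v
  · exact isU1_sound hW hadj h.1.1
  · exact isU1_sound hW hadj h.1.2
  · exact isU1_sound hW hadj h.2

lemma eqT_sound {T T' : Chk.Tri} (h : Chk.eqT T T' = true) : T = T' := by
  simp only [Chk.eqT, Bool.and_eq_true, Chk.zer3_iff, Chk.sub, sub_eq_zero] at h
  obtain ⟨⟨⟨a1, a2, a3⟩, b1, b2, b3⟩, c1, c2, c3⟩ := h
  exact Prod.ext (Prod.ext a1 (Prod.ext a2 a3))
    (Prod.ext (Prod.ext b1 (Prod.ext b2 b3)) (Prod.ext c1 (Prod.ext c2 c3)))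

/-- node lists as real triangles -/
noncomputable def NdF (W : ℤ) (F : List (List Chk.Tri)) (f : Fin 8) : List (Fin 3 → E) :=
  (Chk.atF F f.val).map (tri W)

lemma mem_NdF {W : ℤ} {F : List (List Chk.Tri)} {f : Fin 8} {T : Fin 3 → E} :
    T ∈ NdF W F f ↔ ∃ T₀ ∈ Chk.atF F f.val, tri W T₀ = T := by
  unfold NdF; simp

end Pool.Agent.Lib.MP_dd45e6_gt
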