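import Pool.Agent.Lib.MP_dd45e6_gt.Sound2

/-! Soundness of the checker: assembly. -/

namespace Pool.Agent.Lib.MP_dd45e6_gt
open Set Metric Filter Topology
open scoped RealInnerProductSpace

namespace Chk

lemma atF_zero (L : List Tri) (Ls : List (List Tri)) : atF (L :: Ls) 0 = L := rfl
lemma atF_succ (L : List Tri) (Ls : List (List Tri)) (i : ℕ) :
    atF (L :: Ls) (i + 1) = atF Ls i := rfl

lemma facesOK_sound {W c : ℤ} {F : List (List Tri)} {A : ℕ} {V : Tri} :
    ∀ {Ls : List (List Tri)} {hs : List FH} {f0 : ℕ}, facesOK W c F A V f0 Ls hs = true →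
      ∀ i, i < Ls.length → ∃ h, faceOK W c F A V (f0 + i) (atF Ls i) h = true
  | [], _, _, _, i, hi => by simp at hi
  | _ :: _, [], _, h, _, _ => by simp [facesOK] at h
  | L :: Ls, h :: hs, f0, hk, i, hi => by
    simp only [facesOK, Bool.and_eq_true] at hk
    match i with
    | 0 => exact ⟨h, hk.1⟩
    | i + 1 =>
      obtain ⟨h', hh⟩ := facesOK_sound hk.2 i (by simpa using hi)
      refine ⟨h', ?_⟩
      rw [atF_succ, show f0 + (i + 1) = f0 + 1 + i by ring]
      exact hh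

lemma vertsOK_sound {W c : ℤ} {F : List (List Tri)} :
    ∀ {hs : List (List ℕ)} {j0 : ℕ}, vertsOK W c F j0 hs = true →
      ∀ j, j0 ≤ j → j < 12 → ∃ h, vertOK W c F j h = true
  | [], j0, h, j, h1, h2 => by
    simp only [vertsOK] at h
    rw [Nat.beq_eq] at h
    omega
  | h :: hs, j0, hk, j, h1, h2 => by
    simp only [vertsOK, Bool.and_eq_true] at hk
    rcases h1.lt_or_eq with h3 | h3
    · exact vertsOK_sound hk.2 j h3 h2
    · subst h3; exact ⟨h, hk.1⟩

/-- relation checked for pairs of images at a vertex -/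
def VR (W : ℤ) (fs : List ℕ) (Z : List Zt) (x y : Zt) : Prop :=
  ¬ (sub x.2.2 y.2.2 = (0, 0, 0)) ∨ (y.1 ∈ nbN x.1 ∧ isU W x.1 y.1 x.2.1 y.2.1 = true) ∨
    ∃ a, runT (vtest0 W fs Z x y) (vtest W fs Z x y) a = true

lemma zer3_iff' {a : V3} : zer3 a = true ↔ a = (0, 0, 0) := by
  rw [zer3_iff]
  constructor
  · rintro ⟨h1, h2, h3⟩; exact Prod.ext h1 (Prod.ext h2 h3)
  · rintro rfl; exact ⟨rfl, rfl, rfl⟩

lemma vin_sound {W : ℤ} {fs : List ℕ} {Z : List Zt} {x : Zt} :
    ∀ {l : List Zt} {h h' : List ℕ}, vin W fs Z x l h = some h' → ∀ y ∈ l, VR W fs Z x y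
  | [], _, _, _, y, hy => by simp at hy
  | y :: l, h, h', hk, z, hz => by
    unfold vin at hk
    cases h1 : zer3 (sub x.2.2 y.2.2) with
    | false =>
      rw [h1] at hk
      simp only [cond_false] at hk
      rcases List.mem_cons.1 hz with rfl | hz
      · left
        intro h2
        rw [← zer3_iff', h1] at h2
        exact absurd h2 (by decide)
      · exact vin_sound hk z hz
    | true =>
      rw [h1] at hk
      simp only [cond_true] at hk
      cases h2 : (memN y.1 (nbN x.1) && isU W x.1 y.1 x.2.1 y.2.1) with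
      | true =>
        rw [h2] at hk
        simp only [cond_true] at hk
        rcases List.mem_cons.1 hz with rfl | hz
        · right; left
          rw [Bool.and_eq_true, memN_iff] at h2
          exact h2
        · exact vin_sound hk z hz
      | false =>
        rw [h2] at hk
        simp only [cond_false] at hk
        match h with
        | [] => simp at hk
        | a :: h3 =>
          simp only at hk
          cases h4 : runT (vtest0 W fs Z x y) (vtest W fs Z x y) a with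
          | false => rw [h4] at hk; simp at hk
          | true =>
            rw [h4] at hk
            simp only [cond_true] at hk
            rcases List.mem_cons.1 hz with rfl | hz
            · right; right; exact ⟨a, h4⟩
            · exact vin_sound hk z hz

lemma vout_sound {W : ℤ} {fs : List ℕ} {Z : List Zt} :
    ∀ {l : List Zt} {h : List ℕ}, vout W fs Z l h = true → l.Pairwise (VR W fs Z)
  | [], _, _ => List.Pairwise.nil
  | x :: l, h, hk => by
    rw [vout] at hk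
    cases h1 : vin W fs Z x l h with
    | none => rw [h1] at hk; simp at hk
    | some h' =>
      rw [h1] at hk
      exact List.Pairwise.cons (fun y hy => vin_sound h1 y hy) (vout_sound hk)

lemma mem_zlist {c : ℤ} {j : ℕ} {F : List (List Tri)} {z : Zt} :
    ∀ {fs : List ℕ}, z ∈ zlist c j F fs ↔ z.1 ∈ fs ∧ z.2.1 ∈ atF F z.1 ∧ z.2.2 = dq3 c j z.2.1
  | [] => by simp [zlist]
  | f :: fs => by
    rw [zlist, List.mem_append, mem_zlist (fs := fs), List.mem_map, List.mem_cons]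
    constructor
    · rintro (⟨T, hT, rfl⟩ | ⟨h1, h2⟩)
      · exact ⟨Or.inl rfl, hT, rfl⟩
      · exact ⟨Or.inr h1, h2⟩
    · rintro ⟨h1 | h1, h2, h3⟩
      · left
        refine ⟨z.2.1, by rw [← h1]; exact h2, ?_⟩
        exact Prod.ext h1.symm (Prod.ext rfl h3.symm)
      · exact Or.inr ⟨h1, h2, h3⟩

lemma blt_lt {a b : ℕ} (h : Nat.blt a b = true) : a < b := by rwa [Nat.blt_eq] at h

lemma ge3_iff {a b : V3} : ge3 a b = true ↔ b.1 ≤ a.1 ∧ b.2.1 ≤ a.2.1 ∧ b.2.2 ≤ a.2.2 := by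
  simp only [ge3, Bool.and_eq_true, npos_iff, sub_nonpos, and_assoc]

lemma gtany_iff {a b : V3} : gtany a b = true ↔ b.1 < a.1 ∨ b.2.1 < a.2.1 ∨ b.2.2 < a.2.2 := by
  simp only [gtany, Bool.or_eq_true, neg_iff, sub_neg, or_assoc]

end Chk

lemma dist_eq_of_nsq {W : ℤ} {P R P' R' : Z3}
    (h : Chk.nsq (Chk.sub P R) = Chk.nsq (Chk.sub P' R')) :
    dist (toE W P) (toE W R) = dist (toE W P') (toE W R') := by
  have h1 := dist_toE W P R
  have h2 := dist_toE W P' R'
  rw [h, ← h2] at h1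
  exact (pow_left_inj₀ dist_nonneg dist_nonneg two_ne_zero).1 h1

lemma fin8_mem : ∀ g : Fin 8, g.val ∈ [0, 1, 2, 3, 4, 5, 6, 7] := by decide

section
variable {W c : ℤ} {A : Fin 8} {V : Chk.Tri} {F : List (List Chk.Tri)}

lemma lin_case {T : Chk.Tri} (hW : 0 < W) {e : ℕ} (he : e < 8) {l : Fin 3 → ℝ}
    (h : Chk.lf (Chk.S3 W e T) l < 0) : ∃ g : Fin 8, g.val = e ∧ Q0.ls g (tri W T) l < 0 :=
  ⟨⟨e, he⟩, rfl, ls_neg hW ⟨e, he⟩ T h⟩

lemma zero_sound (hW : 0 < W) {f : Fin 8} {T : Chk.Tri} {h : ℕ}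
    (hz : Chk.zeroOK W A.val V f.val T h = true) :
    (f = A ∧ tri W T = tri W V) ∨ ∀ l : Fin 3 → ℝ, (∀ i, 0 < l i) →
      ∃ g, Q0.ls g (tri W T) l < 0 := by
  rw [Chk.zeroOK, Bool.or_eq_true] at hz
  rcases hz with hz | hz
  · left
    rw [Bool.and_eq_true, Nat.beq_eq] at hz
    exact ⟨Fin.ext hz.1, by rw [eqT_sound hz.2]⟩
  · right
    refine Chk.runT_sound (P := fun l => ∃ g, Q0.ls g (tri W T) l < 0) ?_ ?_ hz
    · intro e he l hl
      rw [Bool.and_eq_true] at he
      have h8 : e < 8 := Chk.blt_lt he.1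
      obtain ⟨g, -, hg⟩ := lin_case hW h8 (Chk.lin0_sound he.2 hl)
      exact ⟨g, hg⟩
    · intro e C he l hC hl
      rw [Bool.and_eq_true] at he
      have h8 : e < 8 := Chk.blt_lt he.1
      obtain ⟨g, -, hg⟩ := lin_case hW h8 (Chk.linT_sound he.2 hC hl)
      exact ⟨g, hg⟩

lemma pair_sound (hW : 0 < W) {f : Fin 8} {T T' : Chk.Tri} {h : ℕ}
    (hp : Chk.pairOK W (Chk.atF F f.val) T T' h = true) {l : Fin 3 → ℝ} (hl : ∀ i, 0 < l i) :
    (∃ g, Q0.ls g (tri W T) l + Q0.ls g (tri W T') l < 0) ∨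
    ∃ T'' ∈ NdF W F f, ⟪ev (tri W T) l - ev T'' l, ev (tri W T') l - ev T'' l⟫ < 0 := by
  have hW2 : (0:ℝ) < (W:ℝ) ^ 2 := by
    have : (0:ℝ) < W := by exact_mod_cast hW
    positivity
  rw [Chk.pairOK] at hp
  refine Chk.runT_sound (P := fun l => (∃ g, Q0.ls g (tri W T) l + Q0.ls g (tri W T') l < 0) ∨
    ∃ T'' ∈ NdF W F f, ⟪ev (tri W T) l - ev T'' l, ev (tri W T') l - ev T'' l⟫ < 0)
    ?_ ?_ hp l hl
  · intro e he l hl
    cases hb : Nat.blt e 8 with
    | true =>
      rw [hb] at he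
      simp only [cond_true] at he
      left
      exact ⟨⟨e, Chk.blt_lt hb⟩, ls_add_neg hW _ T T' (Chk.lin0_sound he hl)⟩
    | false =>
      rw [hb] at he
      simp only [cond_false] at he
      right
      cases hn : Chk.nth (Chk.atF F f.val) (e - 8) with
      | none => rw [hn] at he; simp at he
      | some T'' =>
        rw [hn] at he
        refine ⟨tri W T'', mem_NdF.2 ⟨T'', Chk.nth_mem hn, rfl⟩, ?_⟩
        rw [ev_sub_inner]
        exact div_neg_of_neg_of_pos (Chk.quad0_sound he hl) hW2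
  · intro e C he l hC hl
    cases hb : Nat.blt e 8 with
    | true =>
      rw [hb] at he
      simp only [cond_true] at he
      left
      exact ⟨⟨e, Chk.blt_lt hb⟩, ls_add_neg hW _ T T' (Chk.linT_sound he hC hl)⟩
    | false =>
      rw [hb] at he
      simp only [cond_false] at he
      right
      cases hn : Chk.nth (Chk.atF F f.val) (e - 8) with
      | none => rw [hn] at he; simp at he
      | some T'' =>
        rw [hn] at he
        refine ⟨tri W T'', mem_NdF.2 ⟨T'', Chk.nth_mem hn, rfl⟩, ?_⟩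
        rw [ev_sub_inner]
        exact div_neg_of_neg_of_pos (Chk.quadT_sound he hC hl) hW2

lemma edge_sound (hW : 0 < W) (hc : W = c * W0) {f g : Fin 8} (hadj : Q0.adj f g)
    {T : Chk.Tri} {h : ℕ} (he : Chk.edgeOK W c F f.val T g.val h = true) :
    (fun v => Q0.U f g (tri W T v)) ∈ NdF W F g ∨
    ∃ T' ∈ NdF W F f, (∀ v, dist (Q0.a f g) (T' v) ≤ dist (Q0.a f g) (tri W T v) ∧
      dist (Q0.b f g) (T' v) ≤ dist (Q0.b f g) (tri W T v)) ∧
      ((∃ v, dist (Q0.a f g) (T' v) < dist (Q0.a f g) (tri W T v)) ∨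
        ∃ v, dist (Q0.b f g) (T' v) < dist (Q0.b f g) (tri W T v)) := by
  rw [Chk.edgeOK] at he
  cases hb : Nat.blt h 64 with
  | true =>
    rw [hb] at he
    simp only [cond_true] at he
    left
    cases hn : Chk.nth (Chk.atF F g.val) h with
    | none => rw [hn] at he; simp at he
    | some T' =>
      rw [hn] at he
      rw [← isU_sound hW hadj he]
      exact mem_NdF.2 ⟨T', Chk.nth_mem hn, rfl⟩
  | false =>
    rw [hb] at he
    simp only [cond_false] at he
    right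
    cases hn : Chk.nth (Chk.atF F f.val) (h - 64) with
    | none => rw [hn] at he; simp at he
    | some T' =>
      rw [hn] at he
      refine ⟨tri W T', mem_NdF.2 ⟨T', Chk.nth_mem hn, rfl⟩, ?_⟩
      have ha : Q0.a f g = toE W0 (Chk.YN (Chk.aN f.val g.val)) := by
        show toE W0 (YT (aT f g)) = _
        rw [aT_eq f g hadj]
      have hb' : Q0.b f g = toE W0 (Chk.YN (Chk.bN f.val g.val)) := by
        show toE W0 (YT (bT f g)) = _
        rw [bT_eq f g hadj]
      rw [ha, hb']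
      simp only [Chk.dom, Bool.and_eq_true, Bool.or_eq_true, Chk.ge3_iff, Chk.gtany_iff] at he
      obtain ⟨⟨⟨a0, a1, a2⟩, b0, b1, b2⟩, hs⟩ := he
      refine ⟨fun v => ?_, ?_⟩
      · fin_cases v
        · exact ⟨(dist_le_iff hW hc _ _ _).2 a0, (dist_le_iff hW hc _ _ _).2 b0⟩
        · exact ⟨(dist_le_iff hW hc _ _ _).2 a1, (dist_le_iff hW hc _ _ _).2 b1⟩
        · exact ⟨(dist_le_iff hW hc _ _ _).2 a2, (dist_le_iff hW hc _ _ _).2 b2⟩
      · rcases hs with (h1 | h1 | h1) | (h1 | h1 | h1)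
        · exact Or.inl ⟨0, (dist_lt_iff hW hc _ _ _).2 h1⟩
        · exact Or.inl ⟨1, (dist_lt_iff hW hc _ _ _).2 h1⟩
        · exact Or.inl ⟨2, (dist_lt_iff hW hc _ _ _).2 h1⟩
        · exact Or.inr ⟨0, (dist_lt_iff hW hc _ _ _).2 h1⟩
        · exact Or.inr ⟨1, (dist_lt_iff hW hc _ _ _).2 h1⟩
        · exact Or.inr ⟨2, (dist_lt_iff hW hc _ _ _).2 h1⟩

/-- conclusion of a vertex tree -/
lemma vtree_sound (hW : 0 < W) (hc : W = c * W0) {j : Fin 12} {x y : Chk.Zt} {a : ℕ}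
    (hx : x.2.2 = Chk.dq3 c j.val x.2.1)
    (h : Chk.runT (Chk.vtest0 W (Chk.vfN j.val) (Chk.zlist c j.val F (Chk.vfN j.val)) x y)
      (Chk.vtest W (Chk.vfN j.val) (Chk.zlist c j.val F (Chk.vfN j.val)) x y) a = true)
    (hfv : ∀ k ∈ Chk.vfN j.val, k < 8)
    {l : Fin 3 → ℝ} (hl : ∀ i, 0 < l i) :
    (∃ k : Fin 8, k.val ∈ Chk.vfN j.val ∧
      (Q0.ls k (tri W x.2.1) l < 0 ∨ Q0.ls k (tri W y.2.1) l < 0)) ∨
    ∃ k : Fin 8, k.val ∈ Chk.vfN j.val ∧ ∃ T'' ∈ NdF W F k,
      SPoly.ld (toE W0 (Chk.YN j.val)) T'' (tri W x.2.1) l < 0 := by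
  have hW2 : (0:ℝ) < (W:ℝ) ^ 2 := by
    have : (0:ℝ) < W := by exact_mod_cast hW
    positivity
  refine Chk.runT_sound (P := fun l => (∃ k : Fin 8, k.val ∈ Chk.vfN j.val ∧
      (Q0.ls k (tri W x.2.1) l < 0 ∨ Q0.ls k (tri W y.2.1) l < 0)) ∨
    ∃ k : Fin 8, k.val ∈ Chk.vfN j.val ∧ ∃ T'' ∈ NdF W F k,
      SPoly.ld (toE W0 (Chk.YN j.val)) T'' (tri W x.2.1) l < 0) ?_ ?_ h l hl
  · intro e he l hl
    rw [Chk.vtest0] at he
    cases hb : Nat.blt e 8 with
    | true =>
      rw [hb] at he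
      simp only [cond_true, Bool.and_eq_true, Chk.memN_iff] at he
      obtain ⟨g, hg, hg'⟩ := lin_case hW (Chk.blt_lt hb) (Chk.lin0_sound he.2 hl)
      exact Or.inl ⟨g, by rw [hg]; exact he.1, Or.inl hg'⟩
    | false =>
      rw [hb] at he
      simp only [cond_false] at he
      cases hb2 : Nat.blt e 16 with
      | true =>
        rw [hb2] at he
        simp only [cond_true, Bool.and_eq_true, Chk.memN_iff] at he
        obtain ⟨g, hg, hg'⟩ := lin_case hW (hfv _ he.1) (Chk.lin0_sound he.2 hl)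
        exact Or.inl ⟨g, by rw [hg]; exact he.1, Or.inr hg'⟩
      | false =>
        rw [hb2] at he
        simp only [cond_false] at he
        cases hn : Chk.nth (Chk.zlist c j.val F (Chk.vfN j.val)) (e - 16) with
        | none => rw [hn] at he; simp at he
        | some z =>
          rw [hn] at he
          obtain ⟨z1, z2, z3⟩ := Chk.mem_zlist.1 (Chk.nth_mem hn)
          right
          refine ⟨⟨z.1, hfv _ z1⟩, z1, tri W z.2.1, mem_NdF.2 ⟨_, z2, rfl⟩, ?_⟩
          rw [ld_tri hW hc, ← z3, ← hx]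
          exact div_neg_of_neg_of_pos (Chk.lin0_sound he hl) hW2
  · intro e C he l hC hl
    rw [Chk.vtest] at he
    cases hb : Nat.blt e 8 with
    | true =>
      rw [hb] at he
      simp only [cond_true, Bool.and_eq_true, Chk.memN_iff] at he
      obtain ⟨g, hg, hg'⟩ := lin_case hW (Chk.blt_lt hb) (Chk.linT_sound he.2 hC hl)
      exact Or.inl ⟨g, by rw [hg]; exact he.1, Or.inl hg'⟩
    | false =>
      rw [hb] at he
      simp only [cond_false] at he
      cases hb2 : Nat.blt e 16 with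
      | true =>
        rw [hb2] at he
        simp only [cond_true, Bool.and_eq_true, Chk.memN_iff] at he
        obtain ⟨g, hg, hg'⟩ := lin_case hW (hfv _ he.1) (Chk.linT_sound he.2 hC hl)
        exact Or.inl ⟨g, by rw [hg]; exact he.1, Or.inr hg'⟩
      | false =>
        rw [hb2] at he
        simp only [cond_false] at he
        cases hn : Chk.nth (Chk.zlist c j.val F (Chk.vfN j.val)) (e - 16) with
        | none => rw [hn] at he; simp at he
        | some z =>
          rw [hn] at he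
          obtain ⟨z1, z2, z3⟩ := Chk.mem_zlist.1 (Chk.nth_mem hn)
          right
          refine ⟨⟨z.1, hfv _ z1⟩, z1, tri W z.2.1, mem_NdF.2 ⟨_, z2, rfl⟩, ?_⟩
          rw [ld_tri hW hc, ← z3, ← hx]
          exact div_neg_of_neg_of_pos (Chk.linT_sound he hC hl) hW2

lemma vf_lt : ∀ j : Fin 12, ∀ k ∈ Chk.vfN j.val, k < 8 := by decide +kernel

theorem cell_sound {hf : List Chk.FH} {hv : List (List ℕ)}
    (h : Chk.cellOK W c A.val V F hf hv = true) : SPoly.Cell Q0 A (tri W V) (NdF W F) := by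
  simp only [Chk.cellOK, Bool.and_eq_true, Chk.neg_iff, Chk.zer_iff] at h
  obtain ⟨⟨⟨⟨⟨hW', hc'⟩, hlen'⟩, hsrc⟩, hfaces⟩, hverts⟩ := h
  have hW : 0 < W := by omega
  have hc : W = c * W0 := by
    have : W0 = 27450179185228800 := rfl
    rw [this]; linarith
  have hlen : F.length = 8 := Nat.eq_of_beq_eq_true hlen'
  have face : ∀ f : Fin 8, ∃ h, Chk.faceOK W c F A.val V f.val (Chk.atF F f.val) h = true := by
    intro f
    have := Chk.facesOK_sound hfaces f.val (by rw [hlen]; exact f.isLt)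
    rwa [zero_add] at this
  have fne : ∀ f : Fin 8, Chk.atF F f.val ≠ [] := by
    intro f h0
    obtain ⟨h, hh⟩ := face f
    rw [h0] at hh
    simp [Chk.faceOK] at hh
  have fnode : ∀ f : Fin 8, ∀ T ∈ Chk.atF F f.val, ∃ h,
      Chk.nodeOK W c F A.val V f.val T h = true := by
    intro f T hT
    obtain ⟨h, hh⟩ := face f
    unfold Chk.faceOK at hh
    rw [Bool.and_eq_true, Bool.and_eq_true] at hh
    exact Chk.all2_sound hh.1.2 T hT
  have fpair : ∀ f : Fin 8, (Chk.atF F f.val).Pairwise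
      fun a b => ∃ h, Chk.pairOK W (Chk.atF F f.val) a b h = true := by
    intro f
    obtain ⟨h, hh⟩ := face f
    unfold Chk.faceOK at hh
    rw [Bool.and_eq_true, Bool.and_eq_true] at hh
    exact Chk.pairs2_sound hh.2
  have hplane : ∀ f : Fin 8, ∀ T ∈ Chk.atF F f.val, ∀ v, Q0.sl f (tri W T v) = 0 := by
    intro f T hT v
    obtain ⟨h, hh⟩ := fnode f T hT
    simp only [Chk.nodeOK, Bool.and_eq_true] at hh
    have h3 := Chk.zer3_iff.1 hh.1.1.1.1
    fin_cases v
    · exact (sl_zero_iff hW f _).2 h3.1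
    · exact (sl_zero_iff hW f _).2 h3.2.1
    · exact (sl_zero_iff hW f _).2 h3.2.2
  simp only [Chk.srcOK, Bool.and_eq_true, List.all_eq_true, List.any_eq_true] at hsrc
  obtain ⟨⟨hs1, hs2⟩, hs3⟩ := hsrc
  have hs2' := Chk.zer3_iff.1 hs2
  have hge : ∀ g : Fin 8, 0 ≤ Chk.S W g.val V.1 ∧ 0 ≤ Chk.S W g.val V.2.1 ∧
      0 ≤ Chk.S W g.val V.2.2 := fun g => Chk.ge3_iff.1 (hs3 g.val (fin8_mem g)).1
  refine ⟨?_, ?_, ?_, ?_, ?_, ?_, ?_, ?_, ?_, ?_, ?_⟩
  · -- ne
    intro f h0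
    unfold NdF at h0
    exact fne f (List.map_eq_nil_iff.1 h0)
  · -- plane
    intro f T₀ hT₀ v
    obtain ⟨T, hT, rfl⟩ := mem_NdF.1 hT₀
    exact hplane f T hT v
  · -- cong
    intro f T₀ hT₀ v w
    obtain ⟨T, hT, rfl⟩ := mem_NdF.1 hT₀
    obtain ⟨h, hh⟩ := fnode f T hT
    simp only [Chk.nodeOK, Bool.and_eq_true] at hh
    have h3 := Chk.zer3_iff.1 hh.1.1.1.2
    simp only [Chk.sub, Chk.lens] at h3
    have e01 := dist_eq_of_nsq (W := W) (sub_eq_zero.1 h3.1)
    have e02 := dist_eq_of_nsq (W := W) (sub_eq_zero.1 h3.2.1)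
    have e12 := dist_eq_of_nsq (W := W) (sub_eq_zero.1 h3.2.2)
    fin_cases v <;> fin_cases w
    · simp
    · exact e01
    · exact e02
    · show dist (toE W T.2.1) (toE W T.1) = dist (toE W V.2.1) (toE W V.1)
      rw [dist_comm, e01, dist_comm]
    · simp
    · exact e12
    · show dist (toE W T.2.2) (toE W T.1) = dist (toE W V.2.2) (toE W V.1)
      rw [dist_comm, e02, dist_comm]
    · show dist (toE W T.2.2) (toE W T.2.1) = dist (toE W V.2.2) (toE W V.2.1)
      rw [dist_comm, e12, dist_comm]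
    · simp
  · -- srcA
    intro v
    fin_cases v
    · exact ⟨fun g => (sl_nonneg_iff hW g _).2 (hge g).1, (sl_zero_iff hW A _).2 hs2'.1⟩
    · exact ⟨fun g => (sl_nonneg_iff hW g _).2 (hge g).2.1, (sl_zero_iff hW A _).2 hs2'.2.1⟩
    · exact ⟨fun g => (sl_nonneg_iff hW g _).2 (hge g).2.2, (sl_zero_iff hW A _).2 hs2'.2.2⟩
  · -- only
    intro g hg
    have h1 := (hs3 g.val (fin8_mem g)).2
    rw [Bool.or_eq_true] at h1
    rcases h1 with h1 | h1
    · exact absurd (Fin.ext (Nat.eq_of_beq_eq_true h1)) hg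
    · rcases Chk.gtany_iff.1 h1 with h2 | h2 | h2
      · exact ⟨0, (sl_pos_iff hW g _).2 h2⟩
      · exact ⟨1, (sl_pos_iff hW g _).2 h2⟩
      · exact ⟨2, (sl_pos_iff hW g _).2 h2⟩
  · -- src
    obtain ⟨T, hT, he⟩ := hs1
    rw [eqT_sound he] at hT
    exact mem_NdF.2 ⟨V, hT, rfl⟩
  · -- zero
    intro f T₀ hT₀
    obtain ⟨T, hT, rfl⟩ := mem_NdF.1 hT₀
    obtain ⟨h, hh⟩ := fnode f T hT
    simp only [Chk.nodeOK, Bool.and_eq_true] at hh
    exact zero_sound hW hh.1.2
  · -- edge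
    intro f g hadj T₀ hT₀
    obtain ⟨T, hT, rfl⟩ := mem_NdF.1 hT₀
    obtain ⟨h, hh⟩ := fnode f T hT
    simp only [Chk.nodeOK, Bool.and_eq_true] at hh
    obtain ⟨b, hb⟩ := Chk.all2_sound hh.2 g.val ((nb_eq f g).1 hadj)
    exact edge_sound hW hc hadj hb
  · -- sad
    intro f T₀ hT₀ T₁ hT₁ hne l hl
    obtain ⟨T, hT, rfl⟩ := mem_NdF.1 hT₀
    obtain ⟨T', hT', rfl⟩ := mem_NdF.1 hT₁
    have hne' : T ≠ T' := by rintro rfl; exact hne rfl
    have hsym : ∀ a ∈ Chk.atF F f.val, ∀ b ∈ Chk.atF F f.val, a ≠ b →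
        (∃ h, Chk.pairOK W (Chk.atF F f.val) a b h = true) ∨
        (∃ h, Chk.pairOK W (Chk.atF F f.val) b a h = true) := by
      have hp : (Chk.atF F f.val).Pairwise fun a b =>
          (∃ h, Chk.pairOK W (Chk.atF F f.val) a b h = true) ∨
          (∃ h, Chk.pairOK W (Chk.atF F f.val) b a h = true) :=
        (fpair f).imp fun h => Or.inl h
      intro a ha b hb hab
      have hs : Std.Symm fun a b : Chk.Tri =>
          (∃ h, Chk.pairOK W (Chk.atF F f.val) a b h = true) ∨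
          (∃ h, Chk.pairOK W (Chk.atF F f.val) b a h = true) := ⟨fun a b h => h.symm⟩
      exact hp.forall ha hb hab
    rcases hsym T hT T' hT' hne' with ⟨h, hh⟩ | ⟨h, hh⟩
    · exact pair_sound hW hh hl
    · rcases pair_sound hW hh hl with ⟨g, hg⟩ | ⟨T'', hT'', hg⟩
      · left; exact ⟨g, by rw [add_comm]; exact hg⟩
      · right; exact ⟨T'', hT'', by rw [real_inner_comm]; exact hg⟩
  · -- vgen
    intro f g hadj T₀ hT₀
    obtain ⟨T, hT, rfl⟩ := mem_NdF.1 hT₀
    obtain ⟨h, hh⟩ := fnode f T hT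
    simp only [Chk.nodeOK, Bool.and_eq_true, List.all_eq_true] at hh
    have h1 := hh.1.1.2 g.val ((nb_eq f g).1 hadj)
    rw [Bool.not_eq_true', Bool.eq_false_iff] at h1
    by_contra hcon
    push Not at hcon
    apply h1
    rw [Chk.zer3_iff]
    exact ⟨(sl_zero_iff hW g _).1 (hcon 0), (sl_zero_iff hW g _).1 (hcon 1),
      (sl_zero_iff hW g _).1 (hcon 2)⟩
  · -- vuniq
    intro y f g hy hyf hyg T₀ hT₀ T₁ hT₁
    obtain ⟨j, rfl⟩ := vert_Q0 hy
    rw [mem_face_Y] at hyf hyg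
    rw [vf_eq] at hyf hyg
    obtain ⟨T, hT, rfl⟩ := mem_NdF.1 hT₀
    obtain ⟨T', hT', rfl⟩ := mem_NdF.1 hT₁
    obtain ⟨h, hh⟩ := Chk.vertsOK_sound hverts j.val (Nat.zero_le _) j.isLt
    rw [Chk.vertOK] at hh
    have hP := Chk.vout_sound hh
    set Z := Chk.zlist c j.val F (Chk.vfN j.val) with hZ
    set x1 : Chk.Zt := (f.val, T, Chk.dq3 c j.val T) with hx1
    set x2 : Chk.Zt := (g.val, T', Chk.dq3 c j.val T') with hx2
    have m1 : x1 ∈ Z := Chk.mem_zlist.2 ⟨hyf, hT, rfl⟩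
    have m2 : x2 ∈ Z := Chk.mem_zlist.2 ⟨hyg, hT', rfl⟩
    rw [YT_eq]
    by_cases hxe : x1 = x2
    · left
      have e1 : f.val = g.val := congrArg (fun z : Chk.Zt => z.1) hxe
      have e2 : T = T' := congrArg (fun z : Chk.Zt => z.2.1) hxe
      exact ⟨Fin.ext e1, by rw [e2]⟩
    right
    by_cases hd : ∃ v, dist (toE W0 (Chk.YN j.val)) (tri W T v)
        ≠ dist (toE W0 (Chk.YN j.val)) (tri W T' v)
    · exact Or.inl hd
    right
    push Not at hd
    have hdq : Chk.sub (Chk.dq3 c j.val T) (Chk.dq3 c j.val T') = (0, 0, 0) := by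
      have d0 := (dist_eq_iff hW hc j.val T.1 T'.1).1 (hd 0)
      have d1 := (dist_eq_iff hW hc j.val T.2.1 T'.2.1).1 (hd 1)
      have d2 := (dist_eq_iff hW hc j.val T.2.2 T'.2.2).1 (hd 2)
      simp only [Chk.sub, Chk.dq3, d0, d1, d2, sub_self]
    have hdq' : Chk.sub (Chk.dq3 c j.val T') (Chk.dq3 c j.val T) = (0, 0, 0) := by
      have d0 := (dist_eq_iff hW hc j.val T.1 T'.1).1 (hd 0)
      have d1 := (dist_eq_iff hW hc j.val T.2.1 T'.2.1).1 (hd 1)
      have d2 := (dist_eq_iff hW hc j.val T.2.2 T'.2.2).1 (hd 2)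
      simp only [Chk.sub, Chk.dq3, d0, d1, d2, sub_self]
    have hface : ∀ k : Fin 8, k.val ∈ Chk.vfN j.val → toE W0 (Chk.YN j.val) ∈ Q0.face k := by
      intro k hk
      rw [← YT_eq]
      exact (mem_face_Y j k).2 ((vf_eq j k).2 hk)
    have hsym : Chk.VR W (Chk.vfN j.val) Z x1 x2 ∨ Chk.VR W (Chk.vfN j.val) Z x2 x1 := by
      have hp : Z.Pairwise fun a b => Chk.VR W (Chk.vfN j.val) Z a b ∨
          Chk.VR W (Chk.vfN j.val) Z b a := hP.imp fun h => Or.inl h
      have hs : Std.Symm fun a b : Chk.Zt => Chk.VR W (Chk.vfN j.val) Z a b ∨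
          Chk.VR W (Chk.vfN j.val) Z b a := ⟨fun a b h => h.symm⟩
      exact hp.forall m1 m2 hxe
    rcases hsym with (h1 | ⟨h1, h2⟩ | ⟨a, h1⟩) | (h1 | ⟨h1, h2⟩ | ⟨a, h1⟩)
    · exact absurd hdq h1
    · left
      have hadj : Q0.adj f g := (nb_eq f g).2 h1
      exact ⟨hadj, isU_sound hW hadj h2⟩
    · right
      intro l hl
      rcases vtree_sound hW hc rfl h1 (vf_lt j) hl with ⟨k, hk, h3⟩ | ⟨k, hk, T'', hT'', h3⟩
      · exact Or.inl ⟨k, hface k hk, h3⟩
      · exact Or.inr ⟨k, hface k hk, T'', hT'', h3⟩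
    · exact absurd hdq' h1
    · left
      have hadj : Q0.adj g f := (nb_eq g f).2 h1
      have hadj' := Q0.adj_symm g f hadj
      refine ⟨hadj', ?_⟩
      rw [isU_sound hW hadj h2]
      funext v
      show tri W T' v = Q0.U f g (Q0.U g f (tri W T' v))
      exact (SPoly.U_U hadj (hplane g T' hT' v)).symm
    · right
      intro l hl
      rcases vtree_sound hW hc rfl h1 (vf_lt j) hl with ⟨k, hk, h3⟩ | ⟨k, hk, T'', hT'', h3⟩
      · exact Or.inl ⟨k, hface k hk, h3.symm⟩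
      · refine Or.inr ⟨k, hface k hk, T'', hT'', ?_⟩
        unfold SPoly.ld at h3 ⊢
        rw [hd 0, hd 1, hd 2]
        exact h3

end

end Pool.Agent.Lib.MP_dd45e6_gt
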