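import Pool.Agent.Lib.MP_dd45e6_gt.Cyc

/-! Integer tables of the polytope: eight faces `⟪uT f, x⟫ / pT f ≤ KT f / pT f`,
twelve vertices `YT j / W0`. -/

namespace Pool.Agent.Lib.MP_dd45e6_gt
open Set Metric Filter Topology
open scoped RealInnerProductSpace

/-- integer vectors -/
abbrev Z3 := ℤ × ℤ × ℤ

/-- the point `P / W` -/
noncomputable def toE (W : ℤ) (P : Z3) : E :=
  WithLp.toLp 2 ![(P.1 : ℝ) / W, (P.2.1 : ℝ) / W, (P.2.2 : ℝ) / W]

def uT : Fin 8 → Z3 := ![(-1, -2, -2), (1, 2, 2), (-11, 2, 10), (24, -11, 12), (2, 9, -6),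
  (11, -2, -10), (-24, 12, -11), (-2, -9, 6)]
def pT : Fin 8 → ℤ := ![3, 3, 15, 29, 11, 15, 29, 11]
def KT : Fin 8 → ℤ := ![220, 264, 879, 1699, 644, 1604, 3102, 1177]
def W0 : ℤ := 27450179185228800
def YT : Fin 12 → Z3 := ![
  (-3226619608762950400, -337248858420073600, -1068961047573619200),
  (-2057253679036972416, -2675980717872029568, 685087847015347776),
  (1916365634368785600, -2103369980068156800, -1874332547491404000),
  (216321671812945920, -3433839168155335680, 306158621873694720),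
  (1055184887880195072, -381008487090975744, -3166103667224289792),
  (-2010542041317089280, 640900489308119040, -2655149179024742400),
  (593127602199582450, 326935923186572700, 2999923928163837675),
  (-668823615848099712, 2850838359281937024, 1106997101092314432),
  (2477859940842224640, 1801943840385162240, 582549841643927040),
  (-184308345957964800, -1831319097071692800, 2576395389242188800),
  (-2253733117000780800, 2136075250918963200, -493450728503040000),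
  (2824155282177715200, 416762475043200000, -1379790425923852800)]
/-- the three faces at every vertex -/
def vfT : Fin 12 → List (Fin 8) := ![[0, 2, 6], [0, 2, 7], [0, 3, 5], [0, 3, 7], [0, 4, 5],
  [0, 4, 6], [1, 2, 3], [1, 2, 4], [1, 3, 4], [2, 3, 7], [2, 4, 6], [3, 4, 5]]
/-- neighbours of every face -/
def nbT : Fin 8 → List (Fin 8) := ![[2, 3, 4, 5, 6, 7], [2, 3, 4], [0, 1, 3, 4, 6, 7],
  [0, 1, 2, 4, 5, 7], [0, 1, 2, 3, 5, 6], [0, 3, 4], [0, 2, 4], [0, 2, 3]]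
/-- end points of the edges -/
def aT : Fin 8 → Fin 8 → Fin 12 := ![![0, 0, 0, 2, 4, 2, 0, 1],
  ![0, 0, 6, 6, 7, 0, 0, 0],
  ![0, 6, 0, 6, 7, 0, 0, 1],
  ![2, 6, 6, 0, 8, 2, 0, 3],
  ![4, 7, 7, 8, 0, 4, 5, 0],
  ![2, 0, 0, 2, 4, 0, 0, 0],
  ![0, 0, 0, 0, 5, 0, 0, 0],
  ![1, 0, 1, 3, 0, 0, 0, 0]]
def bT : Fin 8 → Fin 8 → Fin 12 := ![![0, 0, 1, 3, 5, 4, 5, 3],
  ![0, 0, 7, 8, 8, 0, 0, 0],
  ![1, 7, 0, 9, 10, 0, 10, 9],
  ![3, 8, 9, 0, 11, 11, 0, 9],
  ![5, 8, 10, 11, 0, 11, 10, 0],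
  ![4, 0, 0, 11, 11, 0, 0, 0],
  ![5, 0, 10, 0, 10, 0, 0, 0],
  ![3, 0, 9, 9, 0, 0, 0, 0]]

/-- cyclic order of the vertices of the hexagonal faces `0, 2, 3, 4` -/
def hexT : Fin 8 → Fin 6 → Fin 12 := ![![3, 1, 0, 5, 4, 2], ![0, 0, 0, 0, 0, 0],
  ![7, 10, 0, 1, 9, 6], ![6, 9, 3, 2, 11, 8], ![8, 11, 4, 5, 10, 7],
  ![0, 0, 0, 0, 0, 0], ![0, 0, 0, 0, 0, 0], ![0, 0, 0, 0, 0, 0]]
/-- vertices of the triangular faces `1, 5, 6, 7` -/
def triT : Fin 8 → Fin 3 → Fin 12 := ![![0, 0, 0], ![7, 6, 8], ![0, 0, 0], ![0, 0, 0],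
  ![0, 0, 0], ![11, 2, 4], ![5, 0, 10], ![9, 1, 3]]

def addZ (a b : Z3) : Z3 := (a.1 + b.1, a.2.1 + b.2.1, a.2.2 + b.2.2)

/-- six times the centroid of the vertices of a hexagonal face (over `W0`) -/
def cT (f : Fin 8) : Z3 :=
  addZ (addZ (addZ (YT (hexT f 0)) (YT (hexT f 1))) (addZ (YT (hexT f 2)) (YT (hexT f 3))))
    (addZ (YT (hexT f 4)) (YT (hexT f 5)))

end Pool.Agent.Lib.MP_dd45e6_gt
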