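import Pool.Agent.Lib.MP_dd45e6_gt.Dev

/-! Vertices: edge directions, active images, existence of an arriving segment. -/

namespace Pool.Agent.Lib.MP_dd45e6_gt
open Set Metric
open scoped RealInnerProductSpace

namespace SPoly
variable {ι : Type} {Q : SPoly ι}

/-- `e` is the unit direction at the vertex `v` of the edge between `f` and `g`; `k` is the third
face at `v`. -/
def ED (Q : SPoly ι) (v : E) (f g k : ι) (e : E) : Prop :=
  ‖e‖ = 1 ∧ ⟪Q.n f, e⟫ = 0 ∧ ⟪Q.n g, e⟫ = 0 ∧ ⟪Q.n k, e⟫ < 0 ∧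
  ∃ s : ℝ, 0 < s ∧ ((v = Q.a f g ∧ v + s • e = Q.b f g) ∨ (v = Q.b f g ∧ v + s • e = Q.a f g))

/-- three different faces through `v` -/
structure VTriple (Q : SPoly ι) (v : E) (f g k : ι) : Prop where
  fg : f ≠ g
  gk : g ≠ k
  fk : f ≠ k
  inf : v ∈ Q.face f
  ing : v ∈ Q.face g
  ink : v ∈ Q.face k

namespace VTriple
variable {v : E} {f g k : ι}

lemma rot (h : VTriple Q v f g k) : VTriple Q v g k f :=
  ⟨h.gk, h.fk.symm, h.fg.symm, h.ing, h.ink, h.inf⟩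

lemma swap (h : VTriple Q v f g k) : VTriple Q v g f k :=
  ⟨h.fg.symm, h.fk, h.gk, h.ing, h.inf, h.ink⟩

lemma adj (h : VTriple Q v f g k) : Q.adj f g :=
  (Q.inter f g h.fg v h.inf.1 h.inf.2 h.ing.2).1

lemma indep (h : VTriple Q v f g k) {z : E} (h1 : ⟪Q.n f, z⟫ = 0) (h2 : ⟪Q.n g, z⟫ = 0)
    (h3 : ⟪Q.n k, z⟫ = 0) : z = 0 :=
  (Q.vert f g k h.fg h.gk h.fk v h.inf.1 h.inf.2 h.ing.2 h.ink.2).2.2 z h1 h2 h3

lemma only (h : VTriple Q v f g k) {i : ι} (hi : v ∈ Q.face i) : i = f ∨ i = g ∨ i = k :=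
  (Q.vert f g k h.fg h.gk h.fk v h.inf.1 h.inf.2 h.ing.2 h.ink.2).1 i hi.2

lemma exists_ED (h : VTriple Q v f g k) : ∃ e, ED Q v f g k e := by
  have hadj := h.adj
  have hv := (Q.vert f g k h.fg h.gk h.fk v h.inf.1 h.inf.2 h.ing.2 h.ink.2).2.1
  have ha := Q.a_mem f g hadj
  have hb := Q.b_mem f g hadj
  have hne := Q.ab_ne f g hadj
  -- the other end point
  obtain ⟨o, ho, hov, hmem⟩ : ∃ o : E, ((v = Q.a f g ∧ o = Q.b f g) ∨ (v = Q.b f g ∧ o = Q.a f g)) ∧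
      o ≠ v ∧ ((∀ i, 0 ≤ Q.h i - ⟪Q.n i, o⟫) ∧ Q.h f - ⟪Q.n f, o⟫ = 0 ∧ Q.h g - ⟪Q.n g, o⟫ = 0) := by
    rcases hv with hv | hv
    · exact ⟨Q.b f g, Or.inl ⟨hv, rfl⟩, by rw [hv]; exact hne.symm, hb⟩
    · exact ⟨Q.a f g, Or.inr ⟨hv, rfl⟩, by rw [hv]; exact hne, ha⟩
  have hpos : 0 < ‖o - v‖ := norm_pos_iff.2 (sub_ne_zero.2 hov)
  have hvf : Q.h f - ⟪Q.n f, v⟫ = 0 := h.inf.2
  have hvg : Q.h g - ⟪Q.n g, v⟫ = 0 := h.ing.2
  have hvk : Q.h k - ⟪Q.n k, v⟫ = 0 := h.ink.2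
  have e1 : ⟪Q.n f, o - v⟫ = 0 := by rw [inner_sub_right]; linarith [hmem.2.1]
  have e2 : ⟪Q.n g, o - v⟫ = 0 := by rw [inner_sub_right]; linarith [hmem.2.2]
  have e3 : ⟪Q.n k, o - v⟫ < 0 := by
    have h1 : ⟪Q.n k, o - v⟫ ≤ 0 := by
      rw [inner_sub_right]; linarith [hmem.1 k]
    rcases h1.lt_or_eq with h2 | h2
    · exact h2
    · exact absurd (sub_eq_zero.1 (h.indep e1 e2 h2)) hov
  refine ⟨‖o - v‖⁻¹ • (o - v), ?_, ?_, ?_, ?_, ‖o - v‖, hpos, ?_⟩
  · rw [norm_smul, norm_inv, norm_norm, inv_mul_cancel₀ hpos.ne']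
  · rw [inner_smul_right, e1, mul_zero]
  · rw [inner_smul_right, e2, mul_zero]
  · rw [inner_smul_right]
    exact mul_neg_of_pos_of_neg (inv_pos.2 hpos) e3
  · have : v + ‖o - v‖ • ‖o - v‖⁻¹ • (o - v) = o := by
      rw [smul_smul, mul_inv_cancel₀ hpos.ne', one_smul]; abel
    rw [this]; exact ho

end VTriple

lemma ED.symm {v : E} {f g k : ι} {e : E} (h : ED Q v f g k e) (hadj : Q.adj f g) :
    ED Q v g f k e := by
  obtain ⟨h1, h2, h3, h4, s, hs, h5⟩ := h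
  refine ⟨h1, h3, h2, h4, s, hs, ?_⟩
  rw [(Q.ab_symm f g hadj).1, (Q.ab_symm f g hadj).2]
  exact h5

/-- decomposition of a vector of the plane of `f` along the two edges of `f` at `v` -/
lemma decomp {v : E} {f g k : ι} (h : VTriple Q v f g k) {e e' : E} (he : ED Q v f g k e)
    (he' : ED Q v f k g e') {u : E} (hu : ⟪Q.n f, u⟫ = 0) :
    u = (⟪Q.n k, u⟫ / ⟪Q.n k, e⟫) • e + (⟪Q.n g, u⟫ / ⟪Q.n g, e'⟫) • e' := by
  obtain ⟨-, a1, a2, a3, -⟩ := he
  obtain ⟨-, b1, b2, b3, -⟩ := he'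
  rw [← sub_eq_zero]
  apply h.indep
  · simp only [inner_sub_right, inner_add_right, inner_smul_right, hu, a1, b1]; ring
  · simp only [inner_sub_right, inner_add_right, inner_smul_right, a2]
    field_simp [b3.ne]; ring
  · simp only [inner_sub_right, inner_add_right, inner_smul_right, b2]
    field_simp [a3.ne]; ring

namespace Dev
variable {A : ι} {x : E} {Pts : ι → Finset E} (D : Dev Q A x Pts)
include D

omit D in
/-- `max ⟪u, p - w⟫` over the active images `p` at `w` in the plane of `f` -/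
noncomputable def sg (D : Dev Q A x Pts) (w : E) (f : ι) (u : E) : ℝ :=
  sSup {r | ∃ p ∈ Pts f, dist w p = D.G w ∧ r = ⟪u, p - w⟫}

lemma sg_spec {w : E} {f : ι} (hf : w ∈ Q.face f) (u : E) :
    IsGreatest {r | ∃ p ∈ Pts f, dist w p = D.G w ∧ r = ⟪u, p - w⟫} (D.sg w f u) := by
  classical
  have hfin : Set.Finite {r | ∃ p ∈ Pts f, dist w p = D.G w ∧ r = ⟪u, p - w⟫} := by
    apply ((Pts f).finite_toSet.image (fun p => ⟪u, p - w⟫)).subset
    rintro r ⟨p, hp, -, rfl⟩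
    exact ⟨p, hp, rfl⟩
  have hne : Set.Nonempty {r | ∃ p ∈ Pts f, dist w p = D.G w ∧ r = ⟪u, p - w⟫} := by
    obtain ⟨p, hp, h⟩ := D.exists_G hf
    exact ⟨_, p, hp, h.symm, rfl⟩
  exact hfin.isCompact.isGreatest_sSup hne

lemma le_sg {w : E} {f : ι} (hf : w ∈ Q.face f) (u : E) {p : E} (hp : p ∈ Pts f)
    (h : dist w p = D.G w) : ⟪u, p - w⟫ ≤ D.sg w f u :=
  (D.sg_spec hf u).2 ⟨p, hp, h, rfl⟩

lemma exists_sg {w : E} {f : ι} (hf : w ∈ Q.face f) (u : E) :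
    ∃ p ∈ Pts f, dist w p = D.G w ∧ D.sg w f u = ⟪u, p - w⟫ :=
  (D.sg_spec hf u).1

lemma sg_smul {w : E} {f : ι} (hf : w ∈ Q.face f) (u : E) {t : ℝ} (ht : 0 ≤ t) :
    D.sg w f (t • u) = t * D.sg w f u := by
  apply le_antisymm
  · obtain ⟨p, hp, h, e⟩ := D.exists_sg hf (t • u)
    rw [e, inner_smul_left]
    exact mul_le_mul_of_nonneg_left (D.le_sg hf u hp h) ht
  · obtain ⟨p, hp, h, e⟩ := D.exists_sg hf u
    have := D.le_sg hf (t • u) hp h
    rw [inner_smul_left] at this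
    rw [e]; exact this

lemma sg_add {w : E} {f : ι} (hf : w ∈ Q.face f) (u v : E) :
    D.sg w f (u + v) ≤ D.sg w f u + D.sg w f v := by
  obtain ⟨p, hp, h, e⟩ := D.exists_sg hf (u + v)
  rw [e, inner_add_left]
  exact add_le_add (D.le_sg hf u hp h) (D.le_sg hf v hp h)

lemma dist_eq_of_act {w : E} {f : ι} (hf : w ∈ Q.face f) {p : E} (hp : p ∈ Pts f)
    (h : ∀ q ∈ Pts f, dist w p ≤ dist w q) : dist w p = D.G w := by
  rw [D.G_eq hf]
  exact le_antisymm (D.le_mf h) (D.mf_le hp)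

/-- transfer at a vertex of the active image that is extremal along the edge -/
lemma vtr {v : E} {f g k : ι} (h : VTriple Q v f g k) {e : E} (he : ED Q v f g k e) {p : E}
    (hp : p ∈ Pts f) (hact : dist v p = D.G v) (hmax : D.sg v f e = ⟪e, p - v⟫) :
    Q.U f g p ∈ Pts g ∧ dist v (Q.U f g p) = D.G v ∧ ⟪e, Q.U f g p - v⟫ = ⟪e, p - v⟫ := by
  have hadj := h.adj
  have hpf := D.plane f p hp
  obtain ⟨h1, h2, h3, h4, s, hs, h5⟩ := he
  have hUv : Q.U f g v = v := U_fix h.ing.2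
  have hd : dist v (Q.U f g p) = dist v p := by
    conv_lhs => rw [← hUv]
    exact dist_U hadj h.inf.2 hpf
  refine ⟨?_, hd.trans hact, ?_⟩
  · have key : ∀ q ∈ Pts f, dist v q = dist v p → dist (v + s • e) p ≤ dist (v + s • e) q := by
      intro q hq hvq
      have h6 := D.le_sg h.inf e hq (hvq.trans hact)
      rw [hmax] at h6
      have e1 : ∀ r : E, dist (v + s • e) r ^ 2 = s ^ 2 + dist v r ^ 2 - 2 * s * ⟪e, r - v⟫ := by
        intro r
        rw [dist_eq_norm, dist_eq_norm]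
        have : v + s • e - r = s • e - (r - v) := by abel
        rw [this, norm_sub_sq_real, norm_smul, h1, inner_smul_left, norm_sub_rev v r]
        simp only [RCLike.conj_to_real, mul_pow, Real.norm_eq_abs, sq_abs]
        ring
      have h7 : dist (v + s • e) p ^ 2 ≤ dist (v + s • e) q ^ 2 := by
        rw [e1, e1, hvq]; nlinarith
      exact (pow_le_pow_iff_left₀ dist_nonneg dist_nonneg two_ne_zero).1 h7
    apply D.tr_end hadj (y := v) (o := v + s • e) ?_ hp ?_ key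
    · rcases h5 with h5 | h5
      · exact Or.inl h5
      · exact Or.inr h5
    · intro q hq
      rw [hact]; exact D.G_le h.inf hq
  · -- inner product along the edge
    have ho : Q.sl f (v + s • e) = 0 ∧ Q.sl g (v + s • e) = 0 := by
      rw [sl_add_smul, sl_add_smul, h2, h3]
      exact ⟨by simpa using h.inf.2, by simpa using h.ing.2⟩
    have := inner_U hadj ho.1 h.inf.2 hpf h.inf.2
    rw [hUv, U_fix ho.2] at this
    have e2 : v + s • e - v = s • e := by abel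
    rw [e2, inner_smul_left, inner_smul_left] at this
    simp only [RCLike.conj_to_real] at this
    exact mul_left_cancel₀ hs.ne' this

lemma vsg_le {v : E} {f g k : ι} (h : VTriple Q v f g k) {e : E} (he : ED Q v f g k e) :
    D.sg v f e ≤ D.sg v g e := by
  obtain ⟨p, hp, h1, h2⟩ := D.exists_sg h.inf e
  obtain ⟨h3, h4, h5⟩ := D.vtr h he hp h1 h2
  rw [h2, ← h5]
  exact D.le_sg h.ing e h3 h4

lemma vsg_eq {v : E} {f g k : ι} (h : VTriple Q v f g k) {e : E} (he : ED Q v f g k e) :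
    D.sg v f e = D.sg v g e :=
  le_antisymm (D.vsg_le h he) (D.vsg_le h.swap (he.symm h.adj))

omit D in
lemma inner_lt_one {v : E} {f g k : ι} {e e' : E} (he : ED Q v f g k e)
    (he' : ED Q v f k g e') : ⟪e, e'⟫ < 1 := by
  have h1 : ⟪e, e'⟫ ≤ 1 := by
    have := real_inner_le_norm e e'
    rw [he.1, he'.1] at this; linarith
  rcases h1.lt_or_eq with h2 | h2
  · exact h2
  · exfalso
    have h3 : e = e' := (inner_eq_one_iff_of_norm_eq_one he.1 he'.1).1 h2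
    have h4 := he.2.2.1
    have h5 := he'.2.2.2.1
    rw [h3] at h4
    linarith

/-- a vector `p - v` in the plane of `f` in terms of the slacks of the two other faces -/
lemma coord {v : E} {f g k : ι} (h : VTriple Q v f g k) {e e' : E} (he : ED Q v f g k e)
    (he' : ED Q v f k g e') {p : E} (hp : p ∈ Pts f) : ∃ l m : ℝ, p - v = l • e + m • e' ∧
      (0 ≤ l ↔ 0 ≤ Q.sl k p) ∧ (0 ≤ m ↔ 0 ≤ Q.sl g p) ∧ (0 < l ↔ 0 < Q.sl k p) ∧
      (0 < m ↔ 0 < Q.sl g p) := by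
  have h0 : ⟪Q.n f, p - v⟫ = 0 := by
    have := sl_sub (Q := Q) (g := f) (x := v) (y := p)
    rw [h.inf.2, D.plane f p hp] at this; linarith
  have hk : ⟪Q.n k, p - v⟫ = - Q.sl k p := by
    have := sl_sub (Q := Q) (g := k) (x := v) (y := p)
    rw [h.ink.2] at this; linarith
  have hg : ⟪Q.n g, p - v⟫ = - Q.sl g p := by
    have := sl_sub (Q := Q) (g := g) (x := v) (y := p)
    rw [h.ing.2] at this; linarith
  have hek := he.2.2.2.1
  have heg := he'.2.2.2.1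
  have key : ∀ {s c : ℝ}, c < 0 → ((0 ≤ -s / c ↔ 0 ≤ s) ∧ (0 < -s / c ↔ 0 < s)) := by
    intro s c hc
    constructor
    · rw [le_div_iff_of_neg hc]; constructor <;> intro h <;> linarith
    · rw [lt_div_iff_of_neg hc]; constructor <;> intro h <;> linarith
  refine ⟨⟪Q.n k, p - v⟫ / ⟪Q.n k, e⟫, ⟪Q.n g, p - v⟫ / ⟪Q.n g, e'⟫, decomp h he he' h0, ?_⟩
  rw [hk, hg]
  exact ⟨(key hek).1, (key heg).1, (key hek).2, (key heg).2⟩

lemma valid_aux {v : E} {f g k : ι} (h : VTriple Q v f g k) {e1 e2 e3 : E}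
    (h1 : ED Q v f g k e1) (h2 : ED Q v g k f e2) (h3 : ED Q v f k g e3)
    (h13 : D.sg v f e3 ≤ D.sg v f e1) (h12 : D.sg v g e2 ≤ D.sg v g e1) :
    ∃ f', v ∈ Q.face f' ∧ ∃ p ∈ Pts f', dist v p = D.G v ∧
      ∀ g', v ∈ Q.face g' → 0 ≤ Q.sl g' p := by
  obtain ⟨p, hp, hact, hmax⟩ := D.exists_sg h.inf e1
  obtain ⟨l, m, hw, hl, hm, hl', hm'⟩ := D.coord h h1 h3 hp
  have hk1 := inner_lt_one h1 h3
  have hle : ⟪e3, p - v⟫ ≤ ⟪e1, p - v⟫ := by
    rw [← hmax]; exact (D.le_sg h.inf e3 hp hact).trans h13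
  have hlm : m ≤ l := by
    rw [hw, inner_add_right, inner_add_right, inner_smul_right, inner_smul_right,
      inner_smul_right, inner_smul_right, real_inner_self_eq_norm_sq, real_inner_self_eq_norm_sq,
      h1.1, h3.1, real_inner_comm e1 e3] at hle
    nlinarith
  by_cases hv : 0 ≤ Q.sl g p
  · have hk : 0 ≤ Q.sl k p := hl.1 ((hm.2 hv).trans hlm)
    refine ⟨f, h.inf, p, hp, hact, fun g' hg' => ?_⟩
    rcases h.only hg' with rfl | rfl | rfl
    · rw [D.plane _ p hp]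
    · exact hv
    · exact hk
  · push Not at hv
    obtain ⟨hU, hUact, hUe⟩ := D.vtr h h1 hp hact hmax
    have hUf : Q.sl f (Q.U f g p) = - Q.sl g p := sl_U_f h.adj (D.plane f p hp)
    obtain ⟨l', m', hw', hl1, hm1, hl2, hm2⟩ := D.coord h.swap (h1.symm h.adj) h2 hU
    have hk2 := inner_lt_one (h1.symm h.adj) h2
    have hle' : ⟪e2, Q.U f g p - v⟫ ≤ ⟪e1, Q.U f g p - v⟫ := by
      rw [hUe, ← hmax, D.vsg_eq h h1]
      exact (D.le_sg h.ing e2 hU hUact).trans h12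
    have hlm' : m' ≤ l' := by
      rw [hw', inner_add_right, inner_add_right, inner_smul_right, inner_smul_right,
        inner_smul_right, inner_smul_right, real_inner_self_eq_norm_sq,
        real_inner_self_eq_norm_sq, h1.1, h2.1, real_inner_comm e1 e2] at hle'
      nlinarith
    have hf' : 0 < Q.sl f (Q.U f g p) := by rw [hUf]; linarith
    have hkk : 0 ≤ Q.sl k (Q.U f g p) := hl1.1 ((hm2.2 hf').le.trans hlm')
    refine ⟨g, h.ing, Q.U f g p, hU, hUact, fun g' hg' => ?_⟩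
    rcases h.only hg' with rfl | rfl | rfl
    · exact hf'.le
    · rw [D.plane _ _ hU]
    · exact hkk

/-- at every vertex some active image lies in the direction of a face -/
lemma exists_valid {v : E} {f g k : ι} (h : VTriple Q v f g k) :
    ∃ f', v ∈ Q.face f' ∧ ∃ p ∈ Pts f', dist v p = D.G v ∧
      ∀ g', v ∈ Q.face g' → 0 ≤ Q.sl g' p := by
  obtain ⟨e1, h1⟩ := h.exists_ED
  obtain ⟨e2, h2⟩ := h.rot.exists_ED
  obtain ⟨e3, h3⟩ := h.rot.rot.exists_ED
  have s1 := D.vsg_eq h h1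
  have s2 := D.vsg_eq h.rot h2
  have s3 := D.vsg_eq h.rot.rot h3
  -- e1 : f g, e2 : g k, e3 : k f
  have h1' := h1.symm h.adj
  have h2' := h2.symm h.rot.adj
  have h3' := h3.symm h.rot.rot.adj
  rcases le_total (D.sg v f e3) (D.sg v f e1) with c1 | c1
  · rcases le_total (D.sg v g e2) (D.sg v g e1) with c2 | c2
    · exact D.valid_aux h h1 h2 h3' c1 c2
    · -- e2 is the maximum
      apply D.valid_aux h.rot h2 h3 h1' c2
      rw [← s2] at *; linarith
  · rcases le_total (D.sg v k e2) (D.sg v k e3) with c2 | c2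
    · -- e3 is the maximum
      exact D.valid_aux h.rot.rot h3 h1 h2' c2 c1
    · apply D.valid_aux h.rot h2 h3 h1' ?_ c2
      linarith

end Dev
end SPoly
end Pool.Agent.Lib.MP_dd45e6_gt
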